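import Pool.Agent.Helper72.TabSpec

/-!
The refuter as a mathematical function, and the proof that it finds a satisfiable formula
rejected by the given polynomial time subset of SAT.
-/

namespace Pool.Agent.Helper72

open Function

/-- add the clauses fixing the first letters of the word on stack 0 -/
def prefF (Cn : ℕ) (ψ : BForm) (X : List Bool) : BForm := addF (prefC Cn 0 X) ψ

/-- the word on stack 0 is `X` -/
def endF (Cn : ℕ) (ψ : BForm) (X : List Bool) : BForm :=
  addF (endC (X.length * Cn)) (prefF Cn ψ X)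

/-- the word on stack 0 starts with `X` followed by `b` -/
def bitF (Cn : ℕ) (ψ : BForm) (X : List Bool) (b : Bool) : BForm :=
  addF [[(true, X.length * Cn + b.toNat)]] (prefF Cn ψ X)

theorem satA_prefC {Cn : ℕ} {A : ℕ → Bool} : ∀ (b : ℕ) (X : List Bool),
    (∀ C ∈ prefC Cn b X, satA A C) ↔
      ∀ i x, X[i]? = some x → A (b + i * Cn + x.toNat) = true
  | b, [] => by simp [prefC]
  | b, y :: X => by
    rw [prefC]
    simp only [List.mem_cons, forall_eq_or_imp]
    rw [satA_prefC (b + Cn) X]
    constructor
    · rintro ⟨h1, h2⟩ i x hi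
      cases i with
      | zero =>
        simp only [List.getElem?_cons_zero, Option.some.injEq] at hi
        subst hi
        simpa [satA] using h1
      | succ i =>
        have := h2 i x (by simpa using hi)
        rwa [show b + (i + 1) * Cn + x.toNat = b + Cn + i * Cn + x.toNat by ring]
    · intro h
      refine ⟨?_, fun i x hi => ?_⟩
      · have := h 0 y (by simp)
        simpa [satA] using this
      · have := h (i + 1) x (by simpa using hi)
        rwa [show b + (i + 1) * Cn + x.toNat = b + Cn + i * Cn + x.toNat by ring] at this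

theorem eval_prefF {Cn : ℕ} {ψ : BForm} {X : List Bool} {v : ℕ → Bool} :
    (prefF Cn ψ X).eval v = true ↔
      (∀ i x, X[i]? = some x → nval v (i * Cn + x.toNat) = true) ∧ ψ.eval v = true := by
  rw [prefF, eval_addF, satA_prefC]
  simp

theorem eval_endF {Cn : ℕ} {ψ : BForm} {X : List Bool} {v : ℕ → Bool} :
    (endF Cn ψ X).eval v = true ↔
      (∀ b : Bool, nval v (X.length * Cn + b.toNat) = false) ∧
        (prefF Cn ψ X).eval v = true := by
  rw [endF, eval_addF]
  simp [endC, satA]

theorem eval_bitF {Cn : ℕ} {ψ : BForm} {X : List Bool} {b : Bool} {v : ℕ → Bool} :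
    (bitF Cn ψ X b).eval v = true ↔
      nval v (X.length * Cn + b.toNat) = true ∧ (prefF Cn ψ X).eval v = true := by
  rw [bitF, eval_addF]
  simp [satA]

/-- satisfiable -/
def BForm.Satf (φ : BForm) : Prop := ∃ v, φ.eval v = true

/-- Abstract base formula: satisfying assignments of `ψ` describe words `z` of length at
most `B` with `Acc z`. -/
structure Base (Cn B : ℕ) (ψ : BForm) (Acc : List Bool → Prop) : Prop where
  sound : ∀ v, ψ.eval v = true → ∃ z : List Bool, z.length ≤ B ∧ Acc z ∧
    ∀ h ≤ B, ∀ b : Bool, nval v (h * Cn + b.toNat) = true ↔ z[h]? = some b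

theorem Base.pref {Cn B : ℕ} {ψ : BForm} {Acc : List Bool → Prop} (hb : Base Cn B ψ Acc)
    {X : List Bool} {v : ℕ → Bool} (hv : (prefF Cn ψ X).eval v = true) :
    ∃ z : List Bool, z.length ≤ B ∧ Acc z ∧ (∀ i ≤ B, ∀ x, X[i]? = some x → z[i]? = some x) ∧
    ∀ h ≤ B, ∀ b : Bool, nval v (h * Cn + b.toNat) = true ↔ z[h]? = some b := by
  rw [eval_prefF] at hv
  obtain ⟨z, hz, hacc, hcell⟩ := hb.sound v hv.2
  exact ⟨z, hz, hacc, fun i hi x hx => (hcell i hi x).1 (hv.1 i x hx), hcell⟩

/-- too long prefixes are impossible -/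
theorem Base.not_long {Cn B : ℕ} {ψ : BForm} {Acc : List Bool → Prop} (hb : Base Cn B ψ Acc)
    {X : List Bool} (hX : X.length = B + 1) : ¬ (prefF Cn ψ X).Satf := by
  rintro ⟨v, hv⟩
  obtain ⟨z, hz, -, hpre, -⟩ := hb.pref hv
  have hx : X[B]? = some X[B] := List.getElem?_eq_getElem (by omega)
  have := hpre B le_rfl _ hx
  rw [List.getElem?_eq_none hz] at this
  simp at this

/-- if the word on stack 0 is `X`, then `X` is accepted -/
theorem Base.end_acc {Cn B : ℕ} {ψ : BForm} {Acc : List Bool → Prop} (hb : Base Cn B ψ Acc)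
    {X : List Bool} (hX : X.length ≤ B) (hs : (endF Cn ψ X).Satf) : Acc X := by
  obtain ⟨v, hv⟩ := hs
  rw [eval_endF] at hv
  obtain ⟨z, hz, hacc, hpre, hcell⟩ := hb.pref hv.2
  have hend : z[X.length]? = none := by
    rcases h : z[X.length]? with _ | b
    · rfl
    · have := (hcell X.length hX b).2 h
      rw [hv.1 b] at this
      simp at this
  have : z = X := by
    apply List.ext_getElem?
    intro i
    rcases Nat.lt_or_ge i X.length with hi | hi
    · have hx : X[i]? = some X[i] := List.getElem?_eq_getElem hi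
      rw [hx, hpre i (by omega) _ hx]
    · rw [List.getElem?_eq_none hi]
      rw [List.getElem?_eq_none_iff] at hend ⊢
      omega
  rwa [← this]

theorem Base.bit_pref {Cn : ℕ} {ψ : BForm} {X : List Bool} {b : Bool}
    (hs : (bitF Cn ψ X b).Satf) : (prefF Cn ψ (X ++ [b])).Satf := by
  obtain ⟨v, hv⟩ := hs
  refine ⟨v, ?_⟩
  rw [eval_bitF, eval_prefF] at hv
  rw [eval_prefF]
  refine ⟨fun i x hi => ?_, hv.2.2⟩
  rcases Nat.lt_trichotomy i X.length with h | h | h
  · rw [List.getElem?_append_left h] at hi
    exact hv.2.1 i x hi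
  · subst h
    simp only [List.getElem?_append_right le_rfl, Nat.sub_self, List.getElem?_cons_zero,
      Option.some.injEq] at hi
    subst hi
    exact hv.1
  · rw [List.getElem?_eq_none (by simp; omega)] at hi
    simp at hi

theorem Base.cases {Cn B : ℕ} {ψ : BForm} {Acc : List Bool → Prop} (hb : Base Cn B ψ Acc)
    {X : List Bool} (hX : X.length ≤ B) (hs : (prefF Cn ψ X).Satf) :
    (endF Cn ψ X).Satf ∨ (bitF Cn ψ X true).Satf ∨ (bitF Cn ψ X false).Satf := by
  obtain ⟨v, hv⟩ := hs
  obtain ⟨z, hz, hacc, hpre, hcell⟩ := hb.pref hv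
  rcases h : z[X.length]? with _ | b
  · left
    refine ⟨v, ?_⟩
    rw [eval_endF]
    refine ⟨fun b => ?_, hv⟩
    rcases hc : nval v (X.length * Cn + b.toNat) with _ | _
    · rfl
    · rw [(hcell _ hX b).1 hc] at h
      simp at h
  · right
    have hb' := (hcell _ hX b).2 h
    cases b
    · right; exact ⟨v, by rw [eval_bitF]; exact ⟨hb', hv⟩⟩
    · left; exact ⟨v, by rw [eval_bitF]; exact ⟨hb', hv⟩⟩

/-! ### the search -/

section search

variable (χ : List Bool → Bool) (fV : List Bool → List Bool) (Cn : ℕ) (ψ : BForm)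

/-- the three candidates for a missed satisfiable formula at a dead end -/
def cand (j : ℕ) (X : List Bool) : List Bool :=
  if j = 0 then (endF Cn ψ X).code
  else if j = 1 then (bitF Cn ψ X true).code
  else (bitF Cn ψ X false).code

/-- prefix search guided by `χ`; the output is a word claimed to be in SAT but not in `S` -/
def search (j : ℕ) : ℕ → List Bool → List Bool
  | 0, _ => []
  | n + 1, X =>
    if χ (endF Cn ψ X).code then fV X
    else if χ (bitF Cn ψ X true).code then search j n (X ++ [true])
    else if χ (bitF Cn ψ X false).code then search j n (X ++ [false])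
    else cand Cn ψ j X

/-- the refuter -/
def refuter (j B : ℕ) : List Bool :=
  if χ ψ.code then search χ fV Cn ψ j (B + 1) [] else ψ.code

end search

theorem code_mem_SAT {φ : BForm} (h : φ.Satf) : φ.code ∈ SAT := ⟨φ, rfl, h⟩

theorem length_code_addF (Cs : List ACls) (ψ : BForm) :
    ψ.code.length ≤ (addF Cs ψ).code.length := by
  induction Cs generalizing ψ with
  | nil => simp [addF]
  | cons C Cs ih =>
    have : addF (C :: Cs) ψ = addF Cs (.conj (clsForm C) ψ) := rfl
    rw [this]
    refine le_trans ?_ (ih _)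
    simp only [BForm.code, List.length_append]
    omega

theorem length_cand (Cn : ℕ) (ψ : BForm) (j : ℕ) (X : List Bool) :
    ψ.code.length ≤ (cand Cn ψ j X).length := by
  have h : ψ.code.length ≤ (prefF Cn ψ X).code.length := length_code_addF _ _
  unfold cand
  split_ifs
  · exact h.trans (length_code_addF _ _)
  · exact h.trans (length_code_addF _ _)
  · exact h.trans (length_code_addF _ _)

section

variable {χ : List Bool → Bool} {fV : List Bool → List Bool} {Cn B N : ℕ} {ψ : BForm}
  {Acc : List Bool → Prop}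

/-- a long word in SAT that is rejected by `χ` -/
def Missed (χ : List Bool → Bool) (N : ℕ) (x : List Bool) : Prop :=
  x ∈ SAT ∧ χ x = false ∧ N ≤ x.length

theorem search_spec (hb : Base Cn B ψ Acc) (hN : N ≤ ψ.code.length)
    (hS : ∀ φ : BForm, χ φ.code = true → φ.Satf)
    (hacc : ∀ z, Acc z → Missed χ N (fV z)) :
    ∀ (n : ℕ) (X : List Bool), X.length + n = B + 1 → (prefF Cn ψ X).Satf →
      ∃ j < 3, Missed χ N (search χ fV Cn ψ j n X)
  | 0, X, hX, hs => absurd hs (hb.not_long (by omega))
  | n + 1, X, hX, hs => by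
    by_cases h0 : χ (endF Cn ψ X).code = true
    · refine ⟨0, by omega, ?_⟩
      simp only [search, h0, if_true]
      exact hacc X (hb.end_acc (by omega) (hS _ h0))
    by_cases h1 : χ (bitF Cn ψ X true).code = true
    · obtain ⟨j, hj, h⟩ := search_spec hb hN hS hacc n (X ++ [true])
        (by simp; omega) (Base.bit_pref (hS _ h1))
      refine ⟨j, hj, ?_⟩
      simp only [search, h0, h1, if_true, Bool.false_eq_true, if_false]
      exact h
    by_cases h2 : χ (bitF Cn ψ X false).code = true
    · obtain ⟨j, hj, h⟩ := search_spec hb hN hS hacc n (X ++ [false])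
        (by simp; omega) (Base.bit_pref (hS _ h2))
      refine ⟨j, hj, ?_⟩
      simp only [search, h0, h1, h2, if_true, Bool.false_eq_true, if_false]
      exact h
    have hc : ∀ j, search χ fV Cn ψ j (n + 1) X = cand Cn ψ j X := by
      intro j
      simp only [search, h0, h1, h2, Bool.false_eq_true, if_false]
    have hlen : ∀ j, N ≤ (cand Cn ψ j X).length := fun j => hN.trans (length_cand _ _ _ _)
    rcases hb.cases (by omega) hs with h | h | h
    · refine ⟨0, by omega, ?_⟩
      rw [hc]
      exact ⟨code_mem_SAT h, by simpa [cand] using h0, hlen _⟩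
    · refine ⟨1, by omega, ?_⟩
      rw [hc]
      exact ⟨code_mem_SAT h, by simpa [cand] using h1, hlen _⟩
    · refine ⟨2, by omega, ?_⟩
      rw [hc]
      exact ⟨code_mem_SAT h, by simpa [cand] using h2, hlen _⟩

/-- If `ψ` is satisfiable, one of the three refuters outputs a long word in SAT rejected
by `χ`. -/
theorem refuter_spec (hb : Base Cn B ψ Acc) (hN : N ≤ ψ.code.length)
    (hS : ∀ φ : BForm, χ φ.code = true → φ.Satf)
    (hacc : ∀ z, Acc z → Missed χ N (fV z)) (hψ : ψ.Satf) :
    ∃ j < 3, Missed χ N (refuter χ fV Cn ψ j B) := by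
  by_cases h : χ ψ.code = true
  · obtain ⟨j, hj, h2⟩ := search_spec hb hN hS hacc (B + 1) [] (by simp)
      (by simpa [prefF, prefC, addF] using hψ)
    refine ⟨j, hj, ?_⟩
    simp only [refuter, h, if_true]
    exact h2
  · refine ⟨0, by omega, ?_⟩
    simp only [refuter, h, Bool.false_eq_true, if_false]
    exact ⟨code_mem_SAT hψ, by simp [h], hN⟩

end

end Pool.Agent.Helper72
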