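import Pool.Agent.Helper72.Arith
import Pool.Agent.Helper72.Refute

/-!
The verifier program: input `z` in register 0, `w` in register 1, verdict in register 2.
-/

namespace Pool.Agent.Helper72

open Function

/-- clause codes added in front of a word -/
def addCode (Cs : List ACls) (x : List Bool) : List Bool :=
  Cs.foldl (fun x C => [true, false, true] ++ ((clsForm C).code ++ x)) x

theorem addCode_code (Cs : List ACls) (ψ : BForm) :
    addCode Cs ψ.code = (addF Cs ψ).code := by
  induction Cs generalizing ψ with
  | nil => rfl
  | cons C Cs ih =>
    have h1 : addF (C :: Cs) ψ = addF Cs (.conj (clsForm C) ψ) := rfl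
    rw [h1, ← ih]
    rfl

/-! ### interfaces of the imported programs -/

/-- a decision program working in register 100 -/
structure DecSpec {α : Type} (ea : α → List Bool) (χ : α → Bool) (c : Cmd) (T : ℕ → ℕ) :
    Prop where
  pb : PB T
  mono : Monotone T
  ok : c.ok = true
  wr : ∀ x < 100, c.wr x = false
  spec : ∀ (a : α) (s : St), (∀ r, 100 < r → s r = []) → s 100 = ea a →
    c.LB (T (ea a).length) s ∧ c.eval s = update s 100 (flag (χ a))

/-- the generator of the tableau formula -/
structure GenSpec (P : List Instr) (k acc : ℕ) (g : Cmd) (T : ℕ → ℕ) : Prop where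
  pb : PB T
  mono : Monotone T
  ok : g.ok = true
  wr : ∀ x, x < 9 ∨ 30 ≤ x → g.wr x = false
  spec : ∀ B s, s 9 = [] → s 10 = un B → (∀ r, 13 ≤ r → r < 30 → s r = []) →
    g.eval s = update s 9 (tabF P k acc B).code ∧ g.LB (T B) s
  len : ∀ B, (tabF P k acc B).code.length ≤ T B

structure PrefSpec (Cn : ℕ) (g : Cmd) (T : ℕ → ℕ) : Prop where
  pb : PB T
  mono : Monotone T
  ok : g.ok = true
  wr : ∀ x, x < 9 ∨ 30 ≤ x → g.wr x = false
  spec : ∀ s, (∀ r, 13 ≤ r → r < 30 → s r = []) →
    g.eval s = update (update s 9 (addCode (prefC Cn 0 (s 11)) (s 9))) 13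
      (un ((s 11).length * Cn)) ∧ g.LB (T (s 11).length) s

/-- adding the clauses `cl b` where `b` is in register 13 -/
structure AddSpec (cl : ℕ → List ACls) (g : Cmd) (T : ℕ → ℕ) : Prop where
  pb : PB T
  mono : Monotone T
  ok : g.ok = true
  wr : ∀ x, x < 9 ∨ 30 ≤ x → g.wr x = false
  spec : ∀ b s, s 13 = un b → (∀ r, 14 ≤ r → r < 30 → s r = []) →
    g.eval s = update (update s 9 (addCode (cl b) (s 9))) 13 [] ∧ g.LB (T b) s

structure NonEmptySpec (Cn : ℕ) (g : Cmd) (T : ℕ → ℕ) : Prop where
  pb : PB T
  mono : Monotone T
  ok : g.ok = true
  wr : ∀ x, x < 9 ∨ 30 ≤ x → g.wr x = false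
  spec : ∀ N s, s 12 = un N → (∀ r, 13 ≤ r → r < 30 → s r = []) →
    g.eval s = update s 9 (addCode (nonEmptyC Cn N) (s 9)) ∧ g.LB (T N) s

/-- the clause fixing a bit -/
def bitC (x : Bool) (b : ℕ) : List ACls := [[(true, b + x.toNat)]]

/-! ### pairing -/

namespace Cmd

def mkPair : Cmd :=
  seq (copy 1 100 30) (seq (pushL 100 [false, true]) (seq (copyR 0 31 30)
    (loop 31 (seq (push 100 false) (push 100 false)) (seq (push 100 true) (push 100 true)))))

theorem double_loop {L : ℕ} {s : St} (hL : (s 31).length ≤ L) :
    (loop 31 (seq (push 100 false) (push 100 false))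
      (seq (push 100 true) (push 100 true))).eval s =
      update (update s 31 []) 100 ((s 31).reverse.flatMap (fun b => [b, b]) ++ s 100) ∧
    (loop 31 (seq (push 100 false) (push 100 false))
      (seq (push 100 true) (push 100 true))).LB L s := by
  have key := loop_rule (L := L) (r := 31) (c0 := seq (push 100 false) (push 100 false))
    (c1 := seq (push 100 true) (push 100 true)) (s := s)
    (fun j => update (update s 31 ((s 31).drop j)) 100
      (((s 31).take j).reverse.flatMap (fun b => [b, b]) ++ s 100))
    (by
      funext x
      by_cases q1 : x = 100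
      · subst q1; simp
      · by_cases q2 : x = 31
        · subst q2; simp
        · simp [q1])
    (by
      intro j b hb
      have htk : (s 31).take (j + 1) = (s 31).take j ++ [b] := by
        rw [List.take_add_one, hb]; rfl
      constructor
      · have : ∀ y : St, (if b = true then (push 100 true).seq (push 100 true)
            else (push 100 false).seq (push 100 false)).eval y =
            update y 100 (b :: b :: y 100) := by
          intro y
          cases b <;> simp
        rw [this]
        funext x
        by_cases q1 : x = 100
        · subst q1; simp [htk]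
        · by_cases q2 : x = 31
          · subst q2; simp
          · simp [q1, q2]
      · cases b <;> exact ⟨trivial, trivial⟩) hL
  refine ⟨?_, key.2⟩
  rw [key.1]
  simp

theorem mkPair_spec {s : St} (h30 : s 30 = []) (h31 : s 31 = []) (h100 : s 100 = []) :
    mkPair.eval s = update s 100 (pairCode (s 0, s 1)) ∧
      mkPair.LB ((s 0).length + (s 1).length) s := by
  have e1 : (copy 1 100 30).eval s = update s 100 (s 1) := by
    rw [eval_copy (by norm_num) (by norm_num) (by norm_num) h30, h100, List.append_nil]
  have e2 : (pushL 100 [false, true]).eval (update s 100 (s 1)) =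
      update s 100 ([false, true] ++ s 1) := by
    rw [eval_pushL]; simp
  have e3 : (copyR 0 31 30).eval (update s 100 ([false, true] ++ s 1)) =
      update (update s 100 ([false, true] ++ s 1)) 31 (s 0).reverse := by
    rw [eval_copyR (by norm_num) (by norm_num) (by norm_num) (by simpa using h30)]
    simp [h31]
  have e4 := double_loop (L := (s 0).length + (s 1).length)
    (s := update (update s 100 ([false, true] ++ s 1)) 31 (s 0).reverse) (by simp)
  constructor
  · rw [mkPair, eval_seq, eval_seq, eval_seq, e1, e2, e3, e4.1]
    funext x
    by_cases q1 : x = 100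
    · subst q1; simp [pairCode]
    · by_cases q2 : x = 31
      · subst q2; simp [h31]
      · simp [q1, q2]
  · rw [mkPair, LB_seq, LB_seq, LB_seq, e1, e2, e3]
    refine ⟨LB_copy (by norm_num) (by norm_num) (by norm_num) h30 (by omega),
      LB_pushL _ _ _ _, LB_copyR (by norm_num) (by norm_num) (by norm_num)
      (by simpa using h30) (by simp), e4.2⟩

theorem ok_mkPair : mkPair.ok = true := rfl

theorem wr_mkPair {x : ℕ} (h0 : x ≠ 0) (h1 : x ≠ 1) (h30 : x ≠ 30) (h31 : x ≠ 31)
    (h100 : x ≠ 100) : mkPair.wr x = false := by
  simp [mkPair, wr, copy, copyR, mv, mv2, pushL, h0, h1, h30, h31, h100]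

/-! ### length check -/

/-- pop register 32 once for each letter of register 34; count missing letters in 33 -/
def ckBody : Cmd := ite 32 (push 33 true) (pop 32) (pop 32)

theorem ck_loop {L q : ℕ} {s : St} (hL : (s 34).length ≤ L) (h32 : s 32 = un q)
    (h33 : s 33 = []) :
    (loop 34 ckBody ckBody).eval s =
      update (update (update s 34 []) 32 (un (q - (s 34).length))) 33
        (un ((s 34).length - q)) ∧
    (loop 34 ckBody ckBody).LB L s := by
  have key := loop_rule (L := L) (r := 34) (c0 := ckBody) (c1 := ckBody) (s := s)
    (fun j => update (update (update s 34 ((s 34).drop j)) 32 (un (q - j))) 33 (un (j - q)))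
    (by
      funext x
      by_cases q1 : x = 33
      · subst q1; simp [h33]
      · by_cases q2 : x = 32
        · subst q2; simp [h32]
        · by_cases q3 : x = 34
          · subst q3; simp
          · simp [q1, q2])
    (by
      intro j b _
      have hl : (if b = true then ckBody else ckBody) = ckBody := by cases b <;> rfl
      rw [hl]
      set y : St := update (update (update (update s 34 ((s 34).drop j)) 32 (un (q - j))) 33
        (un (j - q))) 34 ((s 34).drop (j + 1)) with hy
      have y32 : y 32 = un (q - j) := by simp [hy]
      rcases Nat.lt_or_ge j q with hlt | hge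
      · obtain ⟨m, hm⟩ : ∃ m, q - j = m + 1 := ⟨q - j - 1, by omega⟩
        rw [hm, un_succ] at y32
        have e : ckBody.eval y = update y 32 (un m) := by
          simp only [ckBody, eval, y32, List.tail_cons]
        constructor
        · rw [e]
          funext x
          by_cases q1 : x = 33
          · subst q1
            simp [hy]
            omega
          · by_cases q2 : x = 32
            · subst q2; simp; omega
            · by_cases q3 : x = 34
              · subst q3; simp [hy]
              · simp [hy, q1, q2, q3]
        · simp only [ckBody, LB, y32]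
      · rw [show q - j = 0 by omega] at y32
        have e : ckBody.eval y = update y 33 (true :: y 33) := by
          simp only [ckBody, eval, y32, List.replicate_zero]
        constructor
        · rw [e]
          funext x
          by_cases q1 : x = 33
          · subst q1
            have y33 : y 33 = un (j - q) := by simp [hy]
            rw [update_self, y33, ← un_succ, update_self, show j - q + 1 = j + 1 - q by omega]
          · by_cases q2 : x = 32
            · subst q2
              simp [hy]
              omega
            · by_cases q3 : x = 34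
              · subst q3; simp [hy]
              · simp [hy, q1, q2, q3]
        · simp only [ckBody, LB, y32, List.replicate_zero]) hL
  refine ⟨?_, key.2⟩
  rw [key.1]
  simp

/-- scratch registers are empty -/
def _root_.Pool.Agent.Helper72.Scr (s : St) : Prop :=
  ∀ r, (13 ≤ r ∧ r ≤ 40) ∨ 100 ≤ r → s r = []

/-- interface of the program computing a polynomial of the length of register `n` -/
structure _root_.Pool.Agent.Helper72.PolySpec (q : ℕ → ℕ) (n d : ℕ) (c : Cmd) (T : ℕ → ℕ) :
    Prop where
  pb : PB T
  mono : Monotone T
  ok : c.ok = true
  wr : ∀ x, x ≠ n → x ≠ d → x ≠ 35 → x ≠ 36 → x ≠ 37 → c.wr x = false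
  spec : ∀ s : St, s 35 = [] → s 36 = [] → s 37 = [] →
    c.eval s = update s d (un (q (s n).length) ++ s d) ∧ c.LB (T (s n).length) s

/-- the verifier program -/
def PVc (cq decV : Cmd) : Cmd :=
  seq cq (seq (copyR 1 34 30) (seq (loop 34 ckBody ckBody) (seq (clear 32) (seq mkPair
    (seq decV (seq (ite 33 (ite 100 nop nop (push 2 true)) nop nop)
      (seq (clear 33) (clear 100))))))))

/-- loop bound for the verifier program -/
def TPV (q Tq TV : ℕ → ℕ) (n m : ℕ) : ℕ := Tq n + q n + n + m + TV (2 * n + 2 + m) + 1

theorem PV_spec {q : ℕ → ℕ} {R : List Bool × List Bool → Bool} {cq decV : Cmd}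
    {Tq TV : ℕ → ℕ} (hq : PolySpec q 0 32 cq Tq) (hV : DecSpec pairCode R decV TV) {s : St}
    (hs : Scr s) (h2 : s 2 = []) :
    (PVc cq decV).eval s =
      update s 2 (flag (decide ((s 1).length ≤ q (s 0).length) && R (s 0, s 1))) ∧
    (PVc cq decV).LB (TPV q Tq TV (s 0).length (s 1).length) s := by
  have h30 : s 30 = [] := hs 30 (by omega)
  have h31 : s 31 = [] := hs 31 (by omega)
  have h32 : s 32 = [] := hs 32 (by omega)
  have h33 : s 33 = [] := hs 33 (by omega)
  have h34 : s 34 = [] := hs 34 (by omega)
  have h35 : s 35 = [] := hs 35 (by omega)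
  have h36 : s 36 = [] := hs 36 (by omega)
  have h37 : s 37 = [] := hs 37 (by omega)
  have h100 : s 100 = [] := hs 100 (by omega)
  set L := TPV q Tq TV (s 0).length (s 1).length with hL
  set qv := q (s 0).length with hqv
  -- step 1
  obtain ⟨e1, l1⟩ := hq.spec s h35 h36 h37
  rw [h32, List.append_nil] at e1
  -- step 2
  have e2 : (copyR 1 34 30).eval (update s 32 (un qv)) =
      update (update s 32 (un qv)) 34 (s 1).reverse := by
    rw [eval_copyR (by norm_num) (by norm_num) (by norm_num) (by simpa using h30)]
    simp [h34]
  -- step 3
  have e3 := ck_loop (L := L) (q := qv) (s := update (update s 32 (un qv)) 34 (s 1).reverse)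
    (by simp [hL, TPV]; omega) (by simp) (by simpa using h33)
  have e3' : update (update (update (update (update s 32 (un qv)) 34 (s 1).reverse) 34 []) 32
      (un (qv - (update (update s 32 (un qv)) 34 (s 1).reverse 34).length))) 33
        (un ((update (update s 32 (un qv)) 34 (s 1).reverse 34).length - qv)) =
      update (update s 32 (un (qv - (s 1).length))) 33 (un ((s 1).length - qv)) := by
    funext x
    by_cases q1 : x = 33
    · subst q1; simp
    · by_cases q2 : x = 32
      · subst q2; simp
      · by_cases q3 : x = 34
        · subst q3; simp [h34]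
        · simp [q1, q2, q3]
  rw [e3'] at e3
  -- step 4
  have e4 : (clear 32).eval (update (update s 32 (un (qv - (s 1).length))) 33
      (un ((s 1).length - qv))) = update s 33 (un ((s 1).length - qv)) := by
    rw [eval_clear]
    funext x
    by_cases q1 : x = 33
    · subst q1; simp
    · by_cases q2 : x = 32
      · subst q2; simp [h32]
      · simp [q1, q2]
  -- step 5
  have e5 := mkPair_spec (s := update s 33 (un ((s 1).length - qv))) (by simpa using h30)
    (by simpa using h31) (by simpa using h100)
  have e5' : update (update s 33 (un ((s 1).length - qv))) 100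
      (pairCode (update s 33 (un ((s 1).length - qv)) 0,
        update s 33 (un ((s 1).length - qv)) 1)) =
      update (update s 33 (un ((s 1).length - qv))) 100 (pairCode (s 0, s 1)) := by
    simp
  rw [e5'] at e5
  -- step 6
  have e6 := hV.spec (s 0, s 1) (update (update s 33 (un ((s 1).length - qv))) 100
    (pairCode (s 0, s 1))) (by
      intro r hr
      rw [update_of_ne (by omega), update_of_ne (by omega)]
      exact hs r (by omega)) (by simp)
  rw [update_idem] at e6
  set f := R (s 0, s 1) with hf
  -- step 7
  have e7 : (ite 33 (ite 100 nop nop (push 2 true)) nop nop).eval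
      (update (update s 33 (un ((s 1).length - qv))) 100 (flag f)) =
      update (update (update s 33 (un ((s 1).length - qv))) 100 (flag f)) 2
        (flag (decide ((s 1).length ≤ qv) && f)) := by
    rcases Nat.lt_or_ge qv (s 1).length with hlt | hge
    · obtain ⟨m, hm⟩ : ∃ m, (s 1).length - qv = m + 1 := ⟨(s 1).length - qv - 1, by omega⟩
      have y33 : (update (update s 33 (un ((s 1).length - qv))) 100 (flag f)) 33
          = true :: un m := by simp [hm, un_succ]
      simp only [eval, y33]
      have hd : decide ((s 1).length ≤ qv) = false := by simpa using hlt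
      rw [hd, Bool.false_and]
      funext x
      by_cases q1 : x = 2
      · subst q1; simp [h2]
      · simp [q1]
    · have hz : (s 1).length - qv = 0 := by omega
      have y33 : (update (update s 33 (un ((s 1).length - qv))) 100 (flag f)) 33
          = [] := by simp [hz]
      have y100 : (update (update s 33 (un ((s 1).length - qv))) 100 (flag f)) 100
          = flag f := by simp
      have hd : decide ((s 1).length ≤ qv) = true := by simpa using hge
      rw [hd, Bool.true_and]
      cases hfc : f
      · rw [hfc] at y33 y100
        replace y100 : (update (update s 33 (un ((s 1).length - qv))) 100 (flag false)) 100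
          = [] := y100
        simp only [eval, y33, y100]
        funext x
        by_cases q1 : x = 2
        · subst q1; simp [h2]
        · simp [q1]
      · rw [hfc] at y33 y100
        replace y100 : (update (update s 33 (un ((s 1).length - qv))) 100 (flag true)) 100
          = [true] := y100
        simp only [eval, y33, y100]
        funext x
        by_cases q1 : x = 2
        · subst q1; simp [h2]
        · simp [q1]
  set fin := flag (decide ((s 1).length ≤ qv) && f) with hfin
  -- step 8, 9
  have e9 : (clear 100).eval ((clear 33).eval (update (update (update s 33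
      (un ((s 1).length - qv))) 100 (flag f)) 2 fin)) = update s 2 fin := by
    rw [eval_clear, eval_clear]
    funext x
    by_cases q1 : x = 100
    · subst q1; simp [h100]
    · by_cases q2 : x = 33
      · subst q2; simp [h33]
      · by_cases q3 : x = 2
        · subst q3; simp
        · simp [q1, q2, q3]
  constructor
  · rw [PVc, eval_seq, eval_seq, eval_seq, eval_seq, eval_seq, eval_seq, eval_seq, eval_seq,
      e1, e2, e3.1, e4, e5.1, e6.2, e7, e9]
  · rw [PVc, LB_seq, LB_seq, LB_seq, LB_seq, LB_seq, LB_seq, LB_seq, LB_seq,
      e1, e2, e3.1, e4, e5.1, e6.2, e7]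
    have hpl : (pairCode (s 0, s 1)).length = 2 * (s 0).length + 2 + (s 1).length := by
      simp [pairCode]; ring
    refine ⟨l1.mono (by simp [hL, TPV]; omega), ?_, e3.2, ?_, ?_, ?_, ?_, ?_, ?_⟩
    · apply LB_copyR (by norm_num) (by norm_num) (by norm_num) (by simpa using h30)
      simp [hL, TPV]; omega
    · apply LB_clear
      simp [hL, TPV]; omega
    · refine e5.2.mono ?_
      simp [hL, TPV]; omega
    · refine e6.1.mono ?_
      rw [hpl, hL, TPV]; omega
    · simp only [LB]
      split <;> [skip; trivial; trivial]
      split <;> trivial
    · apply LB_clear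
      simp [hL, TPV]; omega
    · apply LB_clear
      rw [eval_clear]
      have : (flag f).length ≤ 1 := by cases f <;> simp [flag]
      simp [hL, TPV]
      omega

theorem ok_PVc {q : ℕ → ℕ} {R : List Bool × List Bool → Bool} {cq decV : Cmd}
    {Tq TV : ℕ → ℕ} (hq : PolySpec q 0 32 cq Tq) (hV : DecSpec pairCode R decV TV) :
    (PVc cq decV).ok = true := by
  simp [PVc, ok, hq.ok, hV.ok, ok_mkPair, ckBody, wr, clear, copyR, mv, mv2]

end Cmd

end Pool.Agent.Helper72
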