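import Pool.Agent.Helper72.Flat

/-!
The Cook-Levin tableau of a flat program, in terms of a three-index truth table `V t h c`
(time, height from the top of the stacks, channel).
Channels: `2 r + b` says that the symbol of stack `r` at this height is `b`;
`2 k + q` says that the program counter is `q`.
-/

namespace Pool.Agent.Helper72

open Function

/-- literal template: sign, next row?, next height?, channel -/
structure Lit where
  sgn : Bool
  nxt : Bool
  dh : Bool
  c : ℕ

/-- truth of a clause template at time `t` and height `h` -/
def tsat (V : ℕ → ℕ → ℕ → Bool) (t h : ℕ) (C : List Lit) : Prop :=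
  ∃ l ∈ C, V (t + l.nxt.toNat) (h + l.dh.toNat) l.c = l.sgn

section templates

variable (P : List Instr) (k acc : ℕ)

def isPop (q r : ℕ) : Bool :=
  match P[q]? with
  | some (.pop r' _) => r == r'
  | _ => false

def isPush (q r : ℕ) : Bool :=
  match P[q]? with
  | some (.push r' _ _) => r == r'
  | _ => false

/-- in state `q` the cell contents of stack `r` are copied from height `h + ds` to `h + dt` -/
def keepT (q r : ℕ) (ds dt : Bool) : List (List Lit) :=
  [false, true].flatMap fun b =>
    [[⟨false, false, false, 2 * k + q⟩, ⟨false, false, ds, 2 * r + b.toNat⟩,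
        ⟨true, true, dt, 2 * r + b.toNat⟩],
      [⟨false, false, false, 2 * k + q⟩, ⟨true, false, ds, 2 * r + b.toNat⟩,
        ⟨false, true, dt, 2 * r + b.toNat⟩]]

def bodyT : List (List Lit) :=
  (List.range (P.length + 1)).flatMap fun q =>
    [⟨false, false, false, 2 * k + q⟩, ⟨true, false, true, 2 * k + q⟩] ::
      (List.range k).flatMap fun r => keepT k q r (isPop P q r) (isPush P q r)

def edgeTq (q : ℕ) : List (List Lit) :=
  match P[q]? with
  | some (.push r b n) =>
    [[⟨false, false, false, 2 * k + q⟩, ⟨true, true, false, 2 * r + b.toNat⟩],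
     [⟨false, false, false, 2 * k + q⟩, ⟨false, true, false, 2 * r + (!b).toNat⟩],
     [⟨false, false, false, 2 * k + q⟩, ⟨true, true, false, 2 * k + n⟩]]
  | some (.pop _ n) =>
    [[⟨false, false, false, 2 * k + q⟩, ⟨true, true, false, 2 * k + n⟩]]
  | some (.test r n0 n1 n2) =>
    [[⟨false, false, false, 2 * k + q⟩, ⟨true, false, false, 2 * r + false.toNat⟩,
      ⟨true, false, false, 2 * r + true.toNat⟩, ⟨true, true, false, 2 * k + n0⟩],
     [⟨false, false, false, 2 * k + q⟩, ⟨false, false, false, 2 * r + false.toNat⟩,
      ⟨true, true, false, 2 * k + n1⟩],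
     [⟨false, false, false, 2 * k + q⟩, ⟨false, false, false, 2 * r + true.toNat⟩,
      ⟨true, true, false, 2 * k + n2⟩]]
  | none =>
    [[⟨false, false, false, 2 * k + q⟩, ⟨true, true, false, 2 * k + q⟩]]

def edgeT : List (List Lit) := (List.range (P.length + 1)).flatMap fun q => edgeTq P k q

def lastT : List (List Lit) :=
  (List.range k).flatMap fun r => [false, true].flatMap fun b =>
    [[⟨false, false, false, 2 * r + b.toNat⟩], [⟨false, true, false, 2 * r + b.toNat⟩]]

def finT : List (List Lit) :=
  [⟨true, false, false, 2 * acc + true.toNat⟩] ::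
    (List.range P.length).map fun q => [⟨false, false, false, 2 * k + q⟩]

def init0T : List (List Lit) := [[⟨true, false, false, 2 * k + 0⟩]]

def initBT : List (List Lit) :=
  (List.range k).flatMap fun r =>
    if r < 2 then
      [[⟨false, false, false, 2 * r + false.toNat⟩, ⟨false, false, false, 2 * r + true.toNat⟩],
       [⟨true, false, false, 2 * r + false.toNat⟩, ⟨true, false, false, 2 * r + true.toNat⟩,
        ⟨false, false, true, 2 * r + false.toNat⟩],
       [⟨true, false, false, 2 * r + false.toNat⟩, ⟨true, false, false, 2 * r + true.toNat⟩,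
        ⟨false, false, true, 2 * r + true.toNat⟩]]
    else
      [[⟨false, false, false, 2 * r + false.toNat⟩], [⟨false, false, false, 2 * r + true.toNat⟩]]

/-- all tableau constraints with `B` transitions and stacks of height at most `B` -/
structure TabSat (B : ℕ) (V : ℕ → ℕ → ℕ → Bool) : Prop where
  edge : ∀ t < B, ∀ C ∈ edgeT P k, tsat V t 0 C
  body : ∀ t < B, ∀ h < B, ∀ C ∈ bodyT P k, tsat V t h C
  last : ∀ t < B, ∀ C ∈ lastT k, tsat V t B C
  fin : ∀ C ∈ finT P k acc, tsat V B 0 C
  init0 : ∀ C ∈ init0T k, tsat V 0 0 C
  initB : ∀ h < B, ∀ C ∈ initBT k, tsat V 0 h C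

end templates

/-- the initial registers: `z` in register 0 and `w` in register 1 -/
def init2 (z w : List Bool) : St := fun r => if r = 0 then z else if r = 1 then w else []

/-- all jump targets stay within the code -/
def Instr.tgt (n : ℕ) : Instr → Prop
  | .push _ _ m => m ≤ n
  | .pop _ m => m ≤ n
  | .test _ a b c => a ≤ n ∧ b ≤ n ∧ c ≤ n

theorem fstep_pc_le {P : List Instr} (hP : ∀ i ∈ P, i.tgt P.length) {c : ℕ × St}
    (hc : c.1 ≤ P.length) : (fstep P c).1 ≤ P.length := by
  unfold fstep
  rcases h : P[c.1]? with _ | i
  · exact hc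
  · have hi := hP i (List.mem_of_getElem? h)
    cases i with
    | push r b n => exact hi
    | pop r n => exact hi
    | test r n0 n1 n2 =>
      simp only [Instr.tgt] at hi
      simp only [Instr.exec]
      split <;> omega

theorem iter_pc_le {P : List Instr} (hP : ∀ i ∈ P, i.tgt P.length) (s : St) (t : ℕ) :
    ((fstep P)^[t] (0, s)).1 ≤ P.length := by
  induction t with
  | zero => simp
  | succ t ih => rw [iterate_succ_apply']; exact fstep_pc_le hP ih

theorem exists_list {B : ℕ} (f : ℕ → Option Bool) (h : ∀ i < B, f i = none → f (i + 1) = none)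
    (hB : f B = none) : ∃ z : List Bool, z.length ≤ B ∧ ∀ i ≤ B, z[i]? = f i := by
  induction B generalizing f with
  | zero =>
    refine ⟨[], le_rfl, fun i hi => ?_⟩
    obtain rfl : i = 0 := by omega
    simpa using hB.symm
  | succ B ih =>
    rcases h0 : f 0 with _ | b
    · have hall : ∀ i ≤ B + 1, f i = none := by
        intro i
        induction i with
        | zero => intro _; exact h0
        | succ i ih2 => intro hi; exact h i (by omega) (ih2 (by omega))
      refine ⟨[], by simp, fun i hi => ?_⟩
      simpa using (hall i hi).symm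
    · obtain ⟨z, hz, hz2⟩ := ih (fun i => f (i + 1)) (fun i hi => h (i + 1) (by omega)) hB
      refine ⟨b :: z, by simp; omega, fun i hi => ?_⟩
      cases i with
      | zero => simpa using h0.symm
      | succ i => simpa using hz2 i (by omega)

section sound

variable {P : List Instr} {k acc B : ℕ} {V : ℕ → ℕ → ℕ → Bool}

/-- row `t` of the table describes the configuration `c` -/
def RowMatch (k B : ℕ) (V : ℕ → ℕ → ℕ → Bool) (t : ℕ) (c : ℕ × St) : Prop :=
  V t 0 (2 * k + c.1) = true ∧
  ∀ r < k, ∀ h ≤ B, ∀ b : Bool, V t h (2 * r + b.toNat) = true ↔ (c.2 r)[h]? = some b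

theorem mem_flatMap_range {α : Type*} {n q : ℕ} (hq : q < n) {f : ℕ → List α} {a : α}
    (ha : a ∈ f q) : a ∈ (List.range n).flatMap f :=
  List.mem_flatMap.2 ⟨q, List.mem_range.2 hq, ha⟩

theorem keep_eq {q r : ℕ} {ds dt : Bool} {t h : ℕ}
    (hC : ∀ C ∈ keepT k q r ds dt, tsat V t h C)
    (hq : V t h (2 * k + q) = true) (b : Bool) :
    V (t + 1) (h + dt.toNat) (2 * r + b.toNat) = V t (h + ds.toNat) (2 * r + b.toNat) := by
  have h1 := hC [⟨false, false, false, 2 * k + q⟩, ⟨false, false, ds, 2 * r + b.toNat⟩,
        ⟨true, true, dt, 2 * r + b.toNat⟩] (by cases b <;> simp [keepT])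
  have h2 := hC [⟨false, false, false, 2 * k + q⟩, ⟨true, false, ds, 2 * r + b.toNat⟩,
        ⟨false, true, dt, 2 * r + b.toNat⟩] (by cases b <;> simp [keepT])
  simp only [tsat, List.mem_cons, List.not_mem_nil, or_false, exists_eq_or_imp,
    exists_eq_left, Bool.toNat_false, Bool.toNat_true, add_zero] at h1 h2
  rw [hq] at h1 h2
  rcases hv : V t (h + ds.toNat) (2 * r + b.toNat) with _ | _ <;>
    rw [hv] at h1 h2 <;> simp_all

theorem row_step (hP : ∀ i ∈ P, i.tgt P.length) (hreg : ∀ i ∈ P, i.reg < k)
    (hs : TabSat P k acc B V) {t : ℕ} (ht : t < B) {c : ℕ × St} (hc : c.1 ≤ P.length)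
    (hm : RowMatch k B V t c) : RowMatch k B V (t + 1) (fstep P c) := by
  obtain ⟨q, s⟩ := c
  obtain ⟨hq0, hx⟩ := hm
  simp only at hc hq0 hx
  have hqlt : q < P.length + 1 := by omega
  -- the state is visible at all heights
  have hq : ∀ h ≤ B, V t h (2 * k + q) = true := by
    intro h
    induction h with
    | zero => intro _; exact hq0
    | succ h ih =>
      intro hh
      have h1 := hs.body t ht h (by omega)
        [⟨false, false, false, 2 * k + q⟩, ⟨true, false, true, 2 * k + q⟩]
        (mem_flatMap_range hqlt (List.mem_cons_self))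
      simp only [tsat, List.mem_cons, List.not_mem_nil, or_false, exists_eq_or_imp,
        exists_eq_left, Bool.toNat_false, Bool.toNat_true, add_zero] at h1
      rw [ih (by omega)] at h1
      simpa using h1
  have hkeep : ∀ r < k, ∀ h < B, ∀ b : Bool,
      V (t + 1) (h + (isPush P q r).toNat) (2 * r + b.toNat) =
        V t (h + (isPop P q r).toNat) (2 * r + b.toNat) := by
    intro r hr h hh b
    refine keep_eq (k := k) (q := q) (fun C hC => hs.body t ht h hh C ?_) (hq h (by omega)) b
    exact mem_flatMap_range hqlt (List.mem_cons_of_mem _ (mem_flatMap_range hr hC))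
  have hlast0 : ∀ r < k, ∀ b : Bool, V t B (2 * r + b.toNat) = false := by
    intro r hr b
    have := hs.last t ht [⟨false, false, false, 2 * r + b.toNat⟩]
      (mem_flatMap_range hr (by cases b <;> simp))
    simpa [tsat] using this
  have hlast1 : ∀ r < k, ∀ b : Bool, V (t + 1) B (2 * r + b.toNat) = false := by
    intro r hr b
    have := hs.last t ht [⟨false, true, false, 2 * r + b.toNat⟩]
      (mem_flatMap_range hr (by cases b <;> simp))
    simpa [tsat] using this
  have hlen : ∀ r < k, (s r).length ≤ B := by
    intro r hr
    by_contra hcon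
    push Not at hcon
    have h1 := (hx r hr B le_rfl (s r)[B]).2 (List.getElem?_eq_getElem hcon)
    rw [hlast0 r hr] at h1
    exact absurd h1 (by simp)
  -- untouched stacks
  have hsame : ∀ r < k, isPush P q r = false → isPop P q r = false → ∀ h ≤ B, ∀ b : Bool,
      V (t + 1) h (2 * r + b.toNat) = true ↔ (s r)[h]? = some b := by
    intro r hr hpu hpo h hh b
    rcases Nat.lt_or_ge h B with hlt | hge
    · have := hkeep r hr h hlt b
      rw [hpu, hpo] at this
      simp only [Bool.toNat_false, add_zero] at this
      rw [this]
      exact hx r hr h hh b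
    · obtain rfl : h = B := by omega
      rw [hlast1 r hr, ← hlast0 r hr b]
      exact hx r hr h le_rfl b
  have hedge : ∀ C ∈ edgeTq P k q, tsat V t 0 C := fun C hC =>
    hs.edge t ht C (mem_flatMap_range hqlt hC)
  rcases hins : P[q]? with _ | ins
  · -- halted
    have hstep : fstep P (q, s) = (q, s) := by simp [fstep, hins]
    rw [hstep]
    have h1 := hedge [⟨false, false, false, 2 * k + q⟩, ⟨true, true, false, 2 * k + q⟩]
      (by simp [edgeTq, hins])
    simp only [tsat, List.mem_cons, List.not_mem_nil, or_false, exists_eq_or_imp,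
        exists_eq_left, Bool.toNat_false, Bool.toNat_true, add_zero] at h1
    rw [hq0] at h1
    refine ⟨by simpa using h1, fun r hr => hsame r hr ?_ ?_⟩ <;> simp [isPush, isPop, hins]
  · rw [fstep_some hins]
    have hmem := List.mem_of_getElem? hins
    have htg := hP _ hmem
    have hrg := hreg _ hmem
    cases ins with
    | push r0 b0 n =>
      simp only [Instr.reg] at hrg
      have e1 := hedge [⟨false, false, false, 2 * k + q⟩,
        ⟨true, true, false, 2 * r0 + b0.toNat⟩] (by simp [edgeTq, hins])
      have e2 := hedge [⟨false, false, false, 2 * k + q⟩,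
        ⟨false, true, false, 2 * r0 + (!b0).toNat⟩] (by simp [edgeTq, hins])
      have e3 := hedge [⟨false, false, false, 2 * k + q⟩, ⟨true, true, false, 2 * k + n⟩]
        (by simp [edgeTq, hins])
      simp only [tsat, List.mem_cons, List.not_mem_nil, or_false, exists_eq_or_imp,
        exists_eq_left, Bool.toNat_false, Bool.toNat_true, add_zero] at e1 e2 e3
      rw [hq0] at e1 e2 e3
      simp only [Bool.true_eq_false, false_or] at e1 e2 e3
      refine ⟨by simpa [Instr.exec] using e3, fun r hr h hh b => ?_⟩
      simp only [Instr.exec]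
      by_cases hrr : r = r0
      · subst hrr
        rw [update_self]
        cases h with
        | zero =>
          simp only [List.getElem?_cons_zero, Option.some.injEq]
          cases b0 <;> cases b <;> simp_all
        | succ h =>
          have := hkeep r hr h (by omega) b
          have hpu : isPush P q r = true := by simp [isPush, hins]
          have hpo : isPop P q r = false := by simp [isPop, hins]
          rw [hpu, hpo] at this
          simp only [Bool.toNat_false, Bool.toNat_true, add_zero] at this
          rw [this, List.getElem?_cons_succ]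
          exact hx r hr h (by omega) b
      · rw [update_of_ne hrr]
        exact hsame r hr (by simp [isPush, hins, hrr]) (by simp [isPop, hins]) h hh b
    | pop r0 n =>
      simp only [Instr.reg] at hrg
      have e3 := hedge [⟨false, false, false, 2 * k + q⟩, ⟨true, true, false, 2 * k + n⟩]
        (by simp [edgeTq, hins])
      simp only [tsat, List.mem_cons, List.not_mem_nil, or_false, exists_eq_or_imp,
        exists_eq_left, Bool.toNat_false, Bool.toNat_true, add_zero] at e3
      rw [hq0] at e3
      simp only [Bool.true_eq_false, false_or] at e3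
      refine ⟨by simpa [Instr.exec] using e3, fun r hr h hh b => ?_⟩
      simp only [Instr.exec]
      by_cases hrr : r = r0
      · subst hrr
        rw [update_self, List.getElem?_tail]
        rcases Nat.lt_or_ge h B with hlt | hge
        · have := hkeep r hr h hlt b
          have hpu : isPush P q r = false := by simp [isPush, hins]
          have hpo : isPop P q r = true := by simp [isPop, hins]
          rw [hpu, hpo] at this
          simp only [Bool.toNat_false, Bool.toNat_true, add_zero] at this
          rw [this]
          exact hx r hr (h + 1) (by omega) b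
        · obtain rfl : h = B := by omega
          rw [hlast1 r hr, List.getElem?_eq_none (by have := hlen r hr; omega)]
          simp
      · rw [update_of_ne hrr]
        exact hsame r hr (by simp [isPush, hins]) (by simp [isPop, hins, hrr]) h hh b
    | test r0 n0 n1 n2 =>
      simp only [Instr.reg] at hrg
      refine ⟨?_, fun r hr => hsame r hr (by simp [isPush, hins]) (by simp [isPop, hins])⟩
      have e1 := hedge _ (show [⟨false, false, false, 2 * k + q⟩,
        ⟨true, false, false, 2 * r0 + false.toNat⟩,
        ⟨true, false, false, 2 * r0 + true.toNat⟩, ⟨true, true, false, 2 * k + n0⟩] ∈ _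
        by simp [edgeTq, hins])
      have e2 := hedge _ (show [⟨false, false, false, 2 * k + q⟩,
        ⟨false, false, false, 2 * r0 + false.toNat⟩,
        ⟨true, true, false, 2 * k + n1⟩] ∈ _ by simp [edgeTq, hins])
      have e3 := hedge _ (show [⟨false, false, false, 2 * k + q⟩,
        ⟨false, false, false, 2 * r0 + true.toNat⟩,
        ⟨true, true, false, 2 * k + n2⟩] ∈ _ by simp [edgeTq, hins])
      have x0 := hx r0 hrg 0 (by omega) false
      have x1 := hx r0 hrg 0 (by omega) true
      simp only [tsat, List.mem_cons, List.not_mem_nil, or_false, exists_eq_or_imp,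
        exists_eq_left] at e1 e2 e3
      have n0' : false.toNat = 0 := rfl
      have n1' : true.toNat = 1 := rfl
      simp only [n0', n1', add_zero] at e1 e2 e3 x0 x1
      rw [hq0] at e1 e2 e3
      simp only [Bool.true_eq_false, false_or] at e1 e2 e3
      simp only [Instr.exec]
      rcases hl : s r0 with _ | ⟨_ | _, l⟩
      · rw [hl] at x0 x1
        simp only [List.getElem?_nil, reduceCtorEq, iff_false, Bool.not_eq_true] at x0 x1
        rw [x0, x1] at e1
        simpa using e1
      · rw [hl] at x0
        simp only [List.getElem?_cons_zero, iff_true] at x0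
        rw [x0] at e2
        simpa using e2
      · rw [hl] at x1
        simp only [List.getElem?_cons_zero, iff_true] at x1
        rw [x1] at e3
        simpa using e3

/-- an assignment satisfying the tableau describes an accepting run -/
theorem tab_sound2 (hP : ∀ i ∈ P, i.tgt P.length) (hreg : ∀ i ∈ P, i.reg < k) (hk : 2 ≤ k)
    (hacc : acc < k) (hB : 0 < B) (hs : TabSat P k acc B V) :
    ∃ z w : List Bool, z.length ≤ B ∧ w.length ≤ B ∧
      ((∀ h ≤ B, ∀ b : Bool, V 0 h b.toNat = true ↔ z[h]? = some b) ∧
        (∀ h ≤ B, ∀ b : Bool, V 0 h (2 + b.toNat) = true ↔ w[h]? = some b)) ∧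
      ((fstep P)^[B] (0, init2 z w)).1 = P.length ∧
      (((fstep P)^[B] (0, init2 z w)).2 acc)[0]? = some true := by
  -- reading the two input words
  have hlast0 : ∀ r < k, ∀ b : Bool, V 0 B (2 * r + b.toNat) = false := by
    intro r hr b
    have := hs.last 0 hB [⟨false, false, false, 2 * r + b.toNat⟩]
      (mem_flatMap_range hr (by cases b <;> simp))
    simpa [tsat] using this
  have hrd : ∀ r < 2, ∃ z : List Bool, z.length ≤ B ∧
      ∀ h ≤ B, ∀ b : Bool, V 0 h (2 * r + b.toNat) = true ↔ z[h]? = some b := by
    intro r hr
    have hT : ∀ h < B, ∀ C ∈ [[⟨false, false, false, 2 * r + false.toNat⟩,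
          ⟨false, false, false, 2 * r + true.toNat⟩],
       [⟨true, false, false, 2 * r + false.toNat⟩, ⟨true, false, false, 2 * r + true.toNat⟩,
        ⟨false, false, true, 2 * r + false.toNat⟩],
       [⟨true, false, false, 2 * r + false.toNat⟩, ⟨true, false, false, 2 * r + true.toNat⟩,
        (⟨false, false, true, 2 * r + true.toNat⟩ : Lit)]], tsat V 0 h C := by
      intro h hh C hC
      exact hs.initB h hh C (mem_flatMap_range (q := r) (by omega)
        (by rw [if_pos hr]; exact hC))
    have e1 : ∀ h < B, V 0 h (2 * r + false.toNat) = false ∨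
        V 0 h (2 * r + true.toNat) = false := by
      intro h hh
      have := hT h hh _ (List.mem_cons_self)
      simpa [tsat] using this
    have e2 : ∀ h < B, V 0 h (2 * r + false.toNat) = false →
        V 0 h (2 * r + true.toNat) = false → ∀ b : Bool,
        V 0 (h + 1) (2 * r + b.toNat) = false := by
      intro h hh g1 g2 b
      have := hT h hh [⟨true, false, false, 2 * r + false.toNat⟩,
        ⟨true, false, false, 2 * r + true.toNat⟩,
        ⟨false, false, true, 2 * r + b.toNat⟩] (by cases b <;> simp)
      simp only [tsat, List.mem_cons, List.not_mem_nil, or_false, exists_eq_or_imp,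
        exists_eq_left] at this
      have n0' : false.toNat = 0 := rfl
      have n1' : true.toNat = 1 := rfl
      simp only [n0', n1', add_zero] at this g1 g2
      simp_all
    let f : ℕ → Option Bool := fun h =>
      if V 0 h (2 * r + true.toNat) = true then some true
      else if V 0 h (2 * r + false.toNat) = true then some false else none
    have hf : ∀ h, f h = none → V 0 h (2 * r + false.toNat) = false ∧
        V 0 h (2 * r + true.toNat) = false := by
      intro h hh
      simp only [f] at hh
      split_ifs at hh with h1 h2
      exact ⟨by simpa using h2, by simpa using h1⟩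
    have hfn : ∀ h, (∀ b : Bool, V 0 h (2 * r + b.toNat) = false) → f h = none := by
      intro h hh
      simp only [f]
      rw [if_neg (by rw [hh]; simp), if_neg (by rw [hh]; simp)]
    obtain ⟨z, hz, hz2⟩ := exists_list (B := B) f
      (fun i hi hn => hfn _ fun b => e2 i hi (hf i hn).1 (hf i hn).2 b)
      (hfn B fun b => hlast0 r (by omega) b)
    refine ⟨z, hz, fun h hh b => ?_⟩
    rw [hz2 h hh]
    simp only [f]
    rcases Nat.lt_or_ge h B with hlt | hge
    · have h3 := e1 h hlt
      cases b
      · split_ifs with g1 g2
        · rcases h3 with h3 | h3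
          · rw [h3]; simp
          · rw [h3] at g1; exact absurd g1 (by simp)
        · exact iff_of_true g2 rfl
        · simpa using g2
      · split_ifs with g1 g2
        · exact iff_of_true g1 rfl
        · simpa using g1
        · simpa using g1
    · obtain rfl : h = B := by omega
      rw [hlast0 r (by omega), hlast0 r (by omega), hlast0 r (by omega)]
      simp
  obtain ⟨z, hz, hz2⟩ := hrd 0 (by omega)
  obtain ⟨w, hw, hw2⟩ := hrd 1 (by omega)
  have hrow : ∀ t ≤ B, RowMatch k B V t ((fstep P)^[t] (0, init2 z w)) := by
    intro t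
    induction t with
    | zero =>
      intro _
      refine ⟨?_, fun r hr h hh b => ?_⟩
      · have := hs.init0 _ (List.mem_cons_self)
        simpa [tsat] using this
      · simp only [iterate_zero, id_eq, init2]
        by_cases h0 : r = 0
        · subst h0; simpa using hz2 h hh b
        by_cases h1 : r = 1
        · subst h1; simpa using hw2 h hh b
        simp only [h0, h1, if_false, List.getElem?_nil, reduceCtorEq, iff_false]
        rcases Nat.lt_or_ge h B with hlt | hge
        · have := hs.initB h hlt [⟨false, false, false, 2 * r + b.toNat⟩]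
            (mem_flatMap_range hr (by rw [if_neg (by omega)]; cases b <;> simp))
          simpa [tsat] using this
        · obtain rfl : h = B := by omega
          rw [hlast0 r hr]; simp
    | succ t ih =>
      intro ht
      rw [iterate_succ_apply']
      exact row_step hP hreg hs (by omega) (iter_pc_le hP _ _) (ih (by omega))
  have hfin := hrow B le_rfl
  refine ⟨z, w, hz, hw, ⟨fun h hh b => by simpa using hz2 h hh b,
    fun h hh b => by simpa using hw2 h hh b⟩, ?_, ?_⟩
  · have hle := iter_pc_le hP (init2 z w) B
    by_contra hne
    have hlt : ((fstep P)^[B] (0, init2 z w)).1 < P.length := by omega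
    have := hs.fin [⟨false, false, false, 2 * k + ((fstep P)^[B] (0, init2 z w)).1⟩]
      (List.mem_cons_of_mem _ (List.mem_map.2 ⟨_, List.mem_range.2 hlt, rfl⟩))
    simp only [tsat, List.mem_cons, List.not_mem_nil, or_false, exists_eq_left,
      Bool.toNat_false, add_zero] at this
    rw [hfin.1] at this
    exact absurd this (by simp)
  · have := hs.fin [⟨true, false, false, 2 * acc + true.toNat⟩] (List.mem_cons_self)
    simp only [tsat, List.mem_cons, List.not_mem_nil, or_false, exists_eq_left,
      Bool.toNat_false, add_zero] at this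
    exact (hfin.2 acc hacc 0 (by omega) true).1 this

theorem tab_sound (hP : ∀ i ∈ P, i.tgt P.length) (hreg : ∀ i ∈ P, i.reg < k) (hk : 2 ≤ k)
    (hacc : acc < k) (hB : 0 < B) (hs : TabSat P k acc B V) :
    ∃ z w : List Bool, z.length ≤ B ∧ w.length ≤ B ∧
      (∀ h ≤ B, ∀ b : Bool, V 0 h b.toNat = true ↔ z[h]? = some b) ∧
      ((fstep P)^[B] (0, init2 z w)).1 = P.length ∧
      (((fstep P)^[B] (0, init2 z w)).2 acc)[0]? = some true := by
  obtain ⟨z, w, h1, h2, h3, h4, h5⟩ := tab_sound2 hP hreg hk hacc hB hs
  exact ⟨z, w, h1, h2, h3.1, h4, h5⟩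

end sound

end Pool.Agent.Helper72
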