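import Pool.Agent.Helper72.Blocks

/-!
Unary arithmetic programs: polynomials of lengths.
-/

namespace Pool.Agent.Helper72

open Function

theorem un_append (a b : ℕ) : un a ++ un b = un (a + b) := by
  rw [List.replicate_append_replicate]

theorem un_succ (n : ℕ) : un (n + 1) = true :: un n := rfl

@[simp] theorem un_reverse (n : ℕ) : (un n).reverse = un n := by simp

@[simp] theorem un_length (n : ℕ) : (un n).length = n := by simp

/-- a flag -/
abbrev flag (b : Bool) : List Bool := if b then [true] else []

namespace Cmd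

theorem LB_loop {L r : ℕ} {c0 c1 : Cmd} {s : St} : (loop r c0 c1).LB L s ↔
    (s r).length ≤ L ∧ loopLB (fun b => if b then c1.eval else c0.eval)
      (fun b => if b then c1.LB L else c0.LB L) r (s r) s := Iff.rfl

theorem eval_loop {r : ℕ} {c0 c1 : Cmd} {s : St} : (loop r c0 c1).eval s =
    loopEval (fun b => if b then c1.eval else c0.eval) r (s r) s := rfl

/-- loop rule: an explicit description `g j` of the state after `j` iterations -/
theorem loop_rule {L r : ℕ} {c0 c1 : Cmd} {s : St} (g : ℕ → St)
    (h0 : g 0 = s)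
    (hstep : ∀ j b, (s r)[j]? = some b →
      (if b then c1 else c0).eval (update (g j) r ((s r).drop (j + 1))) = g (j + 1) ∧
      (if b then c1 else c0).LB L (update (g j) r ((s r).drop (j + 1))))
    (hL : (s r).length ≤ L) :
    (loop r c0 c1).eval s = g (s r).length ∧ (loop r c0 c1).LB L s := by
  have key : ∀ (n j : ℕ), j + n = (s r).length →
      loopEval (fun b => if b then c1.eval else c0.eval) r ((s r).drop j) (g j)
        = g (s r).length ∧
      loopLB (fun b => if b then c1.eval else c0.eval)
        (fun b => if b then c1.LB L else c0.LB L) r ((s r).drop j) (g j) := by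
    intro n
    induction n with
    | zero =>
      intro j hj
      have : (s r).drop j = [] := List.drop_eq_nil_of_le (by omega)
      rw [this]
      have hj' : j = (s r).length := by omega
      subst hj'
      exact ⟨rfl, trivial⟩
    | succ n ih =>
      intro j hj
      have hlt : j < (s r).length := by omega
      have hd : (s r).drop j = (s r)[j] :: (s r).drop (j + 1) := by
        rw [List.drop_eq_getElem_cons hlt]
      rw [hd]
      obtain ⟨h1, h2⟩ := hstep j _ (List.getElem?_eq_getElem hlt)
      obtain ⟨h3, h4⟩ := ih (j + 1) (by omega)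
      have hb : (if (s r)[j] = true then c1.eval else c0.eval)
          (update (g j) r ((s r).drop (j + 1))) = g (j + 1) := by
        rw [← h1]
        cases (s r)[j] <;> rfl
      refine ⟨?_, ?_, ?_⟩
      · simp only [loopEval]
        rw [hb]
        exact h3
      · revert h2
        cases (s r)[j] <;> exact id
      · show loopLB _ _ _ _ ((if (s r)[j] = true then c1.eval else c0.eval)
          (update (g j) r ((s r).drop (j + 1))))
        rw [hb]
        exact h4
  have := key (s r).length 0 (by omega)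
  rw [h0, List.drop_zero] at this
  exact ⟨this.1, hL, this.2⟩

/-- add the length of `a` to the unary register `b` -/
def addLen (a b t : ℕ) : Cmd :=
  seq (loop a (seq (push t false) (push b true)) (seq (push t true) (push b true))) (mv t a)

theorem addLen_spec {a b t L : ℕ} (hab : a ≠ b) (hat : a ≠ t) (hbt : b ≠ t) {s : St}
    (ht : s t = []) (hL : (s a).length ≤ L) :
    (addLen a b t).eval s = update s b (un (s a).length ++ s b) ∧ (addLen a b t).LB L s := by
  have h1 := loop_rule (L := L) (r := a) (c0 := seq (push t false) (push b true))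
    (c1 := seq (push t true) (push b true)) (s := s)
    (fun j => update (update (update s a ((s a).drop j)) t ((s a).take j).reverse) b
      (un j ++ s b))
    (by
      funext x
      by_cases h1 : x = b
      · subst h1; simp
      · by_cases h2 : x = t
        · subst h2; simp [h1, ht]
        · by_cases h3 : x = a
          · subst h3; simp [h1, h2]
          · simp [h1, h2])
    (by
      intro j x hx
      have htk : (s a).take (j + 1) = (s a).take j ++ [x] := by
        rw [List.take_add_one, hx]; rfl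
      constructor
      · have : ∀ y : St, (if x = true then (push t true).seq (push b true)
            else (push t false).seq (push b true)).eval y =
            update (update y t (x :: y t)) b (true :: (update y t (x :: y t)) b) := by
          intro y; cases x <;> rfl
        rw [this]
        funext y
        by_cases h1 : y = b
        · subst h1; simp [hbt, hab.symm, un_succ]
        · by_cases h2 : y = t
          · subst h2; simp [h1, hat.symm, htk]
          · by_cases h3 : y = a
            · subst h3; simp [h1, h2]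
            · simp [h1, h2, h3]
      · cases x <;> exact ⟨trivial, trivial⟩) hL
  obtain ⟨h1, h2⟩ := h1
  rw [addLen, eval_seq, h1, eval_mv hat.symm]
  refine ⟨?_, h2, ?_⟩
  · funext y
    by_cases q1 : y = b
    · subst q1; simp [hab.symm, hbt]
    · by_cases q2 : y = t
      · subst q2; simp [q1, ht, hat.symm]
      · by_cases q3 : y = a
        · subst q3; simp [q1, q2, hbt.symm]
        · simp [q1, q2, q3]
  · rw [h1]
    apply LB_mv hat.symm
    simp [hbt.symm, hL]

theorem ok_addLen {a b t : ℕ} (hab : a ≠ b) (hat : a ≠ t) : (addLen a b t).ok = true := by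
  simp [addLen, ok, wr, hab, hat, hat.symm]

theorem wr_addLen {a b t x : ℕ} (h1 : x ≠ a) (h2 : x ≠ b) (h3 : x ≠ t) :
    (addLen a b t).wr x = false := by
  simp [addLen, wr, mv, h1, h2, h3]

/-- multiply the unary register `d` by the length of `n` -/
def mulLen (n d t1 t2 : ℕ) : Cmd :=
  seq (loop d (addLen n t2 t1) (addLen n t2 t1)) (mv t2 d)

theorem mulLen_spec {n d t1 t2 L m : ℕ} (h1 : n ≠ d) (h2 : n ≠ t1) (h3 : n ≠ t2)
    (h4 : d ≠ t1) (h5 : d ≠ t2) (h6 : t1 ≠ t2) {s : St}
    (ht1 : s t1 = []) (ht2 : s t2 = []) (hd : s d = un m)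
    (hL1 : (s n).length ≤ L) (hL2 : m ≤ L) (hL3 : m * (s n).length ≤ L) :
    (mulLen n d t1 t2).eval s = update s d (un (m * (s n).length)) ∧
      (mulLen n d t1 t2).LB L s := by
  have key := loop_rule (L := L) (r := d) (c0 := addLen n t2 t1) (c1 := addLen n t2 t1) (s := s)
    (fun j => update (update s d ((s d).drop j)) t2 (un (j * (s n).length)))
    (by
      funext x
      by_cases q1 : x = t2
      · subst q1; simp [ht2]
      · by_cases q2 : x = d
        · subst q2; simp [q1]
        · simp [q1])
    (by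
      intro j b _
      have hs : ∀ y : St, (if b = true then addLen n t2 t1 else addLen n t2 t1).eval y =
          (addLen n t2 t1).eval y := by intro y; cases b <;> rfl
      have hl : (if b = true then addLen n t2 t1 else addLen n t2 t1) = addLen n t2 t1 := by
        cases b <;> rfl
      have hsp := addLen_spec (L := L) h3 h2 h6.symm
        (s := update (update (update s d ((s d).drop j)) t2 (un (j * (s n).length))) d
          ((s d).drop (j + 1))) (by simp [h6, h4.symm, ht1]) (by simpa [h1, h3] using hL1)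
      rw [hl, hsp.1]
      refine ⟨?_, hsp.2⟩
      funext x
      by_cases q1 : x = t2
      · subst q1
        simp [h5.symm, h1, h3]
        ring
      · by_cases q2 : x = d
        · subst q2; simp [q1]
        · simp [q1, q2]) (by rw [hd]; simpa using hL2)
  obtain ⟨k1, k2⟩ := key
  rw [hd] at k1
  rw [mulLen, eval_seq, k1, eval_mv h5.symm]
  refine ⟨?_, k2, ?_⟩
  · funext x
    by_cases q1 : x = d
    · subst q1; simp [h5]
    · by_cases q2 : x = t2
      · subst q2; simp [q1, ht2]
      · simp [q1, q2]
  · rw [k1]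
    apply LB_mv h5.symm
    simpa using hL3

theorem ok_mulLen {n d t1 t2 : ℕ} (h1 : n ≠ d) (h2 : n ≠ t1) (h3 : n ≠ t2)
    (h4 : d ≠ t1) (h5 : d ≠ t2) : (mulLen n d t1 t2).ok = true := by
  simp only [mulLen, ok, Bool.and_eq_true, Bool.not_eq_true']
  refine ⟨⟨⟨⟨?_, ?_⟩, ?_⟩, ?_⟩, ?_⟩
  · exact wr_addLen h1.symm h5 h4
  · exact wr_addLen h1.symm h5 h4
  · exact ok_addLen h3 h2
  · exact ok_addLen h3 h2
  · exact ok_mv.2 h5.symm

theorem wr_mulLen {n d t1 t2 x : ℕ} (h1 : x ≠ n) (h2 : x ≠ d) (h3 : x ≠ t1) (h4 : x ≠ t2) :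
    (mulLen n d t1 t2).wr x = false := by
  simp only [mulLen, wr, wr_addLen h1 h4 h3, mv]
  simp [h2, h4]

/-- a program appending a monomial value: `d := un (a * n ^ e) ++ d` via `t3` -/
def powLen (a : ℕ) (n t1 t2 t3 : ℕ) : ℕ → Cmd
  | 0 => pushL t3 (un a)
  | e + 1 => seq (powLen a n t1 t2 t3 e) (mulLen n t3 t1 t2)

theorem powLen_spec {a n t1 t2 t3 L : ℕ} (h1 : n ≠ t1) (h2 : n ≠ t2) (h3 : n ≠ t3)
    (h4 : t1 ≠ t2) (h5 : t1 ≠ t3) (h6 : t2 ≠ t3) {s : St}
    (ht1 : s t1 = []) (ht2 : s t2 = []) (ht3 : s t3 = []) (hL1 : (s n).length ≤ L) :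
    ∀ e, a * ((s n).length + 1) ^ e ≤ L →
    (powLen a n t1 t2 t3 e).eval s = update s t3 (un (a * (s n).length ^ e)) ∧
      (powLen a n t1 t2 t3 e).LB L s
  | 0, _ => by
    refine ⟨?_, LB_pushL _ _ _ _⟩
    simp [powLen, ht3]
  | e + 1, hL => by
    have hmono : a * ((s n).length + 1) ^ e ≤ L := by
      refine le_trans ?_ hL
      apply Nat.mul_le_mul_left
      exact Nat.pow_le_pow_right (by omega) (by omega)
    obtain ⟨k1, k2⟩ := powLen_spec h1 h2 h3 h4 h5 h6 ht1 ht2 ht3 hL1 e hmono
    have hle : a * (s n).length ^ e ≤ L := by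
      refine le_trans ?_ hmono
      apply Nat.mul_le_mul_left
      exact Nat.pow_le_pow_left (by omega) _
    have hle2 : a * (s n).length ^ e * (s n).length ≤ L := by
      refine le_trans ?_ hL
      rw [mul_assoc, ← pow_succ]
      apply Nat.mul_le_mul_left
      exact Nat.pow_le_pow_left (by omega) _
    have hm := mulLen_spec (L := L) (m := a * (s n).length ^ e) h3 h1 h2 h5.symm h6.symm h4
      (s := update s t3 (un (a * (s n).length ^ e)))
      (by simp [h5, ht1]) (by simp [h6, ht2]) (by simp)
      (by simpa [h3] using hL1) hle (by simpa [h3] using hle2)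
    rw [powLen, eval_seq, k1, hm.1]
    refine ⟨?_, k2, ?_⟩
    · funext x
      by_cases q1 : x = t3
      · subst q1; simp [h3, pow_succ, mul_assoc]
      · simp [q1]
    · rw [k1]; exact hm.2

theorem ok_powLen {a n t1 t2 t3 : ℕ} (h1 : n ≠ t1) (h2 : n ≠ t2) (h3 : n ≠ t3)
    (h5 : t1 ≠ t3) (h6 : t2 ≠ t3) : ∀ e, (powLen a n t1 t2 t3 e).ok = true
  | 0 => ok_pushL _ _
  | e + 1 => by
    simp only [powLen, ok, Bool.and_eq_true]
    exact ⟨ok_powLen h1 h2 h3 h5 h6 e, ok_mulLen h3 h1 h2 h5.symm h6.symm⟩

theorem wr_powLen {a n t1 t2 t3 x : ℕ} (h1 : x ≠ n) (h2 : x ≠ t1) (h3 : x ≠ t2)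
    (h4 : x ≠ t3) : ∀ e, (powLen a n t1 t2 t3 e).wr x = false
  | 0 => wr_pushL _ h4
  | e + 1 => by
    simp only [powLen, wr, wr_powLen h1 h2 h3 h4 e, wr_mulLen h1 h4 h2 h3, Bool.or_self]

/-- programs for polynomials of lengths -/
theorem exists_poly (q : Polynomial ℕ) {n d t1 t2 t3 : ℕ} (h1 : n ≠ t1) (h2 : n ≠ t2)
    (h3 : n ≠ t3) (h4 : t1 ≠ t2) (h5 : t1 ≠ t3) (h6 : t2 ≠ t3) (h7 : d ≠ t1) (h8 : d ≠ t2)
    (h9 : d ≠ t3) (h10 : n ≠ d) :
    ∃ (c : Cmd) (T : ℕ → ℕ), PB T ∧ Monotone T ∧ c.ok = true ∧
      (∀ x, x ≠ n → x ≠ d → x ≠ t1 → x ≠ t2 → x ≠ t3 → c.wr x = false) ∧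
      ∀ s : St, s t1 = [] → s t2 = [] → s t3 = [] →
        c.eval s = update s d (un (q.eval (s n).length) ++ s d) ∧ c.LB (T (s n).length) s := by
  induction q using Polynomial.induction_on' with
  | add p q hp hq =>
    obtain ⟨c1, T1, pb1, mo1, ok1, wr1, sp1⟩ := hp
    obtain ⟨c2, T2, pb2, mo2, ok2, wr2, sp2⟩ := hq
    refine ⟨seq c1 c2, fun n => T1 n + T2 n, pb1.add pb2, mo1.add mo2, ?_, ?_, ?_⟩
    · simp [ok, ok1, ok2]
    · intro x x1 x2 x3 x4 x5
      simp [wr, wr1 x x1 x2 x3 x4 x5, wr2 x x1 x2 x3 x4 x5]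
    · intro s s1 s2 s3
      obtain ⟨e1, l1⟩ := sp1 s s1 s2 s3
      obtain ⟨e2, l2⟩ := sp2 (update s d (un (p.eval (s n).length) ++ s d))
        (by simp [h7.symm, s1]) (by simp [h8.symm, s2]) (by simp [h9.symm, s3])
      have hn : update s d (un (p.eval (s n).length) ++ s d) n = s n := by simp [h10]
      rw [hn] at e2 l2
      rw [eval_seq, e1, e2]
      refine ⟨?_, l1.mono (Nat.le_add_right _ _), ?_⟩
      · funext x
        by_cases q1 : x = d
        · subst q1
          simp only [update_self, Polynomial.eval_add]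
          rw [← List.append_assoc, un_append, add_comm]
        · simp [q1]
      · rw [e1]; exact l2.mono (Nat.le_add_left _ _)
  | monomial e a =>
    refine ⟨seq (powLen a n t1 t2 t3 e) (mv t3 d), fun n => a * (n + 1) ^ e + n, ?_, ?_, ?_,
      ?_, ?_⟩
    · exact ((PB.const a).mul ((PB.id.add (PB.const 1)).pow e)).add PB.id
    · intro x y hxy
      have : (x + 1) ^ e ≤ (y + 1) ^ e := Nat.pow_le_pow_left (by omega) _
      have := Nat.mul_le_mul_left a this
      show a * (x + 1) ^ e + x ≤ a * (y + 1) ^ e + y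
      omega
    · simp only [ok, Bool.and_eq_true]
      exact ⟨ok_powLen h1 h2 h3 h5 h6 e, ok_mv.2 h9.symm⟩
    · intro x x1 x2 x3 x4 x5
      simp only [wr, wr_powLen x1 x3 x4 x5, mv]
      simp [x2, x5]
    · intro s s1 s2 s3
      obtain ⟨k1, k2⟩ := powLen_spec (a := a) (L := a * ((s n).length + 1) ^ e + (s n).length)
        h1 h2 h3 h4 h5 h6 s1 s2 s3 (by omega) e (by omega)
      rw [eval_seq, k1, eval_mv h9.symm]
      refine ⟨?_, k2, ?_⟩
      · funext x
        by_cases q1 : x = d
        · subst q1
          simp [h9]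
        · by_cases q2 : x = t3
          · subst q2; simp [q1, s3]
          · simp [q1, q2]
      · rw [k1]
        apply LB_mv h9.symm
        simp only [update_self, List.length_replicate]
        have : a * (s n).length ^ e ≤ a * ((s n).length + 1) ^ e :=
          Nat.mul_le_mul_left _ (Nat.pow_le_pow_left (by omega) _)
        omega

end Cmd

end Pool.Agent.Helper72
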