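import Pool.Agent.Helper72.Cmd

/-!
Basic building blocks for loop programs, and polynomially bounded functions.
-/

namespace Pool.Agent.Helper72

open Function

/-! ### polynomially bounded functions -/

/-- polynomially bounded -/
def PB (f : ℕ → ℕ) : Prop := ∃ a d : ℕ, ∀ n, f n ≤ a * (n + 1) ^ d

theorem PB.mono {f g : ℕ → ℕ} (hg : PB g) (h : ∀ n, f n ≤ g n) : PB f := by
  obtain ⟨a, d, hg⟩ := hg
  exact ⟨a, d, fun n => (h n).trans (hg n)⟩

theorem PB.const (k : ℕ) : PB fun _ => k := ⟨k, 0, fun n => by simp⟩

theorem PB.id : PB fun n => n := ⟨1, 1, fun n => by simp⟩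

theorem PB.add {f g : ℕ → ℕ} (hf : PB f) (hg : PB g) : PB fun n => f n + g n := by
  obtain ⟨a, d, hf⟩ := hf
  obtain ⟨b, e, hg⟩ := hg
  refine ⟨a + b, max d e, fun n => ?_⟩
  have h1 : a * (n + 1) ^ d ≤ a * (n + 1) ^ max d e :=
    Nat.mul_le_mul_left _ (Nat.pow_le_pow_right (by omega) (le_max_left _ _))
  have h2 : b * (n + 1) ^ e ≤ b * (n + 1) ^ max d e :=
    Nat.mul_le_mul_left _ (Nat.pow_le_pow_right (by omega) (le_max_right _ _))
  have := hf n; have := hg n
  show f n + g n ≤ _
  rw [add_mul]; omega

theorem PB.mul {f g : ℕ → ℕ} (hf : PB f) (hg : PB g) : PB fun n => f n * g n := by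
  obtain ⟨a, d, hf⟩ := hf
  obtain ⟨b, e, hg⟩ := hg
  refine ⟨a * b, d + e, fun n => ?_⟩
  calc f n * g n ≤ (a * (n + 1) ^ d) * (b * (n + 1) ^ e) := Nat.mul_le_mul (hf n) (hg n)
    _ = a * b * (n + 1) ^ (d + e) := by ring

theorem PB.pow {f : ℕ → ℕ} (hf : PB f) (k : ℕ) : PB fun n => f n ^ k := by
  induction k with
  | zero => simpa using PB.const 1
  | succ k ih => simpa only [pow_succ] using ih.mul hf

theorem PB.comp {f g : ℕ → ℕ} (hf : PB f) (hg : PB g) : PB fun n => f (g n) := by
  obtain ⟨a, d, hf⟩ := hf
  exact (((PB.const a).mul ((hg.add (PB.const 1)).pow d))).mono fun n => hf (g n)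

theorem PB.max {f g : ℕ → ℕ} (hf : PB f) (hg : PB g) : PB fun n => max (f n) (g n) :=
  (hf.add hg).mono fun n => by omega

theorem PB.tb (c : Cmd) : PB c.tb := c.tb_poly

theorem PB.poly (p : Polynomial ℕ) : PB fun n => p.eval n := by
  induction p using Polynomial.induction_on' with
  | add p q hp hq => simpa using hp.add hq
  | monomial n a =>
    simp only [Polynomial.eval_monomial]
    exact (PB.const a).mul (PB.id.pow n)

/-! ### monotonicity of loop bounds -/

theorem loopLB_mono {f : Bool → St → St} {p q : Bool → St → Prop} {r : ℕ}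
    (h : ∀ b s, p b s → q b s) : ∀ (l : List Bool) (s : St), loopLB f p r l s → loopLB f q r l s
  | [], _, _ => trivial
  | _ :: l, _, ⟨h1, h2⟩ => ⟨h _ _ h1, loopLB_mono h l _ h2⟩

theorem Cmd.LB.mono {c : Cmd} {L L' : ℕ} (hL : L ≤ L') {s : St} (h : c.LB L s) :
    c.LB L' s := by
  induction c generalizing s with
  | nop => trivial
  | push r b => trivial
  | pop r => trivial
  | seq c d hc hd => exact ⟨hc h.1, hd h.2⟩
  | ite r c0 c1 c2 h0 h1 h2 =>
    rcases hs : s r with _ | ⟨_ | _, l⟩
    · simp only [LB, hs] at h ⊢; exact h0 h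
    · simp only [LB, hs] at h ⊢; exact h1 h
    · simp only [LB, hs] at h ⊢; exact h2 h
  | loop r c0 c1 h0 h1 =>
    refine ⟨h.1.trans hL, loopLB_mono (fun b s hb => ?_) _ _ h.2⟩
    cases b
    · exact h0 hb
    · exact h1 hb

/-- invariant rule for loop bounds and final states -/
theorem loop_inv {f : Bool → St → St} {p : Bool → St → Prop} {r : ℕ}
    (Inv : List Bool → St → Prop)
    (h : ∀ b l s, Inv (b :: l) s → p b (update s r l) ∧ Inv l (f b (update s r l))) :
    ∀ (l : List Bool) (s : St), Inv l s → loopLB f p r l s ∧ Inv [] (loopEval f r l s)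
  | [], _, hs => ⟨trivial, hs⟩
  | b :: l, s, hs => by
    obtain ⟨h1, h2⟩ := h b l s hs
    obtain ⟨h3, h4⟩ := loop_inv Inv h l _ h2
    exact ⟨⟨h1, h3⟩, h4⟩

/-! ### building blocks -/

/-- unary number -/
abbrev un (n : ℕ) : List Bool := List.replicate n true

namespace Cmd

@[simp] theorem eval_nop (s : St) : eval nop s = s := rfl
@[simp] theorem eval_push (r b) (s : St) : eval (push r b) s = update s r (b :: s r) := rfl
@[simp] theorem eval_pop (r) (s : St) : eval (pop r) s = update s r (s r).tail := rfl
@[simp] theorem eval_seq (c d) (s : St) : eval (seq c d) s = d.eval (c.eval s) := rfl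

@[simp] theorem LB_nop (L) (s : St) : LB L nop s := trivial
@[simp] theorem LB_push (L r b) (s : St) : LB L (push r b) s := trivial
@[simp] theorem LB_pop (L r) (s : St) : LB L (pop r) s := trivial
@[simp] theorem LB_seq (L c d) (s : St) : LB L (seq c d) s ↔ c.LB L s ∧ d.LB L (c.eval s) :=
  Iff.rfl

/-- empty a register -/
def clear (r : ℕ) : Cmd := loop r nop nop

theorem clear_loop (r : ℕ) (p : Bool → St → Prop) (hp : ∀ b s, p b s) :
    ∀ (l : List Bool) (s : St), s r = l →
    loopEval (fun b => if b then eval nop else eval nop) r l s = update s r [] ∧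
    loopLB (fun b => if b then eval nop else eval nop) p r l s
  | [], s, h => by
    constructor
    · simp [loopEval, ← h]
    · trivial
  | b :: l, s, h => by
    have hb : (if b = true then eval nop else eval nop) (update s r l)
      = update s r l := by cases b <;> rfl
    obtain ⟨h1, h2⟩ := clear_loop r p hp l (update s r l) (by simp)
    constructor
    · rw [loopEval, hb, h1]; simp
    · refine ⟨hp _ _, ?_⟩
      show loopLB _ _ _ _ ((if b = true then eval nop else eval nop) (update s r l))
      rw [hb]; exact h2

@[simp] theorem eval_clear (r : ℕ) (s : St) : (clear r).eval s = update s r [] :=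
  (clear_loop r (fun _ _ => True) (fun _ _ => trivial) _ s rfl).1

theorem LB_clear {r L : ℕ} {s : St} (h : (s r).length ≤ L) : (clear r).LB L s :=
  ⟨h, (clear_loop r _ (fun b s => by cases b <;> trivial) _ s rfl).2⟩

/-- move the content of `a` onto `b`, reversing it -/
def mv (a b : ℕ) : Cmd := loop a (push b false) (push b true)

theorem mv_loop {a b : ℕ} (hab : a ≠ b) (p : Bool → St → Prop) (hp : ∀ b s, p b s) :
    ∀ (l : List Bool) (s : St), s a = l →
    loopEval (fun x => if x then eval (push b true) else eval (push b false)) a l s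
      = update (update s a []) b (l.reverse ++ s b) ∧
    loopLB (fun x => if x then eval (push b true) else eval (push b false)) p a l s
  | [], s, h => by
    constructor
    · funext r
      by_cases h1 : r = b
      · subst h1; simp [loopEval]
      · by_cases h2 : r = a
        · subst h2; simp [loopEval, h1, h]
        · simp [loopEval, h1, h2]
    · trivial
  | x :: l, s, h => by
    have hb : (if x = true then eval (push b true) else eval (push b false))
      (update s a l) = update (update s a l) b (x :: s b) := by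
      cases x <;> simp [hab.symm]
    obtain ⟨h1, h2⟩ := mv_loop hab p hp l (update (update s a l) b (x :: s b))
      (by simp [hab])
    constructor
    · rw [loopEval, hb, h1]
      funext r
      by_cases h1 : r = b
      · subst h1; simp
      · by_cases h2 : r = a
        · subst h2; simp [hab]
        · simp [h1, h2]
    · refine ⟨hp _ _, ?_⟩
      show loopLB _ _ _ _ ((if x = true then eval (push b true) else eval (push b false))
        (update s a l))
      rw [hb]; exact h2

theorem eval_mv {a b : ℕ} (hab : a ≠ b) (s : St) :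
    (mv a b).eval s = update (update s a []) b ((s a).reverse ++ s b) :=
  (mv_loop hab (fun _ _ => True) (fun _ _ => trivial) _ s rfl).1

theorem LB_mv {a b L : ℕ} (hab : a ≠ b) {s : St} (h : (s a).length ≤ L) : (mv a b).LB L s :=
  ⟨h, (mv_loop hab _ (fun b s => by cases b <;> trivial) _ s rfl).2⟩

/-- move the content of `a` onto both `b` and `c`, reversing it -/
def mv2 (a b c : ℕ) : Cmd :=
  loop a (seq (push b false) (push c false)) (seq (push b true) (push c true))

theorem mv2_loop {a b c : ℕ} (hab : a ≠ b) (hac : a ≠ c) (hbc : b ≠ c)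
    (p : Bool → St → Prop) (hp : ∀ b s, p b s) :
    ∀ (l : List Bool) (s : St), s a = l →
    loopEval (fun x => if x then eval (seq (push b true) (push c true))
        else eval (seq (push b false) (push c false))) a l s
      = update (update (update s a []) b (l.reverse ++ s b)) c (l.reverse ++ s c) ∧
    loopLB (fun x => if x then eval (seq (push b true) (push c true))
        else eval (seq (push b false) (push c false))) p a l s
  | [], s, h => by
    constructor
    · funext r
      by_cases h1 : r = c
      · subst h1; simp [loopEval]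
      · by_cases h2 : r = b
        · subst h2; simp [loopEval, h1]
        · by_cases h3 : r = a
          · subst h3; simp [loopEval, h1, h2, h]
          · simp [loopEval, h1, h2, h3]
    · trivial
  | x :: l, s, h => by
    have hb : (if x = true then eval (seq (push b true) (push c true))
        else eval (seq (push b false) (push c false)))
      (update s a l) = update (update (update s a l) b (x :: s b)) c (x :: s c) := by
      cases x <;> simp [hab.symm, hac.symm, hbc.symm]
    obtain ⟨h1, h2⟩ := mv2_loop hab hac hbc p hp l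
      (update (update (update s a l) b (x :: s b)) c (x :: s c)) (by simp [hab, hac])
    constructor
    · rw [loopEval, hb, h1]
      funext r
      by_cases q1 : r = c
      · subst q1; simp
      · by_cases q2 : r = b
        · subst q2; simp [q1]
        · by_cases q3 : r = a
          · subst q3; simp [hab, hac]
          · simp [q1, q2, q3]
    · refine ⟨hp _ _, ?_⟩
      show loopLB _ _ _ _ ((if x = true then eval (seq (push b true) (push c true))
        else eval (seq (push b false) (push c false))) (update s a l))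
      rw [hb]; exact h2

theorem eval_mv2 {a b c : ℕ} (hab : a ≠ b) (hac : a ≠ c) (hbc : b ≠ c) (s : St) :
    (mv2 a b c).eval s =
      update (update (update s a []) b ((s a).reverse ++ s b)) c ((s a).reverse ++ s c) :=
  (mv2_loop hab hac hbc (fun _ _ => True) (fun _ _ => trivial) _ s rfl).1

theorem LB_mv2 {a b c L : ℕ} (hab : a ≠ b) (hac : a ≠ c) (hbc : b ≠ c) {s : St}
    (h : (s a).length ≤ L) : (mv2 a b c).LB L s :=
  ⟨h, (mv2_loop hab hac hbc _ (fun b s => by cases b <;> exact ⟨trivial, trivial⟩) _ s rfl).2⟩

/-- copy `a` in front of `b`, using the empty register `t` -/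
def copy (a b t : ℕ) : Cmd := seq (mv a t) (mv2 t a b)

theorem eval_copy {a b t : ℕ} (hab : a ≠ b) (hat : a ≠ t) (hbt : b ≠ t) {s : St}
    (ht : s t = []) : (copy a b t).eval s = update s b (s a ++ s b) := by
  rw [copy, eval_seq, eval_mv hat, eval_mv2 hat.symm hbt.symm hab]
  funext r
  by_cases h1 : r = b
  · subst h1; simp [ht, hab.symm, hbt]
  · by_cases h2 : r = a
    · subst h2; simp [h1, ht, hat]
    · by_cases h3 : r = t
      · subst h3; simp [h1, h2, ht]
      · simp [h1, h2, h3]

theorem LB_copy {a b t L : ℕ} (hab : a ≠ b) (hat : a ≠ t) (hbt : b ≠ t) {s : St}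
    (ht : s t = []) (h : (s a).length ≤ L) : (copy a b t).LB L s := by
  refine ⟨LB_mv hat h, LB_mv2 hat.symm hbt.symm hab ?_⟩
  rw [eval_mv hat]; simp [ht, h]

/-- copy `a` reversed in front of `b`, using the empty register `t` -/
def copyR (a b t : ℕ) : Cmd := seq (mv2 a b t) (mv t a)

theorem eval_copyR {a b t : ℕ} (hab : a ≠ b) (hat : a ≠ t) (hbt : b ≠ t) {s : St}
    (ht : s t = []) : (copyR a b t).eval s = update s b ((s a).reverse ++ s b) := by
  rw [copyR, eval_seq, eval_mv2 hab hat hbt, eval_mv hat.symm]
  funext r
  by_cases h1 : r = b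
  · subst h1; simp [hab.symm, hbt]
  · by_cases h2 : r = a
    · subst h2; simp [h1, ht, hat]
    · by_cases h3 : r = t
      · subst h3; simp [h1, h2, ht]
      · simp [h1, h2, h3]

theorem LB_copyR {a b t L : ℕ} (hab : a ≠ b) (hat : a ≠ t) (hbt : b ≠ t) {s : St}
    (ht : s t = []) (h : (s a).length ≤ L) : (copyR a b t).LB L s := by
  refine ⟨LB_mv2 hab hat hbt h, LB_mv hat.symm ?_⟩
  rw [eval_mv2 hab hat hbt]; simp [ht, h]

/-- put a constant word in front of a register -/
def pushL (r : ℕ) : List Bool → Cmd
  | [] => nop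
  | b :: l => seq (pushL r l) (push r b)

@[simp] theorem eval_pushL (r : ℕ) (l : List Bool) (s : St) :
    (pushL r l).eval s = update s r (l ++ s r) := by
  induction l with
  | nil => simp [pushL]
  | cons b l ih => simp [pushL, ih]

@[simp] theorem LB_pushL (L r : ℕ) (l : List Bool) (s : St) : (pushL r l).LB L s := by
  induction l with
  | nil => trivial
  | cons b l ih => exact ⟨ih, trivial⟩

@[simp] theorem ok_clear (r : ℕ) : (clear r).ok = true := rfl
@[simp] theorem ok_mv {a b : ℕ} : (mv a b).ok = true ↔ a ≠ b := by simp [mv, ok, wr]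
@[simp] theorem ok_mv2 {a b c : ℕ} : (mv2 a b c).ok = true ↔ a ≠ b ∧ a ≠ c := by
  simp [mv2, ok, wr]
theorem ok_copy {a b t : ℕ} (hat : a ≠ t) (hbt : b ≠ t) : (copy a b t).ok = true := by
  simp [copy, ok, hat, hat.symm, hbt.symm]
theorem ok_copyR {a b t : ℕ} (hab : a ≠ b) (hat : a ≠ t) : (copyR a b t).ok = true := by
  simp [copyR, ok, hat, hat.symm, hab]
@[simp] theorem ok_pushL (r : ℕ) (l : List Bool) : (pushL r l).ok = true := by
  induction l with
  | nil => rfl
  | cons b l ih => simp [pushL, ok, ih]
theorem wr_pushL {r x : ℕ} (l : List Bool) (h : x ≠ r) : (pushL r l).wr x = false := by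
  induction l with
  | nil => rfl
  | cons b l ih => simp [pushL, wr, ih, h]

end Cmd

end Pool.Agent.Helper72
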