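import Mathlib

/-!
Official definitions: propositional formulas and their binary code, SAT, P, NP,
universal machines, generalized Kolmogorov classes, polynomial separability.
Machines are the (multi-stack) Turing machines of Mathlib.
-/

namespace Pool.Agent.Helper72

open Turing Computability

/-- Boolean formulas over the variables `x_0, x_1, ...` -/
inductive BForm
  | var (n : ℕ)
  | neg (φ : BForm)
  | conj (φ ψ : BForm)
  | disj (φ ψ : BForm)

/-- truth value of a formula under an assignment -/
def BForm.eval (v : ℕ → Bool) : BForm → Bool
  | var n => v n
  | neg φ => !(φ.eval v)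
  | conj φ ψ => φ.eval v && ψ.eval v
  | disj φ ψ => φ.eval v || ψ.eval v

/-- Binary code of a formula: Polish notation over the six symbols `x`, `0`, `1`, `not`, `and`,
`or`, three bits per symbol; the index of a variable is written in binary after `x`. -/
def BForm.code : BForm → List Bool
  | var n => [false, false, true] ++ (encodeNat n).flatMap (fun b => [false, true, b])
  | neg φ => [true, false, false] ++ φ.code
  | conj φ ψ => [true, false, true] ++ (φ.code ++ ψ.code)
  | disj φ ψ => [true, true, false] ++ (φ.code ++ ψ.code)

/-- the language of all codes of satisfiable formulas -/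
def SAT : Set (List Bool) := {x | ∃ φ : BForm, φ.code = x ∧ ∃ v, φ.eval v = true}

/-- the language `S` is decidable in deterministic polynomial time -/
def InP (S : Set (List Bool)) : Prop :=
  ∃ χ : List Bool → Bool, (∀ x, χ x = true ↔ x ∈ S) ∧
    Nonempty (TM2ComputableInPolyTime (id : List Bool → List Bool) encodeBool χ)

/-- binary code of a pair of binary words: the letters of the first word are doubled and
followed by the separator `01` and by the second word -/
def pairCode (p : List Bool × List Bool) : List Bool :=
  p.1.flatMap (fun b => [b, b]) ++ ([false, true] ++ p.2)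

/-- the language `L` is in NP: polynomially long certificates checked in polynomial time -/
def InNP (L : Set (List Bool)) : Prop :=
  ∃ (q : Polynomial ℕ) (R : List Bool × List Bool → Bool),
    Nonempty (TM2ComputableInPolyTime pairCode encodeBool R) ∧
    ∀ z, z ∈ L ↔ ∃ w : List Bool, w.length ≤ q.eval z.length ∧ R (z, w) = true

/-- the machine `M` on input `y` outputs `x` within at most `t` steps -/
def Outputs (M : TM2ComputableAux Bool Bool) (y x : List Bool) (t : ℕ) : Prop :=
  Nonempty (TM2OutputsInTime M.tm (y.map M.inputAlphabet.invFun)
    (some (x.map M.outputAlphabet.invFun)) t)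

/-- `U` is universal: every machine is simulated with an additive constant in the
input length and polynomial overhead in time -/
def IsUniversal (U : TM2ComputableAux Bool Bool) : Prop :=
  ∀ M : TM2ComputableAux Bool Bool, ∃ (e : List Bool → List Bool) (c : ℕ),
    (∀ y, (e y).length ≤ y.length + c) ∧
    ∀ y x t, Outputs M y x t → Outputs U (e y) x (c * (t + y.length + 1) ^ c)

/-- the generalized Kolmogorov class `K[g(n), G(n)]` for the machine `U` -/
def KClass (U : TM2ComputableAux Bool Bool) (g G : ℕ → ℕ) : Set (List Bool) :=
  {x | ∃ y : List Bool, y.length ≤ g x.length ∧ ∃ t < G x.length, Outputs U y x t}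

/-- `A` and `B` are polynomially separable -/
def PolySep (A B : Set (List Bool)) : Prop :=
  ∃ S, InP S ∧ A ⊆ S ∧ S ∩ B = ∅

end Pool.Agent.Helper72
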