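import Pool.Agent.Helper72.ProgStep
import Pool.Agent.Helper73.GenProg.Main
import Pool.Agent.Helper9.DecCmd
import Pool.Agent.Helper4.Glue

/-!
Instances of the program interfaces.
-/

namespace Pool.Agent.Helper72

open Function Turing Computability

theorem exists_genSpec (P : List Instr) (k acc : ℕ) : ∃ g T, GenSpec P k acc g T := by
  obtain ⟨g, hok, hwr, T, hT, hm, h⟩ := Pool.Agent.Helper73.GenProg.exists_genTab P k acc
  obtain ⟨T', hT', hm', h'⟩ := Pool.Agent.Helper73.GenProg.tabF_len_le P k acc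
  refine ⟨g, fun n => T n + T' n, hT.add hT', hm.add hm', hok, hwr, fun B s h9 h10 hs => ?_,
    fun B => (h' B).trans (Nat.le_add_left _ _)⟩
  obtain ⟨h1, h2⟩ := h B s h9 h10 hs
  exact ⟨h1, h2.mono (Nat.le_add_right _ _)⟩

theorem exists_prefSpec (Cn : ℕ) : ∃ g T, PrefSpec Cn g T := by
  refine ⟨Pool.Agent.Helper73.GenProg.genPref Cn, fun n => n * (Cn + 1),
    PB.id.mul (PB.const _), fun a b h => Nat.mul_le_mul_right _ h,
    Pool.Agent.Helper73.GenProg.ok_genPref Cn,
    fun x hx => Pool.Agent.Helper73.GenProg.wr_genPref hx Cn, fun s hs => ?_⟩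
  exact Pool.Agent.Helper73.GenProg.genPref_run Cn hs le_rfl

theorem exists_endSpec : ∃ g T, AddSpec endC g T := by
  refine ⟨Pool.Agent.Helper73.GenProg.genEnd, fun n => n, PB.id, fun a b h => h,
    Pool.Agent.Helper73.GenProg.ok_genEnd,
    fun x hx => Pool.Agent.Helper73.GenProg.wr_genEnd hx, fun b s h13 hs => ?_⟩
  exact Pool.Agent.Helper73.GenProg.genEnd_run hs h13 le_rfl

theorem exists_bitSpec (y : Bool) : ∃ g T, AddSpec (bitC y) g T := by
  refine ⟨Pool.Agent.Helper73.GenProg.genBit y, fun n => n, PB.id, fun a b h => h,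
    Pool.Agent.Helper73.GenProg.ok_genBit y,
    fun x hx => Pool.Agent.Helper73.GenProg.wr_genBit hx y, fun b s h13 hs => ?_⟩
  exact Pool.Agent.Helper73.GenProg.genBit_run y hs h13 le_rfl

theorem exists_neSpec (Cn : ℕ) : ∃ g T, NonEmptySpec Cn g T := by
  refine ⟨Pool.Agent.Helper73.GenProg.genNonEmpty Cn, fun n => n * (Cn + 1),
    PB.id.mul (PB.const _), fun a b h => Nat.mul_le_mul_right _ h,
    Pool.Agent.Helper73.GenProg.ok_genNonEmpty Cn,
    fun x hx => Pool.Agent.Helper73.GenProg.wr_genNonEmpty hx Cn, fun N s h12 hs => ?_⟩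
  exact Pool.Agent.Helper73.GenProg.genNonEmpty_run Cn hs h12 le_rfl

theorem exists_decSpec {α : Type} (ea : α → List Bool) (χ : α → Bool)
    (h : Nonempty (TM2ComputableInPolyTime ea encodeBool χ)) :
    ∃ c T, DecSpec ea χ c T := by
  obtain ⟨c, T, hT, hm, hok, hwr, hsp⟩ :=
    Pool.Agent.Helper9.TM2Sim.exists_decCmd ea χ h 100
  exact ⟨c, T, hT, hm, hok, hwr, hsp⟩

theorem exists_polySpec (q : Polynomial ℕ) {n d : ℕ} (hn : n < 35) (hd : d < 35)
    (hnd : n ≠ d) : ∃ c T, PolySpec (fun m => q.eval m) n d c T := by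
  obtain ⟨c, T, hT, hm, hok, hwr, hsp⟩ := Cmd.exists_poly q (n := n) (d := d) (t1 := 35)
    (t2 := 36) (t3 := 37) (by omega) (by omega) (by omega) (by omega) (by omega) (by omega)
    (by omega) (by omega) (by omega) hnd
  exact ⟨c, T, hT, hm, hok, hwr, hsp⟩

end Pool.Agent.Helper72
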