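import Pool.Agent.Helper72.Defs

/-!
The binary code of formulas is injective.
-/

namespace Pool.Agent.Helper72

open Computability

/-- the word does not begin with the code of a digit -/
def ND (a : List Bool) : Prop := ∀ l, a ≠ false :: true :: l

theorem nd_nil : ND [] := fun _ h => by cases h

theorem nd_code (φ : BForm) (l : List Bool) : ND (φ.code ++ l) := by
  intro m h
  cases φ <;> simp [BForm.code] at h

theorem digits_inj : ∀ (l l' a b : List Bool), ND a → ND b →
    l.flatMap (fun b => [false, true, b]) ++ a = l'.flatMap (fun b => [false, true, b]) ++ b →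
    l = l' ∧ a = b
  | [], [], a, b, _, _, h => ⟨rfl, by simpa using h⟩
  | [], c :: l', a, b, ha, _, h => by
    exact absurd (by simpa using h) (ha (c :: (l'.flatMap (fun b => [false, true, b]) ++ b)))
  | c :: l, [], a, b, _, hb, h => by
    exact absurd (by simpa using h.symm) (hb (c :: (l.flatMap (fun b => [false, true, b]) ++ a)))
  | c :: l, c' :: l', a, b, ha, hb, h => by
    simp only [List.flatMap_cons, List.cons_append, List.nil_append, List.cons.injEq,
      true_and] at h
    obtain ⟨h1, h2⟩ := h
    obtain ⟨h3, h4⟩ := digits_inj l l' a b ha hb h2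
    exact ⟨by rw [h1, h3], h4⟩

theorem encodeNat_injective : Function.Injective encodeNat := fun a b h => by
  have := congrArg decodeNat h
  rwa [decode_encodeNat, decode_encodeNat] at this

theorem code_prefix : ∀ (φ ψ : BForm) (a b : List Bool), ND a → ND b →
    φ.code ++ a = ψ.code ++ b → φ = ψ ∧ a = b := by
  intro φ
  induction φ with
  | var n =>
    intro ψ a b ha hb h
    cases ψ with
    | var m =>
      simp only [BForm.code, List.append_assoc, List.cons_append, List.nil_append,
        List.cons.injEq, true_and] at h
      obtain ⟨h1, h2⟩ := digits_inj _ _ _ _ ha hb h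
      exact ⟨by rw [encodeNat_injective h1], h2⟩
    | neg _ => simp [BForm.code] at h
    | conj _ _ => simp [BForm.code] at h
    | disj _ _ => simp [BForm.code] at h
  | neg φ ih =>
    intro ψ a b ha hb h
    cases ψ with
    | var m => simp [BForm.code] at h
    | neg ψ =>
      simp only [BForm.code, List.append_assoc, List.cons_append, List.nil_append,
        List.cons.injEq, true_and] at h
      obtain ⟨h1, h2⟩ := ih _ _ _ ha hb h
      exact ⟨by rw [h1], h2⟩
    | conj _ _ => simp [BForm.code] at h
    | disj _ _ => simp [BForm.code] at h
  | conj φ φ' ih ih' =>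
    intro ψ a b ha hb h
    cases ψ with
    | var m => simp [BForm.code] at h
    | neg _ => simp [BForm.code] at h
    | conj ψ ψ' =>
      simp only [BForm.code, List.append_assoc, List.cons_append, List.nil_append,
        List.cons.injEq, true_and] at h
      obtain ⟨h1, h2⟩ := ih _ _ _ (nd_code _ _) (nd_code _ _) h
      obtain ⟨h3, h4⟩ := ih' _ _ _ ha hb h2
      exact ⟨by rw [h1, h3], h4⟩
    | disj _ _ => simp [BForm.code] at h
  | disj φ φ' ih ih' =>
    intro ψ a b ha hb h
    cases ψ with
    | var m => simp [BForm.code] at h
    | neg _ => simp [BForm.code] at h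
    | conj _ _ => simp [BForm.code] at h
    | disj ψ ψ' =>
      simp only [BForm.code, List.append_assoc, List.cons_append, List.nil_append,
        List.cons.injEq, true_and] at h
      obtain ⟨h1, h2⟩ := ih _ _ _ (nd_code _ _) (nd_code _ _) h
      obtain ⟨h3, h4⟩ := ih' _ _ _ ha hb h2
      exact ⟨by rw [h1, h3], h4⟩

theorem code_injective : Function.Injective BForm.code := by
  intro φ ψ h
  exact (code_prefix φ ψ [] [] nd_nil nd_nil (by simpa using h)).1

end Pool.Agent.Helper72
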