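import Pool.Agent.Helper72.TabComplete

/-!
Specification of the tableau formula of a loop program.
-/

namespace Pool.Agent.Helper72

open Function

/-! ### truth of clause formulas -/

/-- truth of an absolute clause under `A` -/
def satA (A : ℕ → Bool) (C : ACls) : Prop := ∃ l ∈ C, A l.2 = l.1

/-- the values of the named variables -/
def nval (v : ℕ → Bool) (n : ℕ) : Bool := v (2 ^ n - 1)

theorem eval_litForm (v : ℕ → Bool) (l : Bool × ℕ) :
    (litForm l).eval v = true ↔ nval v l.2 = l.1 := by
  obtain ⟨b, n⟩ := l
  cases b <;> simp [litForm, BForm.eval, nval]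

theorem eval_clsForm (v : ℕ → Bool) (C : ACls) :
    (clsForm C).eval v = true ↔ satA (nval v) C := by
  induction C with
  | nil => simp [clsForm, BForm.eval, satA]
  | cons l C ih =>
    rw [clsForm, BForm.eval, Bool.or_eq_true, ih, eval_litForm]
    simp [satA]

theorem eval_addF (v : ℕ → Bool) (Cs : List ACls) (ψ : BForm) :
    (addF Cs ψ).eval v = true ↔ (∀ C ∈ Cs, satA (nval v) C) ∧ ψ.eval v = true := by
  induction Cs generalizing ψ with
  | nil => simp [addF]
  | cons C Cs ih =>
    have : addF (C :: Cs) ψ = addF Cs (.conj (clsForm C) ψ) := rfl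
    rw [this, ih, BForm.eval, Bool.and_eq_true, eval_clsForm]
    simp only [List.mem_cons, forall_eq_or_imp]
    tauto

theorem addF_append (Cs Ds : List ACls) (ψ : BForm) :
    addF (Cs ++ Ds) ψ = addF Ds (addF Cs ψ) := by
  simp [addF]

theorem mem_seqC {step : ℕ} {g : ℕ → List ACls} {n b : ℕ} {C : ACls} :
    C ∈ seqC step g n b ↔ ∃ i < n, C ∈ g (b + i * step) := by
  induction n generalizing b with
  | zero => simp [seqC]
  | succ n ih =>
    rw [seqC, List.mem_append, ih]
    constructor
    · rintro (h | ⟨i, hi, h⟩)
      · exact ⟨0, by omega, by simpa using h⟩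
      · refine ⟨i + 1, by omega, ?_⟩
        rwa [show b + (i + 1) * step = b + step + i * step by ring]
    · rintro ⟨i, hi, h⟩
      cases i with
      | zero => left; simpa using h
      | succ i =>
        right
        refine ⟨i, by omega, ?_⟩
        rwa [show b + (i + 1) * step = b + step + i * step by ring] at h

/-- instance of a template under `A`, in terms of the three-index table -/
theorem satA_instL {A : ℕ → Bool} {Cn R t h : ℕ} {C : List Lit} :
    satA A (instL Cn R (t * R + h * Cn) C) ↔
      tsat (fun t h c => A (t * R + h * Cn + c)) t h C := by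
  simp only [satA, instL, tsat, List.mem_map]
  constructor
  · rintro ⟨_, ⟨l, hl, rfl⟩, hA⟩
    refine ⟨l, hl, Eq.trans ?_ hA⟩
    congr 1
    obtain ⟨sg, nx, dh, c⟩ := l
    cases nx <;> cases dh <;> simp <;> ring
  · rintro ⟨l, hl, hA⟩
    refine ⟨_, ⟨l, hl, rfl⟩, Eq.trans ?_ hA⟩
    congr 1
    obtain ⟨sg, nx, dh, c⟩ := l
    cases nx <;> cases dh <;> simp <;> ring

theorem sat_tabC {P : List Instr} {k acc B : ℕ} {A : ℕ → Bool} :
    (∀ C ∈ tabC P k acc B, satA A C) ↔
      TabSat P k acc B (fun t h c => A (t * nRow P k B + h * nCh P k + c)) := by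
  have hV : ∀ (t h : ℕ) (C : List Lit),
      satA A (instL (nCh P k) (nRow P k B) (t * nRow P k B + h * nCh P k) C) ↔
      tsat (fun t h c => A (t * nRow P k B + h * nCh P k + c)) t h C :=
    fun t h C => satA_instL
  constructor
  · intro H
    refine ⟨?_, ?_, ?_, ?_, ?_, ?_⟩
    · intro t ht C hC
      rw [← hV]
      apply H
      simp only [tabC, List.mem_append]
      left
      rw [mem_seqC]
      refine ⟨t, ht, ?_⟩
      simp only [rowC, List.mem_append, List.mem_map]
      left
      exact ⟨C, hC, by simp⟩
    · intro t ht h hh C hC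
      rw [← hV]
      apply H
      simp only [tabC, List.mem_append]
      left
      rw [mem_seqC]
      refine ⟨t, ht, ?_⟩
      simp only [rowC, List.mem_append]
      right; left
      rw [mem_seqC]
      exact ⟨h, hh, List.mem_map.2 ⟨C, hC, by simp⟩⟩
    · intro t ht C hC
      rw [← hV]
      apply H
      simp only [tabC, List.mem_append]
      left
      rw [mem_seqC]
      refine ⟨t, ht, ?_⟩
      simp only [rowC, List.mem_append]
      right; right
      exact List.mem_map.2 ⟨C, hC, by simp⟩
    · intro C hC
      rw [← hV]
      apply H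
      simp only [tabC, List.mem_append]
      right; left
      exact List.mem_map.2 ⟨C, hC, by simp⟩
    · intro C hC
      rw [← hV]
      apply H
      simp only [tabC, List.mem_append]
      right; right; left
      exact List.mem_map.2 ⟨C, hC, by simp⟩
    · intro h hh C hC
      rw [← hV]
      apply H
      simp only [tabC, List.mem_append]
      right; right; right
      rw [mem_seqC]
      exact ⟨h, hh, List.mem_map.2 ⟨C, hC, by simp⟩⟩
  · intro H C hC
    simp only [tabC, List.mem_append] at hC
    rcases hC with hC | hC | hC | hC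
    · rw [mem_seqC] at hC
      obtain ⟨t, ht, hC⟩ := hC
      simp only [rowC, List.mem_append] at hC
      rcases hC with hC | hC | hC
      · obtain ⟨D, hD, rfl⟩ := List.mem_map.1 hC
        have := (hV t 0 D).2 (H.edge t ht D hD)
        simpa using this
      · rw [mem_seqC] at hC
        obtain ⟨h, hh, hC⟩ := hC
        obtain ⟨D, hD, rfl⟩ := List.mem_map.1 hC
        have := (hV t h D).2 (H.body t ht h hh D hD)
        simpa using this
      · obtain ⟨D, hD, rfl⟩ := List.mem_map.1 hC
        have := (hV t B D).2 (H.last t ht D hD)
        simpa using this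
    · obtain ⟨D, hD, rfl⟩ := List.mem_map.1 hC
      have := (hV B 0 D).2 (H.fin D hD)
      simpa using this
    · obtain ⟨D, hD, rfl⟩ := List.mem_map.1 hC
      have := (hV 0 0 D).2 (H.init0 D hD)
      simpa using this
    · rw [mem_seqC] at hC
      obtain ⟨h, hh, hC⟩ := hC
      obtain ⟨D, hD, rfl⟩ := List.mem_map.1 hC
      have := (hV 0 h D).2 (H.initB h hh D hD)
      simpa using this

/-- `TabSat` only looks at cells within the table -/
theorem tsat_congr {V W : ℕ → ℕ → ℕ → Bool} {t h B Cn : ℕ} {C : List Lit}
    (hVW : ∀ t ≤ B, ∀ h ≤ B, ∀ c < Cn, V t h c = W t h c)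
    (ht : ∀ l ∈ C, t + l.nxt.toNat ≤ B) (hh : ∀ l ∈ C, h + l.dh.toNat ≤ B)
    (hc : ∀ l ∈ C, l.c < Cn) (H : tsat V t h C) : tsat W t h C := by
  obtain ⟨l, hl, hv⟩ := H
  exact ⟨l, hl, by rw [← hVW _ (ht l hl) _ (hh l hl) _ (hc l hl)]; exact hv⟩

/-! ### jump targets and growth -/

theorem Cmd.comp_tgt {c : Cmd} {N : ℕ} (a e : ℕ) (ha : a + c.size ≤ N) (he : e ≤ N) :
    ∀ ins ∈ c.comp a e, ins.tgt N := by
  induction c generalizing a e with
  | nop => simp [comp, Instr.tgt, he]
  | push r b => simp [comp, Instr.tgt, he]
  | pop r => simp [comp, Instr.tgt, he]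
  | seq c d hc hd =>
    intro ins h
    simp only [size] at ha
    simp only [comp, List.mem_append] at h
    rcases h with h | h
    · exact hc _ _ (by omega) (by omega) _ h
    · exact hd _ _ (by omega) (by omega) _ h
  | ite r c0 c1 c2 h0 h1 h2 =>
    intro ins h
    simp only [size] at ha
    simp only [comp, List.mem_append, List.mem_cons] at h
    rcases h with h | h | h | h
    · subst h; simp only [Instr.tgt]; omega
    · exact h0 _ _ (by omega) (by omega) _ h
    · exact h1 _ _ (by omega) (by omega) _ h
    · exact h2 _ _ (by omega) (by omega) _ h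
  | loop r c0 c1 h0 h1 =>
    intro ins h
    simp only [size] at ha
    simp only [comp, List.mem_append, List.mem_cons] at h
    rcases h with h | h | h | h | h
    · subst h; simp only [Instr.tgt]; omega
    · subst h; simp only [Instr.tgt]; omega
    · exact h0 _ _ (by omega) (by omega) _ h
    · subst h; simp only [Instr.tgt]; omega
    · exact h1 _ _ (by omega) (by omega) _ h

theorem fstep_length (P : List Instr) (c : ℕ × St) (r : ℕ) :
    ((fstep P c).2 r).length ≤ (c.2 r).length + 1 := by
  unfold fstep
  rcases P[c.1]? with _ | i
  · simp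
  · cases i with
    | push r0 b n =>
      simp only [Instr.exec, update_apply]
      split_ifs with h
      · subst h; simp
      · simp
    | pop r0 n =>
      simp only [Instr.exec, update_apply]
      split_ifs with h
      · subst h; simp; omega
      · simp
    | test r0 n0 n1 n2 => simp [Instr.exec]

theorem iter_length (P : List Instr) (c : ℕ × St) (r t : ℕ) :
    (((fstep P)^[t] c).2 r).length ≤ (c.2 r).length + t := by
  induction t with
  | zero => simp
  | succ t ih =>
    rw [iterate_succ_apply']
    have := fstep_length P ((fstep P)^[t] c) r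
    omega

/-! ### the specification -/

/-- flat code of a program -/
def Cmd.code (c : Cmd) : List Instr := c.comp 0 c.size

theorem Cmd.code_length (c : Cmd) : c.code.length = c.size := by simp [code]

theorem tabF_sound2 {c : Cmd} {k acc B : ℕ} (hok : c.ok = true) (hbd : c.bd ≤ k) (hk : 2 ≤ k)
    (hacc : acc < k) (hB : 0 < B) {v : ℕ → Bool}
    (hv : (tabF c.code k acc B).eval v = true) :
    ∃ z w : List Bool, z.length ≤ B ∧ w.length ≤ B ∧
      ((∀ h ≤ B, ∀ b : Bool, nval v (h * nCh c.code k + b.toNat) = true ↔ z[h]? = some b) ∧
        (∀ h ≤ B, ∀ b : Bool, nval v (2 + h * nCh c.code k + b.toNat) = true ↔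
          w[h]? = some b)) ∧
      (c.eval (init2 z w) acc)[0]? = some true := by
  rw [tabF, eval_addF] at hv
  have hts := sat_tabC.1 hv.1
  have hP : ∀ i ∈ c.code, i.tgt c.code.length := by
    rw [c.code_length]; exact Cmd.comp_tgt _ _ (by omega) le_rfl
  have hreg : ∀ i ∈ c.code, i.reg < k := fun i hi => (Cmd.comp_reg _ _ _ hi).trans_le hbd
  obtain ⟨z, w, hz, hw, ⟨hcell, hcell2⟩, hpc, hac⟩ := tab_sound2 hP hreg hk hacc hB hts
  refine ⟨z, w, hz, hw, ⟨fun h hh b => ?_, fun h hh b => ?_⟩, ?_⟩
  · rw [← hcell h hh b]; simp
  · rw [← hcell2 h hh b]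
    simp only [Nat.zero_mul, Nat.zero_add]
    rw [show 2 + h * nCh c.code k + b.toNat = h * nCh c.code k + (2 + b.toNat) by ring]
  · have hrun := Cmd.comp_run (P := c.code) hok (codeAt_self _) (init2 z w)
    rcases le_total (c.time (init2 z w)) B with hle | hle
    · obtain ⟨d, hd⟩ := Nat.exists_eq_add_of_le hle
      rw [hd, add_comm, iterate_add_apply, hrun] at hac
      rw [fstep_fixed (by rw [c.code_length])] at hac
      exact hac
    · obtain ⟨d, hd⟩ := Nat.exists_eq_add_of_le hle
      rw [hd, add_comm, iterate_add_apply, fstep_fixed (by rw [hpc])] at hrun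
      rw [hrun] at hac
      exact hac

theorem tabF_sound {c : Cmd} {k acc B : ℕ} (hok : c.ok = true) (hbd : c.bd ≤ k) (hk : 2 ≤ k)
    (hacc : acc < k) (hB : 0 < B) {v : ℕ → Bool}
    (hv : (tabF c.code k acc B).eval v = true) :
    ∃ z w : List Bool, z.length ≤ B ∧ w.length ≤ B ∧
      (∀ h ≤ B, ∀ b : Bool, nval v (h * nCh c.code k + b.toNat) = true ↔ z[h]? = some b) ∧
      (c.eval (init2 z w) acc)[0]? = some true := by
  obtain ⟨z, w, h1, h2, h3, h4⟩ := tabF_sound2 hok hbd hk hacc hB hv
  exact ⟨z, w, h1, h2, h3.1, h4⟩

theorem Cmd.iter_length_le {c : Cmd} (hok : c.ok = true) (z w : List Bool) {B : ℕ}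
    (hB : max z.length w.length + c.time (init2 z w) ≤ B) (t r : ℕ) :
    (((fstep c.code)^[t] (0, init2 z w)).2 r).length ≤ B := by
  have hrun := Cmd.comp_run (P := c.code) hok (codeAt_self _) (init2 z w)
  have h0 : (init2 z w r).length ≤ max z.length w.length := by
    simp only [init2]; split_ifs <;> simp
  rcases le_total t (c.time (init2 z w)) with hle | hle
  · have := iter_length c.code (0, init2 z w) r t
    simp only at this
    omega
  · obtain ⟨d, hd⟩ := Nat.exists_eq_add_of_le hle
    have h1 := iter_length c.code (0, init2 z w) r (c.time (init2 z w))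
    simp only at h1
    rw [hd, add_comm, iterate_add_apply, hrun, fstep_fixed (by rw [c.code_length])]
    rw [hrun] at h1
    simp only at h1 ⊢
    omega

/-- the assignment to the formula variables given by a numbered assignment -/
def unnval (A : ℕ → Bool) (m : ℕ) : Bool := A (Nat.log 2 (m + 1))

theorem nval_unnval (A : ℕ → Bool) : nval (unnval A) = A := by
  funext n
  have h1 : 0 < 2 ^ n := by positivity
  rw [nval, unnval, show 2 ^ n - 1 + 1 = 2 ^ n by omega, Nat.log_pow (by norm_num)]

theorem mem_keepT {k q r : ℕ} {ds dt : Bool} {C : List Lit} (hC : C ∈ keepT k q r ds dt)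
    {l : Lit} (hl : l ∈ C) : l.c = 2 * k + q ∨ l.c = 2 * r ∨ l.c = 2 * r + 1 := by
  simp only [keepT, List.mem_flatMap, List.mem_cons, List.not_mem_nil, or_false] at hC
  obtain ⟨b, -, rfl | rfl⟩ := hC <;> cases b <;> simp at hl <;> rcases hl with rfl | rfl | rfl <;>
    simp

theorem tabF_complete {c : Cmd} {k acc B : ℕ} (hok : c.ok = true) (hbd : c.bd ≤ k)
    (hacc : acc < k) {z w : List Bool}
    (hB : max z.length w.length + c.time (init2 z w) ≤ B)
    (hac : (c.eval (init2 z w) acc)[0]? = some true) :
    ∃ v : ℕ → Bool, (tabF c.code k acc B).eval v = true ∧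
      ∀ h ≤ B, ∀ b : Bool, nval v (h * nCh c.code k + b.toNat) = true ↔ z[h]? = some b := by
  have hP : ∀ i ∈ c.code, i.tgt c.code.length := by
    rw [c.code_length]; exact Cmd.comp_tgt _ _ (by omega) le_rfl
  have hreg : ∀ i ∈ c.code, i.reg < k := fun i hi => (Cmd.comp_reg _ _ _ hi).trans_le hbd
  have hrun := Cmd.comp_run (P := c.code) hok (codeAt_self _) (init2 z w)
  have hrunB : (fstep c.code)^[B] (0, init2 z w) = (c.size, c.eval (init2 z w)) := by
    obtain ⟨d, hd⟩ := Nat.exists_eq_add_of_le
      (show c.time (init2 z w) ≤ B by omega)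
    rw [hd, add_comm, iterate_add_apply, hrun, fstep_fixed (by rw [c.code_length])]
  have hcomp := tab_complete (P := c.code) (k := k) (acc := acc) (B := B) hreg hacc z w
    (fun t _ r => c.iter_length_le hok z w hB t r) (by rw [hrunB, c.code_length])
    (by rw [hrunB]; exact hac)
  set run : ℕ → ℕ × St := fun t => (fstep c.code)^[t] (0, init2 z w) with hrundef
  set Cn := nCh c.code k with hCn
  set R := nRow c.code k B with hR
  have hCpos : 0 < Cn := by simp [hCn, nCh]
  have hRC : R = (B + 1) * Cn := rfl
  let A : ℕ → Bool := fun n => canV k run (n / R) ((n % R) / Cn) ((n % R) % Cn)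
  have hRpos : 0 < R := by rw [hRC]; positivity
  have hdec : ∀ t, ∀ h ≤ B, ∀ c < Cn, A (t * R + h * Cn + c) = canV k run t h c := by
    intro t h hh c hc
    have h1 : h * Cn + c < R := by
      rw [hRC]
      calc h * Cn + c < h * Cn + Cn := by omega
        _ = (h + 1) * Cn := by ring
        _ ≤ (B + 1) * Cn := Nat.mul_le_mul_right _ (by omega)
    have e1 : (t * R + h * Cn + c) / R = t := by
      rw [add_assoc, add_comm, Nat.add_mul_div_right _ _ hRpos, Nat.div_eq_of_lt h1, zero_add]
    have e2 : (t * R + h * Cn + c) % R = h * Cn + c := by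
      rw [add_assoc, add_comm, Nat.add_mul_mod_self_right, Nat.mod_eq_of_lt h1]
    have e3 : (h * Cn + c) / Cn = h := by
      rw [add_comm, Nat.add_mul_div_right _ _ hCpos, Nat.div_eq_of_lt hc, zero_add]
    have e4 : (h * Cn + c) % Cn = c := by
      rw [add_comm, Nat.add_mul_mod_self_right, Nat.mod_eq_of_lt hc]
    simp only [A, e1, e2, e3, e4]
  have hV : ∀ t ≤ B, ∀ h ≤ B, ∀ c < Cn,
      canV k run t h c = (fun t h c => A (t * R + h * Cn + c)) t h c :=
    fun t _ h hh c hc => (hdec t h hh c hc).symm
  have hlenc : ∀ n ≤ c.code.length, 2 * k + n < Cn := by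
    intro n hn; rw [hCn, nCh]; omega
  have hcell : ∀ r < k, 2 * r < Cn ∧ 2 * r + 1 < Cn := by
    intro r hr; rw [hCn, nCh]; omega
  have htab : TabSat c.code k acc B (fun t h c => A (t * R + h * Cn + c)) := by
    refine ⟨?_, ?_, ?_, ?_, ?_, ?_⟩
    · intro t ht C hC
      have hmem := hC
      simp only [edgeT, List.mem_flatMap, List.mem_range] at hC
      obtain ⟨q, hq, hC⟩ := hC
      refine tsat_congr (B := B) (Cn := Cn) hV ?_ ?_ ?_ (hcomp.edge t ht C hmem)
      · intro l _; cases l.nxt <;> simp <;> omega
      · intro l hl
        rcases hins : c.code[q]? with _ | ins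
        · simp only [edgeTq, hins, List.mem_cons, List.not_mem_nil, or_false] at hC
          subst hC
          simp at hl; rcases hl with rfl | rfl <;> simp
        · cases ins with
          | push r b n =>
            simp only [edgeTq, hins, List.mem_cons, List.not_mem_nil, or_false] at hC
            rcases hC with rfl | rfl | rfl <;> simp at hl <;> rcases hl with rfl | rfl <;> simp
          | pop r n =>
            simp only [edgeTq, hins, List.mem_cons, List.not_mem_nil, or_false] at hC
            subst hC; simp at hl; rcases hl with rfl | rfl <;> simp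
          | test r n0 n1 n2 =>
            simp only [edgeTq, hins, List.mem_cons, List.not_mem_nil, or_false] at hC
            rcases hC with rfl | rfl | rfl <;> simp at hl
            · rcases hl with rfl | rfl | rfl | rfl <;> simp
            · rcases hl with rfl | rfl | rfl <;> simp
            · rcases hl with rfl | rfl | rfl <;> simp
      · intro l hl
        have hq' := hlenc q (by omega)
        rcases hins : c.code[q]? with _ | ins
        · simp only [edgeTq, hins, List.mem_cons, List.not_mem_nil, or_false] at hC
          subst hC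
          simp at hl; rcases hl with rfl | rfl <;> exact hq'
        · have hmem' := List.mem_of_getElem? hins
          have htg := hP _ hmem'
          have hrg := hreg _ hmem'
          cases ins with
          | push r b n =>
            simp only [Instr.reg] at hrg
            simp only [Instr.tgt] at htg
            have := hcell r hrg
            have := hlenc n htg
            simp only [edgeTq, hins, List.mem_cons, List.not_mem_nil, or_false] at hC
            rcases hC with rfl | rfl | rfl <;> simp at hl <;> rcases hl with rfl | rfl <;>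
              cases b <;> simp <;> omega
          | pop r n =>
            simp only [Instr.tgt] at htg
            have := hlenc n htg
            simp only [edgeTq, hins, List.mem_cons, List.not_mem_nil, or_false] at hC
            subst hC; simp at hl; rcases hl with rfl | rfl <;> simp <;> omega
          | test r n0 n1 n2 =>
            simp only [Instr.reg] at hrg
            simp only [Instr.tgt] at htg
            have := hcell r hrg
            have := hlenc n0 htg.1
            have := hlenc n1 htg.2.1
            have := hlenc n2 htg.2.2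
            simp only [edgeTq, hins, List.mem_cons, List.not_mem_nil, or_false] at hC
            rcases hC with rfl | rfl | rfl <;> simp at hl
            · rcases hl with rfl | rfl | rfl | rfl <;> simp <;> omega
            · rcases hl with rfl | rfl | rfl <;> simp <;> omega
            · rcases hl with rfl | rfl | rfl <;> simp <;> omega
    · intro t ht h hh C hC
      have hmem := hC
      simp only [bodyT, List.mem_flatMap, List.mem_range, List.mem_cons] at hC
      obtain ⟨q, hq, hC⟩ := hC
      refine tsat_congr (B := B) (Cn := Cn) hV ?_ ?_ ?_ (hcomp.body t ht h hh C hmem)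
      · intro l _; cases l.nxt <;> simp <;> omega
      · intro l _; cases l.dh <;> simp <;> omega
      · intro l hl
        have hq' := hlenc q (by omega)
        rcases hC with rfl | ⟨r, hr, hC⟩
        · simp at hl; rcases hl with rfl | rfl <;> exact hq'
        · have := hcell r hr
          rcases mem_keepT hC hl with h | h | h <;> omega
    · intro t ht C hC
      have hmem := hC
      simp only [lastT, List.mem_flatMap, List.mem_range, List.mem_cons, List.not_mem_nil,
        or_false] at hC
      obtain ⟨r, hr, b, -, hC⟩ := hC
      have := hcell r hr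
      refine tsat_congr (B := B) (Cn := Cn) hV ?_ ?_ ?_ (hcomp.last t ht C hmem)
      · intro l _; cases l.nxt <;> simp <;> omega
      · intro l hl
        rcases hC with rfl | rfl <;> simp at hl <;> subst hl <;> simp
      · intro l hl
        rcases hC with rfl | rfl <;> simp at hl <;> subst hl <;> cases b <;> simp <;> omega
    · intro C hC
      have hmem := hC
      simp only [finT, List.mem_cons, List.mem_map, List.mem_range] at hC
      have := hcell acc hacc
      refine tsat_congr (B := B) (Cn := Cn) hV ?_ ?_ ?_ (hcomp.fin C hmem)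
      · intro l hl
        rcases hC with rfl | ⟨q, hq, rfl⟩ <;> simp at hl <;> subst hl <;> simp
      · intro l hl
        rcases hC with rfl | ⟨q, hq, rfl⟩ <;> simp at hl <;> subst hl <;> simp
      · intro l hl
        rcases hC with rfl | ⟨q, hq, rfl⟩
        · simp at hl; subst hl; simp; omega
        · simp at hl; subst hl; exact hlenc q (by omega)
    · intro C hC
      have hmem := hC
      simp only [init0T, List.mem_cons, List.not_mem_nil, or_false] at hC
      refine tsat_congr (B := B) (Cn := Cn) hV ?_ ?_ ?_ (hcomp.init0 C hmem)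
      · intro l hl; subst hC; simp at hl; subst hl; simp
      · intro l hl; subst hC; simp at hl; subst hl; simp
      · intro l hl; subst hC; simp at hl; subst hl; simpa using hlenc 0 (by omega)
    · intro h hh C hC
      have hmem := hC
      simp only [initBT, List.mem_flatMap, List.mem_range] at hC
      obtain ⟨r, hr, hC⟩ := hC
      have := hcell r hr
      refine tsat_congr (B := B) (Cn := Cn) hV ?_ ?_ ?_ (hcomp.initB h hh C hmem)
      · intro l hl
        split_ifs at hC with h2
        · simp only [List.mem_cons, List.not_mem_nil, or_false] at hC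
          rcases hC with rfl | rfl | rfl <;> simp at hl
          · rcases hl with rfl | rfl <;> simp
          · rcases hl with rfl | rfl | rfl <;> simp
          · rcases hl with rfl | rfl | rfl <;> simp
        · simp only [List.mem_cons, List.not_mem_nil, or_false] at hC
          rcases hC with rfl | rfl <;> simp at hl <;> subst hl <;> simp
      · intro l _; cases l.dh <;> simp <;> omega
      · intro l hl
        split_ifs at hC with h2
        · simp only [List.mem_cons, List.not_mem_nil, or_false] at hC
          rcases hC with rfl | rfl | rfl <;> simp at hl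
          · rcases hl with rfl | rfl <;> simp <;> omega
          · rcases hl with rfl | rfl | rfl <;> simp <;> omega
          · rcases hl with rfl | rfl | rfl <;> simp <;> omega
        · simp only [List.mem_cons, List.not_mem_nil, or_false] at hC
          rcases hC with rfl | rfl <;> simp at hl <;> subst hl <;> simp <;> omega
  refine ⟨unnval A, ?_, ?_⟩
  · rw [tabF, eval_addF, nval_unnval]
    refine ⟨sat_tabC.2 htab, ?_⟩
    simp [BForm.eval]
  · intro h hh b
    rw [nval_unnval]
    have hb : b.toNat < Cn := by
      have := hcell 0 (by omega)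
      cases b <;> simp <;> omega
    have := hdec 0 h hh b.toNat hb
    rw [show (0 : ℕ) * R + h * Cn + b.toNat = h * Cn + b.toNat by ring] at this
    rw [this]
    have h2 := canV_cell run 0 h (show 0 < k by omega) b
    rw [show 2 * 0 + b.toNat = b.toNat by ring] at h2
    rw [h2]
    simp [hrundef, init2]

end Pool.Agent.Helper72
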