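import Pool.Agent.Helper72.Cmd

/-!
Export of flat code to the Turing machines of Mathlib (Turing.FinTM2).
-/

namespace Pool.Agent.Helper72

open Function Turing StateTransition

def Instr.reg : Instr → ℕ
  | .push r _ _ => r
  | .pop r _ => r
  | .test r _ _ _ => r

/-- clamped label -/
def clampL (P : List Instr) (n : ℕ) : Fin (P.length + 1) := ⟨min n P.length, by omega⟩

/-- the statement for one flat instruction -/
def instrStmt (P : List Instr) (k : ℕ) : Option Instr →
    Turing.TM2.Stmt (fun _ : Fin k => Bool) (Fin (P.length + 1)) (Option Bool)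
  | none => .halt
  | some (.push r b n) =>
    if h : r < k then .push ⟨r, h⟩ (fun _ => b) (.goto fun _ => clampL P n) else .halt
  | some (.pop r n) =>
    if h : r < k then .pop ⟨r, h⟩ (fun v _ => v) (.goto fun _ => clampL P n) else .halt
  | some (.test r n0 n1 n2) =>
    if h : r < k then
      .peek ⟨r, h⟩ (fun _ o => o)
        (.branch (fun v => v.isNone)
          (.load (fun _ => none) (.goto fun _ => clampL P n0))
          (.branch (fun v => v == some true)
            (.load (fun _ => none) (.goto fun _ => clampL P n2))
            (.load (fun _ => none) (.goto fun _ => clampL P n1))))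
    else .halt

/-- the Turing machine running flat code `P` on `k` stacks -/
def flatTM (P : List Instr) (k : ℕ) (i o : Fin k) : FinTM2 where
  K := Fin k
  k₀ := i
  k₁ := o
  Γ _ := Bool
  Λ := Fin (P.length + 1)
  main := 0
  σ := Option Bool
  initialState := none
  m l := instrStmt P k P[l.val]?

/-- configuration of the Turing machine for a flat configuration -/
def flatCfg (P : List Instr) (k : ℕ) (i o : Fin k) (c : ℕ × St) : (flatTM P k i o).Cfg :=
  (⟨some (clampL P c.1), none, fun r => c.2 r.val⟩ :
    Turing.TM2.Cfg (fun _ : Fin k => Bool) (Fin (P.length + 1)) (Option Bool))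

theorem update_restrict {k : ℕ} (s : St) (r : ℕ) (h : r < k) (l : List Bool) :
    (fun x : Fin k => (update s r l) x.val) = update (fun x : Fin k => s x.val) ⟨r, h⟩ l := by
  funext x
  by_cases hx : x = ⟨r, h⟩
  · subst hx; simp
  · rw [update_of_ne hx, update_of_ne]
    intro h'; apply hx; ext; exact h'

theorem flat_step {P : List Instr} {k : ℕ} {i o : Fin k} (hreg : ∀ ins ∈ P, ins.reg < k)
    {c : ℕ × St} (hc : c.1 < P.length) :
    (flatTM P k i o).step (flatCfg P k i o c) = some (flatCfg P k i o (fstep P c)) := by
  obtain ⟨pc, s⟩ := c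
  simp only at hc
  have hget : P[pc]? = some P[pc] := List.getElem?_eq_getElem hc
  have hmem : P[pc] ∈ P := List.getElem_mem hc
  have hr := hreg _ hmem
  rw [fstep_some hget]
  show Turing.TM2.step _ _ = _
  unfold flatCfg
  simp only [clampL, min_eq_left hc.le, Turing.TM2.step]
  show some (Turing.TM2.stepAux (instrStmt P k P[pc]?) _ _) = _
  rw [hget]
  generalize P[pc] = ins at hr
  cases ins with
  | push r b n =>
    simp only [Instr.reg] at hr
    simp only [instrStmt, dif_pos hr, Instr.exec, Turing.TM2.stepAux, clampL]
    rw [update_restrict s r hr]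
    rfl
  | pop r n =>
    simp only [Instr.reg] at hr
    simp only [instrStmt, dif_pos hr, Instr.exec, Turing.TM2.stepAux, clampL]
    rw [update_restrict s r hr]
    rfl
  | test r n0 n1 n2 =>
    simp only [Instr.reg] at hr
    simp only [instrStmt, dif_pos hr, Instr.exec, Turing.TM2.stepAux, clampL]
    obtain ⟨l, hl⟩ : ∃ l, s r = l := ⟨_, rfl⟩
    rcases l with _ | ⟨_ | _, l⟩
    all_goals
      simp only [hl]
      rfl

theorem flat_halt {P : List Instr} {k : ℕ} {i o : Fin k} {c : ℕ × St} (hc : P.length ≤ c.1) :
    (flatTM P k i o).step (flatCfg P k i o c) = some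
      (⟨none, none, fun r => c.2 r.val⟩ :
    Turing.TM2.Cfg (fun _ : Fin k => Bool) (Fin (P.length + 1)) (Option Bool)) := by
  obtain ⟨pc, s⟩ := c
  simp only at hc
  show Turing.TM2.step _ _ = _
  unfold flatCfg
  simp only [clampL, min_eq_right hc, Turing.TM2.step]
  show some (Turing.TM2.stepAux (instrStmt P k P[P.length]?) _ _) = _
  simp [instrStmt, Turing.TM2.stepAux]

theorem flat_steps {P : List Instr} {k : ℕ} {i o : Fin k} (hreg : ∀ ins ∈ P, ins.reg < k)
    (c : ℕ × St) (n : ℕ) (hn : ∀ m < n, ((fstep P)^[m] c).1 < P.length) :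
    (flip bind (flatTM P k i o).step)^[n] (some (flatCfg P k i o c))
      = some (flatCfg P k i o ((fstep P)^[n] c)) := by
  induction n with
  | zero => rfl
  | succ n ih =>
    rw [iterate_succ_apply', ih (fun m hm => hn m (by omega)), iterate_succ_apply']
    exact flat_step hreg (hn n (by omega))

theorem fstep_fixed {P : List Instr} {c : ℕ × St} (h : P.length ≤ c.1) (n : ℕ) :
    (fstep P)^[n] c = c := by
  induction n with
  | zero => rfl
  | succ n ih =>
    rw [iterate_succ_apply', ih]
    simp [fstep, List.getElem?_eq_none h]

/-- first time the code is left -/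
theorem exists_first_exit {P : List Instr} {c : ℕ × St} {T : ℕ}
    (h : P.length ≤ ((fstep P)^[T] c).1) :
    ∃ n ≤ T, (∀ m < n, ((fstep P)^[m] c).1 < P.length) ∧
      (fstep P)^[n] c = (fstep P)^[T] c := by
  classical
  have hex : ∃ n, P.length ≤ ((fstep P)^[n] c).1 := ⟨T, h⟩
  refine ⟨Nat.find hex, Nat.find_le h, fun m hm => ?_, ?_⟩
  · have := Nat.find_min hex hm
    omega
  · have h1 := Nat.find_spec hex
    have h2 : Nat.find hex ≤ T := Nat.find_le h
    obtain ⟨d, hd⟩ := Nat.exists_eq_add_of_le h2
    rw [hd, add_comm, iterate_add_apply, fstep_fixed (c := (fstep P)^[Nat.find hex] c) h1]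

theorem Cmd.comp_reg {c : Cmd} (a e : ℕ) : ∀ ins ∈ c.comp a e, ins.reg < c.bd := by
  induction c generalizing a e with
  | nop => simp [comp, Instr.reg, bd]
  | push r b => simp [comp, Instr.reg, bd]
  | pop r => simp [comp, Instr.reg, bd]
  | seq c d hc hd =>
    intro ins h
    simp only [comp, List.mem_append] at h
    simp only [bd]
    rcases h with h | h
    · have := hc _ _ _ h; omega
    · have := hd _ _ _ h; omega
  | ite r c0 c1 c2 h0 h1 h2 =>
    intro ins h
    simp only [comp, List.mem_append, List.mem_cons] at h
    simp only [bd]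
    rcases h with h | h | h | h
    · subst h; simp only [Instr.reg]; omega
    · have := h0 _ _ _ h; omega
    · have := h1 _ _ _ h; omega
    · have := h2 _ _ _ h; omega
  | loop r c0 c1 h0 h1 =>
    intro ins h
    simp only [comp, List.mem_append, List.mem_cons] at h
    simp only [bd]
    rcases h with h | h | h | h | h
    · subst h; simp only [Instr.reg]; omega
    · subst h; simp only [Instr.reg]; omega
    · have := h0 _ _ _ h; omega
    · subst h; simp only [Instr.reg]; omega
    · have := h1 _ _ _ h; omega

theorem codeAt_self (P : List Instr) : CodeAt P 0 P := by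
  intro i _; simp

/-- the initial register contents: `x` in register `i`, all others empty -/
def initSt (i : ℕ) (x : List Bool) : St := fun r => if r = i then x else []

theorem initList_stk {P : List Instr} {k : ℕ} (i o : Fin k) (x : List Bool) (r : Fin k) :
    (initList (flatTM P k i o) x).stk r = initSt i x r.val := by
  by_cases h : r = i
  · subst h
    refine (dif_pos rfl).trans ?_
    simp [initSt]
    rfl
  · have : r.val ≠ i.val := fun h' => h (Fin.ext h')
    refine (dif_neg h).trans ?_
    simp [initSt, this]
    rfl

theorem haltList_stk {P : List Instr} {k : ℕ} (i o : Fin k) (x : List Bool) (r : Fin k) :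
    (haltList (flatTM P k i o) x).stk r = initSt o x r.val := by
  by_cases h : r = o
  · subst h
    refine (dif_pos rfl).trans ?_
    simp [initSt]
    rfl
  · have : r.val ≠ o.val := fun h' => h (Fin.ext h')
    refine (dif_neg h).trans ?_
    simp [initSt, this]
    rfl

/-- A loop program that turns `x` in register `i` into `y` in register `o`, all others empty,
gives a Turing machine doing the same. -/
theorem flat_outputs {c : Cmd} {k : ℕ} (hok : c.ok = true) (hbd : c.bd ≤ k) (i o : Fin k)
    (x y : List Bool) (T : ℕ) (hT : c.time (initSt i x) ≤ T)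
    (hev : ∀ r < k, c.eval (initSt i x) r = if r = o.val then y else []) :
    Nonempty (TM2OutputsInTime (flatTM (c.comp 0 c.size) k i o) x (some y) (T + 1)) := by
  set P := c.comp 0 c.size with hP
  have hlen : P.length = c.size := by simp [hP]
  have hreg : ∀ ins ∈ P, ins.reg < k := fun ins h => (Cmd.comp_reg _ _ _ h).trans_le hbd
  have hrun := Cmd.comp_run (P := P) hok (codeAt_self P) (initSt i x)
  obtain ⟨n, hn, hlt, heq⟩ := exists_first_exit (P := P) (c := (0, initSt i x))
    (T := c.time (initSt i x)) (by rw [hrun, hlen])
  have hsteps := flat_steps (i := i) (o := o) hreg (0, initSt i x) n hlt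
  rw [heq, hrun] at hsteps
  have hinit : initList (flatTM P k i o) x = flatCfg P k i o (0, initSt i x) := by
    have h1 : initList (flatTM P k i o) x =
      (⟨some (0 : Fin (P.length + 1)), none, (initList (flatTM P k i o) x).stk⟩ :
    Turing.TM2.Cfg (fun _ : Fin k => Bool) (Fin (P.length + 1)) (Option Bool)) := rfl
    rw [h1]
    have h2 : (initList (flatTM P k i o) x).stk = fun r : Fin k => initSt i x r.val :=
      funext fun r => initList_stk i o x r
    rw [h2]
    simp [flatCfg, clampL]
  have hfin : haltList (flatTM P k i o) y =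
      (⟨none, none, fun r => c.eval (initSt i x) r.val⟩ :
    Turing.TM2.Cfg (fun _ : Fin k => Bool) (Fin (P.length + 1)) (Option Bool)) := by
    have h1 : haltList (flatTM P k i o) y =
      (⟨none, none, (haltList (flatTM P k i o) y).stk⟩ :
    Turing.TM2.Cfg (fun _ : Fin k => Bool) (Fin (P.length + 1)) (Option Bool)) := rfl
    rw [h1]
    have h2 : (haltList (flatTM P k i o) y).stk =
        fun r : Fin k => c.eval (initSt i x) r.val := by
      funext r
      have hr : r.val < k := r.2
      exact (haltList_stk i o y r).trans (hev _ hr).symm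
    rw [h2]
  have hmain : (flip bind (flatTM P k i o).step)^[n + 1] (some (initList (flatTM P k i o) x))
      = Option.map (haltList (flatTM P k i o)) (some y) := by
    refine (iterate_succ_apply' _ _ _).trans ?_
    refine Eq.trans ?_ (congrArg some hfin.symm)
    refine Eq.trans (congrArg _ (congrArg _ (congrArg some hinit))) ?_
    refine (congrArg _ hsteps).trans ?_
    exact flat_halt (by rw [hlen])
  exact ⟨⟨⟨n + 1, hmain⟩, Nat.succ_le_succ (hn.trans hT)⟩⟩

end Pool.Agent.Helper72
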