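import Mathlib

/-!
A small total loop language over infinitely many binary registers, its running time,
its compilation to flat code, and polynomial time bounds.
-/

namespace Pool.Agent.Helper72

open Function

/-- register contents -/
abbrev St := ℕ → List Bool

/-- loop programs -/
inductive Cmd
  | nop
  | push (r : ℕ) (b : Bool)
  | pop (r : ℕ)
  | seq (c d : Cmd)
  | ite (r : ℕ) (c0 c1 c2 : Cmd)
  | loop (r : ℕ) (c0 c1 : Cmd)

/-- iterate over the content of register `r`, popping one symbol at a time -/
def loopEval (f : Bool → St → St) (r : ℕ) : List Bool → St → St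
  | [], s => s
  | b :: l, s => loopEval f r l (f b (update s r l))

def loopTime (f : Bool → St → St) (t : Bool → St → ℕ) (r : ℕ) : List Bool → St → ℕ
  | [], _ => 1
  | b :: l, s => 2 + t b (update s r l) + loopTime f t r l (f b (update s r l))

def loopLB (f : Bool → St → St) (p : Bool → St → Prop) (r : ℕ) : List Bool → St → Prop
  | [], _ => True
  | b :: l, s => p b (update s r l) ∧ loopLB f p r l (f b (update s r l))

namespace Cmd

/-- total semantics -/
def eval : Cmd → St → St
  | nop, s => s
  | push r b, s => update s r (b :: s r)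
  | pop r, s => update s r (s r).tail
  | seq c d, s => d.eval (c.eval s)
  | ite r c0 c1 c2, s =>
    match s r with
    | [] => c0.eval s
    | false :: _ => c1.eval s
    | true :: _ => c2.eval s
  | loop r c0 c1, s => loopEval (fun b => if b then c1.eval else c0.eval) r (s r) s

/-- number of flat instructions executed -/
def time : Cmd → St → ℕ
  | nop, _ => 1
  | push _ _, _ => 1
  | pop _, _ => 1
  | seq c d, s => c.time s + d.time (c.eval s)
  | ite r c0 c1 c2, s =>
    1 + (match s r with
    | [] => c0.time s
    | false :: _ => c1.time s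
    | true :: _ => c2.time s)
  | loop r c0 c1, s =>
    loopTime (fun b => if b then c1.eval else c0.eval)
      (fun b => if b then c1.time else c0.time) r (s r) s

/-- every loop met during the run of `c` from `s` is entered with at most `L` iterations -/
def LB (L : ℕ) : Cmd → St → Prop
  | nop, _ => True
  | push _ _, _ => True
  | pop _, _ => True
  | seq c d, s => c.LB L s ∧ d.LB L (c.eval s)
  | ite r c0 c1 c2, s =>
    (match s r with
    | [] => c0.LB L s
    | false :: _ => c1.LB L s
    | true :: _ => c2.LB L s)
  | loop r c0 c1, s => (s r).length ≤ L ∧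
    loopLB (fun b => if b then c1.eval else c0.eval)
      (fun b => if b then c1.LB L else c0.LB L) r (s r) s

/-- time bound as a function of the loop bound -/
def tb : Cmd → ℕ → ℕ
  | nop, _ => 1
  | push _ _, _ => 1
  | pop _, _ => 1
  | seq c d, L => c.tb L + d.tb L
  | ite _ c0 c1 c2, L => 1 + (c0.tb L + c1.tb L + c2.tb L)
  | loop _ c0 c1, L => 1 + L * (2 + c0.tb L + c1.tb L)

/-- does `c` write to register `r`? -/
def wr : Cmd → ℕ → Bool
  | nop, _ => false
  | push r' _, r => r == r'
  | pop r', r => r == r'
  | seq c d, r => c.wr r || d.wr r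
  | ite _ c0 c1 c2, r => c0.wr r || c1.wr r || c2.wr r
  | loop r' c0 c1, r => r == r' || c0.wr r || c1.wr r

/-- loop bodies do not write the loop register -/
def ok : Cmd → Bool
  | nop => true
  | push _ _ => true
  | pop _ => true
  | seq c d => c.ok && d.ok
  | ite _ c0 c1 c2 => c0.ok && c1.ok && c2.ok
  | loop r c0 c1 => !(c0.wr r) && !(c1.wr r) && c0.ok && c1.ok

/-- all registers mentioned are below `bd c` -/
def bd : Cmd → ℕ
  | nop => 1
  | push r _ => r + 1
  | pop r => r + 1
  | seq c d => max c.bd d.bd
  | ite r c0 c1 c2 => max (r + 1) (max c0.bd (max c1.bd c2.bd))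
  | loop r c0 c1 => max (r + 1) (max c0.bd c1.bd)

theorem bd_pos (c : Cmd) : 0 < c.bd := by
  induction c <;> simp_all [bd]

end Cmd

theorem loopEval_frame {f : Bool → St → St} {r x : ℕ}
    (hf : ∀ b s, f b s x = s x) (hx : x ≠ r) : ∀ (l : List Bool) (s : St),
    loopEval f r l s x = s x
  | [], s => rfl
  | b :: l, s => by
    rw [loopEval, loopEval_frame hf hx l, hf, update_of_ne hx]

theorem Cmd.frame {c : Cmd} {x : ℕ} (h : c.wr x = false) (s : St) : c.eval s x = s x := by
  induction c generalizing s with
  | nop => rfl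
  | push r b =>
    simp only [wr, beq_eq_false_iff_ne] at h
    simp [eval, update_of_ne h]
  | pop r =>
    simp only [wr, beq_eq_false_iff_ne] at h
    simp [eval, update_of_ne h]
  | seq c d hc hd =>
    simp only [wr, Bool.or_eq_false_iff] at h
    rw [eval, hd h.2, hc h.1]
  | ite r c0 c1 c2 h0 h1 h2 =>
    simp only [wr, Bool.or_eq_false_iff] at h
    rcases hs : s r with _ | ⟨_ | _, l⟩
    · simpa only [eval, hs] using h0 h.1.1 s
    · simpa only [eval, hs] using h1 h.1.2 s
    · simpa only [eval, hs] using h2 h.2 s
  | loop r c0 c1 h0 h1 =>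
    simp only [wr, Bool.or_eq_false_iff, beq_eq_false_iff_ne] at h
    rw [eval]
    apply loopEval_frame _ h.1.1
    intro b s
    cases b
    · simpa using h0 h.1.2 s
    · simpa using h1 h.2 s

theorem Cmd.wr_bd {c : Cmd} {x : ℕ} (h : c.bd ≤ x) : c.wr x = false := by
  induction c with
  | nop => rfl
  | push r b => simp only [bd] at h; simp [wr]; omega
  | pop r => simp only [bd] at h; simp [wr]; omega
  | seq c d hc hd => simp only [bd] at h; simp [wr, hc (by omega), hd (by omega)]
  | ite r c0 c1 c2 h0 h1 h2 =>
    simp only [bd] at h; simp [wr, h0 (by omega), h1 (by omega), h2 (by omega)]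
  | loop r c0 c1 h0 h1 =>
    simp only [bd] at h; simp [wr, h0 (by omega), h1 (by omega)]; omega

/-! ### time bounds -/

theorem loopTime_le {f : Bool → St → St} {t : Bool → St → ℕ} {p : Bool → St → Prop}
    {r T : ℕ} (h : ∀ b s, p b s → t b s ≤ T) : ∀ (l : List Bool) (s : St),
    loopLB f p r l s → loopTime f t r l s ≤ 1 + l.length * (2 + T)
  | [], s, _ => by simp [loopTime]
  | b :: l, s, hp => by
    simp only [loopTime, List.length_cons]
    have h1 := h b _ hp.1
    have h2 := loopTime_le h l _ hp.2
    nlinarith

theorem Cmd.time_le_tb {c : Cmd} {L : ℕ} {s : St} (h : c.LB L s) : c.time s ≤ c.tb L := by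
  induction c generalizing s with
  | nop => simp [time, tb]
  | push r b => simp [time, tb]
  | pop r => simp [time, tb]
  | seq c d hc hd =>
    have h1 := hc h.1
    have h2 := hd h.2
    simp only [time, tb]; omega
  | ite r c0 c1 c2 h0 h1 h2 =>
    rcases hs : s r with _ | ⟨_ | _, l⟩
    · simp only [LB, hs] at h
      simp only [time, hs, tb]
      have := h0 h; omega
    · simp only [LB, hs] at h
      simp only [time, hs, tb]
      have := h1 h; omega
    · simp only [LB, hs] at h
      simp only [time, hs, tb]
      have := h2 h; omega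
  | loop r c0 c1 h0 h1 =>
    simp only [time, tb]
    obtain ⟨hl, hb⟩ := h
    have key := loopTime_le (f := fun b => if b then c1.eval else c0.eval)
      (t := fun b => if b then c1.time else c0.time)
      (p := fun b => if b then c1.LB L else c0.LB L) (r := r) (T := c0.tb L + c1.tb L)
      (by
        intro b s hp
        cases b
        · have := h0 hp; simp; omega
        · have := h1 hp; simp; omega) (s r) s hb
    refine key.trans ?_
    have : (s r).length * (2 + (c0.tb L + c1.tb L)) ≤ L * (2 + (c0.tb L + c1.tb L)) :=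
      Nat.mul_le_mul_right _ hl
    have e : 2 + (c0.tb L + c1.tb L) = 2 + c0.tb L + c1.tb L := by ring
    rw [e] at this
    rw [e]
    omega

theorem Cmd.tb_mono (c : Cmd) : Monotone c.tb := by
  induction c with
  | nop => exact monotone_const
  | push r b => exact monotone_const
  | pop r => exact monotone_const
  | seq c d hc hd => intro a b h; simp only [tb]; exact add_le_add (hc h) (hd h)
  | ite r c0 c1 c2 h0 h1 h2 =>
    intro a b h; simp only [tb]
    have := h0 h; have := h1 h; have := h2 h; omega
  | loop r c0 c1 h0 h1 =>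
    intro a b h; simp only [tb]
    have := h0 h; have := h1 h
    have : a * (2 + c0.tb a + c1.tb a) ≤ b * (2 + c0.tb b + c1.tb b) :=
      Nat.mul_le_mul h (by omega)
    omega

theorem Cmd.tb_poly (c : Cmd) : ∃ a d : ℕ, ∀ L, c.tb L ≤ a * (L + 1) ^ d := by
  have up : ∀ (L a d a' d' : ℕ), a ≤ a' → d ≤ d' → a * (L + 1) ^ d ≤ a' * (L + 1) ^ d' := by
    intro L a d a' d' h1 h2
    exact Nat.mul_le_mul h1 (Nat.pow_le_pow_right (by omega) h2)
  have base : ∀ L : ℕ, ∀ d, 1 ≤ (L + 1) ^ d := fun L d => Nat.one_le_pow _ _ (by omega)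
  induction c with
  | nop => exact ⟨1, 0, fun L => by simp [tb]⟩
  | push r b => exact ⟨1, 0, fun L => by simp [tb]⟩
  | pop r => exact ⟨1, 0, fun L => by simp [tb]⟩
  | seq c d hc hd =>
    obtain ⟨a1, d1, h1⟩ := hc
    obtain ⟨a2, d2, h2⟩ := hd
    refine ⟨a1 + a2, max d1 d2, fun L => ?_⟩
    simp only [tb]
    have := (h1 L).trans (up L a1 d1 a1 (max d1 d2) le_rfl (le_max_left _ _))
    have := (h2 L).trans (up L a2 d2 a2 (max d1 d2) le_rfl (le_max_right _ _))
    rw [add_mul]; omega
  | ite r c0 c1 c2 h0 h1 h2 =>
    obtain ⟨a0, d0, h0⟩ := h0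
    obtain ⟨a1, d1, h1⟩ := h1
    obtain ⟨a2, d2, h2⟩ := h2
    refine ⟨1 + a0 + a1 + a2, max d0 (max d1 d2), fun L => ?_⟩
    simp only [tb]
    have e0 := (h0 L).trans (up L a0 d0 a0 (max d0 (max d1 d2)) le_rfl (by omega))
    have e1 := (h1 L).trans (up L a1 d1 a1 (max d0 (max d1 d2)) le_rfl (by omega))
    have e2 := (h2 L).trans (up L a2 d2 a2 (max d0 (max d1 d2)) le_rfl (by omega))
    have := base L (max d0 (max d1 d2))
    rw [add_mul, add_mul, add_mul]; omega
  | loop r c0 c1 h0 h1 =>
    obtain ⟨a0, d0, h0⟩ := h0
    obtain ⟨a1, d1, h1⟩ := h1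
    refine ⟨3 + a0 + a1, max d0 d1 + 1, fun L => ?_⟩
    simp only [tb]
    have e0 := (h0 L).trans (up L a0 d0 a0 (max d0 d1) le_rfl (by omega))
    have e1 := (h1 L).trans (up L a1 d1 a1 (max d0 d1) le_rfl (by omega))
    have b1 := base L (max d0 d1)
    have : L * (2 + c0.tb L + c1.tb L) ≤ L * ((2 + a0 + a1) * (L + 1) ^ max d0 d1) := by
      apply Nat.mul_le_mul_left
      rw [add_mul, add_mul]; omega
    have h3 : 1 ≤ (L + 1) ^ max d0 d1 * (L + 1) := Nat.one_le_iff_ne_zero.2 (by positivity)
    calc 1 + L * (2 + c0.tb L + c1.tb L)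
        ≤ (L + 1) ^ max d0 d1 * (L + 1) + L * ((2 + a0 + a1) * (L + 1) ^ max d0 d1) := by omega
      _ ≤ (3 + a0 + a1) * (L + 1) ^ (max d0 d1 + 1) := by
          rw [pow_succ]
          nlinarith [Nat.zero_le ((L + 1) ^ max d0 d1)]

/-! ### flat code -/

/-- flat instructions -/
inductive Instr
  | push (r : ℕ) (b : Bool) (n : ℕ)
  | pop (r : ℕ) (n : ℕ)
  | test (r : ℕ) (n0 n1 n2 : ℕ)

def Instr.exec : Instr → St → ℕ × St
  | push r b n, s => (n, update s r (b :: s r))
  | pop r n, s => (n, update s r (s r).tail)
  | test r n0 n1 n2, s =>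
    ((match s r with
      | [] => n0
      | false :: _ => n1
      | true :: _ => n2), s)

/-- one step of the flat machine; a program counter outside the code means halted -/
def fstep (P : List Instr) (c : ℕ × St) : ℕ × St :=
  match P[c.1]? with
  | none => c
  | some i => i.exec c.2

namespace Cmd

def size : Cmd → ℕ
  | nop => 1
  | push _ _ => 1
  | pop _ => 1
  | seq c d => c.size + d.size
  | ite _ c0 c1 c2 => 1 + c0.size + c1.size + c2.size
  | loop _ c0 c1 => 3 + c0.size + c1.size

/-- code of `c` placed at address `a`, leaving to address `e` -/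
def comp : Cmd → ℕ → ℕ → List Instr
  | nop, _, e => [.test 0 e e e]
  | push r b, _, e => [.push r b e]
  | pop r, _, e => [.pop r e]
  | seq c d, a, e => c.comp a (a + c.size) ++ d.comp (a + c.size) e
  | ite r c0 c1 c2, a, e =>
    .test r (a + 1) (a + 1 + c0.size) (a + 1 + c0.size + c1.size) ::
      (c0.comp (a + 1) e ++ (c1.comp (a + 1 + c0.size) e
        ++ c2.comp (a + 1 + c0.size + c1.size) e))
  | loop r c0 c1, a, e =>
    .test r e (a + 1) (a + 2 + c0.size) ::
      (.pop r (a + 2) :: (c0.comp (a + 2) a ++
        (.pop r (a + 3 + c0.size) :: c1.comp (a + 3 + c0.size) a)))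

@[simp] theorem comp_length (c : Cmd) (a e : ℕ) : (c.comp a e).length = c.size := by
  induction c generalizing a e with
  | nop => rfl
  | push r b => rfl
  | pop r => rfl
  | seq c d hc hd => simp [comp, size, hc, hd]
  | ite r c0 c1 c2 h0 h1 h2 => simp [comp, size, h0, h1, h2]; omega
  | loop r c0 c1 h0 h1 => simp [comp, size, h0, h1]; omega

end Cmd

/-- `code` sits in `P` at address `a` -/
def CodeAt (P : List Instr) (a : ℕ) (code : List Instr) : Prop :=
  ∀ i, i < code.length → P[a + i]? = code[i]?

theorem CodeAt.left {P a x y} (h : CodeAt P a (x ++ y)) : CodeAt P a x := by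
  intro i hi
  rw [h i (by simp; omega), List.getElem?_append_left hi]

theorem CodeAt.right {P a x y} (h : CodeAt P a (x ++ y)) : CodeAt P (a + x.length) y := by
  intro i hi
  have := h (x.length + i) (by simp; omega)
  rw [List.getElem?_append_right (by omega)] at this
  rw [add_assoc, this]; simp

theorem CodeAt.head {P a x y} (h : CodeAt P a (x :: y)) : P[a]? = some x := by
  have := h 0 (by simp)
  simpa using this

theorem CodeAt.tail {P a x y} (h : CodeAt P a (x :: y)) : CodeAt P (a + 1) y := by
  intro i hi
  have := h (i + 1) (by simp; omega)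
  rw [show a + 1 + i = a + (i + 1) by ring, this]; simp

theorem fstep_some {P : List Instr} {pc : ℕ} {i : Instr} (h : P[pc]? = some i) (s : St) :
    fstep P (pc, s) = i.exec s := by
  simp [fstep, h]

theorem loop_run {P : List Instr} {a e r : ℕ} {f : Bool → St → St} {t : Bool → St → ℕ}
    {a0 a1 : ℕ}
    (htest : P[a]? = some (.test r e (a + 1) a1))
    (hpop0 : P[a + 1]? = some (.pop r (a + 2)))
    (hpop1 : P[a1]? = some (.pop r a0))
    (hf : ∀ b s, f b s r = s r)
    (hb0 : ∀ s, (fstep P)^[t false s] (a + 2, s) = (a, f false s))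
    (hb1 : ∀ s, (fstep P)^[t true s] (a0, s) = (a, f true s)) :
    ∀ (l : List Bool) (s : St), s r = l →
      (fstep P)^[loopTime f t r l s] (a, s) = (e, loopEval f r l s)
  | [], s, hs => by
    simp [loopTime, loopEval, fstep_some htest, Instr.exec, hs]
  | b :: l, s, hs => by
    rw [loopTime, loopEval, add_comm, iterate_add_apply, add_comm, iterate_add_apply]
    have h2 : (fstep P)^[2] (a, s) = (if b then a0 else a + 2, update s r l) := by
      show fstep P (fstep P (a, s)) = _
      rw [fstep_some htest]
      cases b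
      · simp only [Instr.exec, hs]
        rw [fstep_some hpop0]
        simp [Instr.exec, hs]
      · simp only [Instr.exec, hs]
        rw [fstep_some hpop1]
        simp [Instr.exec, hs]
    rw [h2]
    have h3 : (fstep P)^[t b (update s r l)] (if b then a0 else a + 2, update s r l)
        = (a, f b (update s r l)) := by
      cases b
      · simpa using hb0 _
      · simpa using hb1 _
    rw [h3]
    exact loop_run htest hpop0 hpop1 hf hb0 hb1 l _ (by rw [hf]; simp)

theorem Cmd.comp_run {P : List Instr} {c : Cmd} {a e : ℕ} (hok : c.ok = true)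
    (h : CodeAt P a (c.comp a e)) (s : St) :
    (fstep P)^[c.time s] (a, s) = (e, c.eval s) := by
  induction c generalizing a e s with
  | nop =>
    have := h.head
    simp only [time, iterate_one, fstep_some this, Instr.exec, eval]
    split <;> rfl
  | push r b =>
    have := h.head
    simp only [time, iterate_one, fstep_some this, Instr.exec, eval]
  | pop r =>
    have := h.head
    simp only [time, iterate_one, fstep_some this, Instr.exec, eval]
  | seq c d hc hd =>
    simp only [ok, Bool.and_eq_true] at hok
    simp only [comp] at h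
    rw [time, eval, add_comm, iterate_add_apply, hc hok.1 h.left, hd hok.2]
    have := h.right
    simpa using this
  | ite r c0 c1 c2 h0 h1 h2 =>
    simp only [ok, Bool.and_eq_true] at hok
    simp only [comp] at h
    have ht := h.head
    have k0 := h.tail.left
    have k1 := h.tail.right.left
    have k2 := h.tail.right.right
    simp only [comp_length] at k1 k2
    rw [time, eval, add_comm, iterate_add_apply, iterate_one, fstep_some ht]
    simp only [Instr.exec]
    split
    · exact h0 hok.1.1 k0 s
    · exact h1 hok.1.2 k1 s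
    · exact h2 hok.2 k2 s
  | loop r c0 c1 h0 h1 =>
    simp only [ok, Bool.and_eq_true, Bool.not_eq_true'] at hok
    obtain ⟨⟨⟨w0, w1⟩, ok0⟩, ok1⟩ := hok
    simp only [comp] at h
    have ht := h.head
    have hp0 := h.tail.head
    have k0 := h.tail.tail.left
    have hp1 := h.tail.tail.right.head
    have k1 := h.tail.tail.right.tail
    simp only [comp_length] at hp1 k1
    rw [time, eval]
    refine loop_run (a1 := a + 2 + c0.size) (a0 := a + 3 + c0.size) ht hp0 ?_ ?_ ?_ ?_ _ _ rfl
    · rw [← hp1]
    · intro b s
      cases b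
      · simpa using frame w0 s
      · simpa using frame w1 s
    · intro s
      simpa using h0 ok0 k0 s
    · intro s
      have := h1 ok1 (a := a + 1 + 1 + c0.size + 1) (e := a) (by convert k1 using 2; ring) s
      simpa [show a + 1 + 1 + c0.size + 1 = a + 3 + c0.size by ring] using this

end Pool.Agent.Helper72
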