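import Pool.Agent.Helper72.ProgV

/-!
Lengths of clause codes.
-/

namespace Pool.Agent.Helper72

open Computability Function

theorem encodeNat_double_add_one (m : ℕ) : encodeNat (2 * m + 1) = true :: encodeNat m := by
  have h1 : ((2 * m + 1 : ℕ) : Num) = Num.bit1 (m : Num) := by
    have := Num.ofNat'_bit true m
    rw [Num.ofNat'_eq, Num.ofNat'_eq] at this
    rw [Nat.bit_val] at this
    simpa using this
  rw [encodeNat, h1, encodeNat]
  cases (m : Num) <;> rfl

theorem encodeNat_ones (n : ℕ) : encodeNat (2 ^ n - 1) = List.replicate n true := by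
  induction n with
  | zero => rfl
  | succ n ih =>
    have : 2 ^ (n + 1) - 1 = 2 * (2 ^ n - 1) + 1 := by
      have : 0 < 2 ^ n := by positivity
      rw [pow_succ]; omega
    rw [this, encodeNat_double_add_one, ih]; rfl

theorem code_litForm_length (l : Bool × ℕ) : (litForm l).code.length ≤ 6 + 3 * l.2 := by
  obtain ⟨b, n⟩ := l
  cases b <;> simp [litForm, BForm.code, encodeNat_ones, List.length_flatMap] <;> omega

/-- bound for the code length of a clause -/
theorem code_clsForm_length (C : ACls) (D : ℕ) (h : ∀ l ∈ C, l.2 ≤ D) :
    (clsForm C).code.length ≤ 12 + C.length * (9 + 3 * D) := by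
  induction C with
  | nil => simp [clsForm, BForm.code, encodeNat, encodeNum]
  | cons l C ih =>
    have h1 := ih fun l hl => h l (List.mem_cons_of_mem _ hl)
    have h2 := code_litForm_length l
    have h3 := h l List.mem_cons_self
    simp only [clsForm, BForm.code, List.length_append, List.length_cons, List.length_nil]
    have : (C.length + 1) * (9 + 3 * D) = C.length * (9 + 3 * D) + (9 + 3 * D) := by ring
    rw [this]
    omega

/-- bound for added clauses -/
theorem length_addCode (Cs : List ACls) (x : List Bool) (D W : ℕ)
    (h : ∀ C ∈ Cs, C.length ≤ W ∧ ∀ l ∈ C, l.2 ≤ D) :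
    (addCode Cs x).length ≤ x.length + Cs.length * (15 + W * (9 + 3 * D)) := by
  induction Cs generalizing x with
  | nil => simp [addCode]
  | cons C Cs ih =>
    have h0 : addCode (C :: Cs) x = addCode Cs ([true, false, true] ++ ((clsForm C).code ++ x)) :=
      rfl
    rw [h0]
    have h1 := ih ([true, false, true] ++ ((clsForm C).code ++ x))
      fun C hC => h C (List.mem_cons_of_mem _ hC)
    obtain ⟨h2, h3⟩ := h C List.mem_cons_self
    have h4 := code_clsForm_length C D h3
    have h5 : C.length * (9 + 3 * D) ≤ W * (9 + 3 * D) := Nat.mul_le_mul_right _ h2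
    simp only [List.length_append, List.length_cons, List.length_nil] at h1 ⊢
    have : (Cs.length + 1) * (15 + W * (9 + 3 * D)) =
      Cs.length * (15 + W * (9 + 3 * D)) + (15 + W * (9 + 3 * D)) := by ring
    rw [this]
    omega

theorem length_addCode_ge (Cs : List ACls) (x : List Bool) :
    x.length + Cs.length ≤ (addCode Cs x).length := by
  induction Cs generalizing x with
  | nil => simp [addCode]
  | cons C Cs ih =>
    have h0 : addCode (C :: Cs) x = addCode Cs ([true, false, true] ++ ((clsForm C).code ++ x)) :=
      rfl
    rw [h0]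
    have h1 := ih ([true, false, true] ++ ((clsForm C).code ++ x))
    simp only [List.length_append, List.length_cons, List.length_nil] at h1 ⊢
    omega

theorem prefC_length (Cn b : ℕ) (X : List Bool) : (prefC Cn b X).length = X.length := by
  induction X generalizing b with
  | nil => rfl
  | cons x X ih => simp [prefC, ih]

theorem prefC_bound (Cn b : ℕ) (X : List Bool) : ∀ C ∈ prefC Cn b X,
    C.length ≤ 1 ∧ ∀ l ∈ C, l.2 ≤ b + X.length * Cn + 1 := by
  induction X generalizing b with
  | nil => simp [prefC]
  | cons x X ih =>
    intro C hC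
    simp only [prefC, List.mem_cons] at hC
    rcases hC with rfl | hC
    · refine ⟨le_rfl, fun l hl => ?_⟩
      simp only [List.mem_cons, List.not_mem_nil, or_false] at hl
      subst hl
      have : x.toNat ≤ 1 := by cases x <;> simp
      simp only
      nlinarith [Nat.zero_le ((x :: X).length * Cn)]
    · obtain ⟨h1, h2⟩ := ih (b + Cn) C hC
      refine ⟨h1, fun l hl => (h2 l hl).trans ?_⟩
      simp only [List.length_cons]
      nlinarith

/-- length bound for the prefix clauses -/
theorem length_pref (Cn : ℕ) (X x : List Bool) :
    (addCode (prefC Cn 0 X) x).length ≤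
      x.length + X.length * (24 + 3 * (X.length * Cn + 1)) := by
  have := length_addCode (prefC Cn 0 X) x (X.length * Cn + 1) 1
    (fun C hC => by simpa using prefC_bound Cn 0 X C hC)
  rw [prefC_length] at this
  refine this.trans (le_of_eq ?_)
  ring

theorem length_end (b : ℕ) (x : List Bool) :
    (addCode (endC b) x).length ≤ x.length + 2 * (24 + 3 * (b + 1)) := by
  have := length_addCode (endC b) x (b + 1) 1 (by
    intro C hC
    simp only [endC, List.mem_cons, List.not_mem_nil, or_false] at hC
    rcases hC with rfl | rfl <;> simp)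
  refine this.trans (le_of_eq ?_)
  simp only [endC, List.length_cons, List.length_nil]
  ring

theorem length_bit (b : ℕ) (y : Bool) (x : List Bool) :
    (addCode (bitC y b) x).length ≤ x.length + (24 + 3 * (b + 1)) := by
  have := length_addCode (bitC y b) x (b + 1) 1 (by
    intro C hC
    simp only [bitC, List.mem_cons, List.not_mem_nil, or_false] at hC
    subst hC
    cases y <;> simp)
  refine this.trans (le_of_eq ?_)
  simp only [bitC, List.length_cons, List.length_nil]
  ring

theorem seqC_length {step : ℕ} {g : ℕ → List ACls} {w : ℕ} (h : ∀ b, (g b).length = w) :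
    ∀ (n b : ℕ), (seqC step g n b).length = n * w
  | 0, _ => by simp [seqC]
  | n + 1, b => by rw [seqC, List.length_append, h, seqC_length h n]; ring

theorem length_nonEmpty (Cn N : ℕ) (x : List Bool) :
    (addCode (nonEmptyC Cn N) x).length ≤ x.length + N * (15 + 2 * (9 + 3 * (N * Cn + 1))) := by
  have := length_addCode (nonEmptyC Cn N) x (N * Cn + 1) 2 (by
    intro C hC
    rw [nonEmptyC, mem_seqC] at hC
    obtain ⟨i, hi, hC⟩ := hC
    simp only [List.mem_cons, List.not_mem_nil, or_false] at hC
    subst hC
    have : i * Cn ≤ N * Cn := Nat.mul_le_mul_right _ hi.le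
    refine ⟨le_rfl, fun l hl => ?_⟩
    simp only [List.mem_cons, List.not_mem_nil, or_false] at hl
    rcases hl with rfl | rfl <;> simp <;> omega)
  refine this.trans (le_of_eq ?_)
  rw [nonEmptyC, seqC_length (w := 1) (fun _ => rfl)]
  ring

theorem nonEmptyC_length (Cn N : ℕ) : (nonEmptyC Cn N).length = N := by
  rw [nonEmptyC, seqC_length (w := 1) (fun _ => rfl)]; ring

end Pool.Agent.Helper72
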