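import Pool.Agent.Helper72.ProgMain

/-!
Final assembly, part 1: complexity bookkeeping, finite patches, Kolmogorov classes.
-/

namespace Pool.Agent.Helper72

open Function Turing Computability Filter

/-! ### polynomial bounds -/

/-- an upper bound by a monotone polynomial of the form `a (n + 1) ^ d` -/
theorem PB.exists_poly {f : ℕ → ℕ} (hf : PB f) :
    ∃ q : Polynomial ℕ, Monotone (fun n => q.eval n) ∧ ∀ n, f n ≤ q.eval n := by
  obtain ⟨a, d, h⟩ := hf
  refine ⟨Polynomial.C a * (Polynomial.X + 1) ^ d, ?_, fun n => ?_⟩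
  · intro x y hxy
    simp only [Polynomial.eval_mul, Polynomial.eval_C, Polynomial.eval_pow,
      Polynomial.eval_add, Polynomial.eval_X, Polynomial.eval_one]
    exact Nat.mul_le_mul_left _ (Nat.pow_le_pow_left (by omega) _)
  · simpa using h n

/-- polynomially bounded functions are eventually below a fixed power -/
theorem PB.lt_pow {f : ℕ → ℕ} (hf : PB f) : ∃ k, ∀ᶠ n in atTop, f n < n ^ k := by
  obtain ⟨a, d, h⟩ := hf
  refine ⟨d + 1, ?_⟩
  filter_upwards [eventually_gt_atTop (a * 2 ^ d), eventually_ge_atTop 1] with n hn h1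
  calc f n ≤ a * (n + 1) ^ d := h n
    _ ≤ a * (2 * n) ^ d := Nat.mul_le_mul_left _ (Nat.pow_le_pow_left (by omega) _)
    _ = (a * 2 ^ d) * n ^ d := by rw [mul_pow]; ring
    _ < n * n ^ d := by
        apply Nat.mul_lt_mul_of_pos_right hn
        positivity
    _ = n ^ (d + 1) := by ring

theorem Outputs.mono {M : TM2ComputableAux Bool Bool} {y x : List Bool} {t t' : ℕ}
    (h : Outputs M y x t) (htt : t ≤ t') : Outputs M y x t' := by
  obtain ⟨h⟩ := h
  exact ⟨⟨h.toEvalsTo, h.steps_le_m.trans htt⟩⟩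

/-- words whose binary value is a given number -/
theorem exists_bval (i : ℕ) (hi : 0 < i) : ∃ y, bval y = i ∧ y.length = Nat.log 2 i := by
  induction i using Nat.strong_induction_on with
  | _ i ih =>
    rcases Nat.lt_or_ge i 2 with h | h
    · obtain rfl : i = 1 := by omega
      exact ⟨[], rfl, by simp⟩
    · obtain ⟨y, hy, hl⟩ := ih (i / 2) (by omega) (by omega)
      refine ⟨y ++ [decide (i % 2 = 1)], ?_, ?_⟩
      · rw [bval_append, hy]
        rcases Nat.mod_two_eq_zero_or_one i with h2 | h2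
        · rw [h2]; simp; omega
        · rw [h2]; simp; omega
      · rw [List.length_append, hl, List.length_singleton, Nat.log_of_one_lt_of_le (by norm_num) h]

/-- growth condition on the description bound -/
def GrowG (g : ℕ → ℕ) : Prop :=
  ∀ c, ∀ᶠ n in atTop, Nat.log 2 (Nat.log 2 (Nat.log 2 n)) + c ≤ g n

/-- growth condition on the time bound -/
def GrowT (G : ℕ → ℕ) : Prop := ∀ k, ∀ᶠ n in atTop, n ^ k ≤ G n

theorem le_two_two (i : ℕ) : i < 2 ^ 2 ^ i :=
  (Nat.lt_pow_self (by norm_num)).trans (Nat.lt_pow_self (by norm_num))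

theorem mem_K {U : TM2ComputableAux Bool Bool} (hU : IsUniversal U) {g G : ℕ → ℕ}
    (hg : GrowG g) (hG : GrowT G) (M : TM2ComputableAux Bool Bool) {h : ℕ → ℕ} (hh : PB h)
    (hmono : Monotone h) :
    ∃ i0, ∀ i ≥ i0, ∀ y x : List Bool, y.length = Nat.log 2 i → 2 ^ 2 ^ i ≤ x.length →
      Outputs M y x (h (2 ^ 2 ^ i)) → x ∈ KClass U g G := by
  obtain ⟨e, c, he, hsim⟩ := hU M
  have hp : PB fun n => c * (h n + n + 1) ^ c :=
    (PB.const c).mul (((hh.add PB.id).add (PB.const 1)).pow c)
  obtain ⟨k, hk⟩ := hp.lt_pow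
  obtain ⟨n0, hn0⟩ := eventually_atTop.1 (hk.and ((hg c).and (hG k)))
  refine ⟨n0, fun i hi y x hy hx hout => ?_⟩
  have hii := le_two_two i
  obtain ⟨h1, h2, h3⟩ := hn0 x.length (by omega)
  have hlog : 2 ^ i ≤ Nat.log 2 x.length := Nat.le_log_of_pow_le (by norm_num) hx
  have hlog2 : i ≤ Nat.log 2 (Nat.log 2 x.length) := Nat.le_log_of_pow_le (by norm_num) hlog
  have hly : y.length ≤ Nat.log 2 (Nat.log 2 (Nat.log 2 x.length)) := by
    rw [hy]; exact Nat.log_mono_right hlog2
  refine ⟨e y, (he y).trans (by omega), c * (h (2 ^ 2 ^ i) + y.length + 1) ^ c, ?_,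
    hsim y x _ hout⟩
  have hyl : y.length ≤ x.length := by
    have : Nat.log 2 i ≤ i := Nat.log_le_self _ _
    omega
  have hle : c * (h (2 ^ 2 ^ i) + y.length + 1) ^ c ≤ c * (h x.length + x.length + 1) ^ c := by
    apply Nat.mul_le_mul_left
    apply Nat.pow_le_pow_left
    have := hmono hx
    omega
  omega

/-! ### finite patches -/

/-- decision tree on the first letters of register 0; `pre` are the letters already read -/
noncomputable def tree (c : Cmd) (S : Set (List Bool)) : ℕ → List Bool → Cmd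
  | 0, pre => .seq (.pushL 0 pre) c
  | n + 1, pre =>
    open scoped Classical in
    .ite 0 (if pre ∈ S then .push 1 true else .nop)
      (.seq (.pop 0) (tree c S n (pre ++ [false])))
      (.seq (.pop 0) (tree c S n (pre ++ [true])))

theorem tree_ok {c : Cmd} (hc : c.ok = true) (S : Set (List Bool)) :
    ∀ (n : ℕ) (pre : List Bool), (tree c S n pre).ok = true
  | 0, pre => by simp [tree, Cmd.ok, hc]
  | n + 1, pre => by
    simp only [tree, Cmd.ok, Bool.and_eq_true]
    refine ⟨⟨?_, by simp, tree_ok hc S n _⟩, by simp, tree_ok hc S n _⟩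
    split_ifs <;> rfl

theorem initSt_update (z w : List Bool) : update (initSt 0 z) 0 w = initSt 0 w := by
  funext x
  by_cases q : x = 0
  · subst q; simp [initSt]
  · simp [initSt, q]

open scoped Classical in
theorem tree_spec {c : Cmd} {S : Set (List Bool)} {T : ℕ → ℕ} {n0 : ℕ}
    (h : ∀ z : List Bool, n0 ≤ z.length → c.LB (T z.length) (initSt 0 z) ∧
      c.eval (initSt 0 z) 1 = flag (decide (z ∈ S))) :
    ∀ (n : ℕ) (pre rest : List Bool), n + pre.length = n0 →
      (tree c S n pre).LB (T (pre ++ rest).length) (initSt 0 rest) ∧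
      (tree c S n pre).eval (initSt 0 rest) 1 = flag (decide (pre ++ rest ∈ S))
  | 0, pre, rest, hn => by
    have e : (Cmd.pushL 0 pre).eval (initSt 0 rest) = initSt 0 (pre ++ rest) := by
      rw [Cmd.eval_pushL, initSt_update]; rfl
    obtain ⟨h1, h2⟩ := h (pre ++ rest) (by simp; omega)
    simp only [tree, Cmd.LB_seq, Cmd.eval_seq, e]
    exact ⟨⟨Cmd.LB_pushL _ _ _ _, h1⟩, h2⟩
  | n + 1, pre, [], hn => by
    have x0 : initSt 0 [] 0 = [] := rfl
    simp only [tree, Cmd.LB, Cmd.eval, x0, List.append_nil]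
    split_ifs with hm
    · simp [Cmd.eval, Cmd.LB, initSt, hm]
    · simp [Cmd.eval, Cmd.LB, initSt, hm]
  | n + 1, pre, b :: rest, hn => by
    have x0 : initSt 0 (b :: rest) 0 = b :: rest := rfl
    have e : (Cmd.pop 0).eval (initSt 0 (b :: rest)) = initSt 0 rest := by
      rw [Cmd.eval_pop, initSt_update]; rfl
    have ih := tree_spec h n (pre ++ [b]) rest (by simp; omega)
    have ea : pre ++ [b] ++ rest = pre ++ b :: rest := by simp
    rw [ea] at ih
    cases b
    · simp only [tree, Cmd.LB, Cmd.eval, x0]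
      simp only [Cmd.eval_pop] at e
      rw [show update (initSt 0 (false :: rest)) 0 (false :: rest).tail = initSt 0 rest from e]
      exact ⟨⟨trivial, ih.1⟩, ih.2⟩
    · simp only [tree, Cmd.LB, Cmd.eval, x0]
      simp only [Cmd.eval_pop] at e
      rw [show update (initSt 0 (true :: rest)) 0 (true :: rest).tail = initSt 0 rest from e]
      exact ⟨⟨trivial, ih.1⟩, ih.2⟩

open scoped Classical in
/-- a language decided by a program on all long inputs is in P -/
theorem inP_of_large {c : Cmd} (hok : c.ok = true) {S : Set (List Bool)} {T : ℕ → ℕ} {n0 : ℕ}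
    (hT : PB T) (h : ∀ z : List Bool, n0 ≤ z.length → c.LB (T z.length) (initSt 0 z) ∧
      c.eval (initSt 0 z) 1 = flag (decide (z ∈ S))) : InP S := by
  refine Pool.Agent.Helper4.Glue.inP_of_cmd (tree c S n0 []) (tree_ok hok S n0 []) 1 T hT
    (fun z => decide (z ∈ S)) (fun x => by simp) (fun z => ?_)
  have := tree_spec h n0 [] z (by simp)
  simpa [flag] using this

end Pool.Agent.Helper72
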