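import Pool.Agent.Helper72.Tableau
import Pool.Agent.Helper72.Blocks
import Pool.Agent.Helper72.Defs

/-!
Absolute clauses and formulas of the tableau (definitions only; the generating program is
in another file).
-/

namespace Pool.Agent.Helper72

open Function

/-- absolute clause: list of (sign, variable number) -/
abbrev ACls := List (Bool × ℕ)

/-- the formula variable with number `n` is `x_(2^n - 1)`, whose binary index is `1^n` -/
def litForm (l : Bool × ℕ) : BForm :=
  if l.1 then .var (2 ^ l.2 - 1) else .neg (.var (2 ^ l.2 - 1))

def clsForm : ACls → BForm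
  | [] => .conj (.var 0) (.neg (.var 0))
  | l :: C => .disj (litForm l) (clsForm C)

def addF (Cs : List ACls) (ψ : BForm) : BForm :=
  Cs.foldl (fun ψ C => .conj (clsForm C) ψ) ψ

/-- instance of a clause template at base `b`, with `R` variables per row, `Cn` per cell -/
def instL (Cn R b : ℕ) (C : List Lit) : ACls :=
  C.map fun l => (l.sgn, b + (if l.nxt then R else 0) + (if l.dh then Cn else 0) + l.c)

/-- clauses `g b, g (b + step), ...` (`n` of them) -/
def seqC (step : ℕ) (g : ℕ → List ACls) : ℕ → ℕ → List ACls
  | 0, _ => []
  | n + 1, b => g b ++ seqC step g n (b + step)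

section

variable (P : List Instr) (k acc : ℕ)

/-- number of channels per cell -/
def nCh : ℕ := 2 * k + (P.length + 1)

/-- number of variables per row -/
def nRow (B : ℕ) : ℕ := (B + 1) * nCh P k

def rowC (B b : ℕ) : List ACls :=
  (edgeT P k).map (instL (nCh P k) (nRow P k B) b) ++
  (seqC (nCh P k) (fun b => (bodyT P k).map (instL (nCh P k) (nRow P k B) b)) B b ++
  (lastT k).map (instL (nCh P k) (nRow P k B) (b + B * nCh P k)))

/-- all clauses of the tableau -/
def tabC (B : ℕ) : List ACls :=
  seqC (nRow P k B) (rowC P k B) B 0 ++
  ((finT P k acc).map (instL (nCh P k) (nRow P k B) (B * nRow P k B)) ++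
  ((init0T k).map (instL (nCh P k) (nRow P k B) 0) ++
  seqC (nCh P k) (fun b => (initBT k).map (instL (nCh P k) (nRow P k B) b)) B 0))

/-- the tableau formula -/
def tabF (B : ℕ) : BForm := addF (tabC P k acc B) (.disj (.var 0) (.neg (.var 0)))

end

/-- unit clauses fixing the first cells of stack 0 at time 0 to the letters of `X`,
starting from base `b` -/
def prefC (Cn : ℕ) : ℕ → List Bool → List ACls
  | _, [] => []
  | b, x :: X => [(true, b + x.toNat)] :: prefC Cn (b + Cn) X

/-- the clauses saying that the cell at base `b` of stack 0 is empty -/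
def endC (b : ℕ) : List ACls := [[(false, b + 0)], [(false, b + 1)]]

/-- the clauses saying that the first `n` cells of stack 0 at time 0 are not empty -/
def nonEmptyC (Cn n : ℕ) : List ACls := seqC Cn (fun b => [[(true, b + 0), (true, b + 1)]]) n 0

end Pool.Agent.Helper72
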