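import Pool.Agent.Helper72.ProgFin
import Pool.Agent.Helper72.CodeInj
import Pool.Agent.Helper4.SatNP

/-!
The main theorem: separability of the Kolmogorov-simple part of SAT from the complement of
SAT is equivalent to P = NP.
-/

namespace Pool.Agent.Helper72

open Function Turing Computability Filter

theorem flag_zero {b : Bool} : (flag b)[0]? = some true ↔ b = true := by
  cases b <;> simp [flag]

theorem scr_init2 (z w : List Bool) : Scr (init2 z w) := by
  intro r hr
  simp only [init2]
  rw [if_neg (by omega), if_neg (by omega)]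

/-- The core: a separator yields a polynomial time algorithm for every language in NP. -/
theorem inP_of_separator {U : TM2ComputableAux Bool Bool} (hU : IsUniversal U) {g G : ℕ → ℕ}
    (hg : GrowG g) (hG : GrowT G) (hsep : PolySep (KClass U g G ∩ SAT) SATᶜ)
    {L : Set (List Bool)} (hL : InNP L) : InP L := by
  classical
  obtain ⟨S, ⟨χ, hχ, hχP⟩, hKS, hSc⟩ := hsep
  have hSsub : ∀ x, χ x = true → x ∈ SAT := by
    intro x hx
    by_contra hcon
    have : x ∈ S ∩ SATᶜ := ⟨(hχ x).1 hx, hcon⟩
    rw [hSc] at this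
    exact this
  obtain ⟨q, R, hRP, hLR⟩ := hL
  -- programs for the verifier
  obtain ⟨decV, TV, hV⟩ := exists_decSpec pairCode R hRP
  obtain ⟨decS, TS, hS'⟩ := exists_decSpec id χ hχP
  have hS : DecSpec (fun x : List Bool => x) χ decS TS := hS'
  obtain ⟨cq, Tq, hq⟩ := exists_polySpec q (n := 0) (d := 32) (by norm_num) (by norm_num)
    (by norm_num)
  set PV := Cmd.PVc cq decV with hPV
  have okPV : PV.ok = true := Cmd.ok_PVc hq hV
  have hqPB : PB fun n => q.eval n := PB.poly q
  -- specification of the verifier program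
  have PVspec : ∀ z w, PV.eval (init2 z w) =
      update (init2 z w) 2 (flag (decide (w.length ≤ q.eval z.length) && R (z, w))) ∧
      PV.LB (Cmd.TPV (fun n => q.eval n) Tq TV z.length w.length) (init2 z w) := by
    intro z w
    have := Cmd.PV_spec hq hV (s := init2 z w) (scr_init2 z w) (by simp [init2])
    simpa [init2] using this
  have memL : ∀ z, z ∈ L ↔ ∃ w : List Bool,
      (decide (w.length ≤ q.eval z.length) && R (z, w)) = true := by
    intro z
    rw [hLR z]
    simp
  -- the bound for the verifier tableau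
  have hTPV : PB fun n => Cmd.TPV (fun n => q.eval n) Tq TV n (q.eval n) := by
    simp only [Cmd.TPV]
    exact (((((hq.pb.add hqPB).add PB.id).add hqPB).add
      (hV.pb.comp ((((PB.const 2).mul PB.id).add (PB.const 2)).add hqPB))).add (PB.const 1))
  have hTPVmono : ∀ n m m', m ≤ m' → Cmd.TPV (fun n => q.eval n) Tq TV n m ≤
      Cmd.TPV (fun n => q.eval n) Tq TV n m' := by
    intro n m m' h
    simp only [Cmd.TPV]
    have := hV.mono (show 2 * n + 2 + m ≤ 2 * n + 2 + m' by omega)
    omega
  obtain ⟨bV, hbVmono, hbV⟩ := (show PB fun n => n + q.eval n +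
      PV.tb (Cmd.TPV (fun n => q.eval n) Tq TV n (q.eval n)) + 1 from
      (((PB.id.add hqPB).add ((PB.tb PV).comp hTPV)).add (PB.const 1))).exists_poly
  set BV : ℕ → ℕ := fun n => bV.eval n with hBV
  have hBVPB : PB BV := PB.poly bV
  set kV := max PV.bd 3 with hkV
  -- the reduction
  set F : List Bool → List Bool := fVal PV.code kV 2 BV with hF
  have PVtime : ∀ z w : List Bool, w.length ≤ q.eval z.length →
      max z.length w.length + PV.time (init2 z w) ≤ BV z.length := by
    intro z w hw
    have h1 := Cmd.time_le_tb (PVspec z w).2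
    have h2 := Cmd.tb_mono PV (hTPVmono z.length _ _ hw)
    have h3 := hbV z.length
    simp only [hBV]
    omega
  have hFV : ∀ z, F z ∈ SAT ↔ z ∈ L := by
    intro z
    have hbase : Base (nCh PV.code kV) (BV z.length) (tabF PV.code kV 2 (BV z.length))
        (fun z => z ∈ L) := by
      refine ⟨fun v hv => ?_⟩
      obtain ⟨z', w, hz', -, hcell, hacc⟩ := tabF_sound okPV (le_max_left _ _)
        (by omega) (by omega) (by have := hbV z.length; simp only [hBV]; omega) hv
      refine ⟨z', hz', ?_, hcell⟩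
      rw [(PVspec z' w).1, update_self, flag_zero] at hacc
      exact (memL z').2 ⟨w, hacc⟩
    have hzB : z.length ≤ BV z.length := by
      have := hbV z.length
      simp only [hBV]; omega
    constructor
    · rintro ⟨φ, hφ, v, hv⟩
      have hinj : φ = endF (nCh PV.code kV) (tabF PV.code kV 2 (BV z.length)) z :=
        code_injective hφ
      exact hbase.end_acc hzB ⟨v, hinj ▸ hv⟩
    · intro hz
      obtain ⟨w, hw⟩ := (memL z).1 hz
      have hwl : w.length ≤ q.eval z.length := by
        rw [Bool.and_eq_true, decide_eq_true_iff] at hw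
        exact hw.1
      obtain ⟨v, hv, hcell⟩ := tabF_complete (k := kV) (acc := 2) okPV (le_max_left _ _)
        (by omega) (z := z) (w := w) (PVtime z w hwl)
        (by rw [(PVspec z w).1, update_self, flag_zero]; exact hw)
      refine ⟨_, rfl, v, ?_⟩
      rw [eval_endF, eval_prefF]
      refine ⟨fun b => ?_, fun i x hi => ?_, hv⟩
      · rcases hc : nval v (z.length * nCh PV.code kV + b.toNat) with _ | _
        · rfl
        · have := (hcell z.length hzB b).1 hc
          simp at this
      · have hil : i < z.length := by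
          rw [List.getElem?_eq_some_iff] at hi; exact hi.1
        exact (hcell i (by omega) x).2 hi
  have hFlen : ∀ z, z.length ≤ (F z).length := by
    intro z
    have h1 := length_code_addF (endC (z.length * nCh PV.code kV))
      (prefF (nCh PV.code kV) (tabF PV.code kV 2 (BV z.length)) z)
    have h2 := length_addCode_ge (prefC (nCh PV.code kV) 0 z)
      (tabF PV.code kV 2 (BV z.length)).code
    rw [addCode_code, prefC_length] at h2
    exact le_trans (by omega) (h2.trans h1)
  -- the program computing the reduction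
  obtain ⟨cB, TB, hB⟩ := exists_polySpec bV (n := 11) (d := 10) (by norm_num) (by norm_num)
    (by norm_num)
  obtain ⟨gT, TG, hGen⟩ := exists_genSpec PV.code kV 2
  obtain ⟨gP, TP, hP⟩ := exists_prefSpec (nCh PV.code kV)
  obtain ⟨gE, TE, hE⟩ := exists_endSpec
  set fv := Cmd.fVc cB gT gP gE with hfvdef
  set Lf : ℕ → ℕ := fun n => Cmd.TfV BV TB TG TP TE (nCh PV.code kV) n with hLf
  have hfv : ∀ s : St, Scr s → s 9 = [] → s 10 = [] → fv.eval s = update s 9 (F (s 11)) ∧
      fv.LB (Lf (s 11).length) s ∧ (F (s 11)).length ≤ Lf (s 11).length :=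
    fun s hs h9 h10 => Cmd.fV_spec hB hGen hP hE hs h9 h10
  have hLfmono : Monotone Lf := by
    intro a b hab
    simp only [hLf, Cmd.TfV]
    have e1 : a * nCh PV.code kV ≤ b * nCh PV.code kV := Nat.mul_le_mul_right _ hab
    have e2 : a * (24 + 3 * (a * nCh PV.code kV + 1)) ≤
        b * (24 + 3 * (b * nCh PV.code kV + 1)) := Nat.mul_le_mul hab (by omega)
    have := hB.mono hab
    have e3 : BV a ≤ BV b := hbVmono hab
    have := hGen.mono e3
    have := hP.mono hab
    have := hE.mono e1
    omega
  have hLfPB : PB Lf := by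
    have hmul : PB fun n => n * nCh PV.code kV := PB.id.mul (PB.const _)
    have h24 : PB fun n => 24 + 3 * (n * nCh PV.code kV + 1) :=
      (PB.const 24).add ((PB.const 3).mul (hmul.add (PB.const 1)))
    exact ((((((hB.pb.add (hGen.pb.comp hBVPB)).add hP.pb).add (hE.pb.comp hmul)).add
      hBVPB).add (PB.id.mul h24)).add ((PB.const 2).mul h24))
  have okfv : fv.ok = true := by
    simp only [hfvdef, Cmd.fVc, Cmd.ok, hB.ok, hGen.ok, hP.ok, hE.ok, Bool.and_self, Cmd.ok_clear]
  -- the program W
  set W := Cmd.Wc PV fv decS with hW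
  have okW : W.ok = true := by
    simp only [hW, Cmd.Wc, Cmd.ok, okPV, okfv, hS.ok, Cmd.ok_clear, Bool.and_self, Bool.and_true,
      Bool.true_and, Cmd.copy, Cmd.mv, Cmd.mv2, Cmd.wr]
    decide
  set TW : ℕ → ℕ → ℕ := fun n m => Cmd.TPV (fun n => q.eval n) Tq TV n m + n + Lf n +
    TS (Lf n) + 1 with hTW
  have Wspec : ∀ z w, W.eval (init2 z w) = update (init2 z w) 2
      (flag ((decide (w.length ≤ q.eval z.length) && R (z, w)) && !(χ (F z)))) ∧
      W.LB (TW z.length w.length) (init2 z w) := by
    intro z w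
    have x0 : init2 z w 0 = z := by simp [init2]
    have := Cmd.W_spec (Lf := Lf z.length) hS (f := F) (a := decide (w.length ≤ q.eval z.length)
      && R (z, w)) (L := Cmd.TPV (fun n => q.eval n) Tq TV z.length w.length)
      (s := init2 z w) (scr_init2 z w) (by simp [init2]) (by simp [init2]) (by simp [init2])
      (PVspec z w).1 (PVspec z w).2 (by
        intro s' h1 h2 h3 h4
        have := hfv s' h1 h2 h3
        rw [h4, x0] at this ⊢
        exact this)
    rw [x0] at this
    exact this
  -- the bound for the tableau of W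
  have hTWPB : PB fun n => TW n (q.eval n) := by
    simp only [hTW]
    exact (((hTPV.add PB.id).add hLfPB).add (hS.pb.comp hLfPB)).add (PB.const 1)
  have hTWmono : ∀ n m m', m ≤ m' → TW n m ≤ TW n m' := by
    intro n m m' h
    have := hTPVmono n m m' h
    simp only [hTW]
    omega
  obtain ⟨b0, hb0mono, hb0⟩ := (show PB fun n => n + q.eval n + W.tb (TW n (q.eval n)) + 1 from
      (((PB.id.add hqPB).add ((PB.tb W).comp hTWPB)).add (PB.const 1))).exists_poly
  obtain ⟨bW, hbWmono, hbW⟩ := (show PB fun N => N + b0.eval (N * N) + 1 from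
      ((PB.id.add ((PB.poly b0).comp (PB.id.mul PB.id))).add (PB.const 1))).exists_poly
  set BW : ℕ → ℕ := fun n => bW.eval n with hBW
  have hBWPB : PB BW := PB.poly bW
  set kW := max W.bd 3 with hkW
  set Cn := nCh W.code kW with hCn
  have Wtime : ∀ (N : ℕ) (z w : List Bool), z.length ≤ N * N → w.length ≤ q.eval z.length →
      max z.length w.length + W.time (init2 z w) ≤ BW N := by
    intro N z w hz hw
    have h1 := Cmd.time_le_tb (Wspec z w).2
    have h2 := Cmd.tb_mono W (hTWmono z.length _ _ hw)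
    have h3 := hb0 z.length
    have h4 : b0.eval z.length ≤ b0.eval (N * N) := hb0mono hz
    have h5 := hbW N
    simp only [hBW]
    omega
  set ψ : ℕ → BForm := fun N => addF (nonEmptyC Cn N) (tabF W.code kW 2 (BW N)) with hψ
  have hNB : ∀ N, N ≤ BW N := by
    intro N
    have := hbW N
    simp only [hBW]; omega
  have hbase : ∀ N, Base Cn (BW N) (ψ N) (fun z => N ≤ z.length ∧ z ∈ L ∧ χ (F z) = false) := by
    intro N
    refine ⟨fun v hv => ?_⟩
    rw [hψ, eval_addF] at hv
    obtain ⟨z, w, hz, -, hcell, hacc⟩ := tabF_sound okW (le_max_left _ _)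
      (by omega) (by omega) (by have := hbW N; simp only [hBW]; omega) hv.2
    rw [(Wspec z w).1, update_self, flag_zero, Bool.and_eq_true, Bool.not_eq_true'] at hacc
    refine ⟨z, hz, ⟨?_, (memL z).2 ⟨w, hacc.1⟩, hacc.2⟩, hcell⟩
    by_contra hcon
    have hlt : z.length < N := by omega
    obtain ⟨l, hl, hlv⟩ := hv.1 [(true, z.length * Cn + 0), (true, z.length * Cn + 1)] (by
      rw [nonEmptyC, mem_seqC]
      exact ⟨z.length, hlt, by simp⟩)
    have hNB' := hNB N
    have hno : ∀ b : Bool, nval v (z.length * Cn + b.toNat) = false := by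
      intro b
      rcases hc : nval v (z.length * Cn + b.toNat) with _ | _
      · rfl
      · have := (hcell z.length (by omega) b).1 hc
        simp at this
    simp only [List.mem_cons, List.not_mem_nil, or_false] at hl
    rcases hl with rfl | rfl
    · exact Bool.false_ne_true ((hno false).symm.trans hlv)
    · exact Bool.false_ne_true ((hno true).symm.trans hlv)
  have hacc : ∀ N, ∀ z, (N ≤ z.length ∧ z ∈ L ∧ χ (F z) = false) → Missed χ N (F z) := by
    rintro N z ⟨h1, h2, h3⟩
    exact ⟨(hFV z).2 h2, h3, h1.trans (hFlen z)⟩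
  have hSf : ∀ φ : BForm, χ φ.code = true → φ.Satf := by
    intro φ h
    obtain ⟨φ', h1, v, hv⟩ := hSsub _ h
    exact ⟨v, by rw [← code_injective h1]; exact hv⟩
  have hψlen : ∀ N, N ≤ (ψ N).code.length := by
    intro N
    have h1 := length_addCode_ge (nonEmptyC Cn N) (tabF W.code kW 2 (BW N)).code
    rw [nonEmptyC_length, addCode_code] at h1
    simp only [hψ]
    omega
  -- the machines
  obtain ⟨cW, TcW, hcW⟩ := exists_polySpec bW (n := 12) (d := 10) (by norm_num) (by norm_num)
    (by norm_num)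
  obtain ⟨gT', TG', hGen'⟩ := exists_genSpec W.code kW 2
  obtain ⟨gN, TN, hN⟩ := exists_neSpec Cn
  obtain ⟨gP', TP', hP'⟩ := exists_prefSpec Cn
  obtain ⟨g1, T1, h1⟩ := exists_bitSpec true
  obtain ⟨g0, T0, h0⟩ := exists_bitSpec false
  have wrfv : fv.wr 44 = false := by
    simp only [hfvdef, Cmd.fVc, Cmd.wr, Cmd.clear, hB.wr 44 (by omega) (by omega) (by omega)
      (by omega) (by omega), hGen.wr 44 (by omega), hP.wr 44 (by omega), hE.wr 44 (by omega)]
    decide
  have mach : ∀ (j : ℕ) (clJ : ℕ → List ACls) (gJ : Cmd) (TJ : ℕ → ℕ), AddSpec clJ gJ TJ →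
      ((j = 0 ∧ clJ = endC) ∨ (j = 1 ∧ clJ = bitC true) ∨ (j = 2 ∧ clJ = bitC false)) →
      ∃ i0, ∀ i ≥ i0, 2 ^ 2 ^ i ≤ (refuter χ F Cn (ψ (2 ^ 2 ^ i)) j (BW (2 ^ 2 ^ i))).length →
        refuter χ F Cn (ψ (2 ^ 2 ^ i)) j (BW (2 ^ 2 ^ i)) ∈ KClass U g G := by
    intro j clJ gJ TJ hJ hclJ
    obtain ⟨M, h, hh, hmono, hout⟩ := exists_machine hBWPB hcW hGen' hN hP' hE h1 h0 hJ hclJ hS
      hfv hLfmono hLfPB okfv wrfv (ψ := ψ) (fun N => rfl)
    obtain ⟨i0, hi0⟩ := mem_K hU hg hG M hh hmono
    refine ⟨max i0 1, fun i hi hlen => ?_⟩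
    obtain ⟨y, hy, hyl⟩ := exists_bval i (by omega)
    exact hi0 i (by omega) y _ hyl hlen (hout i (by omega) y hy hyl)
  obtain ⟨i0, hi0⟩ := mach 0 endC gE TE hE (Or.inl ⟨rfl, rfl⟩)
  obtain ⟨i1, hi1⟩ := mach 1 (bitC true) g1 T1 h1 (Or.inr (Or.inl ⟨rfl, rfl⟩))
  obtain ⟨i2, hi2⟩ := mach 2 (bitC false) g0 T0 h0 (Or.inr (Or.inr ⟨rfl, rfl⟩))
  -- the final decision procedure
  have hdec : ∀ z : List Bool, 2 ^ 2 ^ (max i0 (max i1 i2)) ≤ z.length →
      (χ (F z) = true ↔ z ∈ L) := by
    intro z hz
    constructor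
    · intro h
      exact (hFV z).1 (hSsub _ h)
    · intro hzL
      by_contra hcon
      have hcon' : χ (F z) = false := by simpa using hcon
      set i := Nat.log 2 (Nat.log 2 z.length) with hi
      have hz0 : z.length ≠ 0 := by
        have : 0 < 2 ^ 2 ^ (max i0 (max i1 i2)) := by positivity
        omega
      have hz1 : 2 ^ (max i0 (max i1 i2)) ≤ Nat.log 2 z.length :=
        Nat.le_log_of_pow_le (by norm_num) hz
      have hz2 : Nat.log 2 z.length ≠ 0 := by
        have : 0 < 2 ^ (max i0 (max i1 i2)) := by positivity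
        omega
      have hile : max i0 (max i1 i2) ≤ i := Nat.le_log_of_pow_le (by norm_num) hz1
      have hlo : 2 ^ 2 ^ i ≤ z.length :=
        (Nat.pow_le_pow_right (by norm_num) (Nat.pow_log_le_self 2 hz2)).trans
          (Nat.pow_log_le_self 2 hz0)
      have hhi1 : Nat.log 2 z.length < 2 ^ (i + 1) := Nat.lt_pow_succ_log_self (by norm_num) _
      have hhi : z.length < 2 ^ 2 ^ (i + 1) :=
        (Nat.lt_pow_succ_log_self (by norm_num) _).trans_le
          (Nat.pow_le_pow_right (by norm_num) hhi1)
      have hhi' : z.length ≤ 2 ^ 2 ^ i * 2 ^ 2 ^ i := by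
        rw [← pow_add, ← two_mul, ← pow_succ']
        exact hhi.le
      obtain ⟨w, hw⟩ := (memL z).1 hzL
      have hwl : w.length ≤ q.eval z.length := by
        rw [Bool.and_eq_true, decide_eq_true_iff] at hw
        exact hw.1
      obtain ⟨v, hv, hcell⟩ := tabF_complete (k := kW) (acc := 2) okW (le_max_left _ _)
        (by omega) (z := z) (w := w) (Wtime (2 ^ 2 ^ i) z w hhi' hwl)
        (by rw [(Wspec z w).1, update_self, flag_zero, hw, hcon']; rfl)
      have hsat : (ψ (2 ^ 2 ^ i)).Satf := by
        refine ⟨v, ?_⟩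
        simp only [hψ]
        rw [eval_addF]
        refine ⟨fun C hC => ?_, hv⟩
        rw [nonEmptyC, mem_seqC] at hC
        obtain ⟨m, hm, hC⟩ := hC
        simp only [List.mem_singleton] at hC
        subst hC
        have hmz : m < z.length := by omega
        have hb := (hcell m (by have := hNB (2 ^ 2 ^ i); omega) z[m]).2
          (List.getElem?_eq_getElem hmz)
        rw [zero_add]
        cases hzm : z[m]
        · rw [hzm, Bool.toNat_false] at hb
          exact ⟨_, List.mem_cons_self, hb⟩
        · rw [hzm, Bool.toNat_true] at hb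
          exact ⟨_, List.mem_cons_of_mem _ List.mem_cons_self, hb⟩
      obtain ⟨j, hj, hmiss⟩ := refuter_spec (hbase (2 ^ 2 ^ i)) (hψlen _) hSf (hacc _) hsat
      have hK : refuter χ F Cn (ψ (2 ^ 2 ^ i)) j (BW (2 ^ 2 ^ i)) ∈ KClass U g G := by
        obtain rfl | rfl | rfl : j = 0 ∨ j = 1 ∨ j = 2 := by omega
        · exact hi0 i (by omega) hmiss.2.2
        · exact hi1 i (by omega) hmiss.2.2
        · exact hi2 i (by omega) hmiss.2.2
      have := (hχ _).2 (hKS ⟨hK, hmiss.1⟩)
      rw [hmiss.2.1] at this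
      exact Bool.false_ne_true this
  refine inP_of_large (c := Cmd.Dc fv decS) (Cmd.ok_Dc okfv hS.ok)
    (T := fun n => n + Lf n + TS (Lf n)) (n0 := 2 ^ 2 ^ (max i0 (max i1 i2)))
    ((PB.id.add hLfPB).add (hS.pb.comp hLfPB)) (fun z hz => ?_)
  obtain ⟨d1, d2⟩ := Cmd.D_spec hS hfv z
  refine ⟨d1, ?_⟩
  rw [d2]
  congr 1
  have := hdec z hz
  rcases hc : χ (F z) with _ | _
  · rw [eq_comm, decide_eq_false_iff_not, ← this, hc]
    exact Bool.false_ne_true
  · rw [eq_comm, decide_eq_true_iff, ← this]
    exact hc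

end Pool.Agent.Helper72
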