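import Pool.Agent.Helper72.ProgG
import Pool.Agent.Helper72.MainThm

/-!
The two-sided main theorem: if some polynomial time set agrees with SAT on the class
`K[g(n), G(n)]`, then P = NP.
-/

namespace Pool.Agent.Helper72

open Function Turing Computability Filter Pool.Agent.Helper73.GenProg

/-- a polynomial time set that agrees with SAT on the Kolmogorov-simple words yields a
polynomial time algorithm for every language in NP -/
theorem inP_of_agree {U : TM2ComputableAux Bool Bool} (hU : IsUniversal U) {g G : ℕ → ℕ}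
    (hg : GrowG g) (hG : GrowT G) {S : Set (List Bool)} (hSP : InP S)
    (hK : ∀ x ∈ KClass U g G, (x ∈ S ↔ x ∈ SAT))
    {L : Set (List Bool)} (hL : InNP L) : InP L := by
  classical
  obtain ⟨χ, hχ, hχP⟩ := hSP
  obtain ⟨q, R, hRP, hLR⟩ := hL
  -- programs for the verifier
  obtain ⟨decV, TV, hV⟩ := exists_decSpec pairCode R hRP
  obtain ⟨decS, TS, hS'⟩ := exists_decSpec id χ hχP
  have hS : DecSpec (fun x : List Bool => x) χ decS TS := hS'
  obtain ⟨cq, Tq, hq⟩ := exists_polySpec q (n := 0) (d := 32) (by norm_num) (by norm_num)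
    (by norm_num)
  set V : List Bool → List Bool → Bool :=
    fun z w => decide (w.length ≤ q.eval z.length) && R (z, w) with hVdef
  set PV := Cmd.PVc cq decV with hPV
  have okPV : PV.ok = true := Cmd.ok_PVc hq hV
  obtain ⟨TPV, hVer⟩ := VerS.of_PV hq hV
  have hqPB : PB fun n => q.eval n := PB.poly q
  obtain ⟨q', hq'm, hq'⟩ := hqPB.exists_poly
  have memL : ∀ z, z ∈ L ↔ ∃ w : List Bool, V z w = true := by
    intro z
    rw [hLR z]
    simp [hVdef]
  have hVlen : ∀ z w, V z w = true → w.length ≤ q.eval z.length := by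
    intro z w h
    simp only [hVdef, Bool.and_eq_true, decide_eq_true_iff] at h
    exact h.1
  -- the verifier program on a pair
  have PVrun : ∀ z w, ∀ m, z.length ≤ m → w.length ≤ m →
      Run (TPV m) PV (init2 z w) ({ a0 := z, a1 := w, a2 := flag (V z w) } : Rg).st := by
    intro z w m hz hw
    rw [init2_eq]
    exact hVer.spec { a0 := z, a1 := w } m rfl rfl rfl rfl hz hw
  obtain ⟨bV, hbVmono, hbV⟩ := (show PB fun n => (n + q'.eval n) +
      PV.tb (TPV (n + q'.eval n)) + 1 from
      (((PB.id.add (PB.poly q')).add ((PB.tb PV).comp (hVer.pb.comp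
        (PB.id.add (PB.poly q'))))).add (PB.const 1))).exists_poly
  set BV : ℕ → ℕ := fun n => bV.eval n with hBV
  have hBVPB : PB BV := PB.poly bV
  set kV := max PV.bd 3 with hkV
  set CV := nCh PV.code kV with hCV
  set Φ : List Bool → BForm :=
    fun z => endF CV (tabF PV.code kV 2 (BV z.length)) z with hΦ
  have PVtime : ∀ z w : List Bool, w.length ≤ q.eval z.length →
      max z.length w.length + PV.time (init2 z w) ≤ BV z.length := by
    intro z w hw
    have hq1 := hq' z.length
    have h1 := Cmd.time_le_tb (PVrun z w (z.length + q'.eval z.length) (by omega) (by omega)).2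
    have h3 := hbV z.length
    simp only [hBV]
    omega
  have hBVpos : ∀ n, 0 < BV n := by
    intro n
    have := hbV n
    simp only [hBV]
    omega
  have hzB : ∀ z : List Bool, z.length ≤ BV z.length := by
    intro z
    have := hbV z.length
    simp only [hBV]
    omega
  -- what the formula Φ z says
  have hΦs : ∀ z v, (Φ z).eval v = true → ∃ w : List Bool, w.length ≤ BV z.length ∧
      V z w = true ∧ ∀ h ≤ BV z.length, ∀ b : Bool,
        nval v (2 + h * CV + b.toNat) = true ↔ w[h]? = some b := by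
    intro z v hv
    have hv0 := hv
    rw [hΦ, eval_endF, eval_prefF] at hv
    obtain ⟨z', w, hz', hw, ⟨hcell, hcell2⟩, hacc⟩ := tabF_sound2 okPV (le_max_left _ _)
      (by omega) (by omega) (hBVpos _) hv.2.2
    have hend : (endO 0 CV (tabF PV.code kV 2 (BV z.length)) z).eval v = true := by
      rw [eval_endO, eval_prefO]
      refine ⟨fun b => ?_, fun i x hi => ?_, hv.2.2⟩
      · rw [Nat.zero_add]; exact hv.1 b
      · rw [Nat.zero_add]; exact hv.2.1 i x hi
    have hzz : z' = z := word_of_endO (hzB z) hend (fun h hh b => by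
      rw [Nat.zero_add]; exact hcell h hh b)
    subst hzz
    refine ⟨w, hw, ?_, hcell2⟩
    rw [(PVrun z' w (max z'.length w.length) (le_max_left _ _) (le_max_right _ _)).1] at hacc
    simpa [flag_zero] using hacc
  have hΦc : ∀ z, z ∈ L → (Φ z).Satf := by
    intro z hz
    obtain ⟨w, hw⟩ := (memL z).1 hz
    obtain ⟨v, hv, hcell⟩ := tabF_complete (k := kV) (acc := 2) okPV (le_max_left _ _)
      (by omega) (z := z) (w := w) (PVtime z w (hVlen z w hw))
      (by
        rw [(PVrun z w (max z.length w.length) (le_max_left _ _) (le_max_right _ _)).1]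
        simp [hw, flag])
    refine ⟨v, ?_⟩
    rw [hΦ, eval_endF, eval_prefF]
    refine ⟨fun b => ?_, fun i x hi => ?_, hv⟩
    · rcases hc : nval v (z.length * CV + b.toNat) with _ | _
      · rfl
      · have := (hcell z.length (hzB z) b).1 hc
        simp at this
    · have hil : i < z.length := by
        rw [List.getElem?_eq_some_iff] at hi; exact hi.1
      exact (hcell i (by have := hzB z; omega) x).2 hi
  have hΦlen : ∀ z, z.length ≤ (Φ z).code.length := by
    intro z
    have h1 := length_code_addF (endC (z.length * CV))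
      (prefF CV (tabF PV.code kV 2 (BV z.length)) z)
    have h2 := length_addCode_ge (prefC CV 0 z) (tabF PV.code kV 2 (BV z.length)).code
    rw [addCode_code, prefC_length] at h2
    exact le_trans (by omega) (h2.trans h1)
  have hΦcells : ∀ z, Cells 2 CV (BV z.length) (Φ z) := by
    intro z v hv
    obtain ⟨w, h1, -, h3⟩ := hΦs z v hv
    exact ⟨w, h1, h3⟩
  -- the decision procedure by search
  set D : ℕ → List Bool → Bool × List Bool := fun j => dprog χ V CV BV Φ j with hD
  have hDind : ∀ j z, (D j z).1 = (D 0 z).1 := fun j z => dprog_indep χ V CV BV Φ j z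
  have hDbad : ∀ z w, V z w = true → (D 0 z).1 = false →
      ∃ j < 4, ¬ Good χ (D j z).2 ∧ z.length ≤ (D j z).2.length := by
    intro z w hw h0
    obtain ⟨j, hj, hb, hl⟩ := dprog_bad (χ := χ) (V := V) (hΦcells z)
      (hΦc z ((memL z).2 ⟨w, hw⟩)) (by
        rintro Y hY ⟨v, hv⟩
        have hv' := (eval_prefO.1 (eval_endO.1 hv).2).2
        obtain ⟨w', h1, h2, h3⟩ := hΦs z v hv'
        rw [← word_of_endO hY hv h3]
        exact h2) h0
    exact ⟨j, hj, hb, (hΦlen z).trans hl⟩
  -- the program computing Φ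
  obtain ⟨cB, TB, hB⟩ := exists_polySpec bV (n := 11) (d := 10) (by norm_num) (by norm_num)
    (by norm_num)
  obtain ⟨gT, TG, hGen⟩ := exists_genSpec PV.code kV 2
  obtain ⟨gP, TP, hP⟩ := exists_prefSpec CV
  obtain ⟨gE, TE, hE⟩ := exists_endSpec
  set fv := Cmd.fVc cB gT gP gE with hfvdef
  set Lf : ℕ → ℕ := fun n => Cmd.TfV BV TB TG TP TE CV n with hLf
  have hLfmono : Monotone Lf := by
    intro a b hab
    simp only [hLf, Cmd.TfV]
    have e1 : a * CV ≤ b * CV := Nat.mul_le_mul_right _ hab
    have e2 : a * (24 + 3 * (a * CV + 1)) ≤ b * (24 + 3 * (b * CV + 1)) :=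
      Nat.mul_le_mul hab (by omega)
    have := hB.mono hab
    have e3 : BV a ≤ BV b := hbVmono hab
    have := hGen.mono e3
    have := hP.mono hab
    have := hE.mono e1
    omega
  have hLfPB : PB Lf := by
    have hmul : PB fun n => n * CV := PB.id.mul (PB.const _)
    have h24 : PB fun n => 24 + 3 * (n * CV + 1) :=
      (PB.const 24).add ((PB.const 3).mul (hmul.add (PB.const 1)))
    exact ((((((hB.pb.add (hGen.pb.comp hBVPB)).add hP.pb).add (hE.pb.comp hmul)).add
      hBVPB).add (PB.id.mul h24)).add ((PB.const 2).mul h24))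
  have okfv : fv.ok = true := by
    simp only [hfvdef, Cmd.fVc, Cmd.ok, hB.ok, hGen.ok, hP.ok, hE.ok, Bool.and_self, Cmd.ok_clear]
  have hPhi : PhiS Φ fv Lf := PhiS.of_fv hLfmono hLfPB okfv
    (fun s hs h9 h10 => Cmd.fV_spec hB hGen hP hE hs h9 h10)
  -- the programs for D
  have hdp : ∀ j, ∃ dp TD, DprS (D j) dp TD := by
    intro j
    obtain ⟨src, Tsrc, hsrc⟩ := exists_srcS hS 2 CV j
    obtain ⟨cX, TX, hX⟩ := exists_endS 2 CV
    obtain ⟨T, hT⟩ := exists_dprS hS hVer hPhi hbVmono hBVPB hB hsrc hX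
    exact ⟨_, T, hT⟩
  obtain ⟨dp, TD, hDp⟩ := hdp 0
  -- the program W
  set W := Cmd.W2 PV dp with hW
  have okW : W.ok = true := by
    simp [hW, Cmd.W2, Cmd.ok, okPV, hDp.ok, ok_mm, Cmd.ok_copy]
  set TW : ℕ → ℕ := fun m => TPV m + TD m + m + 1 with hTW
  have hTWpb : PB TW := ((hVer.pb.add hDp.pb).add PB.id).add (PB.const 1)
  have Wspec : ∀ z w m, z.length ≤ m → w.length ≤ m →
      W.eval (init2 z w) 2 = flag (V z w && !(D 0 z).1) ∧ W.LB (TW m) (init2 z w) := by
    intro z w m hz hw
    obtain ⟨s', h1, h2⟩ := run_W2 hVer hDp hz hw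
    exact ⟨by rw [h1.1]; exact h2, h1.2⟩
  obtain ⟨b0, hb0mono, hb0⟩ := (show PB fun n => (n + q'.eval n) +
      W.tb (TW (n + q'.eval n)) + 1 from
      (((PB.id.add (PB.poly q')).add ((PB.tb W).comp (hTWpb.comp
        (PB.id.add (PB.poly q'))))).add (PB.const 1))).exists_poly
  obtain ⟨bW, hbWmono, hbW⟩ := (show PB fun N => N + b0.eval (N * N) + 1 from
      ((PB.id.add ((PB.poly b0).comp (PB.id.mul PB.id))).add (PB.const 1))).exists_poly
  set BW : ℕ → ℕ := fun n => bW.eval n with hBW
  have hBWPB : PB BW := PB.poly bW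
  set kW := max W.bd 3 with hkW
  set Cn := nCh W.code kW with hCn
  have Wtime : ∀ (N : ℕ) (z w : List Bool), z.length ≤ N * N → w.length ≤ q.eval z.length →
      max z.length w.length + W.time (init2 z w) ≤ BW N := by
    intro N z w hz hw
    have hq1 := hq' z.length
    have h1 := Cmd.time_le_tb (Wspec z w (z.length + q'.eval z.length) (by omega)
      (by omega)).2
    have h3 := hb0 z.length
    have h4 : b0.eval z.length ≤ b0.eval (N * N) := hb0mono hz
    have h5 := hbW N
    simp only [hBW]
    omega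
  set ψ : ℕ → BForm := fun N => addF (nonEmptyC Cn N) (tabF W.code kW 2 (BW N)) with hψ
  have hNB : ∀ N, N < BW N := by
    intro N
    have := hbW N
    simp only [hBW]; omega
  have hbase : ∀ N v, (ψ N).eval v = true → ∃ z w : List Bool, z.length ≤ BW N ∧
      w.length ≤ BW N ∧ (N ≤ z.length ∧ V z w = true ∧ (D 0 z).1 = false) ∧
      (∀ h ≤ BW N, ∀ b : Bool, nval v (0 + h * Cn + b.toNat) = true ↔ z[h]? = some b) ∧
      (∀ h ≤ BW N, ∀ b : Bool, nval v (2 + h * Cn + b.toNat) = true ↔ w[h]? = some b) := by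
    intro N v hv
    rw [hψ, eval_addF] at hv
    obtain ⟨z, w, hz, hw, ⟨hcell, hcell2⟩, hacc⟩ := tabF_sound2 okW (le_max_left _ _)
      (by omega) (by omega) (by have := hNB N; omega) hv.2
    rw [(Wspec z w (max z.length w.length) (le_max_left _ _) (le_max_right _ _)).1, flag_zero,
      Bool.and_eq_true, Bool.not_eq_true'] at hacc
    refine ⟨z, w, hz, hw, ⟨?_, hacc.1, hacc.2⟩, ?_, hcell2⟩
    swap
    · intro h hh b
      rw [Nat.zero_add]
      exact hcell h hh b
    by_contra hcon
    have hlt : z.length < N := by omega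
    obtain ⟨l, hl, hlv⟩ := hv.1 [(true, z.length * Cn + 0), (true, z.length * Cn + 1)] (by
      rw [nonEmptyC, mem_seqC]
      exact ⟨z.length, hlt, by simp⟩)
    have hNB' := hNB N
    have hno : ∀ b : Bool, nval v (z.length * Cn + b.toNat) = false := by
      intro b
      rcases hc : nval v (z.length * Cn + b.toNat) with _ | _
      · rfl
      · have := (hcell z.length (by omega) b).1 hc
        simp at this
    simp only [List.mem_cons, List.not_mem_nil, or_false] at hl
    rcases hl with rfl | rfl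
    · exact Bool.false_ne_true ((hno false).symm.trans hlv)
    · exact Bool.false_ne_true ((hno true).symm.trans hlv)
  have hψlen : ∀ N, N ≤ (ψ N).code.length := by
    intro N
    have h1 := length_addCode_ge (nonEmptyC Cn N) (tabF W.code kW 2 (BW N)).code
    rw [nonEmptyC_length, addCode_code] at h1
    simp only [hψ]
    omega
  -- the machines
  obtain ⟨cW, TcW, hcW⟩ := exists_polySpec bW (n := 12) (d := 10) (by norm_num) (by norm_num)
    (by norm_num)
  obtain ⟨gT', TG', hGen'⟩ := exists_genSpec W.code kW 2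
  obtain ⟨gN, TN, hN⟩ := exists_neSpec Cn
  have mach : ∀ j, ∃ i0, ∀ i ≥ i0,
      2 ^ 2 ^ i ≤ (ref2 χ V D Cn (BW (2 ^ 2 ^ i)) (ψ (2 ^ 2 ^ i)) (2 ^ 2 ^ i) j).length →
        ref2 χ V D Cn (BW (2 ^ 2 ^ i)) (ψ (2 ^ 2 ^ i)) (2 ^ 2 ^ i) j ∈ KClass U g G := by
    intro j
    obtain ⟨dpj, TDj, hDj⟩ := hdp j
    obtain ⟨M, h, hh, hmono, hout⟩ := exists_machine2 (j := j) (D := D) hBWPB hcW hGen' hN hS
      hVer hDj (ψ := ψ) (fun N => rfl)
    obtain ⟨i0, hi0⟩ := mem_K hU hg hG M hh hmono
    refine ⟨max i0 1, fun i hi hlen => ?_⟩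
    obtain ⟨y, hy, hyl⟩ := exists_bval i (by omega)
    exact hi0 i (by omega) y _ hyl hlen (hout i (by omega) y hy hyl)
  choose i0 hi0 using mach
  set I := max (max (i0 0) (i0 1)) (max (i0 2) (i0 3)) with hI
  -- the final decision procedure
  have hdec : ∀ z : List Bool, 2 ^ 2 ^ I ≤ z.length → ((D 0 z).1 = true ↔ z ∈ L) := by
    intro z hz
    constructor
    · intro h
      exact (memL z).2 (dprog_sound χ V CV BV Φ h)
    · intro hzL
      by_contra hcon
      have hcon' : (D 0 z).1 = false := by simpa using hcon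
      set i := Nat.log 2 (Nat.log 2 z.length) with hi
      have hz0 : z.length ≠ 0 := by
        have : 0 < 2 ^ 2 ^ I := by positivity
        omega
      have hz1 : 2 ^ I ≤ Nat.log 2 z.length := Nat.le_log_of_pow_le (by norm_num) hz
      have hz2 : Nat.log 2 z.length ≠ 0 := by
        have : 0 < 2 ^ I := by positivity
        omega
      have hile : I ≤ i := Nat.le_log_of_pow_le (by norm_num) hz1
      have hlo : 2 ^ 2 ^ i ≤ z.length :=
        (Nat.pow_le_pow_right (by norm_num) (Nat.pow_log_le_self 2 hz2)).trans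
          (Nat.pow_log_le_self 2 hz0)
      have hhi1 : Nat.log 2 z.length < 2 ^ (i + 1) := Nat.lt_pow_succ_log_self (by norm_num) _
      have hhi : z.length < 2 ^ 2 ^ (i + 1) :=
        (Nat.lt_pow_succ_log_self (by norm_num) _).trans_le
          (Nat.pow_le_pow_right (by norm_num) hhi1)
      have hhi' : z.length ≤ 2 ^ 2 ^ i * 2 ^ 2 ^ i := by
        rw [← pow_add, ← two_mul, ← pow_succ']
        exact hhi.le
      set N := 2 ^ 2 ^ i with hNdef
      obtain ⟨w, hw⟩ := (memL z).1 hzL
      obtain ⟨v, hv, hcell⟩ := tabF_complete (k := kW) (acc := 2) okW (le_max_left _ _)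
        (by omega) (z := z) (w := w) (Wtime N z w hhi' (hVlen z w hw))
        (by
          rw [(Wspec z w (max z.length w.length) (le_max_left _ _) (le_max_right _ _)).1,
            flag_zero, hw, hcon']
          rfl)
      have hsat : (ψ N).Satf := by
        refine ⟨v, ?_⟩
        simp only [hψ]
        rw [eval_addF]
        refine ⟨fun C hC => ?_, hv⟩
        rw [nonEmptyC, mem_seqC] at hC
        obtain ⟨m, hm, hC⟩ := hC
        simp only [List.mem_singleton] at hC
        subst hC
        have hmz : m < z.length := by omega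
        have hb := (hcell m (by have := hNB N; omega) z[m]).2 (List.getElem?_eq_getElem hmz)
        rw [zero_add]
        cases hzm : z[m]
        · rw [hzm, Bool.toNat_false] at hb
          exact ⟨_, List.mem_cons_self, hb⟩
        · rw [hzm, Bool.toNat_true] at hb
          exact ⟨_, List.mem_cons_of_mem _ List.mem_cons_self, hb⟩
      obtain ⟨j, hj, hbad, hlen⟩ := ref2_spec (χ := χ) (V := V) (D := D) hDind
        (fun z w h1 h2 h3 => by
          obtain ⟨j, hj, h4, h5⟩ := hDbad z w h1 h2
          exact ⟨j, hj, h4, h3.trans h5⟩) (hbase N) (hψlen N) hsat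
      have hK' : ref2 χ V D Cn (BW N) (ψ N) N j ∈ KClass U g G := by
        refine hi0 j i ?_ hlen
        obtain rfl | rfl | rfl | rfl : j = 0 ∨ j = 1 ∨ j = 2 ∨ j = 3 := by omega
        all_goals omega
      exact hbad ((hχ _).trans (hK _ hK'))
  refine inP_of_large (c := Cmd.Dc2 dp) (by simp [Cmd.Dc2, Cmd.ok, ok_mm, hDp.ok])
    (T := fun n => TD n + n) (n0 := 2 ^ 2 ^ I) (hDp.pb.add PB.id) (fun z hz => ?_)
  obtain ⟨s', d1, d2⟩ := run_Dc2 hDp z
  refine ⟨d1.2, ?_⟩
  rw [d1.1, d2]
  congr 1
  have := hdec z hz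
  rcases hc : (D 0 z).1 with _ | _
  · rw [eq_comm, decide_eq_false_iff_not, ← this, hc]
    exact Bool.false_ne_true
  · rw [eq_comm, decide_eq_true_iff, ← this]
    exact hc

end Pool.Agent.Helper72
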