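import Pool.Agent.Helper72.Refute
import Pool.Agent.Helper72.CodeInj
import Pool.Agent.Helper72.ProgV

/-!
The two-sided refuter as a mathematical function: from any polynomial time set `S` it
computes words on which `S` and SAT differ.
-/

namespace Pool.Agent.Helper72

open Function

/-- `ψ` and the word on the stack with channel offset `o` starts with `X` -/
def prefO (o Cn : ℕ) (ψ : BForm) (X : List Bool) : BForm := addF (prefC Cn o X) ψ

/-- `ψ` and the word on the stack with channel offset `o` is `X` -/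
def endO (o Cn : ℕ) (ψ : BForm) (X : List Bool) : BForm :=
  addF (endC (o + X.length * Cn)) (prefO o Cn ψ X)

/-- `ψ` and the word on the stack with channel offset `o` starts with `X` followed by `b` -/
def bitO (o Cn : ℕ) (ψ : BForm) (X : List Bool) (b : Bool) : BForm :=
  addF (bitC b (o + X.length * Cn)) (prefO o Cn ψ X)

theorem eval_prefO {o Cn : ℕ} {ψ : BForm} {X : List Bool} {v : ℕ → Bool} :
    (prefO o Cn ψ X).eval v = true ↔
      (∀ i x, X[i]? = some x → nval v (o + i * Cn + x.toNat) = true) ∧ ψ.eval v = true := by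
  rw [prefO, eval_addF, satA_prefC]

theorem eval_endO {o Cn : ℕ} {ψ : BForm} {X : List Bool} {v : ℕ → Bool} :
    (endO o Cn ψ X).eval v = true ↔
      (∀ b : Bool, nval v (o + X.length * Cn + b.toNat) = false) ∧
        (prefO o Cn ψ X).eval v = true := by
  rw [endO, eval_addF]
  simp [endC, satA]

theorem eval_bitO {o Cn : ℕ} {ψ : BForm} {X : List Bool} {b : Bool} {v : ℕ → Bool} :
    (bitO o Cn ψ X b).eval v = true ↔
      nval v (o + X.length * Cn + b.toNat) = true ∧ (prefO o Cn ψ X).eval v = true := by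
  rw [bitO, eval_addF]
  simp [satA, bitC]

/-- satisfying assignments of `ψ` describe a word of length at most `B` at offset `o` -/
def Cells (o Cn B : ℕ) (ψ : BForm) : Prop :=
  ∀ v, ψ.eval v = true → ∃ u : List Bool, u.length ≤ B ∧
    ∀ h ≤ B, ∀ b : Bool, nval v (o + h * Cn + b.toNat) = true ↔ u[h]? = some b

section

variable {o Cn B : ℕ} {ψ : BForm}

theorem Cells.not_long (hc : Cells o Cn B ψ) {X : List Bool} (hX : X.length = B + 1) :
    ¬ (prefO o Cn ψ X).Satf := by
  rintro ⟨v, hv⟩
  rw [eval_prefO] at hv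
  obtain ⟨u, hu, hcell⟩ := hc v hv.2
  have hx : X[B]? = some X[B] := List.getElem?_eq_getElem (by omega)
  have := (hcell B le_rfl _).1 (hv.1 B _ hx)
  rw [List.getElem?_eq_none hu] at this
  simp at this

/-- words described by assignments satisfying `endO` -/
theorem word_of_endO {X u : List Bool} {v : ℕ → Bool} (hX : X.length ≤ B)
    (hv : (endO o Cn ψ X).eval v = true)
    (hcell : ∀ h ≤ B, ∀ b : Bool, nval v (o + h * Cn + b.toNat) = true ↔ u[h]? = some b) :
    u = X := by
  rw [eval_endO, eval_prefO] at hv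
  have hend : u[X.length]? = none := by
    rcases h : u[X.length]? with _ | b
    · rfl
    · have := (hcell X.length hX b).2 h
      rw [hv.1 b] at this
      simp at this
  apply List.ext_getElem?
  intro i
  rcases Nat.lt_or_ge i X.length with hi | hi
  · have hx : X[i]? = some X[i] := List.getElem?_eq_getElem hi
    rw [hx, (hcell i (by omega) _).1 (hv.2.1 i _ hx)]
  · rw [List.getElem?_eq_none hi]
    rw [List.getElem?_eq_none_iff] at hend ⊢
    omega

theorem bitO_iff {X : List Bool} {b : Bool} :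
    (bitO o Cn ψ X b).Satf ↔ (prefO o Cn ψ (X ++ [b])).Satf := by
  constructor
  · rintro ⟨v, hv⟩
    refine ⟨v, ?_⟩
    rw [eval_bitO, eval_prefO] at hv
    rw [eval_prefO]
    refine ⟨fun i x hi => ?_, hv.2.2⟩
    rcases Nat.lt_trichotomy i X.length with h | h | h
    · rw [List.getElem?_append_left h] at hi
      exact hv.2.1 i x hi
    · subst h
      simp only [List.getElem?_append_right le_rfl, Nat.sub_self, List.getElem?_cons_zero,
        Option.some.injEq] at hi
      subst hi
      exact hv.1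
    · rw [List.getElem?_eq_none (by simp; omega)] at hi
      simp at hi
  · rintro ⟨v, hv⟩
    refine ⟨v, ?_⟩
    rw [eval_prefO] at hv
    rw [eval_bitO, eval_prefO]
    refine ⟨hv.1 _ _ (by simp), fun i x hi => hv.1 i x ?_, hv.2⟩
    rw [List.getElem?_append_left]
    · exact hi
    · rw [List.getElem?_eq_some_iff] at hi; exact hi.1

theorem Cells.cases (hc : Cells o Cn B ψ) {X : List Bool} (hX : X.length ≤ B)
    (hs : (prefO o Cn ψ X).Satf) :
    (endO o Cn ψ X).Satf ∨ (bitO o Cn ψ X true).Satf ∨ (bitO o Cn ψ X false).Satf := by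
  obtain ⟨v, hv⟩ := hs
  obtain ⟨u, hu, hcell⟩ := hc v (eval_prefO.1 hv).2
  rcases h : u[X.length]? with _ | b
  · left
    refine ⟨v, ?_⟩
    rw [eval_endO]
    refine ⟨fun b => ?_, hv⟩
    rcases hcc : nval v (o + X.length * Cn + b.toNat) with _ | _
    · rfl
    · rw [(hcell _ hX b).1 hcc] at h
      simp at h
  · right
    have hb' := (hcell _ hX b).2 h
    cases b
    · right; exact ⟨v, by rw [eval_bitO]; exact ⟨hb', hv⟩⟩
    · left; exact ⟨v, by rw [eval_bitO]; exact ⟨hb', hv⟩⟩

end

/-- `χ` is correct on the word `c` -/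
def Good (χ : List Bool → Bool) (c : List Bool) : Prop := χ c = true ↔ c ∈ SAT

theorem mem_SAT {φ : BForm} : φ.code ∈ SAT ↔ φ.Satf :=
  ⟨fun ⟨_, h, hv⟩ => code_injective h ▸ hv, fun h => ⟨φ, rfl, h⟩⟩

/-! ### the search -/

section search

variable (χ : List Bool → Bool) (o Cn : ℕ) (ψ : BForm) (j : ℕ)

/-- the four candidates at a dead end -/
def cand4 (X par : List Bool) : List Bool :=
  if j = 0 then (endO o Cn ψ X).code
  else if j = 1 then (bitO o Cn ψ X true).code
  else if j = 2 then (bitO o Cn ψ X false).code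
  else par

/-- search guided by `χ`: result flag, word found, candidate at a dead end;
`par` is the last accepted formula -/
def srch : ℕ → List Bool → List Bool → Bool × List Bool × List Bool
  | 0, X, par => (false, X, par)
  | n + 1, X, par =>
    if χ (endO o Cn ψ X).code then (true, X, [])
    else if χ (bitO o Cn ψ X true).code then srch n (X ++ [true]) (bitO o Cn ψ X true).code
    else if χ (bitO o Cn ψ X false).code then srch n (X ++ [false]) (bitO o Cn ψ X false).code
    else (false, X, cand4 o Cn ψ j X par)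

theorem srch_indep (n : ℕ) (X par : List Bool) :
    (srch χ o Cn ψ j n X par).1 = (srch χ o Cn ψ 0 n X par).1 ∧
    (srch χ o Cn ψ j n X par).2.1 = (srch χ o Cn ψ 0 n X par).2.1 := by
  induction n generalizing X par with
  | zero => exact ⟨rfl, rfl⟩
  | succ n ih =>
    simp only [srch]
    split_ifs
    · exact ⟨rfl, rfl⟩
    · exact ih _ _
    · exact ih _ _
    · exact ⟨rfl, rfl⟩

end search

section

variable {χ : List Bool → Bool} {o Cn B : ℕ} {ψ : BForm}

theorem srch_found {j : ℕ} : ∀ (n : ℕ) (X par : List Bool), X.length + n = B + 1 →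
    (srch χ o Cn ψ j n X par).1 = true →
    χ (endO o Cn ψ (srch χ o Cn ψ j n X par).2.1).code = true ∧
      (srch χ o Cn ψ j n X par).2.1.length ≤ B ∧ (srch χ o Cn ψ j n X par).2.2 = []
  | 0, X, par, hX, h => by simp [srch] at h
  | n + 1, X, par, hX, h => by
    simp only [srch] at h ⊢
    split_ifs at h ⊢ with h0 h1 h2
    · exact ⟨h0, by show X.length ≤ B; omega, rfl⟩
    · exact srch_found n _ _ (by simp; omega) h
    · exact srch_found n _ _ (by simp; omega) h

theorem prefO_len (X : List Bool) : ψ.code.length ≤ (prefO o Cn ψ X).code.length :=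
  length_code_addF _ _

theorem endO_len (X : List Bool) : ψ.code.length ≤ (endO o Cn ψ X).code.length :=
  (prefO_len X).trans (length_code_addF _ _)

theorem bitO_len (X : List Bool) (b : Bool) :
    ψ.code.length ≤ (bitO o Cn ψ X b).code.length :=
  (prefO_len X).trans (length_code_addF _ _)

theorem srch_len {j : ℕ} : ∀ (n : ℕ) (X par : List Bool), ψ.code.length ≤ par.length →
    (srch χ o Cn ψ j n X par).1 = false →
    ψ.code.length ≤ (srch χ o Cn ψ j n X par).2.2.length
  | 0, X, par, hp, _ => hp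
  | n + 1, X, par, hp, h => by
    simp only [srch] at h ⊢
    split_ifs at h ⊢ with h0 h1 h2
    · exact srch_len n _ _ (bitO_len _ _) h
    · exact srch_len n _ _ (bitO_len _ _) h
    · unfold cand4
      split_ifs
      · exact endO_len _
      · exact bitO_len _ _
      · exact bitO_len _ _
      · exact hp

/-- at a dead end one of the four candidates is judged wrongly -/
theorem srch_bad (hc : Cells o Cn B ψ) : ∀ (n : ℕ) (X : List Bool) (φ : BForm),
    X.length + n = B + 1 → χ φ.code = true → (φ.Satf ↔ (prefO o Cn ψ X).Satf) →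
    (srch χ o Cn ψ 0 n X φ.code).1 = false →
    ∃ j < 4, ¬ Good χ (srch χ o Cn ψ j n X φ.code).2.2
  | 0, X, φ, hX, hφ, hiff, _ => by
    refine ⟨0, by omega, fun hg => ?_⟩
    exact hc.not_long (by omega) (hiff.1 (mem_SAT.1 (hg.1 hφ)))
  | n + 1, X, φ, hX, hφ, hiff, h => by
    by_cases h0 : χ (endO o Cn ψ X).code = true
    · simp [srch, h0] at h
    by_cases h1 : χ (bitO o Cn ψ X true).code = true
    · simp only [srch, h0, h1, if_true, Bool.false_eq_true, if_false] at h ⊢
      exact srch_bad hc n _ _ (by simp; omega) h1 bitO_iff h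
    by_cases h2 : χ (bitO o Cn ψ X false).code = true
    · simp only [srch, h0, h1, h2, if_true, Bool.false_eq_true, if_false] at h ⊢
      exact srch_bad hc n _ _ (by simp; omega) h2 bitO_iff h
    simp only [srch, h0, h1, h2, Bool.false_eq_true, if_false]
    by_contra hcon
    push Not at hcon
    have g3 := hcon 3 (by omega)
    simp only [cand4] at g3
    have hs : (prefO o Cn ψ X).Satf := hiff.1 (mem_SAT.1 (g3.1 hφ))
    rcases hc.cases (by omega) hs with h | h | h
    · have g := hcon 0 (by omega)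
      exact h0 (g.2 (mem_SAT.2 h))
    · have g := hcon 1 (by omega)
      exact h1 (g.2 (mem_SAT.2 h))
    · have g := hcon 2 (by omega)
      exact h2 (g.2 (mem_SAT.2 h))

end

/-! ### the decision procedure by search -/

section dprog

variable (χ : List Bool → Bool) (V : List Bool → List Bool → Bool) (Cn : ℕ) (B : ℕ → ℕ)
  (Φ : List Bool → BForm)

/-- try to find a certificate for `z` with the help of `χ`; success flag and candidate -/
def dprog (j : ℕ) (z : List Bool) : Bool × List Bool :=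
  if χ (Φ z).code then
    if (srch χ 2 Cn (Φ z) j (B z.length + 1) [] (Φ z).code).1 then
      if V z (srch χ 2 Cn (Φ z) j (B z.length + 1) [] (Φ z).code).2.1 then (true, [])
      else (false,
        (endO 2 Cn (Φ z) (srch χ 2 Cn (Φ z) j (B z.length + 1) [] (Φ z).code).2.1).code)
    else (false, (srch χ 2 Cn (Φ z) j (B z.length + 1) [] (Φ z).code).2.2)
  else (false, (Φ z).code)

theorem dprog_indep (j : ℕ) (z : List Bool) :
    (dprog χ V Cn B Φ j z).1 = (dprog χ V Cn B Φ 0 z).1 := by
  unfold dprog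
  obtain ⟨h1, h2⟩ := srch_indep χ 2 Cn (Φ z) j (B z.length + 1) [] (Φ z).code
  rw [h1, h2]
  split_ifs <;> rfl

theorem dprog_sound {j : ℕ} {z : List Bool} (h : (dprog χ V Cn B Φ j z).1 = true) :
    ∃ w, V z w = true := by
  unfold dprog at h
  split_ifs at h with h1 h2 h3
  exact ⟨_, h3⟩

variable {χ V Cn B Φ}

theorem dprog_bad {z : List Bool} (hc : Cells 2 Cn (B z.length) (Φ z))
    (hsat : (Φ z).Satf)
    (hV : ∀ Y : List Bool, Y.length ≤ B z.length → (endO 2 Cn (Φ z) Y).Satf → V z Y = true)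
    (h : (dprog χ V Cn B Φ 0 z).1 = false) :
    ∃ j < 4, ¬ Good χ (dprog χ V Cn B Φ j z).2 ∧
      (Φ z).code.length ≤ (dprog χ V Cn B Φ j z).2.length := by
  by_cases h1 : χ (Φ z).code = true
  · set r : ℕ → Bool × List Bool × List Bool := fun j =>
      srch χ 2 Cn (Φ z) j (B z.length + 1) [] (Φ z).code with hr
    have hd : ∀ j, dprog χ V Cn B Φ j z = if (r j).1 then
        if V z (r j).2.1 then (true, []) else (false, (endO 2 Cn (Φ z) (r j).2.1).code)
        else (false, (r j).2.2) := by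
      intro j
      rw [dprog, if_pos h1]
    by_cases h2 : (r 0).1 = true
    · have h3 : V z (r 0).2.1 = false := by
        by_contra hcon
        rw [hd 0, if_pos h2, if_pos (by simpa using hcon)] at h
        exact absurd h (by simp)
      refine ⟨0, by omega, ?_⟩
      rw [hd 0, if_pos h2, if_neg (by rw [h3]; exact Bool.false_ne_true)]
      obtain ⟨h4, h5, -⟩ := srch_found (B := B z.length) _ _ _ (by simp) h2
      refine ⟨fun hg => ?_, endO_len _⟩
      have := hV _ h5 (mem_SAT.1 (hg.1 h4))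
      rw [this] at h3
      exact absurd h3 (by simp)
    · have h2' : (r 0).1 = false := by simpa using h2
      obtain ⟨j, hj, hbad⟩ := srch_bad hc (B z.length + 1) [] (Φ z) (by simp) h1
        (by simp [prefO, prefC, addF]) h2'
      have h3 : (r j).1 = false := by
        rw [← h2']
        exact (srch_indep χ 2 Cn (Φ z) j (B z.length + 1) [] (Φ z).code).1
      refine ⟨j, hj, ?_⟩
      rw [hd j]
      simp only [h3, Bool.false_eq_true, if_false]
      exact ⟨hbad, srch_len _ _ _ le_rfl h3⟩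
  · refine ⟨0, by omega, ?_⟩
    have hd : dprog χ V Cn B Φ 0 z = (false, (Φ z).code) := by
      unfold dprog
      simp [h1]
    rw [hd]
    exact ⟨fun hg => h1 (hg.2 (mem_SAT.2 hsat)), le_rfl⟩

end dprog

/-! ### the refuter -/

section ref2

variable (χ : List Bool → Bool) (V : List Bool → List Bool → Bool)
  (D : ℕ → List Bool → Bool × List Bool) (Cn B : ℕ) (ψ : BForm) (N : ℕ)

/-- the two-sided refuter -/
def ref2 (j : ℕ) : List Bool :=
  if χ ψ.code then
    let r := srch χ 0 Cn ψ j (B + 1) [] ψ.code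
    if r.1 then
      let ψ' := endO 0 Cn ψ r.2.1
      let r' := srch χ 2 Cn ψ' j (B + 1) [] ψ'.code
      if r'.1 then
        if N ≤ r.2.1.length ∧ V r.2.1 r'.2.1 = true ∧ (D j r.2.1).1 = false then
          (D j r.2.1).2
        else (endO 2 Cn ψ' r'.2.1).code
      else r'.2.2
    else r.2.2
  else ψ.code

variable {χ V D Cn B ψ N}

theorem ref2_spec
    (hD : ∀ j z, (D j z).1 = (D 0 z).1)
    (hDbad : ∀ z w, V z w = true → (D 0 z).1 = false → N ≤ z.length →
      ∃ j < 4, ¬ Good χ (D j z).2 ∧ N ≤ (D j z).2.length)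
    (hbase : ∀ v, ψ.eval v = true → ∃ z w : List Bool, z.length ≤ B ∧ w.length ≤ B ∧
      (N ≤ z.length ∧ V z w = true ∧ (D 0 z).1 = false) ∧
      (∀ h ≤ B, ∀ b : Bool, nval v (0 + h * Cn + b.toNat) = true ↔ z[h]? = some b) ∧
      (∀ h ≤ B, ∀ b : Bool, nval v (2 + h * Cn + b.toNat) = true ↔ w[h]? = some b))
    (hN : N ≤ ψ.code.length) (hψ : ψ.Satf) :
    ∃ j < 4, ¬ Good χ (ref2 χ V D Cn B ψ N j) ∧ N ≤ (ref2 χ V D Cn B ψ N j).length := by
  have hc0 : Cells 0 Cn B ψ := by
    intro v hv
    obtain ⟨z, w, hz, -, -, hcell, -⟩ := hbase v hv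
    exact ⟨z, hz, hcell⟩
  by_cases h1 : χ ψ.code = true
  swap
  · refine ⟨0, by omega, ?_⟩
    have hd : ref2 χ V D Cn B ψ N 0 = ψ.code := by
      unfold ref2
      simp [h1]
    rw [hd]
    exact ⟨fun hg => h1 (hg.2 (mem_SAT.2 hψ)), hN⟩
  have hi1 := fun j => srch_indep χ 0 Cn ψ j (B + 1) [] ψ.code
  by_cases h2 : (srch χ 0 Cn ψ 0 (B + 1) [] ψ.code).1 = true
  swap
  · have h2' : (srch χ 0 Cn ψ 0 (B + 1) [] ψ.code).1 = false := by simpa using h2
    obtain ⟨j, hj, hbad⟩ := srch_bad hc0 (B + 1) [] ψ (by simp) h1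
      (by simp [prefO, prefC, addF]) h2'
    have h3 : (srch χ 0 Cn ψ j (B + 1) [] ψ.code).1 = false := by
      rw [(hi1 j).1]; exact h2'
    have hd : ref2 χ V D Cn B ψ N j = (srch χ 0 Cn ψ j (B + 1) [] ψ.code).2.2 := by
      unfold ref2
      simp [h1, h3]
    refine ⟨j, hj, ?_⟩
    rw [hd]
    exact ⟨hbad, hN.trans (srch_len _ _ _ le_rfl h3)⟩
  obtain ⟨h4, h5, -⟩ := srch_found (B := B) _ _ _ (by simp) h2
  set X := (srch χ 0 Cn ψ 0 (B + 1) [] ψ.code).2.1 with hX
  set ψ' := endO 0 Cn ψ X with hψ'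
  have hN' : N ≤ ψ'.code.length := hN.trans (endO_len _)
  have hr1 : ∀ j, (srch χ 0 Cn ψ j (B + 1) [] ψ.code).1 = true := fun j => by
    rw [(hi1 j).1]; exact h2
  have hr2 : ∀ j, (srch χ 0 Cn ψ j (B + 1) [] ψ.code).2.1 = X := fun j => (hi1 j).2
  have hc2 : Cells 2 Cn B ψ' := by
    intro v hv
    have hv' := (eval_prefO.1 (eval_endO.1 hv).2).2
    obtain ⟨z, w, -, hw, -, -, hcell⟩ := hbase v hv'
    exact ⟨w, hw, hcell⟩
  have hi2 := fun j => srch_indep χ 2 Cn ψ' j (B + 1) [] ψ'.code
  by_cases h6 : (srch χ 2 Cn ψ' 0 (B + 1) [] ψ'.code).1 = true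
  swap
  · have h6' : (srch χ 2 Cn ψ' 0 (B + 1) [] ψ'.code).1 = false := by simpa using h6
    obtain ⟨j, hj, hbad⟩ := srch_bad hc2 (B + 1) [] ψ' (by simp) h4
      (by simp [prefO, prefC, addF]) h6'
    have h7 : (srch χ 2 Cn ψ' j (B + 1) [] ψ'.code).1 = false := by
      rw [(hi2 j).1]; exact h6'
    have hd : ref2 χ V D Cn B ψ N j = (srch χ 2 Cn ψ' j (B + 1) [] ψ'.code).2.2 := by
      unfold ref2
      simp only [h1, if_true, hr1 j, hr2 j, ← hψ', h7, Bool.false_eq_true, if_false]
    refine ⟨j, hj, ?_⟩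
    rw [hd]
    exact ⟨hbad, hN'.trans (srch_len _ _ _ le_rfl h7)⟩
  obtain ⟨h8, h9, -⟩ := srch_found (B := B) _ _ _ (by simp) h6
  set Y := (srch χ 2 Cn ψ' 0 (B + 1) [] ψ'.code).2.1 with hY
  have hr3 : ∀ j, (srch χ 2 Cn ψ' j (B + 1) [] ψ'.code).1 = true := fun j => by
    rw [(hi2 j).1]; exact h6
  have hr4 : ∀ j, (srch χ 2 Cn ψ' j (B + 1) [] ψ'.code).2.1 = Y := fun j => (hi2 j).2
  have hd : ∀ j, ref2 χ V D Cn B ψ N j =
      if N ≤ X.length ∧ V X Y = true ∧ (D 0 X).1 = false then (D j X).2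
      else (endO 2 Cn ψ' Y).code := by
    intro j
    unfold ref2
    simp only [h1, if_true, hr1 j, hr2 j, ← hψ', hr3 j, hr4 j, hD j X]
  by_cases h10 : N ≤ X.length ∧ V X Y = true ∧ (D 0 X).1 = false
  · obtain ⟨j, hj, hbad⟩ := hDbad X Y h10.2.1 h10.2.2 h10.1
    refine ⟨j, hj, ?_⟩
    rw [hd, if_pos h10]
    exact hbad
  · refine ⟨0, by omega, ?_⟩
    rw [hd, if_neg h10]
    refine ⟨fun hg => h10 ?_, hN'.trans (endO_len _)⟩
    obtain ⟨v, hv⟩ := mem_SAT.1 (hg.1 h8)
    have hv1 := (eval_prefO.1 (eval_endO.1 hv).2).2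
    have hv2 := (eval_prefO.1 (eval_endO.1 hv1).2).2
    obtain ⟨z, w, hz, hw, hacc, hcell, hcell2⟩ := hbase v hv2
    have hzX : z = X := word_of_endO h5 hv1 hcell
    have hwY : w = Y := word_of_endO h9 hv hcell2
    rw [← hzX, ← hwY]
    exact hacc

end ref2

end Pool.Agent.Helper72
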