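import Pool.Agent.Helper72.Regs
import Pool.Agent.Helper72.Refute2

/-!
Programs writing the candidate formulas of the two-sided search.
-/

namespace Pool.Agent.Helper72

open Function Pool.Agent.Helper73.GenProg

/-! ### prefix clauses at an offset -/

/-- program writing the prefix clauses for the stack with channel offset `o` -/
def genPrefO (o Cn : ℕ) : Cmd := .seq (.pushL 13 (un o)) (genPref Cn)

theorem wr12_genPref (Cn : ℕ) : (genPref Cn).wr 12 = false := by
  simp [genPref, Cmd.wr, wr_genTs (show (12 : ℕ) ≠ 9 by norm_num)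
    (show (12 : ℕ) ≠ 13 by norm_num) (show (12 : ℕ) ≠ 14 by norm_num)
    (show (12 : ℕ) ≠ 15 by norm_num), Cmd.wr_pushL _ (show (12 : ℕ) ≠ 13 by norm_num), Cmd.mv]

theorem wr12_genAt (Cs : List (List Lit)) : (genAt Cs).wr 12 = false := by
  simp [genAt, Cmd.wr, wr_genTs (show (12 : ℕ) ≠ 9 by norm_num)
    (show (12 : ℕ) ≠ 13 by norm_num) (show (12 : ℕ) ≠ 14 by norm_num)
    (show (12 : ℕ) ≠ 15 by norm_num), Cmd.clear]

structure PrefOSpec (o Cn : ℕ) (g : Cmd) (T : ℕ → ℕ) : Prop where
  pb : PB T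
  mono : Monotone T
  ok : g.ok = true
  wr : ∀ x, x < 9 ∨ 30 ≤ x → g.wr x = false
  spec : ∀ s, (∀ r, 13 ≤ r → r < 30 → s r = []) →
    g.eval s = update (update s 9 (addCode (prefC Cn o (s 11)) (s 9))) 13
      (un (o + (s 11).length * Cn)) ∧ g.LB (T (s 11).length) s

theorem exists_prefOSpec (o Cn : ℕ) : ∃ g T, PrefOSpec o Cn g T ∧ g.wr 12 = false := by
  refine ⟨genPrefO o Cn, fun n => o + n * (Cn + 1), ⟨
    (PB.const o).add (PB.id.mul (PB.const _)),
    fun a b h => Nat.add_le_add_left (Nat.mul_le_mul_right _ h) _, ?_, ?_, ?_⟩, ?_⟩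
  · simp [genPrefO, Cmd.ok, ok_genPref]
  · intro x hx
    have h13 : x ≠ 13 := by omega
    simp [genPrefO, Cmd.wr, wr_genPref hx, Cmd.wr_pushL _ h13]
  · intro s h
    set L := o + (s 11).length * (Cn + 1) with hL
    have h2 := K_of_empty h
    have e : (s 11).length * (Cn + 1) = (s 11).length * Cn + (s 11).length := by ring
    rw [e] at hL
    have h1 : Run L (genPrefO o Cn) (K s (s 9) (s 10) (s 11) (s 12) [] [] [] [] [])
        (K s (addCode (prefC Cn o (s 11)) (s 9)) (s 10) (s 11) (s 12)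
          (un (o + (s 11).length * Cn)) [] [] [] []) := by
      refine Run.seq (Run.congr (run_pushL L 13 (un o) _) rfl (by simp; rfl)) ?_
      obtain ⟨h3, h4⟩ := prefLoop (L := L) s (s 10) (s 12) [] Cn (s 11) o (s 9) [] (by omega)
      refine Run.seq (s' := K s (addCode (prefC Cn o (s 11)) (s 9)) (s 10) [] (s 12)
        (un (o + (s 11).length * Cn)) [] [] ((s 11).reverse ++ []) []) ⟨h3, ?_, h4⟩ ?_
      · simp only [K11]; omega
      · refine Run.congr (run_mv (a := 16) (b := 11) (by decide) ?_) rfl ?_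
        · simp; omega
        · simp
    rw [h2] at h1
    have h3 : update (update s 9 (addCode (prefC Cn o (s 11)) (s 9))) 13
        (un (o + (s 11).length * Cn)) = K s (addCode (prefC Cn o (s 11)) (s 9)) (s 10) (s 11)
        (s 12) (un (o + (s 11).length * Cn)) [] [] [] [] := by
      conv_lhs => rw [← h2]
      simp only [upd9, upd13, K9, K11]
    rw [h3]
    exact h1
  · simp [genPrefO, Cmd.wr, wr12_genPref, Cmd.wr_pushL _ (show (12 : ℕ) ≠ 13 by norm_num)]

theorem length_prefO (o Cn : ℕ) (X x : List Bool) :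
    (addCode (prefC Cn o X) x).length ≤
      x.length + X.length * (24 + 3 * (o + X.length * Cn + 1)) := by
  have := length_addCode (prefC Cn o X) x (o + X.length * Cn + 1) 1
    (fun C hC => by simpa using prefC_bound Cn o X C hC)
  rw [prefC_length] at this
  refine this.trans (le_of_eq ?_)
  ring

/-! ### candidate formulas -/

/-- the program `c` writes the code of `f ψ X` to register 9, where the code of `ψ` is in
register 41 and `X` in register 11 -/
structure CandS (f : BForm → List Bool → BForm) (c : Cmd) (T : ℕ → ℕ) : Prop where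
  pb : PB T
  mono : Monotone T
  ok : c.ok = true
  wr : ∀ x, x = 12 ∨ 42 ≤ x → c.wr x = false
  spec : ∀ (g : Rg) (ψ : BForm) (m : ℕ), g.a9 = [] → g.a13 = [] → g.a30 = [] →
    g.a41 = ψ.code → g.a11.length ≤ m → ψ.code.length ≤ m →
    Run (T m) c g.st { g with a9 := (f ψ g.a11).code }.st ∧ (f ψ g.a11).code.length ≤ T m

theorem exists_candS {o Cn : ℕ} {cl : ℕ → List ACls} {gP gX : Cmd} {TP TX : ℕ → ℕ}
    (hP : PrefOSpec o Cn gP TP) (hX : AddSpec cl gX TX) (h12P : gP.wr 12 = false)
    (h12X : gX.wr 12 = false)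
    (hcl : ∀ b x, (addCode (cl b) x).length ≤ x.length + 2 * (24 + 3 * (b + 1))) :
    ∃ c T, CandS (fun ψ X => addF (cl (o + X.length * Cn)) (prefO o Cn ψ X)) c T := by
  refine ⟨.seq (.copy 41 9 30) (.seq gP gX), fun m => m + TP m + TX (o + m * Cn) +
    (m + m * (24 + 3 * (o + m * Cn + 1)) + 2 * (24 + 3 * ((o + m * Cn) + 1))),
    ?_, ?_, ?_, ?_, ?_⟩
  · have h1 : PB fun m => o + m * Cn := (PB.const o).add (PB.id.mul (PB.const Cn))
    have h2 : PB fun m => 24 + 3 * (o + m * Cn + 1) :=
      (PB.const 24).add ((PB.const 3).mul (h1.add (PB.const 1)))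
    exact ((PB.id.add hP.pb).add (hX.pb.comp h1)).add
      ((PB.id.add (PB.id.mul h2)).add ((PB.const 2).mul h2))
  · intro a b hab
    have e1 : o + a * Cn ≤ o + b * Cn := Nat.add_le_add_left (Nat.mul_le_mul_right _ hab) _
    have e2 : a * (24 + 3 * (o + a * Cn + 1)) ≤ b * (24 + 3 * (o + b * Cn + 1)) :=
      Nat.mul_le_mul hab (by omega)
    have := hP.mono hab
    have := hX.mono e1
    simp only
    omega
  · simp [Cmd.ok, Cmd.ok_copy, hP.ok, hX.ok]
  · intro x hx
    rcases hx with rfl | hx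
    · simp [Cmd.wr, Cmd.copy, Cmd.mv, Cmd.mv2, h12P, h12X]
    · have h1 : x ≠ 41 := by omega
      have h2 : x ≠ 9 := by omega
      have h3 : x ≠ 30 := by omega
      simp [Cmd.wr, Cmd.copy, Cmd.mv, Cmd.mv2, hP.wr x (by omega), hX.wr x (by omega), h1, h2, h3]
  · intro g ψ m h9 h13 h30 h41 hXm hψm
    set X := g.a11 with hXdef
    have hempty : ∀ (g : Rg), g.a13 = [] → g.a30 = [] → ∀ r, 13 ≤ r → r < 30 →
        g.st r = [] := by
      intro g h13 h30 r h1 h2
      by_cases q : r = 13
      · subst q; exact h13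
      · apply Rg.other
        simp only [List.mem_cons, List.not_mem_nil, or_false, not_or]
        omega
    have hval : (addF (cl (o + X.length * Cn)) (prefO o Cn ψ X)).code =
        addCode (cl (o + X.length * Cn)) (addCode (prefC Cn o X) ψ.code) := by
      rw [addCode_code, addCode_code]; rfl
    have e1 : o + X.length * Cn ≤ o + m * Cn :=
      Nat.add_le_add_left (Nat.mul_le_mul_right _ hXm) _
    have e2 : X.length * (24 + 3 * (o + X.length * Cn + 1)) ≤ m * (24 + 3 * (o + m * Cn + 1)) :=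
      Nat.mul_le_mul hXm (by omega)
    have m1 := hP.mono hXm
    have m2 := hX.mono e1
    constructor
    · refine Run.seq (Run.congr (run_copy (by norm_num) (by norm_num) (by norm_num) h30 ?_)
        rfl (s' := update g.st 9 (g.st 41 ++ g.st 9)) (t' := { g with a9 := ψ.code }.st) ?_) ?_
      · simp only [Rg.get41, h41]; omega
      · simp [h41, h9]
      set g1 : Rg := { g with a9 := ψ.code } with hg1
      obtain ⟨p1, p2⟩ := hP.spec g1.st (hempty g1 h13 h30)
      obtain ⟨g2, hg2⟩ : ∃ g2 : Rg, g2 = { g1 with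
        a9 := addCode (prefC Cn o X) ψ.code, a13 := un (o + X.length * Cn) } := ⟨_, rfl⟩
      have p1' : gP.eval g1.st = g2.st := by
        rw [p1]; simp [hg2, hg1, ← hXdef]
      refine Run.seq (s' := g2.st) ⟨p1', p2.mono ?_⟩ ?_
      · simp only [Rg.get11, hg1, ← hXdef]; omega
      obtain ⟨q1, q2⟩ := hX.spec (o + X.length * Cn) g2.st (by simp [hg2]) (by
        intro r h1 h2
        apply Rg.other
        simp only [List.mem_cons, List.not_mem_nil, or_false, not_or]
        omega)
      refine ⟨?_, q2.mono (by omega)⟩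
      rw [q1, hval]
      simp [hg2, hg1, h13, ← hXdef]
    · show (addF (cl (o + X.length * Cn)) (prefO o Cn ψ X)).code.length ≤ _
      rw [hval]
      have a1 := hcl (o + X.length * Cn) (addCode (prefC Cn o X) ψ.code)
      have a2 := length_prefO o Cn X ψ.code
      omega

theorem exists_endS (o Cn : ℕ) : ∃ c T, CandS (endO o Cn) c T := by
  obtain ⟨gP, TP, hP, h12⟩ := exists_prefOSpec o Cn
  exact exists_candS hP (TX := fun n => n) ⟨PB.id, fun a b h => h, ok_genEnd,
    fun x hx => wr_genEnd hx, fun b s h13 hs => genEnd_run hs h13 le_rfl⟩ h12 (wr12_genAt _)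
    length_end

theorem exists_bitS (o Cn : ℕ) (y : Bool) : ∃ c T, CandS (fun ψ X => bitO o Cn ψ X y) c T := by
  obtain ⟨gP, TP, hP, h12⟩ := exists_prefOSpec o Cn
  exact exists_candS (cl := bitC y) hP (TX := fun n => n) ⟨PB.id, fun a b h => h, ok_genBit y,
    fun x hx => wr_genBit hx y, fun b s h13 hs => genBit_run y hs h13 le_rfl⟩ h12 (wr12_genAt _)
    (fun b x => (length_bit b y x).trans (by omega))

end Pool.Agent.Helper72
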