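import Pool.Agent.Helper72.Final

/-!
Machines for the refuter, the final decision program.
-/

namespace Pool.Agent.Helper72

open Function Turing Computability Filter

namespace Cmd

/-- final decision program: compute the reduction and run the decision program for `S` -/
def Dc (fv decS : Cmd) : Cmd :=
  seq (copy 0 11 30) (seq fv (seq (mv 9 30) (seq (mv 30 100) (seq decS
    (ite 100 nop nop (push 1 true))))))

theorem ok_Dc {fv decS : Cmd} (h1 : fv.ok = true) (h2 : decS.ok = true) :
    (Dc fv decS).ok = true := by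
  simp [Dc, ok, h1, h2, ok_copy]

theorem D_spec {fv decS : Cmd} {χ : List Bool → Bool} {TS : ℕ → ℕ}
    (hS : DecSpec (fun x : List Bool => x) χ decS TS) {f : List Bool → List Bool} {Lf : ℕ → ℕ}
    (hfv : ∀ s : St, Scr s → s 9 = [] → s 10 = [] → fv.eval s = update s 9 (f (s 11)) ∧
      fv.LB (Lf (s 11).length) s ∧ (f (s 11)).length ≤ Lf (s 11).length) (z : List Bool) :
    (Dc fv decS).LB (z.length + Lf z.length + TS (Lf z.length)) (initSt 0 z) ∧
    (Dc fv decS).eval (initSt 0 z) 1 = flag (χ (f z)) := by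
  set s : St := initSt 0 z with hs
  have s0 : s 0 = z := by simp [hs, initSt]
  have sne : ∀ r, r ≠ 0 → s r = [] := fun r hr => by simp [hs, initSt, hr]
  have e2 : (copy 0 11 30).eval s = update s 11 z := by
    rw [eval_copy (by norm_num) (by norm_num) (by norm_num) (sne _ (by norm_num)), s0,
      sne 11 (by norm_num), List.append_nil]
  have hscr : Scr (update s 11 z) := by
    intro r hr
    rw [update_of_ne (by omega)]
    exact sne r (by omega)
  obtain ⟨e3, l3, len3⟩ := hfv _ hscr (by simp [sne]) (by simp [sne])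
  have x11 : (update s 11 z) 11 = z := by simp
  rw [x11] at e3 l3 len3
  set F := f z with hF
  have e4 : (mv 9 30).eval (update (update s 11 z) 9 F) = update (update s 11 z) 30 F.reverse := by
    rw [eval_mv (by norm_num)]
    funext x
    by_cases q1 : x = 30
    · subst q1; simp [sne]
    · by_cases q2 : x = 9
      · subst q2; simp [sne]
      · simp [q1, q2]
  have e5 : (mv 30 100).eval (update (update s 11 z) 30 F.reverse) =
      update (update s 11 z) 100 F := by
    rw [eval_mv (by norm_num)]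
    funext x
    by_cases q1 : x = 100
    · subst q1; simp [sne]
    · by_cases q2 : x = 30
      · subst q2; simp [sne]
      · simp [q1, q2]
  obtain ⟨l6, e6⟩ := hS.spec F (update (update s 11 z) 100 F)
    (by
      intro r hr
      rw [update_of_ne (by omega), update_of_ne (by omega)]
      exact sne r (by omega)) (by simp)
  rw [update_idem] at e6
  have hTS : TS F.length ≤ TS (Lf z.length) := hS.mono len3
  constructor
  · rw [Dc, LB_seq, LB_seq, LB_seq, LB_seq, LB_seq, e2, e3, e4, e5, e6]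
    refine ⟨?_, l3.mono (by omega), ?_, ?_, l6.mono (by omega), ?_⟩
    · apply LB_copy (by norm_num) (by norm_num) (by norm_num) (sne _ (by norm_num))
      rw [s0]; omega
    · apply LB_mv (by norm_num)
      simp; omega
    · apply LB_mv (by norm_num)
      simp; omega
    · simp only [LB]
      split <;> trivial
  · rw [Dc, eval_seq, eval_seq, eval_seq, eval_seq, eval_seq, e2, e3, e4, e5, e6]
    cases χ F
    · have y : (update (update s 11 z) 100 (flag false)) 100 = [] := by simp
      simp only [eval, y]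
      rw [update_of_ne (by norm_num), update_of_ne (by norm_num), sne 1 (by norm_num)]
      rfl
    · have y : (update (update s 11 z) 100 (flag true)) 100 = [true] := by simp
      simp only [eval, y]
      rw [update_self, update_of_ne (by norm_num), update_of_ne (by norm_num),
        sne 1 (by norm_num)]
      rfl

theorem wr_stepC {gP gE gT gF gJ decS fv : Cmd} {x : ℕ} (hx : x = 44)
    (h1 : gP.wr x = false) (h2 : gE.wr x = false) (h3 : gT.wr x = false)
    (h4 : gF.wr x = false) (h5 : gJ.wr x = false) (h6 : decS.wr x = false)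
    (h7 : fv.wr x = false) : (stepC gP gE gT gF decS fv gJ).wr x = false := by
  subst hx
  simp [stepC, stepBody, tryF, mkCand, toDec, appB, finish, wr, mv, copy, mv2, clear, h1, h2, h3,
    h4, h5, h6, h7]

theorem ok_stepC {gP gE gT gF gJ decS fv : Cmd} 
    (h1 : gP.ok = true) (h2 : gE.ok = true) (h3 : gT.ok = true)
    (h4 : gF.ok = true) (h5 : gJ.ok = true) (h6 : decS.ok = true)
    (h7 : fv.ok = true) : (stepC gP gE gT gF decS fv gJ).ok = true := by
  simp [stepC, stepBody, tryF, mkCand, toDec, appB, finish, ok, ok_copy, h1, h2, h3,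
    h4, h5, h6, h7]

theorem ok_expand : expand.ok = true := by rfl

theorem ok_mainC {cB gT gN decS step : Cmd} (h1 : cB.ok = true) (h2 : gT.ok = true)
    (h3 : gN.ok = true) (h4 : decS.ok = true) (h5 : step.ok = true) (h6 : step.wr 44 = false) :
    (mainC cB gT gN decS step).ok = true := by
  simp [mainC, testPhi, ok, ok_expand, ok_copy, h1, h2, h3, h4, h5, h6]

end Cmd

theorem PB_Lpsi {BW TG : ℕ → ℕ} (h1 : PB BW) (h2 : PB TG) (Cn : ℕ) :
    PB (Cmd.Lpsi BW TG Cn) :=
  (h2.comp h1).add (PB.id.mul ((PB.const 15).add ((PB.const 2).mul ((PB.const 9).add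
    ((PB.const 3).mul ((PB.id.mul (PB.const Cn)).add (PB.const 1)))))))

theorem PB_TR {BW TB TG TN TP TE TT TF TJ TS Lf : ℕ → ℕ} (h1 : PB BW) (h2 : PB TB)
    (h3 : PB TG) (h4 : PB TN) (h5 : PB TP) (h6 : PB TE) (h7 : PB TT) (h8 : PB TF)
    (h9 : PB TJ) (h10 : PB TS) (h11 : PB Lf) (Cn : ℕ) :
    PB (Cmd.TR BW TB TG TN TP TE TT TF TJ TS Lf Cn) := by
  have hl := PB_Lpsi h1 h3 Cn
  have hn : PB fun n => BW n + 1 := h1.add (PB.const 1)
  have hc : PB fun n => (BW n + 1) * Cn := hn.mul (PB.const Cn)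
  have hm : PB fun n => 24 + 3 * ((BW n + 1) * Cn + 1) :=
    (PB.const 24).add ((PB.const 3).mul (hc.add (PB.const 1)))
  have hLC : PB fun n => Cmd.LC Cn (Cmd.Lpsi BW TG Cn n) (BW n + 1) := by
    simp only [Cmd.LC]
    exact (hl.add (hn.mul hm)).add ((PB.const 2).mul hm)
  have hstep : PB fun n => Cmd.Tstep TP TE TT TF TJ TS Lf Cn (Cmd.Lpsi BW TG Cn n) (BW n + 1) := by
    simp only [Cmd.Tstep]
    exact (((((((((hl.add (h5.comp hn)).add (h6.comp hc)).add (h7.comp hc)).add
      (h8.comp hc)).add (h9.comp hc)).add hLC).add (h10.comp hLC)).add (h11.comp hn)).add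
      hn).add (PB.const 1)
  exact (((((((((PB.id.add h1).add h2).add (h3.comp h1)).add h4).add hl).add
    (h10.comp hl)).add hstep).add (PB.const 1)))

/-- the refuters are computed by machines on short descriptions -/
theorem exists_machine {P : List Instr} {k acc j : ℕ} {BW : ℕ → ℕ}
    {cB gT gN gP gE gTt gF gJ decS fv : Cmd} {TB TG TN TP TE TT TF TJ TS : ℕ → ℕ}
    {χ : List Bool → Bool} {f : List Bool → List Bool} {Lf : ℕ → ℕ} {clJ : ℕ → List ACls}
    (hBW : PB BW)
    (hB : PolySpec BW 12 10 cB TB) (hG : GenSpec P k acc gT TG)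
    (hN : NonEmptySpec (nCh P k) gN TN)
    (hP : PrefSpec (nCh P k) gP TP) (hE : AddSpec endC gE TE) (hT : AddSpec (bitC true) gTt TT)
    (hF : AddSpec (bitC false) gF TF) (hJ : AddSpec clJ gJ TJ)
    (hclJ : (j = 0 ∧ clJ = endC) ∨ (j = 1 ∧ clJ = bitC true) ∨ (j = 2 ∧ clJ = bitC false))
    (hS : DecSpec (fun x : List Bool => x) χ decS TS)
    (hfv : ∀ s : St, Scr s → s 9 = [] → s 10 = [] → fv.eval s = update s 9 (f (s 11)) ∧
      fv.LB (Lf (s 11).length) s ∧ (f (s 11)).length ≤ Lf (s 11).length) (hLf : Monotone Lf)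
    (hLfPB : PB Lf) (okfv : fv.ok = true) (wrfv : fv.wr 44 = false)
    {ψ : ℕ → BForm} (hψ : ∀ N, ψ N = addF (nonEmptyC (nCh P k) N) (tabF P k acc (BW N))) :
    ∃ (M : TM2ComputableAux Bool Bool) (h : ℕ → ℕ), PB h ∧ Monotone h ∧
      ∀ i > 0, ∀ y : List Bool, bval y = i → y.length = Nat.log 2 i →
        Outputs M y (refuter χ f (nCh P k) (ψ (2 ^ 2 ^ i)) j (BW (2 ^ 2 ^ i))) (h (2 ^ 2 ^ i)) := by
  set step := Cmd.stepC gP gE gTt gF decS fv gJ with hstep
  have okstep : step.ok = true := Cmd.ok_stepC hP.ok hE.ok hT.ok hF.ok hJ.ok hS.ok okfv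
  have wrstep : step.wr 44 = false := Cmd.wr_stepC rfl (hP.wr _ (by omega)) (hE.wr _ (by omega))
    (hT.wr _ (by omega)) (hF.wr _ (by omega)) (hJ.wr _ (by omega)) (hS.wr _ (by omega)) wrfv
  have okm : (Cmd.mainC cB gT gN decS step).ok = true :=
    Cmd.ok_mainC hB.ok hG.ok hN.ok hS.ok okstep wrstep
  obtain ⟨M, f0, hf0, hf0m, hM⟩ := Pool.Agent.Helper4.Glue.outputs_of_cmd _ okm 43
  obtain ⟨T, hTm, hT'⟩ := (PB_TR hBW hB.pb hG.pb hN.pb hP.pb hE.pb hT.pb hF.pb hJ.pb hS.pb
    hLfPB (nCh P k)).exists_poly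
  refine ⟨M, fun n => f0 (n + T.eval n), hf0.comp (PB.id.add (PB.poly T)), ?_, ?_⟩
  · intro a b hab
    exact hf0m (Nat.add_le_add hab (hTm hab))
  · intro i hi y hy hlen
    obtain ⟨h1, h2, -⟩ := Cmd.main_spec (N := 2 ^ 2 ^ i) hB hG hN hP hE hT hF hJ hclJ hS hfv hLf y
      (by rw [hy]) (hψ _)
    rw [← h1]
    refine (hM y _ h2).mono (hf0m ?_)
    have hl : y.length ≤ 2 ^ 2 ^ i := by
      rw [hlen]
      have h3 : Nat.log 2 i ≤ i := Nat.log_le_self _ _
      have h4 := le_two_two i
      omega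
    exact Nat.add_le_add hl (hT' _)

end Pool.Agent.Helper72
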