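import Pool.Agent.Helper72.ProgS
import Pool.Agent.Helper72.ProgFin

/-!
The decision procedure by search as a program.
-/

namespace Pool.Agent.Helper72

open Function Pool.Agent.Helper73.GenProg

/-- program for the verifier: registers 0 and 1, result in register 2 -/
structure VerS (V : List Bool → List Bool → Bool) (c : Cmd) (T : ℕ → ℕ) : Prop where
  pb : PB T
  mono : Monotone T
  ok : c.ok = true
  spec : ∀ (g : Rg) (m : ℕ), g.a2 = [] → g.a13 = [] → g.a30 = [] → g.a100 = [] →
    g.a0.length ≤ m → g.a1.length ≤ m →
    Run (T m) c g.st { g with a2 := flag (V g.a0 g.a1) }.st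

/-- program computing the formula `Φ z`: input in register 11, result in register 9 -/
structure PhiS (Φ : List Bool → BForm) (c : Cmd) (T : ℕ → ℕ) : Prop where
  pb : PB T
  mono : Monotone T
  ok : c.ok = true
  spec : ∀ (g : Rg) (m : ℕ), g.a9 = [] → g.a10 = [] → g.a13 = [] → g.a30 = [] →
    g.a100 = [] → g.a11.length ≤ m →
    Run (T m) c g.st { g with a9 := (Φ g.a11).code }.st ∧ (Φ g.a11).code.length ≤ T m

theorem VerS.of_PV {q : Polynomial ℕ} {R : List Bool × List Bool → Bool} {cq decV : Cmd}
    {Tq TV : ℕ → ℕ} (hq : PolySpec (fun n => q.eval n) 0 32 cq Tq)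
    (hV : DecSpec pairCode R decV TV) :
    ∃ T, VerS (fun z w => decide (w.length ≤ q.eval z.length) && R (z, w))
      (Cmd.PVc cq decV) T := by
  obtain ⟨q', hq'm, hq'⟩ := (PB.poly q).exists_poly
  refine ⟨fun m => Tq m + q'.eval m + m + m + TV (2 * m + 2 + m) + 1, ?_, ?_,
    Cmd.ok_PVc hq hV, ?_⟩
  · exact (((((hq.pb.add (PB.poly q')).add PB.id).add PB.id).add
      (hV.pb.comp ((((PB.const 2).mul PB.id).add (PB.const 2)).add PB.id))).add (PB.const 1))
  · intro a b hab
    have h1 := hq.mono hab
    have h2 : q'.eval a ≤ q'.eval b := hq'm hab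
    have h3 := hV.mono (show 2 * a + 2 + a ≤ 2 * b + 2 + b by omega)
    simp only
    omega
  · intro g m h2 h13 h30 h100 h0 h1
    obtain ⟨e, l⟩ := Cmd.PV_spec hq hV (s := g.st) (Rg.scr h13 h30 h100) h2
    refine ⟨?_, l.mono ?_⟩
    · rw [e]; exact Rg.upd2 g _
    · simp only [Cmd.TPV, Rg.get0, Rg.get1]
      have a1 := hq.mono h0
      have a2 : q.eval g.a0.length ≤ q'.eval m := (hq' _).trans (hq'm h0)
      have a3 := hV.mono (show 2 * g.a0.length + 2 + g.a1.length ≤ 2 * m + 2 + m by omega)
      omega

theorem PhiS.of_fv {Φ : List Bool → BForm} {fv : Cmd} {Lf : ℕ → ℕ} (hLf : Monotone Lf)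
    (hpb : PB Lf) (hok : fv.ok = true)
    (hfv : ∀ s : St, Scr s → s 9 = [] → s 10 = [] →
      fv.eval s = update s 9 (Φ (s 11)).code ∧
      fv.LB (Lf (s 11).length) s ∧ (Φ (s 11)).code.length ≤ Lf (s 11).length) :
    PhiS Φ fv Lf := by
  refine ⟨hpb, hLf, hok, ?_⟩
  intro g m h9 h10 h13 h30 h100 h11
  obtain ⟨e, l, b⟩ := hfv g.st (Rg.scr h13 h30 h100) h9 h10
  refine ⟨⟨?_, l.mono (hLf h11)⟩, b.trans (hLf h11)⟩
  rw [e]; simp

/-- a unary polynomial value of the length of register 11 in register 10 -/
theorem run_poly11 {B T : ℕ → ℕ} {c : Cmd} (h : PolySpec B 11 10 c T) {g : Rg} {m : ℕ}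
    (h10 : g.a10 = []) (h11 : g.a11.length ≤ m) :
    Run (T m) c g.st { g with a10 := un (B g.a11.length) }.st := by
  obtain ⟨e, l⟩ := h.spec g.st rfl rfl rfl
  refine ⟨?_, l.mono (h.mono h11)⟩
  rw [e]; simp [h10]

namespace Cmd

/-- the part of the program run when a certificate candidate was found -/
def foundD (pv cX : Cmd) : Cmd :=
  seq (copy 50 0 30) (seq (copy 11 1 30) (seq pv (seq (clear 0) (seq (clear 1)
    (ite 2 (seq (pop 42) (seq (push 42 false) (seq cX (mm 9 43)))) nop (clear 2))))))

def accD (src pv cX : Cmd) : Cmd :=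
  seq (clear 100) (seq (push 10 true) (seq (mm 10 44) (seq (copy 41 46 30) (seq src
    (ite 42 nop nop (foundD pv cX))))))

def dpC (fv cB decS src pv cX : Cmd) : Cmd :=
  seq fv (seq cB (seq (mm 9 41) (seq (mm 11 50) (seq (copy 41 100 30) (seq decS
    (seq (ite 100 (seq (copy 41 43 30) (push 42 false)) nop (accD src pv cX))
      (seq (clear 41) (seq (clear 50) (seq (clear 11) (clear 10))))))))))

end Cmd

section

variable {χ : List Bool → Bool} {decS : Cmd} {TS : ℕ → ℕ}

/-- specification of the decision procedure by search -/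
structure DprS (D : List Bool → Bool × List Bool) (c : Cmd) (T : ℕ → ℕ) : Prop where
  pb : PB T
  mono : Monotone T
  ok : c.ok = true
  spec : ∀ (g : Rg) (m : ℕ), g.a0 = [] → g.a1 = [] → g.a2 = [] → g.a9 = [] → g.a10 = [] →
    g.a13 = [] → g.a30 = [] → g.a41 = [] → g.a42 = [] → g.a43 = [] → g.a44 = [] →
    g.a46 = [] → g.a50 = [] → g.a100 = [] → g.a11.length ≤ m →
    Run (T m) c g.st { g with a11 := [], a42 := [(D g.a11).1], a43 := (D g.a11).2 }.st ∧
      (D g.a11).2.length ≤ T m

theorem exists_dprS (hS : DecSpec (fun x : List Bool => x) χ decS TS)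
    {V : List Bool → List Bool → Bool} {Φ : List Bool → BForm} {B : ℕ → ℕ} {Cn j : ℕ}
    {pv fv cB src cX : Cmd} {TV TΦ TB Tsrc TX : ℕ → ℕ}
    (hV : VerS V pv TV) (hΦ : PhiS Φ fv TΦ) (hBm : Monotone B) (hBpb : PB B)
    (hB : PolySpec B 11 10 cB TB)
    (hsrc : SrcS χ 2 Cn j src Tsrc) (hX : CandS (endO 2 Cn) cX TX) :
    ∃ T, DprS (dprog χ V Cn B Φ j) (Cmd.dpC fv cB decS src pv cX) T := by
  -- size bounds
  refine ⟨fun m => TΦ m + TB m + TS (TΦ m) + m + (TΦ m + (B m + 1) + m) +
    Tsrc (TΦ m + (B m + 1) + m) + TV (TΦ m + (B m + 1) + m) + TX (TΦ m + (B m + 1) + m) + 2,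
    ?_, ?_, ?_, ?_⟩
  · have hk : PB fun m => TΦ m + (B m + 1) + m :=
      (hΦ.pb.add (hBpb.add (PB.const 1))).add PB.id
    exact ((((((((hΦ.pb.add hB.pb).add (hS.pb.comp hΦ.pb)).add PB.id).add hk).add
      (hsrc.pb.comp hk)).add (hV.pb.comp hk)).add (hX.pb.comp hk)).add (PB.const 2))
  · intro a b hab
    have e1 := hΦ.mono hab
    have e2 := hBm hab
    have e3 := hB.mono hab
    have e4 := hS.mono e1
    have e5 : TΦ a + (B a + 1) + a ≤ TΦ b + (B b + 1) + b := by omega
    have := hsrc.mono e5
    have := hV.mono e5
    have := hX.mono e5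
    simp only
    omega
  · simp [Cmd.dpC, Cmd.accD, Cmd.foundD, Cmd.ok, Cmd.ok_copy, ok_mm, hΦ.ok, hB.ok, hS.ok,
      hsrc.ok, hV.ok, hX.ok]
  · intro g m h0 h1 h2 h9 h10 h13 h30 h41 h42 h43 h44 h46 h50 h100 h11
    set z := g.a11 with hz
    set K := TΦ m + (B m + 1) + m with hK
    set L := TΦ m + TB m + TS (TΦ m) + m + K + Tsrc K + TV K + TX K + 2 with hL
    obtain ⟨r1, b1⟩ := hΦ.spec g m h9 h10 h13 h30 h100 h11
    rw [← hz] at r1 b1
    set φ := Φ z with hφ
    set n := B z.length + 1 with hn
    have hBz : B z.length ≤ B m := hBm h11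
    have hTSφ : TS φ.code.length ≤ TS (TΦ m) := hS.mono b1
    -- state after the preparations
    obtain ⟨g5, hg5⟩ : ∃ g5 : Rg, g5 = { g with
      a10 := un (B z.length), a41 := φ.code, a11 := [], a50 := z } := ⟨_, rfl⟩
    have prep : ∀ {c : Cmd} {s' : St}, Run L c { g5 with a100 := flag (χ φ.code) }.st s' →
        Run L (.seq fv (.seq cB (.seq (.mm 9 41) (.seq (.mm 11 50) (.seq (.copy 41 100 30)
          (.seq decS c)))))) g.st s' := by
      intro c s' hc
      refine Run.seq (r1.mono (by omega)) (Run.seq ((run_poly11 hB (g := { g with a9 := φ.code })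
        (m := m) h10 (by show z.length ≤ m; exact h11)).mono (by omega)) (Run.seq (Run.congr
        (run_mm (by norm_num) (by norm_num) (by norm_num) ?_ ?_) rfl (t' := { g with
          a10 := un (B z.length), a41 := φ.code }.st) ?_) (Run.seq (Run.congr
        (run_mm (by norm_num) (by norm_num) (by norm_num) ?_ ?_) rfl (t' := g5.st) ?_)
        (Run.seq (Run.congr (run_copy (by norm_num) (by norm_num) (by norm_num) ?_ ?_) rfl
          (t' := { g5 with a100 := φ.code }.st) ?_) (Run.seq ((run_decS hS (g := { g5 with
            a100 := φ.code }) (m := φ.code.length) le_rfl).mono (by omega)) hc)))))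
      · exact h30
      · simp; omega
      · simp [h9, h41, ← hz]
      · exact h30
      · simp [← hz]; omega
      · simp [hg5, ← hz, h50]
      · simp [hg5, h30]
      · simp [hg5]; omega
      · simp [hg5, h100]
    -- the final cleanup
    have cleanup : ∀ (X : List Bool) (b : Bool) (c : List Bool) (E : List Bool),
        X.length ≤ L → E.length ≤ L →
        Run L (.seq (.clear 41) (.seq (.clear 50) (.seq (.clear 11) (.clear 10))))
          { g5 with
            a11 := X, a10 := E, a42 := [b], a43 := c }.st
          { g with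
            a11 := [], a42 := [b], a43 := c }.st := by
      intro X b c E hX hE
      refine Run.seq (Run.congr (run_clear ?_) rfl (Rg.upd41 _ _)) (Run.seq (Run.congr
        (run_clear ?_) rfl (Rg.upd50 _ _)) (Run.seq (Run.congr (run_clear ?_) rfl
        (Rg.upd11 _ _)) (Run.congr (run_clear ?_) rfl ?_)))
      · simp [hg5]; omega
      · simp [hg5]; omega
      · exact hX
      · exact hE
      · simp [hg5, h10, h41, h50]
    by_cases hχ : χ φ.code = true
    swap
    · -- rejected at once
      have hD : dprog χ V Cn B Φ j z = (false, φ.code) := by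
        unfold dprog
        rw [if_neg hχ]
      rw [hD]
      have hf : χ φ.code = false := by simpa using hχ
      refine ⟨?_, by show φ.code.length ≤ L; omega⟩
      have mid : Run L (.ite 100 (.seq (.copy 41 43 30) (.push 42 false)) .nop
          (Cmd.accD src pv cX)) { g5 with a100 := flag (χ φ.code) }.st
          { g5 with
            a42 := [false], a43 := φ.code }.st := by
        rw [hf]
        refine run_ite_nil (by simp [flag]) (Run.seq (Run.congr (run_copy (by norm_num)
          (by norm_num) (by norm_num) ?_ ?_) rfl (t' := { g5 with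
            a100 := [], a43 := φ.code }.st) ?_)
          (Run.congr (run_push L 42 false _) rfl ?_))
        · simp [hg5, h30]
        · simp [hg5]; omega
        · simp [hg5, h43, flag]
        · simp [hg5, h42, h100]
      have fin := cleanup [] false φ.code (un (B z.length)) (by simp) (by simp; omega)
      have all := prep (Run.seq mid (Run.congr fin (by simp [hg5]) rfl))
      exact all
    · -- accepted: search for a certificate
      obtain ⟨g6, hg6⟩ : ∃ g6 : Rg, g6 = { g5 with
        a10 := [], a44 := un n, a46 := φ.code } := ⟨_, rfl⟩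
      have hnK : n ≤ K := by omega
      have hφK : φ.code.length ≤ K := by omega
      obtain ⟨rs, bX, bc⟩ := hsrc.spec g6 φ K n (by simp [hg6, hg5, h9]) (by simp [hg6, hg5, h13])
        (by simp [hg6, hg5, h30]) (by simp [hg6, hg5, h100]) (by simp [hg6, hg5])
        (by simp [hg6, hg5, h42]) (by simp [hg6, hg5, h43]) (by simp [hg6, hg5])
        (by simp [hg6]) hnK hφK (by simp [hg6]; omega)
      have e46 : g6.a46 = φ.code := by simp [hg6]
      rw [e46] at rs bX bc
      set r := srch χ 2 Cn φ j n [] φ.code with hr
      obtain ⟨g7, hg7⟩ : ∃ g7 : Rg, g7 = { g5 with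
        a10 := [], a11 := r.2.1, a42 := [r.1], a43 := r.2.2 } := ⟨_, rfl⟩
      have rs' : Run L src g6.st g7.st := by
        refine Run.congr (rs.mono (by omega)) rfl ?_
        simp [hg7, hg6, hg5, h44, h46]
      -- up to the search
      have pre2 : ∀ {c : Cmd} {s' : St}, Run L c g7.st s' →
          Run L (.ite 100 (.seq (.copy 41 43 30) (.push 42 false)) .nop
            (.seq (.clear 100) (.seq (.push 10 true) (.seq (.mm 10 44) (.seq (.copy 41 46 30)
              (.seq src c)))))) { g5 with a100 := flag (χ φ.code) }.st s' := by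
        intro c s' hc
        rw [hχ]
        refine run_ite_true (t := []) (by simp [flag]) (Run.seq (Run.congr (run_clear ?_) rfl
          (t' := g5.st) ?_) (Run.seq (Run.congr (run_push L 10 true _) rfl
          (t' := { g5 with a10 := un n }.st) ?_) (Run.seq (Run.congr (run_mm (by norm_num)
          (by norm_num) (by norm_num) ?_ ?_) rfl (t' := { g5 with
            a10 := [], a44 := un n }.st) ?_) (Run.seq (Run.congr (run_copy (by norm_num)
          (by norm_num) (by norm_num) ?_ ?_) rfl (t' := g6.st) ?_) (Run.seq rs' hc)))))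
        · simp [flag]; omega
        · simp [hg5, h100]
        · simp only [Rg.upd10, Rg.get10]
          rw [hn, hg5]
          rfl
        · simp [hg5, h30]
        · simp; omega
        · simp [hg5, h44]
        · simp [hg5, h30]
        · simp [hg5]; omega
        · simp [hg6, hg5, h46]
      have hXL : r.2.1.length ≤ L := by omega
      by_cases hb : r.1 = true
      swap
      · have hb' : r.1 = false := by simpa using hb
        have hD : dprog χ V Cn B Φ j z = (false, r.2.2) := by
          unfold dprog
          rw [if_pos hχ, if_neg (by rw [hb']; exact Bool.false_ne_true)]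
        rw [hD]
        refine ⟨?_, by show r.2.2.length ≤ L; omega⟩
        have mid : Run L (.ite 42 .nop .nop (Cmd.foundD pv cX)) g7.st g7.st :=
          run_ite_false (t := []) (by simp [hg7, hb']) (Run.nop _ _)
        have fin := cleanup r.2.1 false r.2.2 [] hXL (by simp)
        exact prep (Run.seq (pre2 mid) (Run.congr fin (by simp [hg7, hb']) rfl))
      · obtain ⟨-, hYB, hc0⟩ := srch_found (χ := χ) (o := 2) (Cn := Cn) (ψ := φ) (j := j)
          (B := B z.length) n [] φ.code (by simp [hn]) hb
        rw [← hr] at hYB hc0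
        -- the check of the certificate
        obtain ⟨g8, hg8⟩ : ∃ g8 : Rg, g8 = { g7 with a2 := flag (V z r.2.1) } := ⟨_, rfl⟩
        have chk : ∀ {c : Cmd} {s' : St}, Run L c g8.st s' →
            Run L (.ite 42 .nop .nop (.seq (.copy 50 0 30) (.seq (.copy 11 1 30) (.seq pv
              (.seq (.clear 0) (.seq (.clear 1) c)))))) g7.st s' := by
          intro c s' hc
          refine run_ite_true (t := []) (by simp [hg7, hb]) (Run.seq (Run.congr (run_copy
            (by norm_num) (by norm_num) (by norm_num) ?_ ?_) rfl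
            (t' := { g7 with a0 := z }.st) ?_) (Run.seq (Run.congr (run_copy
            (by norm_num) (by norm_num) (by norm_num) ?_ ?_) rfl
            (t' := { g7 with
              a0 := z, a1 := r.2.1 }.st) ?_) (Run.seq (Run.mono (hV.spec { g7 with
              a0 := z, a1 := r.2.1 } K ?_ ?_ ?_ ?_ ?_ ?_) ?_) (Run.seq (Run.congr
              (run_clear ?_) rfl (Rg.upd0 _ _)) (Run.seq (Run.congr (run_clear ?_) rfl
              (t' := g8.st) ?_) hc)))))
          · simp [hg7, hg5, h30]
          · simp [hg7, hg5]; omega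
          · simp [hg7, hg5, h0]
          · simp [hg7, hg5, h30]
          · simp [hg7, hg5]; omega
          · simp [hg7, hg5, h1]
          · simp [hg7, hg5, h2]
          · simp [hg7, hg5, h13]
          · simp [hg7, hg5, h30]
          · simp [hg7, hg5, h100]
          · show z.length ≤ K; omega
          · show r.2.1.length ≤ K; omega
          · omega
          · simp; omega
          · simp; omega
          · simp [hg8, hg7, hg5, h0, h1]
        by_cases hv : V z r.2.1 = true
        · have hD : dprog χ V Cn B Φ j z = (true, []) := by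
            unfold dprog
            rw [if_pos hχ, if_pos hb, if_pos hv]
          rw [hD]
          refine ⟨?_, by simp⟩
          have mid : Run L (.ite 2 (.seq (.pop 42) (.seq (.push 42 false) (.seq cX (.mm 9 43))))
              .nop (.clear 2)) g8.st g7.st := by
            refine run_ite_true (t := []) (by simp [hg8, hv, flag]) (Run.congr (run_clear ?_)
              rfl ?_)
            · simp [hg8, hv, flag]; omega
            · simp [hg8, hg7, hg5, h2]
          have fin := cleanup r.2.1 true r.2.2 [] hXL (by simp)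
          rw [hc0] at fin
          exact prep (Run.seq (pre2 (chk mid)) (Run.congr fin (by simp [hg7, hb, hc0]) rfl))
        · have hv' : V z r.2.1 = false := by simpa using hv
          have hD : dprog χ V Cn B Φ j z = (false, (endO 2 Cn φ r.2.1).code) := by
            unfold dprog
            rw [if_pos hχ, if_pos hb, if_neg hv]
          rw [hD]
          obtain ⟨g9, hg9⟩ : ∃ g9 : Rg, g9 = { g7 with a42 := [false] } := ⟨_, rfl⟩
          obtain ⟨rX, bX'⟩ := hX.spec g9 φ K (by simp [hg9, hg7, hg5, h9])
            (by simp [hg9, hg7, hg5, h13]) (by simp [hg9, hg7, hg5, h30])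
            (by simp [hg9, hg7, hg5]) (by simp only [hg9, hg7]; exact bX) hφK
          have e11 : g9.a11 = r.2.1 := by simp [hg9, hg7]
          rw [e11] at rX bX'
          refine ⟨?_, by show (endO 2 Cn φ r.2.1).code.length ≤ L; omega⟩
          have mid : Run L (.ite 2 (.seq (.pop 42) (.seq (.push 42 false) (.seq cX (.mm 9 43))))
              .nop (.clear 2)) g8.st { g7 with
                a42 := [false], a43 := (endO 2 Cn φ r.2.1).code }.st := by
            have rX' := rX.mono (show TX K ≤ L by omega)
            refine run_ite_nil (by simp [hg8, hv', flag]) (Run.seq (s' := { g7 with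
              a42 := [] }.st) ⟨?_, trivial⟩ (Run.seq (Run.congr (run_push L 42 false _) rfl
              (t' := g9.st) ?_) (Run.seq rX'
              (Run.congr (run_mm (by norm_num) (by norm_num) (by norm_num) ?_ ?_) rfl ?_))))
            · rw [Cmd.eval_pop]
              simp [hg8, hg7, hg5, hv', flag, h2]
            · simp [hg9]
            · simp [hg9, hg7, hg5, h30]
            · simp; omega
            · simp [hg9, hg7, hg5, h9, hc0]
          have fin := cleanup r.2.1 false (endO 2 Cn φ r.2.1).code [] hXL (by simp)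
          exact prep (Run.seq (pre2 (chk mid)) (Run.congr fin (by simp [hg7]) rfl))

end

end Pool.Agent.Helper72
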