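import Pool.Agent.Helper72.ProgD

/-!
The two-sided refuter as a program.
-/

namespace Pool.Agent.Helper72

open Function Pool.Agent.Helper73.GenProg

/-- running `c` from `s` produces `v` in register 43, with loop bound `L` -/
def Ends (L : ℕ) (c : Cmd) (s : St) (v : List Bool) : Prop := c.eval s 43 = v ∧ c.LB L s

theorem Run.ends {L : ℕ} {c d : Cmd} {s s' : St} {v : List Bool} (h1 : Run L c s s')
    (h2 : Ends L d s' v) : Ends L (.seq c d) s v :=
  ⟨by rw [Cmd.eval_seq, h1.1]; exact h2.1, h1.2, by rw [h1.1]; exact h2.2⟩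

theorem ends_of_run {L : ℕ} {c : Cmd} {s s' : St} {v : List Bool} (h1 : Run L c s s')
    (h2 : s' 43 = v) : Ends L c s v := ⟨by rw [h1.1]; exact h2, h1.2⟩

theorem ends_ite_nil {L r : ℕ} {c0 c1 c2 : Cmd} {s : St} {v : List Bool} (h : s r = [])
    (h' : Ends L c0 s v) : Ends L (.ite r c0 c1 c2) s v := by
  refine ⟨?_, ?_⟩
  · simp only [Cmd.eval, h]; exact h'.1
  · simp only [Cmd.LB, h]; exact h'.2

theorem ends_ite_false {L r : ℕ} {c0 c1 c2 : Cmd} {s : St} {t v : List Bool}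
    (h : s r = false :: t) (h' : Ends L c1 s v) : Ends L (.ite r c0 c1 c2) s v := by
  refine ⟨?_, ?_⟩
  · simp only [Cmd.eval, h]; exact h'.1
  · simp only [Cmd.LB, h]; exact h'.2

theorem ends_ite_true {L r : ℕ} {c0 c1 c2 : Cmd} {s : St} {t v : List Bool}
    (h : s r = true :: t) (h' : Ends L c2 s v) : Ends L (.ite r c0 c1 c2) s v := by
  refine ⟨?_, ?_⟩
  · simp only [Cmd.eval, h]; exact h'.1
  · simp only [Cmd.LB, h]; exact h'.2

theorem ends_ite {L r : ℕ} {c0 c : Cmd} {s : St} {v : List Bool}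
    (h0 : s r = [] → Ends L c0 s v) (h1 : s r ≠ [] → Ends L c s v) :
    Ends L (.ite r c0 c c) s v := by
  rcases hr : s r with _ | ⟨b, t⟩
  · exact ends_ite_nil hr (h0 hr)
  · cases b
    · exact ends_ite_false hr (h1 (by rw [hr]; simp))
    · exact ends_ite_true hr (h1 (by rw [hr]; simp))

/-- the state after popping register 12 once for each letter of register 0 -/
theorem run_count {L n : ℕ} {g : Rg} (h12 : g.a12 = un n) (h0 : g.a0.length ≤ L) :
    Run L (.loop 0 (.pop 12) (.pop 12)) g.st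
      { g with
        a0 := [], a12 := un (n - g.a0.length) }.st := by
  obtain ⟨k1, k2⟩ := Cmd.loop_rule (L := L) (r := 0) (c0 := .pop 12) (c1 := .pop 12) (s := g.st)
    (fun i => ({ g with
      a0 := g.a0.drop i, a12 := un (n - i) } : Rg).st)
    (by
      show ({ g with
        a0 := g.a0.drop 0, a12 := un (n - 0) } : Rg).st = g.st
      rw [List.drop_zero, Nat.sub_zero, ← h12])
    (by
      intro i b _
      have hc : (if b = true then Cmd.pop 12 else Cmd.pop 12) = Cmd.pop 12 := by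
        cases b <;> rfl
      rw [hc]
      refine ⟨?_, trivial⟩
      rw [Cmd.eval_pop]
      simp
      rw [show n - (i + 1) = n - i - 1 by omega])
    (by simpa using h0)
  refine ⟨?_, k2⟩
  rw [k1]
  simp

namespace Cmd

def okP (dp : Cmd) : Cmd :=
  seq (clear 2) (seq (mm 53 11) (seq dp (ite 42 nop nop (seq (clear 43) (mm 52 43)))))

def ph3 (cX pv dp : Cmd) : Cmd :=
  seq cX (seq (mm 9 52) (seq (copy 53 0 30) (seq (copy 11 1 30) (seq pv
    (seq (loop 0 (pop 12) (pop 12)) (seq (clear 1) (seq (clear 11) (seq (clear 41)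
      (seq (pop 42) (ite 12 (ite 2 (mm 52 43) (okP dp) (okP dp)) (mm 52 43)
        (mm 52 43)))))))))))

def ph2 (cE src2 ph : Cmd) : Cmd :=
  seq (pop 42) (seq cE (seq (clear 41) (seq (mm 9 41) (seq (mm 11 53) (seq (copy 41 46 30)
    (seq (mm 51 44) (seq src2 (ite 42 nop nop ph))))))))

def ph1 (src0 ph : Cmd) : Cmd :=
  seq (clear 100) (seq (copy 41 46 30) (seq src0 (ite 42 nop nop ph)))

def ph0 (decS ph : Cmd) : Cmd :=
  seq (mm 9 41) (seq (push 10 true) (seq (copy 10 44 30) (seq (mm 10 51)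
    (seq (copy 41 100 30) (seq decS (ite 100 (copy 41 43 30) nop ph))))))

end Cmd

section

variable {χ : List Bool → Bool} {decS : Cmd} {TS : ℕ → ℕ}

theorem ends_ph3 {V : List Bool → List Bool → Bool} {D : List Bool → Bool × List Bool}
    {Cn : ℕ} {pv dp cX : Cmd} {TV TD TX : ℕ → ℕ}
    (hV : VerS V pv TV) (hD : DprS D dp TD) (hX : CandS (endO 2 Cn) cX TX)
    {g : Rg} {ψ : BForm} {X Y : List Bool} {N K L : ℕ}
    (h0 : g.a0 = []) (h1 : g.a1 = []) (h2 : g.a2 = []) (h9 : g.a9 = []) (h10 : g.a10 = [])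
    (h13 : g.a13 = []) (h30 : g.a30 = []) (h100 : g.a100 = []) (h44 : g.a44 = [])
    (h46 : g.a46 = []) (h50 : g.a50 = []) (h52 : g.a52 = []) (h11 : g.a11 = Y)
    (h12 : g.a12 = un N) (h41 : g.a41 = ψ.code) (h42 : g.a42 = [true]) (h43 : g.a43 = [])
    (h53 : g.a53 = X) (hN : N ≤ K) (hXK : X.length ≤ K) (hYK : Y.length ≤ K)
    (hψK : ψ.code.length ≤ K) (hL : TX K + K + TV K + TD K + 1 ≤ L) :
    Ends L (Cmd.ph3 cX pv dp) g.st
      (if N ≤ X.length ∧ V X Y = true ∧ (D X).1 = false then (D X).2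
        else (endO 2 Cn ψ Y).code) := by
  set c0 := (endO 2 Cn ψ Y).code with hc0
  obtain ⟨rX, bX⟩ := hX.spec g ψ K h9 h13 h30 h41 (by rw [h11]; exact hYK) hψK
  rw [h11] at rX bX
  have bX' : c0.length ≤ TX K := bX
  obtain ⟨g1, hg1⟩ : ∃ g1 : Rg, g1 = { g with
    a52 := c0, a0 := X, a1 := Y } := ⟨_, rfl⟩
  obtain ⟨g2, hg2⟩ : ∃ g2 : Rg, g2 = { g1 with a2 := flag (V X Y) } := ⟨_, rfl⟩
  obtain ⟨g3, hg3⟩ : ∃ g3 : Rg, g3 = { g with
    a52 := c0, a2 := flag (V X Y), a12 := un (N - X.length), a11 := [], a41 := [],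
    a42 := [] } := ⟨_, rfl⟩
  have rV := hV.spec g1 K (by simp [hg1, h2]) (by simp [hg1, h13]) (by simp [hg1, h30])
    (by simp [hg1, h100]) (by simp [hg1, hXK]) (by simp [hg1, hYK])
  have e0 : g1.a0 = X := by simp [hg1]
  have e1 : g1.a1 = Y := by simp [hg1]
  have rV' : Run (TV K) pv g1.st g2.st := by
    rw [hg2, ← e0, ← e1]
    exact rV
  refine Run.ends (rX.mono (by omega)) ?_
  refine Run.ends (Run.congr (run_mm (by norm_num) (by norm_num) (by norm_num) ?_ ?_) rfl
    (t' := { g with a52 := c0 }.st) ?_) ?_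
  · simp [h30]
  · simp; omega
  · simp [h9, h52, h11, ← hc0]
  refine Run.ends (Run.congr (run_copy (by norm_num) (by norm_num) (by norm_num) ?_ ?_) rfl
    (t' := { g with
      a52 := c0, a0 := X }.st) ?_) ?_
  · simp [h30]
  · simp [h53]; omega
  · simp [h0, h53]
  refine Run.ends (Run.congr (run_copy (by norm_num) (by norm_num) (by norm_num) ?_ ?_) rfl
    (t' := g1.st) ?_) ?_
  · simp [h30]
  · simp [h11]; omega
  · simp [hg1, h1, h11]
  refine Run.ends (rV'.mono (by omega)) ?_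
  refine Run.ends (run_count (n := N) (by simp [hg2, hg1, h12]) (by simp [hg2, hg1]; omega)) ?_
  refine Run.ends (Run.congr (run_clear ?_) rfl (Rg.upd1 _ _)) ?_
  · simp [hg2, hg1]; omega
  refine Run.ends (Run.congr (run_clear ?_) rfl (Rg.upd11 _ _)) ?_
  · simp [hg2, hg1, h11]; omega
  refine Run.ends (Run.congr (run_clear ?_) rfl (Rg.upd41 _ _)) ?_
  · simp [hg2, hg1, h41]; omega
  refine Run.ends (s' := g3.st) ⟨?_, trivial⟩ ?_
  · rw [Cmd.eval_pop]
    simp [hg3, hg2, hg1, h42, h0, h1]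
  -- the final case distinction
  have bad : (¬ (N ≤ X.length ∧ V X Y = true ∧ (D X).1 = false)) →
      Ends L (Cmd.mm 52 43) g3.st (if N ≤ X.length ∧ V X Y = true ∧ (D X).1 = false then
        (D X).2 else c0) := by
    intro hn
    rw [if_neg hn]
    refine ends_of_run (run_mm (by norm_num) (by norm_num) (by norm_num) ?_ ?_) ?_
    · simp [hg3, h30]
    · simp [hg3]; omega
    · simp [hg3, h43]
  refine ends_ite (fun q0 => ?_) (fun q0 => ?_)
  swap
  · apply bad
    rintro ⟨hcon, -, -⟩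
    apply q0
    simp only [hg3, Rg.get12]
    rw [Nat.sub_eq_zero_of_le hcon]
    rfl
  have hNX : N ≤ X.length := by
    simp only [hg3, Rg.get12, List.replicate_eq_nil_iff] at q0
    omega
  refine ends_ite (fun q1 => ?_) (fun q1 => ?_)
  · apply bad
    rintro ⟨-, hcon, -⟩
    simp [hg3, hcon, flag] at q1
  have hVX : V X Y = true := by
    by_contra hcon
    apply q1
    simp [hg3, hcon, flag]
  -- run the decision procedure on X
  obtain ⟨g4, hg4⟩ : ∃ g4 : Rg, g4 = { g with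
    a52 := c0, a2 := [], a12 := un (N - X.length), a11 := X, a41 := [],
    a42 := [], a53 := [] } := ⟨_, rfl⟩
  obtain ⟨rD, bD⟩ := hD.spec g4 K (by simp [hg4, h0]) (by simp [hg4, h1]) (by simp [hg4])
    (by simp [hg4, h9]) (by simp [hg4, h10]) (by simp [hg4, h13]) (by simp [hg4, h30])
    (by simp [hg4]) (by simp [hg4]) (by simp [hg4, h43]) (by simp [hg4, h44])
    (by simp [hg4, h46]) (by simp [hg4, h50]) (by simp [hg4, h100]) (by simp [hg4, hXK])
  have e11 : g4.a11 = X := by simp [hg4]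
  rw [e11] at rD bD
  refine Run.ends (Run.congr (run_clear ?_) rfl (Rg.upd2 _ _)) ?_
  · simp [hg3, hVX, flag]; omega
  refine Run.ends (Run.congr (run_mm (by norm_num) (by norm_num) (by norm_num) ?_ ?_) rfl
    (t' := g4.st) ?_) ?_
  · simp [hg3, h30]
  · simp [hg3, h53]; omega
  · simp [hg4, hg3, h53]
  refine Run.ends (rD.mono (by omega)) ?_
  rcases hd : (D X).1
  · rw [if_pos ⟨hNX, hVX, rfl⟩]
    refine ends_ite_false (t := []) (by simp) (ends_of_run (Run.nop _ _) ?_)
    simp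
  · rw [if_neg (by rintro ⟨-, -, h⟩; simp at h)]
    refine ends_ite_true (t := []) (by simp) ?_
    refine Run.ends (Run.congr (run_clear ?_) rfl (Rg.upd43 _ _)) ?_
    · simp; omega
    refine ends_of_run (run_mm (by norm_num) (by norm_num) (by norm_num) ?_ ?_) ?_
    · simp [hg4, h30]
    · simp [hg4]; omega
    · simp [hg4]

theorem ends_ph2 {V : List Bool → List Bool → Bool} {D : List Bool → Bool × List Bool}
    {Cn j : ℕ} {pv dp cX cE src2 : Cmd} {TV TD TX TE Ts : ℕ → ℕ}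
    (hV : VerS V pv TV) (hD : DprS D dp TD) (hX : CandS (endO 2 Cn) cX TX)
    (hE : CandS (endO 0 Cn) cE TE) (hs : SrcS χ 2 Cn j src2 Ts)
    {g : Rg} {ψ : BForm} {X : List Bool} {n N K K1 L : ℕ}
    (h0 : g.a0 = []) (h1 : g.a1 = []) (h2 : g.a2 = []) (h9 : g.a9 = []) (h10 : g.a10 = [])
    (h13 : g.a13 = []) (h30 : g.a30 = []) (h100 : g.a100 = []) (h44 : g.a44 = [])
    (h46 : g.a46 = []) (h50 : g.a50 = []) (h52 : g.a52 = []) (h11 : g.a11 = X)
    (h12 : g.a12 = un N) (h41 : g.a41 = ψ.code) (h42 : g.a42 = [true]) (h43 : g.a43 = [])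
    (h53 : g.a53 = []) (h51 : g.a51 = un n) (hN : N ≤ K) (hXK : X.length ≤ K) (hn : n ≤ K)
    (hψK : ψ.code.length ≤ K) (hK1 : K1 = K + TE K)
    (hL : Ts K1 + TX K1 + K1 + TV K1 + TD K1 + 1 ≤ L) :
    Ends L (Cmd.ph2 cE src2 (Cmd.ph3 cX pv dp)) g.st
      (if (srch χ 2 Cn (endO 0 Cn ψ X) j n [] (endO 0 Cn ψ X).code).1 then
        if N ≤ X.length ∧ V X (srch χ 2 Cn (endO 0 Cn ψ X) j n [] (endO 0 Cn ψ X).code).2.1 = true
          ∧ (D X).1 = false then (D X).2
        else (endO 2 Cn (endO 0 Cn ψ X)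
          (srch χ 2 Cn (endO 0 Cn ψ X) j n [] (endO 0 Cn ψ X).code).2.1).code
      else (srch χ 2 Cn (endO 0 Cn ψ X) j n [] (endO 0 Cn ψ X).code).2.2) := by
  set ψ' := endO 0 Cn ψ X with hψ'
  obtain ⟨g0, hg0⟩ : ∃ g0 : Rg, g0 = { g with a42 := [] } := ⟨_, rfl⟩
  obtain ⟨rE, bE⟩ := hE.spec g0 ψ K (by simp [hg0, h9]) (by simp [hg0, h13])
    (by simp [hg0, h30]) (by simp [hg0, h41]) (by simp [hg0, h11, hXK]) hψK
  have e11 : g0.a11 = X := by simp [hg0, h11]
  rw [e11, ← hψ'] at rE bE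
  have hψK1 : ψ'.code.length ≤ K1 := by omega
  obtain ⟨g1, hg1⟩ : ∃ g1 : Rg, g1 = { g0 with
    a41 := ψ'.code, a11 := [], a53 := X, a46 := ψ'.code, a44 := un n, a51 := [] } := ⟨_, rfl⟩
  obtain ⟨rs, bY, bc⟩ := hs.spec g1 ψ' K1 n (by simp [hg1, hg0, h9]) (by simp [hg1, hg0, h13])
    (by simp [hg1, hg0, h30]) (by simp [hg1, hg0, h100]) (by simp [hg1]) (by simp [hg1, hg0])
    (by simp [hg1, hg0, h43]) (by simp [hg1]) (by simp [hg1]) (by omega) hψK1
    (by simp [hg1]; omega)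
  have e46 : g1.a46 = ψ'.code := by simp [hg1]
  rw [e46] at rs bY bc
  set r := srch χ 2 Cn ψ' j n [] ψ'.code with hr
  refine Run.ends (s' := g0.st) ⟨?_, trivial⟩ ?_
  · rw [Cmd.eval_pop]; simp [hg0, h42]
  refine Run.ends (rE.mono (by omega)) ?_
  refine Run.ends (Run.congr (run_clear ?_) rfl (Rg.upd41 _ _)) ?_
  · simp [hg0, h41]; omega
  refine Run.ends (Run.congr (run_mm (by norm_num) (by norm_num) (by norm_num) ?_ ?_) rfl
    (t' := { g0 with a41 := ψ'.code }.st) ?_) ?_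
  · simp [hg0, h30]
  · simp; omega
  · simp [hg0, h9, h11]
  refine Run.ends (Run.congr (run_mm (by norm_num) (by norm_num) (by norm_num) ?_ ?_) rfl
    (t' := { g0 with
      a41 := ψ'.code, a11 := [], a53 := X }.st) ?_) ?_
  · simp [hg0, h30]
  · simp [e11]; omega
  · simp [hg0, h53, h11]
  refine Run.ends (Run.congr (run_copy (by norm_num) (by norm_num) (by norm_num) ?_ ?_) rfl
    (t' := { g0 with
      a41 := ψ'.code, a11 := [], a53 := X, a46 := ψ'.code }.st) ?_) ?_
  · simp [hg0, h30]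
  · simp; omega
  · simp [hg0, h46]
  refine Run.ends (Run.congr (run_mm (by norm_num) (by norm_num) (by norm_num) ?_ ?_) rfl
    (t' := g1.st) ?_) ?_
  · simp [hg0, h30]
  · simp [hg0, h51]; omega
  · simp [hg1, hg0, h44, h51]
  refine Run.ends (rs.mono (by omega)) ?_
  rcases hb : r.1
  · rw [if_neg (by simp)]
    refine ends_ite_false (t := []) (by simp) (ends_of_run (Run.nop _ _) ?_)
    simp
  · rw [if_pos rfl]
    refine ends_ite_true (t := []) (by simp) ?_
    have hc0 : r.2.2 = [] := by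
      have key : ∀ (n : ℕ) (X par : List Bool), (srch χ 2 Cn ψ' j n X par).1 = true →
          (srch χ 2 Cn ψ' j n X par).2.2 = [] := by
        intro n
        induction n with
        | zero => intro X par h; simp [srch] at h
        | succ n ih =>
          intro X par h
          simp only [srch] at h ⊢
          split_ifs at h ⊢
          · rfl
          · exact ih _ _ h
          · exact ih _ _ h
      exact key n [] ψ'.code hb
    exact ends_ph3 hV hD hX (ψ := ψ') (X := X) (Y := r.2.1) (N := N) (K := K1)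
      (by simp [hg1, hg0, h0]) (by simp [hg1, hg0, h1]) (by simp [hg1, hg0, h2])
      (by simp [hg1, hg0, h9]) (by simp [hg1, hg0, h10]) (by simp [hg1, hg0, h13])
      (by simp [hg1, hg0, h30]) (by simp [hg1, hg0, h100]) rfl rfl
      (by simp [hg1, hg0, h50]) (by simp [hg1, hg0, h52]) rfl (by simp [hg1, hg0, h12])
      (by simp [hg1]) rfl hc0 (by simp [hg1]) (by omega) (by omega) bY hψK1 (by omega)

/-- bounds used in the first phase -/
def KK (TE : ℕ → ℕ) (K : ℕ) : ℕ := K + TE K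

theorem ends_ph1 {V : List Bool → List Bool → Bool} {D : List Bool → Bool × List Bool}
    {Cn j : ℕ} {pv dp cX cE src0 src2 : Cmd} {TV TD TX TE Ts0 Ts : ℕ → ℕ}
    (hV : VerS V pv TV) (hD : DprS D dp TD) (hX : CandS (endO 2 Cn) cX TX)
    (hE : CandS (endO 0 Cn) cE TE) (hs0 : SrcS χ 0 Cn j src0 Ts0) (hs : SrcS χ 2 Cn j src2 Ts)
    {g : Rg} {ψ : BForm} {n N K L : ℕ}
    (h0 : g.a0 = []) (h1 : g.a1 = []) (h2 : g.a2 = []) (h9 : g.a9 = []) (h10 : g.a10 = [])
    (h13 : g.a13 = []) (h30 : g.a30 = []) (h100 : g.a100 = [true]) (h44 : g.a44 = un n)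
    (h46 : g.a46 = []) (h50 : g.a50 = []) (h52 : g.a52 = []) (h11 : g.a11 = [])
    (h12 : g.a12 = un N) (h41 : g.a41 = ψ.code) (h42 : g.a42 = []) (h43 : g.a43 = [])
    (h53 : g.a53 = []) (h51 : g.a51 = un n) (hN : N ≤ K) (hn : n ≤ K)
    (hψK : ψ.code.length ≤ K)
    (hL : Ts0 K + Ts (KK TE K) + TX (KK TE K) + KK TE K + TV (KK TE K) + TD (KK TE K) + 1
      ≤ L) {D' : ℕ → List Bool → Bool × List Bool} (hD' : D' j = D) (hn' : 0 < n) :
    (χ ψ.code = true) →
    Ends L (Cmd.ph1 src0 (Cmd.ph2 cE src2 (Cmd.ph3 cX pv dp))) g.st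
      (ref2 χ V D' Cn (n - 1) ψ N j) := by
  intro hχ
  have hn1 : n - 1 + 1 = n := by omega
  obtain ⟨g1, hg1⟩ : ∃ g1 : Rg, g1 = { g with
    a100 := [], a46 := ψ.code } := ⟨_, rfl⟩
  obtain ⟨rs, bY, bc⟩ := hs0.spec g1 ψ K n (by simp [hg1, h9]) (by simp [hg1, h13])
    (by simp [hg1, h30]) (by simp [hg1]) (by simp [hg1, h11]) (by simp [hg1, h42])
    (by simp [hg1, h43]) (by simp [hg1, h41]) (by simp [hg1, h44]) hn hψK
    (by simp [hg1]; omega)
  have e46 : g1.a46 = ψ.code := by simp [hg1]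
  rw [e46] at rs bY bc
  unfold ref2
  rw [if_pos hχ, hn1, hD']
  simp only
  set r := srch χ 0 Cn ψ j n [] ψ.code with hr
  have hKK : K ≤ KK TE K := Nat.le_add_right _ _
  refine Run.ends (Run.congr (run_clear ?_) rfl (t' := { g with a100 := [] }.st) ?_) ?_
  · simp [h100]; omega
  · simp
  refine Run.ends (Run.congr (run_copy (by norm_num) (by norm_num) (by norm_num) ?_ ?_) rfl
    (t' := g1.st) ?_) ?_
  · simp [h30]
  · simp [h41]; omega
  · simp [hg1, h46, h41]
  refine Run.ends (rs.mono (by omega)) ?_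
  rcases hb : r.1
  · rw [if_neg (by simp)]
    refine ends_ite_false (t := []) (by simp) (ends_of_run (Run.nop _ _) ?_)
    simp
  · rw [if_pos rfl]
    refine ends_ite_true (t := []) (by simp) ?_
    have hc0 : r.2.2 = [] := by
      have key : ∀ (n : ℕ) (X par : List Bool), (srch χ 0 Cn ψ j n X par).1 = true →
          (srch χ 0 Cn ψ j n X par).2.2 = [] := by
        intro n
        induction n with
        | zero => intro X par h; simp [srch] at h
        | succ n ih =>
          intro X par h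
          simp only [srch] at h ⊢
          split_ifs at h ⊢
          · rfl
          · exact ih _ _ h
          · exact ih _ _ h
      exact key n [] ψ.code hb
    exact ends_ph2 hV hD hX hE hs (ψ := ψ) (X := r.2.1) (n := n) (N := N) (K := K)
      (K1 := KK TE K)
      (by simp [hg1, h0]) (by simp [hg1, h1]) (by simp [hg1, h2])
      (by simp [hg1, h9]) (by simp [hg1, h10]) (by simp [hg1, h13])
      (by simp [hg1, h30]) (by simp [hg1]) rfl rfl
      (by simp [hg1, h50]) (by simp [hg1, h52]) rfl (by simp [hg1, h12])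
      (by simp [hg1, h41]) rfl hc0 (by simp [hg1, h53]) (by simp [hg1, h51]) hN bY hn hψK
      rfl (by omega)

theorem ends_ph0 (hS : DecSpec (fun x : List Bool => x) χ decS TS)
    {V : List Bool → List Bool → Bool} {D : List Bool → Bool × List Bool}
    {Cn j : ℕ} {pv dp cX cE src0 src2 : Cmd} {TV TD TX TE Ts0 Ts : ℕ → ℕ}
    (hV : VerS V pv TV) (hD : DprS D dp TD) (hX : CandS (endO 2 Cn) cX TX)
    (hE : CandS (endO 0 Cn) cE TE) (hs0 : SrcS χ 0 Cn j src0 Ts0) (hs : SrcS χ 2 Cn j src2 Ts)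
    {g : Rg} {ψ : BForm} {B N K L : ℕ} (hg : g = { a9 := ψ.code, a10 := un B, a12 := un N })
    (hN : N ≤ K) (hB : B + 1 ≤ K) (hψK : ψ.code.length ≤ K)
    (hL : TS K + Ts0 K + Ts (KK TE K) + TX (KK TE K) + KK TE K + TV (KK TE K) + TD (KK TE K) + 1
      ≤ L) {D' : ℕ → List Bool → Bool × List Bool} (hD' : D' j = D) :
    Ends L (Cmd.ph0 decS (Cmd.ph1 src0 (Cmd.ph2 cE src2 (Cmd.ph3 cX pv dp)))) g.st
      (ref2 χ V D' Cn B ψ N j) := by
  have hKK : K ≤ KK TE K := Nat.le_add_right _ _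
  have hTS := hS.mono hψK
  obtain ⟨g1, hg1⟩ : ∃ g1 : Rg, g1 = { a41 := ψ.code, a12 := un N, a44 := un (B + 1),
                                       a51 := un (B + 1) } := ⟨_, rfl⟩
  refine Run.ends (Run.congr (run_mm (by norm_num) (by norm_num) (by norm_num) ?_ ?_) rfl
    (t' := ({ a41 := ψ.code, a10 := un B, a12 := un N } : Rg).st) ?_) ?_
  · simp [hg]
  · simp [hg]; omega
  · simp [hg]
  refine Run.ends (Run.congr (run_push L 10 true _) rfl
    (t' := ({ a41 := ψ.code, a10 := un (B + 1), a12 := un N } : Rg).st) ?_) ?_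
  · rw [Rg.upd10]; rfl
  refine Run.ends (Run.congr (run_copy (by norm_num) (by norm_num) (by norm_num) ?_ ?_) rfl
    (t' := ({ a41 := ψ.code, a10 := un (B + 1), a12 := un N, a44 := un (B + 1) } : Rg).st)
    ?_) ?_
  · simp
  · simp; omega
  · simp
  refine Run.ends (Run.congr (run_mm (by norm_num) (by norm_num) (by norm_num) ?_ ?_) rfl
    (t' := g1.st) ?_) ?_
  · simp
  · simp; omega
  · simp [hg1]
  refine Run.ends (Run.congr (run_copy (by norm_num) (by norm_num) (by norm_num) ?_ ?_) rfl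
    (t' := { g1 with a100 := ψ.code }.st) ?_) ?_
  · simp [hg1]
  · simp [hg1]; omega
  · simp [hg1]
  refine Run.ends (Run.mono (run_decS hS (g := { g1 with a100 := ψ.code })
    (m := ψ.code.length) le_rfl) (by omega)) ?_
  rcases hχ : χ ψ.code
  · refine ends_ite_nil (by simp [flag]) ?_
    have hd : ref2 χ V D' Cn B ψ N j = ψ.code := by
      unfold ref2
      rw [if_neg (by rw [hχ]; exact Bool.false_ne_true)]
    rw [hd]
    refine ends_of_run (run_copy (by norm_num) (by norm_num) (by norm_num) ?_ ?_) ?_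
    · simp [hg1]
    · simp [hg1]; omega
    · simp [hg1]
  · refine ends_ite_true (t := []) (by simp [flag]) ?_
    exact ends_ph1 hV hD hX hE hs0 hs (ψ := ψ) (n := B + 1) (N := N) (K := K)
      (by simp [hg1]) (by simp [hg1]) (by simp [hg1])
      (by simp [hg1]) (by simp [hg1]) (by simp [hg1])
      (by simp [hg1]) (by simp [flag]) (by simp [hg1]) (by simp [hg1])
      (by simp [hg1]) (by simp [hg1]) (by simp [hg1]) (by simp [hg1])
      (by simp [hg1]) (by simp [hg1]) (by simp [hg1]) (by simp [hg1]) (by simp [hg1])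
      hN hB hψK (by omega) hD' (by omega) hχ

end

end Pool.Agent.Helper72
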