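import Pool.Agent.Helper72.ProgE

/-!
Machines for the two-sided refuter, the verifier program and the decision program.
-/

namespace Pool.Agent.Helper72

open Function Turing Computability Filter Pool.Agent.Helper73.GenProg

theorem initSt_eq (y : List Bool) : initSt 0 y = ({ a0 := y } : Rg).st := by
  funext x
  by_cases h : x = 0
  · subst h; rfl
  · simp only [initSt, h, if_false, Rg.st, ite_self]

theorem init2_eq (z w : List Bool) : init2 z w = ({ a0 := z, a1 := w } : Rg).st := by
  funext x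
  by_cases h : x = 0
  · subst h; rfl
  · by_cases h1 : x = 1
    · subst h1; rfl
    · simp only [init2, h, h1, if_false, Rg.st, ite_self]

namespace Cmd

/-- the verifier program for certificates of search failures -/
def W2 (pv dp : Cmd) : Cmd :=
  seq pv (seq (mm 2 52) (seq (copy 0 11 30) (seq (clear 0) (seq (clear 1)
    (seq dp (ite 42 nop (mm 52 2) nop))))))

/-- the decision program -/
def Dc2 (dp : Cmd) : Cmd := seq (mm 0 11) (seq dp (ite 42 nop nop (push 1 true)))

/-- the refuter program -/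
def refC (cB gT gN ph : Cmd) : Cmd := seq expand (seq cB (seq gT (seq gN ph)))

end Cmd

section

variable {χ : List Bool → Bool} {decS : Cmd} {TS : ℕ → ℕ}

theorem run_W2 {V : List Bool → List Bool → Bool} {D : List Bool → Bool × List Bool}
    {pv dp : Cmd} {TV TD : ℕ → ℕ} (hV : VerS V pv TV) (hD : DprS D dp TD)
    {z w : List Bool} {m : ℕ} (hz : z.length ≤ m) (hw : w.length ≤ m) :
    ∃ s', Run (TV m + TD m + m + 1) (Cmd.W2 pv dp) (init2 z w) s' ∧
      s' 2 = flag (V z w && !(D z).1) := by
  set L := TV m + TD m + m + 1 with hL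
  have rV := hV.spec { a0 := z, a1 := w } m rfl rfl rfl rfl hz hw
  obtain ⟨rD, bD⟩ := hD.spec { a11 := z, a52 := flag (V z w) } m rfl rfl rfl rfl rfl rfl rfl
    rfl rfl rfl rfl rfl rfl rfl hz
  have hfl : (flag (V z w)).length ≤ 1 := by cases V z w <;> simp [flag]
  have pre : ∀ {c : Cmd} {s' : St}, Run L c
      ({ a52 := flag (V z w), a42 := [(D z).1], a43 := (D z).2 } : Rg).st s' →
      Run L (.seq pv (.seq (.mm 2 52) (.seq (.copy 0 11 30) (.seq (.clear 0) (.seq (.clear 1)
        (.seq dp c)))))) (init2 z w) s' := by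
    intro c s' hc
    rw [init2_eq]
    refine Run.seq (rV.mono (by omega)) (Run.seq (Run.congr (run_mm (by norm_num)
      (by norm_num) (by norm_num) ?_ ?_) rfl
      (t' := ({ a0 := z, a1 := w, a52 := flag (V z w) } : Rg).st) ?_)
      (Run.seq (Run.congr (run_copy (by norm_num) (by norm_num) (by norm_num) ?_ ?_) rfl
      (t' := ({ a0 := z, a1 := w, a11 := z, a52 := flag (V z w) } : Rg).st) ?_) (Run.seq
      (Run.congr (run_clear ?_) rfl (Rg.upd0 _ _)) (Run.seq
      (Run.congr (run_clear ?_) rfl (Rg.upd1 _ _)) (Run.seq (rD.mono (by omega)) hc)))))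
    · simp
    · simp; omega
    · simp
    · simp
    · simp; omega
    · simp
    · simp; omega
    · simp; omega
  rcases hd : (D z).1
  · rw [hd] at pre
    refine ⟨_, pre (run_ite_false (t := []) (by simp) (run_mm (by norm_num) (by norm_num)
      (by norm_num) (by simp) (by simp; omega))), ?_⟩
    simp
  · rw [hd] at pre
    refine ⟨_, pre (run_ite_true (t := []) (by simp) (Run.nop _ _)), ?_⟩
    simp [flag]

theorem run_Dc2 {D : List Bool → Bool × List Bool} {dp : Cmd} {TD : ℕ → ℕ}
    (hD : DprS D dp TD) (z : List Bool) :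
    ∃ s', Run (TD z.length + z.length) (Cmd.Dc2 dp) (initSt 0 z) s' ∧
      s' 1 = flag (D z).1 := by
  set L := TD z.length + z.length with hL
  obtain ⟨rD, bD⟩ := hD.spec { a11 := z } z.length rfl rfl rfl rfl rfl rfl rfl
    rfl rfl rfl rfl rfl rfl rfl le_rfl
  have pre : ∀ {c : Cmd} {s' : St}, Run L c
      ({ a42 := [(D z).1], a43 := (D z).2 } : Rg).st s' →
      Run L (.seq (.mm 0 11) (.seq dp c)) (initSt 0 z) s' := by
    intro c s' hc
    rw [initSt_eq]
    refine Run.seq (Run.congr (run_mm (by norm_num) (by norm_num) (by norm_num) ?_ ?_) rfl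
      (t' := ({ a11 := z } : Rg).st) ?_) (Run.seq (rD.mono (by omega)) hc)
    · simp
    · simp; omega
    · simp
  rcases hd : (D z).1
  · rw [hd] at pre
    refine ⟨_, pre (run_ite_false (t := []) (by simp) (Run.nop _ _)), ?_⟩
    simp [flag]
  · rw [hd] at pre
    refine ⟨_, pre (run_ite_true (t := []) (by simp) (run_push _ _ _ _)), ?_⟩
    simp [flag]

/-- the two-sided refuters are computed by machines on short descriptions -/
theorem exists_machine2 {P : List Instr} {k acc j : ℕ} {BW : ℕ → ℕ} {χ : List Bool → Bool}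
    {cB gT gN decS pv dp : Cmd} {TB TG TN TS TV TD : ℕ → ℕ} 
    {V : List Bool → List Bool → Bool} {D : ℕ → List Bool → Bool × List Bool}
    (hBW : PB BW) 
    (hB : PolySpec BW 12 10 cB TB) (hG : GenSpec P k acc gT TG)
    (hN : NonEmptySpec (nCh P k) gN TN)
    (hS : DecSpec (fun x : List Bool => x) χ decS TS)
    (hV : VerS V pv TV) (hD : DprS (D j) dp TD)
    {ψ : ℕ → BForm} (hψ : ∀ N, ψ N = addF (nonEmptyC (nCh P k) N) (tabF P k acc (BW N))) :
    ∃ (M : TM2ComputableAux Bool Bool) (h : ℕ → ℕ), PB h ∧ Monotone h ∧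
      ∀ i > 0, ∀ y : List Bool, bval y = i → y.length = Nat.log 2 i →
        Outputs M y (ref2 χ V D (nCh P k) (BW (2 ^ 2 ^ i)) (ψ (2 ^ 2 ^ i)) (2 ^ 2 ^ i) j)
          (h (2 ^ 2 ^ i)) := by
  set Cn := nCh P k with hCn
  obtain ⟨cX, TX, hX⟩ := exists_endS 2 Cn
  obtain ⟨cE, TE, hE⟩ := exists_endS 0 Cn
  obtain ⟨src0, Ts0, hs0⟩ := exists_srcS hS 0 Cn j
  obtain ⟨src2, Ts, hs⟩ := exists_srcS hS 2 Cn j
  set ph := Cmd.ph0 decS (Cmd.ph1 src0 (Cmd.ph2 cE src2 (Cmd.ph3 cX pv dp))) with hph
  have okm : (Cmd.refC cB gT gN ph).ok = true := by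
    simp [Cmd.refC, hph, Cmd.ph0, Cmd.ph1, Cmd.ph2, Cmd.ph3, Cmd.okP, Cmd.ok, Cmd.ok_expand,
      Cmd.ok_copy, ok_mm, hB.ok, hG.ok, hN.ok, hS.ok, hs0.ok, hE.ok, hs.ok, hX.ok, hV.ok, hD.ok,
      Cmd.wr]
  obtain ⟨M, f0, hf0, hf0m, hM⟩ := Pool.Agent.Helper4.Glue.outputs_of_cmd _ okm 43
  set K : ℕ → ℕ := fun N => N + (BW N + 1) + Cmd.Lpsi BW TG Cn N with hK
  have hKpb : PB K := (PB.id.add (hBW.add (PB.const 1))).add (PB_Lpsi hBW hG.pb Cn)
  have hKK : PB fun N => KK TE (K N) := hKpb.add (hE.pb.comp hKpb)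
  obtain ⟨T, hTm, hT'⟩ := (show PB fun N => N + TB N + TG (BW N) + TN N + TS (K N) +
      Ts0 (K N) + Ts (KK TE (K N)) + TX (KK TE (K N)) + KK TE (K N) + TV (KK TE (K N)) +
      TD (KK TE (K N)) + 1 from
      ((((((((((((PB.id.add hB.pb).add (hG.pb.comp hBW)).add hN.pb).add (hS.pb.comp hKpb)).add
        (hs0.pb.comp hKpb)).add (hs.pb.comp hKK)).add (hX.pb.comp hKK)).add hKK).add
        (hV.pb.comp hKK)).add (hD.pb.comp hKK)).add (PB.const 1)))).exists_poly
  refine ⟨M, fun n => f0 (n + T.eval n), hf0.comp (PB.id.add (PB.poly T)), ?_, ?_⟩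
  · intro a b hab
    exact hf0m (Nat.add_le_add hab (hTm hab))
  · intro i hi y hy hlen
    set N := 2 ^ 2 ^ i with hNdef
    have hN0 : 0 < N := by positivity
    set L := T.eval N with hL
    have hLge := hT' N
    rw [← hL] at hLge
    have hψN := hψ N
    have hends : Ends L (Cmd.refC cB gT gN ph) (initSt 0 y)
        (ref2 χ V D Cn (BW N) (ψ N) N j) := by
      -- expand
      obtain ⟨e1, l1⟩ := Cmd.expand_spec (s := initSt 0 y) (by simp [initSt])
        (by simp [initSt]) (by simp [initSt]) (by simp [initSt]) (by simp [initSt])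
      have hi0 : initSt 0 y 0 = y := by simp [initSt]
      rw [hi0, hy, ← hNdef] at e1 l1
      refine Run.ends (s' := ({ a12 := un N } : Rg).st) ⟨?_, l1.mono (by omega)⟩ ?_
      · rw [e1, initSt_eq]; simp
      obtain ⟨e2, l2⟩ := hB.spec ({ a12 := un N } : Rg).st rfl rfl rfl
      refine Run.ends (s' := ({ a12 := un N, a10 := un (BW N) } : Rg).st)
        ⟨?_, l2.mono ?_⟩ ?_
      · rw [e2]; simp
      · simp only [Rg.get12, un_length]; omega
      have hempty : ∀ (g : Rg), g.a13 = [] → ∀ r, 13 ≤ r → r < 30 → g.st r = [] := by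
        intro g h13 r h1 h2
        by_cases q : r = 13
        · subst q; exact h13
        · apply Rg.other
          simp only [List.mem_cons, List.not_mem_nil, or_false, not_or]
          omega
      obtain ⟨e3, l3⟩ := hG.spec (BW N) ({ a12 := un N, a10 := un (BW N) } : Rg).st rfl rfl
        (hempty _ rfl)
      refine Run.ends (s' := ({ a12 := un N, a10 := un (BW N),
                                a9 := (tabF P k acc (BW N)).code } : Rg).st)
        ⟨?_, l3.mono (by omega)⟩ ?_
      · rw [e3]; simp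
      obtain ⟨e4, l4⟩ := hN.spec N ({ a12 := un N, a10 := un (BW N),
                                      a9 := (tabF P k acc (BW N)).code } : Rg).st rfl
        (hempty _ rfl)
      have hcode : addCode (nonEmptyC Cn N) (tabF P k acc (BW N)).code = (ψ N).code := by
        rw [addCode_code, hψN]
      have hlen : (ψ N).code.length ≤ Cmd.Lpsi BW TG Cn N := by
        rw [← hcode]
        have h2 := length_nonEmpty Cn N (tabF P k acc (BW N)).code
        have h3 := hG.len (BW N)
        simp only [Cmd.Lpsi]; omega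
      refine Run.ends (s' := ({ a12 := un N, a10 := un (BW N), a9 := (ψ N).code } : Rg).st)
        ⟨?_, l4.mono (by omega)⟩ ?_
      · rw [e4]; simp [hcode]
      exact ends_ph0 hS hV hD hX hE hs0 hs (ψ := ψ N) (B := BW N) (N := N) (K := K N) rfl
        (by simp only [hK]; omega) (by simp only [hK]; omega) (by simp only [hK]; omega)
        (by omega) rfl
    rw [← hends.1]
    refine (hM y _ hends.2).mono (hf0m ?_)
    have hl : y.length ≤ N := by
      rw [hlen]
      have h3 : Nat.log 2 i ≤ i := Nat.log_le_self _ _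
      have h4 := le_two_two i
      omega
    exact Nat.add_le_add hl le_rfl

end

end Pool.Agent.Helper72
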