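import Pool.Agent.Helper72.Inst

/-!
The complete refuter program.
-/

namespace Pool.Agent.Helper72

open Function

namespace Cmd

def testPhi (decS : Cmd) : Cmd :=
  seq (copy 41 100 30) (seq decS (ite 100 (seq (copy 41 43 30) (push 42 true)) nop (clear 100)))

def mainC (cB gT gN decS step : Cmd) : Cmd :=
  seq expand (seq cB (seq gT (seq gN (seq (mv 9 30) (seq (mv 30 41) (seq (copy 10 44 30)
    (seq (push 44 true) (seq (clear 10) (seq (testPhi decS) (loop 44 step step))))))))))

theorem Tstep_mono {TP TE TT TF TJ TS Lf : ℕ → ℕ} (h1 : Monotone TP) (h2 : Monotone TE)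
    (h3 : Monotone TT) (h4 : Monotone TF) (h5 : Monotone TJ) (h6 : Monotone TS)
    (h7 : Monotone Lf) (Cn : ℕ) {l l' n n' : ℕ} (hl : l ≤ l') (hn : n ≤ n') :
    Tstep TP TE TT TF TJ TS Lf Cn l n ≤ Tstep TP TE TT TF TJ TS Lf Cn l' n' := by
  have e1 : n * Cn ≤ n' * Cn := Nat.mul_le_mul_right _ hn
  have e2 : LC Cn l n ≤ LC Cn l' n' := by
    simp only [LC]
    have : n * (24 + 3 * (n * Cn + 1)) ≤ n' * (24 + 3 * (n' * Cn + 1)) :=
      Nat.mul_le_mul hn (by omega)
    omega
  have := h1 hn; have := h2 e1; have := h3 e1; have := h4 e1; have := h5 e1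
  have := h6 e2; have := h7 hn
  simp only [Tstep]
  omega

/-- length bound for the base formula -/
def Lpsi (BW TG : ℕ → ℕ) (Cn N : ℕ) : ℕ := TG (BW N) + N * (15 + 2 * (9 + 3 * (N * Cn + 1)))

/-- loop bound for the refuter program in terms of the scale `N` -/
def TR (BW TB TG TN TP TE TT TF TJ TS Lf : ℕ → ℕ) (Cn N : ℕ) : ℕ :=
  N + BW N + TB N + TG (BW N) + TN N + Lpsi BW TG Cn N + TS (Lpsi BW TG Cn N) +
    Tstep TP TE TT TF TJ TS Lf Cn (Lpsi BW TG Cn N) (BW N + 1) + 1

theorem main_spec {P : List Instr} {k acc j : ℕ} {BW : ℕ → ℕ}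
    {cB gT gN gP gE gTt gF gJ decS fv : Cmd} {TB TG TN TP TE TT TF TJ TS : ℕ → ℕ}
    {χ : List Bool → Bool} {f : List Bool → List Bool} {Lf : ℕ → ℕ} {clJ : ℕ → List ACls}
    (hB : PolySpec BW 12 10 cB TB) (hG : GenSpec P k acc gT TG)
    (hN : NonEmptySpec (nCh P k) gN TN)
    (hP : PrefSpec (nCh P k) gP TP) (hE : AddSpec endC gE TE) (hT : AddSpec (bitC true) gTt TT)
    (hF : AddSpec (bitC false) gF TF) (hJ : AddSpec clJ gJ TJ)
    (hclJ : (j = 0 ∧ clJ = endC) ∨ (j = 1 ∧ clJ = bitC true) ∨ (j = 2 ∧ clJ = bitC false))
    (hS : DecSpec (fun x : List Bool => x) χ decS TS)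
    (hfv : ∀ s : St, Scr s → s 9 = [] → s 10 = [] → fv.eval s = update s 9 (f (s 11)) ∧
      fv.LB (Lf (s 11).length) s ∧ (f (s 11)).length ≤ Lf (s 11).length) (hLf : Monotone Lf)
    (y : List Bool) {N : ℕ} (hNy : N = 2 ^ 2 ^ bval y) {ψ : BForm}
    (hψ : ψ = addF (nonEmptyC (nCh P k) N) (tabF P k acc (BW N))) :
    (mainC cB gT gN decS (stepC gP gE gTt gF decS fv gJ)).eval (initSt 0 y) 43 =
      refuter χ f (nCh P k) ψ j (BW N) ∧
    (mainC cB gT gN decS (stepC gP gE gTt gF decS fv gJ)).LB
      (TR BW TB TG TN TP TE TT TF TJ TS Lf (nCh P k) N) (initSt 0 y) ∧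
    (N ≤ ψ.code.length) := by
  set Cn := nCh P k with hCn
  set B := BW N with hBdef
  set L := TR BW TB TG TN TP TE TT TF TJ TS Lf Cn N with hL
  set step := stepC gP gE gTt gF decS fv gJ with hstep
  have hini : ∀ r, r ≠ 0 → initSt 0 y r = [] := by
    intro r hr; simp [initSt, hr]
  have hi0 : initSt 0 y 0 = y := by simp [initSt]
  -- expand
  obtain ⟨e1, l1⟩ := expand_spec (s := initSt 0 y) (hini _ (by norm_num))
    (hini _ (by norm_num)) (hini _ (by norm_num)) (hini _ (by norm_num)) (hini _ (by norm_num))
  rw [hi0, ← hNy] at e1 l1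
  have e1' : update (update (initSt 0 y) 0 []) 12 (un N) =
      update (fun _ => []) 12 (un N) := by
    funext x
    by_cases q1 : x = 12
    · subst q1; simp
    · by_cases q2 : x = 0
      · subst q2; simp
      · simp [q1, q2, hini x q2]
  rw [e1'] at e1
  set s1 : St := update (fun _ => []) 12 (un N) with hs1
  have s1e : ∀ r, r ≠ 12 → s1 r = [] := fun r hr => by rw [hs1, update_of_ne hr]
  have s112 : s1 12 = un N := by simp [hs1]
  -- polynomial
  obtain ⟨e2, l2⟩ := hB.spec s1 (s1e _ (by norm_num)) (s1e _ (by norm_num))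
    (s1e _ (by norm_num))
  rw [s112, s1e 10 (by norm_num), List.append_nil, un_length] at e2
  rw [s112, un_length] at l2
  -- tableau
  obtain ⟨e3, l3⟩ := hG.spec B (update s1 10 (un B)) (by simp [s1e]) (by simp)
    (fun r h1 h2 => by rw [update_of_ne (by omega)]; exact s1e r (by omega))
  set s3 : St := update (update s1 10 (un B)) 9 (tabF P k acc B).code with hs3
  -- non-emptiness clauses
  obtain ⟨e4, l4⟩ := hN.spec N s3 (by simp [hs3, s112])
    (fun r h1 h2 => by
      rw [hs3, update_of_ne (by omega), update_of_ne (by omega)]; exact s1e r (by omega))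
  have hcode : addCode (nonEmptyC Cn N) (s3 9) = ψ.code := by
    have : s3 9 = (tabF P k acc B).code := by simp [hs3]
    rw [this, addCode_code, hψ]
  rw [hcode] at e4
  have e4' : update s3 9 ψ.code = update (update s1 10 (un B)) 9 ψ.code := by
    rw [hs3, update_idem]
  rw [e4'] at e4
  have hlen : ψ.code.length ≤ Lpsi BW TG Cn N := by
    rw [← hcode]
    have h1 : s3 9 = (tabF P k acc B).code := by simp [hs3]
    rw [h1]
    have h2 := length_nonEmpty Cn N (tabF P k acc B).code
    have h3 := hG.len B
    simp only [Lpsi, ← hBdef]; omega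
  have hge : N ≤ ψ.code.length := by
    rw [← hcode]
    have := length_addCode_ge (nonEmptyC Cn N) (s3 9)
    rw [nonEmptyC_length] at this
    omega
  -- moves
  have e5 : (mv 9 30).eval (update (update s1 10 (un B)) 9 ψ.code) =
      update (update s1 10 (un B)) 30 ψ.code.reverse := by
    rw [eval_mv (by norm_num)]
    funext x
    by_cases q1 : x = 30
    · subst q1; simp [s1e]
    · by_cases q2 : x = 9
      · subst q2; simp [s1e]
      · simp [q1, q2]
  have e6 : (mv 30 41).eval (update (update s1 10 (un B)) 30 ψ.code.reverse) =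
      update (update s1 10 (un B)) 41 ψ.code := by
    rw [eval_mv (by norm_num)]
    funext x
    by_cases q1 : x = 41
    · subst q1; simp [s1e]
    · by_cases q2 : x = 30
      · subst q2; simp [s1e]
      · simp [q1, q2]
  have e7 : (copy 10 44 30).eval (update (update s1 10 (un B)) 41 ψ.code) =
      update (update (update s1 10 (un B)) 41 ψ.code) 44 (un B) := by
    rw [eval_copy (by norm_num) (by norm_num) (by norm_num) (by simp [s1e])]
    simp [s1e]
  have e8 : (push 44 true).eval (update (update (update s1 10 (un B)) 41 ψ.code) 44 (un B)) =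
      update (update (update s1 10 (un B)) 41 ψ.code) 44 (un (B + 1)) := by
    rw [eval_push]
    simp [un_succ]
  set t0 : St := update (update s1 41 ψ.code) 44 (un (B + 1)) with ht0
  have e9 : (clear 10).eval (update (update (update s1 10 (un B)) 41 ψ.code) 44 (un (B + 1))) =
      t0 := by
    rw [eval_clear]
    funext x
    by_cases q1 : x = 10
    · subst q1; simp [ht0, s1e]
    · by_cases q2 : x = 44
      · subst q2; simp [ht0]
      · by_cases q3 : x = 41
        · subst q3; simp [ht0]
        · simp [ht0, q1, q2, q3]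
  have t0e : ∀ r, r ≠ 12 → r ≠ 41 → r ≠ 44 → t0 r = [] := by
    intro r h1 h2 h3
    rw [ht0, update_of_ne h3, update_of_ne h2, s1e r h1]
  have t041 : t0 41 = ψ.code := by simp [ht0]
  have t044 : t0 44 = un (B + 1) := by simp [ht0]
  -- the test of the base formula
  have e10 : (copy 41 100 30).eval t0 = update t0 100 ψ.code := by
    rw [eval_copy (by norm_num) (by norm_num) (by norm_num)
      (t0e _ (by norm_num) (by norm_num) (by norm_num)), t041,
      t0e 100 (by norm_num) (by norm_num) (by norm_num), List.append_nil]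
  obtain ⟨l11, e11⟩ := hS.spec ψ.code (update t0 100 ψ.code) (by
      intro r hr
      rw [update_of_ne (by omega)]
      exact t0e r (by omega) (by omega) (by omega)) (by simp)
  rw [update_idem] at e11
  set r0 : Option (List Bool) := if χ ψ.code then none else some ψ.code with hr0
  have key12 : (ite 100 (seq (copy 41 43 30) (push 42 true)) nop (clear 100)).eval
      (update t0 100 (flag (χ ψ.code))) = enc t0 ([], r0) ∧
      (ite 100 (seq (copy 41 43 30) (push 42 true)) nop (clear 100)).LB L
      (update t0 100 (flag (χ ψ.code))) := by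
    cases hc : χ ψ.code
    · have x100 : (update t0 100 (flag false)) 100 = [] := by simp
      have e12 : (copy 41 43 30).eval (update t0 100 (flag false)) =
          update (update t0 100 (flag false)) 43 ψ.code := by
        rw [eval_copy (by norm_num) (by norm_num) (by norm_num)
          (by simp [t0e])]
        simp [t041, t0e]
      constructor
      · simp only [eval, x100, e12]
        rw [hr0, hc]
        funext x
        by_cases q1 : x = 43
        · subst q1; simp [enc]
        · by_cases q2 : x = 42
          · subst q2; simp [enc, t0e]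
          · by_cases q3 : x = 100
            · subst q3; simp [enc, t0e]
            · by_cases q4 : x = 11
              · subst q4; simp [enc, t0e]
              · simp [enc, q1, q2, q3, q4]
      · simp only [LB, x100]
        refine ⟨?_, trivial⟩
        apply LB_copy (by norm_num) (by norm_num) (by norm_num) (by simp [t0e])
        simp only [ne_eq, show (41 : ℕ) ≠ 100 by norm_num, not_false_eq_true, update_of_ne,
          t041]
        simp only [hL, TR, ← hBdef]; omega
    · have x100 : (update t0 100 (flag true)) 100 = [true] := by simp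
      constructor
      · simp only [eval, x100]
        rw [eval_clear, hr0, hc]
        funext x
        by_cases q1 : x = 43
        · subst q1; simp [enc, t0e]
        · by_cases q2 : x = 42
          · subst q2; simp [enc, t0e]
          · by_cases q3 : x = 100
            · subst q3; simp [enc, t0e]
            · by_cases q4 : x = 11
              · subst q4; simp [enc, t0e]
              · simp [enc, q1, q2, q3, q4]
      · simp only [LB, x100]
        apply LB_clear
        rw [x100]
        simp only [List.length_singleton, hL, TR]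
        omega
  -- the loop
  have hscr : Scr t0 := by
    intro r hr
    exact t0e r (by omega) (by omega) (by omega)
  have key13 := stepLoop_spec (L := L) (s := t0) hP hE hT hF hJ hclJ hS hfv (ψ := ψ) hscr
    (t0e _ (by norm_num) (by norm_num) (by norm_num))
    (t0e _ (by norm_num) (by norm_num) (by norm_num)) t041 r0
    (by rw [t044, un_length]; simp only [hL, TR, ← hBdef]; omega)
    (by
      intro n hn
      rw [t044, un_length] at hn
      have := Tstep_mono hP.mono hE.mono hT.mono hF.mono hJ.mono hS.mono hLf Cn hlen hn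
      simp only [hL, TR, ← hBdef]
      omega)
  rw [t044, un_length] at key13
  have hTS : TS ψ.code.length ≤ TS (Lpsi BW TG Cn N) := hS.mono hlen
  have hfinal : update (enc t0 ((sstep χ f Cn ψ j)^[B + 1] ([], r0))) 44 [] 43 =
      refuter χ f Cn ψ j B := by
    have h1 : update (enc t0 ((sstep χ f Cn ψ j)^[B + 1] ([], r0))) 44 [] 43 =
        ((sstep χ f Cn ψ j)^[B + 1] ([], r0)).2.getD [] := by simp [enc]
    rw [h1, refuter]
    cases hc : χ ψ.code
    · rw [hr0, hc]
      simp only [Bool.false_eq_true, if_false]
      rw [sstep_some_iter]; rfl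
    · rw [hr0, hc]
      simp only [if_true]
      rw [search_eq]
  refine ⟨?_, ?_, hge⟩
  · rw [mainC, eval_seq, eval_seq, eval_seq, eval_seq, eval_seq, eval_seq, eval_seq, eval_seq,
      eval_seq, eval_seq, testPhi, eval_seq, eval_seq, e1, e2, e3, e4, e5, e6, e7, e8, e9, e10,
      e11, key12.1, key13.1, hfinal]
  · rw [mainC, LB_seq, LB_seq, LB_seq, LB_seq, LB_seq, LB_seq, LB_seq, LB_seq,
      LB_seq, LB_seq, testPhi, LB_seq, LB_seq, eval_seq, eval_seq, e1, e2, e3, e4, e5, e6, e7,
      e8, e9, e10, e11, key12.1]
    refine ⟨l1.mono ?_, l2.mono ?_, l3.mono ?_, l4.mono ?_, LB_mv (by norm_num) ?_,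
      LB_mv (by norm_num) ?_, LB_copy (by norm_num) (by norm_num) (by norm_num) (by simp [s1e])
      ?_, trivial, LB_clear ?_, ⟨?_, l11.mono ?_, key12.2⟩, key13.2⟩
    · simp only [hL, TR, ← hBdef]; omega
    · simp only [hL, TR, ← hBdef]; omega
    · simp only [hL, TR, ← hBdef]; omega
    · simp only [hL, TR, ← hBdef]; omega
    · rw [update_self]; simp only [hL, TR, ← hBdef]; omega
    · rw [update_self, List.length_reverse]; simp only [hL, TR, ← hBdef]; omega
    · rw [update_of_ne (by norm_num), update_self, un_length]; simp only [hL, TR, ← hBdef]; omega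
    · rw [update_of_ne (by norm_num), update_of_ne (by norm_num), update_self, un_length]
      simp only [hL, TR, ← hBdef]; omega
    · apply LB_copy (by norm_num) (by norm_num) (by norm_num)
        (t0e _ (by norm_num) (by norm_num) (by norm_num))
      rw [t041]; simp only [hL, TR, ← hBdef]; omega
    · simp only [hL, TR, ← hBdef]; omega

end Cmd

end Pool.Agent.Helper72
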