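import Pool.Agent.Helper72.ProgW

/-!
The refuter program.
-/

namespace Pool.Agent.Helper72

open Function

/-! ### the search as an iteration -/

section

variable (χ : List Bool → Bool) (fV : List Bool → List Bool) (Cn : ℕ) (ψ : BForm) (j : ℕ)

/-- one step of the search -/
def sstep : List Bool × Option (List Bool) → List Bool × Option (List Bool)
  | (X, some r) => (X, some r)
  | (X, none) =>
    if χ (endF Cn ψ X).code then (X, some (fV X))
    else if χ (bitF Cn ψ X true).code then (X ++ [true], none)
    else if χ (bitF Cn ψ X false).code then (X ++ [false], none)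
    else (X, some (cand Cn ψ j X))

theorem sstep_some_iter (X r : List Bool) (n : ℕ) :
    (sstep χ fV Cn ψ j)^[n] (X, some r) = (X, some r) := by
  induction n with
  | zero => rfl
  | succ n ih => rw [iterate_succ_apply', ih]; rfl

theorem search_eq (n : ℕ) (X : List Bool) :
    search χ fV Cn ψ j n X = ((sstep χ fV Cn ψ j)^[n] (X, none)).2.getD [] := by
  induction n generalizing X with
  | zero => rfl
  | succ n ih =>
    rw [iterate_succ_apply]
    by_cases h0 : χ (endF Cn ψ X).code = true
    · simp only [search, sstep, h0, if_true]
      rw [sstep_some_iter]; rfl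
    by_cases h1 : χ (bitF Cn ψ X true).code = true
    · simp only [search, sstep, h0, h1, if_true, Bool.false_eq_true, if_false]
      exact ih _
    by_cases h2 : χ (bitF Cn ψ X false).code = true
    · simp only [search, sstep, h0, h1, h2, if_true, Bool.false_eq_true, if_false]
      exact ih _
    simp only [search, sstep, h0, h1, h2, Bool.false_eq_true, if_false]
    rw [sstep_some_iter]; rfl

theorem sstep_length (p : List Bool × Option (List Bool)) :
    (sstep χ fV Cn ψ j p).1.length ≤ p.1.length + 1 := by
  obtain ⟨X, r⟩ := p
  rcases r with _ | r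
  · simp only [sstep]
    split_ifs <;> simp
  · simp [sstep]

theorem sstep_iter_length (n : ℕ) (p : List Bool × Option (List Bool)) :
    ((sstep χ fV Cn ψ j)^[n] p).1.length ≤ p.1.length + n := by
  induction n with
  | zero => simp
  | succ n ih =>
    rw [iterate_succ_apply']
    have := sstep_length χ fV Cn ψ j ((sstep χ fV Cn ψ j)^[n] p)
    omega

end

/-- value of a word read in binary after a leading one -/
def bval (l : List Bool) : ℕ := l.foldl (fun u b => 2 * u + b.toNat) 1

theorem bval_append (l : List Bool) (b : Bool) : bval (l ++ [b]) = 2 * bval l + b.toNat := by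
  simp [bval]

theorem bval_ge (l : List Bool) : l.length + 1 ≤ bval l := by
  induction l using List.reverseRecOn with
  | nil => simp [bval]
  | append_singleton l b ih => rw [bval_append]; simp; omega

namespace Cmd

/-- multiply the unary register `d` by a constant -/
def mulC (c d t : ℕ) : Cmd := seq (loop d (pushL t (un c)) (pushL t (un c))) (mv t d)

theorem mulC_spec {c d t L m : ℕ} (hdt : d ≠ t) {s : St} (ht : s t = []) (hd : s d = un m)
    (hm : m ≤ L) (hL : m * c ≤ L) :
    (mulC c d t).eval s = update s d (un (m * c)) ∧ (mulC c d t).LB L s := by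
  have key := loop_rule (L := L) (r := d) (c0 := pushL t (un c)) (c1 := pushL t (un c)) (s := s)
    (fun j => update (update s d ((s d).drop j)) t (un (j * c)))
    (by
      funext x
      by_cases q1 : x = t
      · subst q1; simp [ht]
      · by_cases q2 : x = d
        · subst q2; simp [hdt]
        · simp [q1])
    (by
      intro j b _
      have hl : (if b = true then pushL t (un c) else pushL t (un c)) = pushL t (un c) := by
        cases b <;> rfl
      rw [hl, eval_pushL]
      refine ⟨?_, LB_pushL _ _ _ _⟩
      funext x
      by_cases q1 : x = t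
      · subst q1
        simp [hdt.symm]
        ring
      · by_cases q2 : x = d
        · subst q2; simp [hdt]
        · simp [q1, q2]) (by rw [hd]; simpa using hm)
  obtain ⟨k1, k2⟩ := key
  rw [hd] at k1
  rw [mulC, eval_seq, k1, eval_mv hdt.symm]
  refine ⟨?_, k2, ?_⟩
  · funext x
    by_cases q1 : x = d
    · subst q1; simp [hdt]
    · by_cases q2 : x = t
      · subst q2; simp [q1, ht]
      · simp [q1, q2]
  · rw [k1]
    apply LB_mv hdt.symm
    simpa using hL

/-- square the unary register 12 -/
def sq12 : Cmd := seq (copy 12 46 47) (seq (mulLen 46 12 47 48) (clear 46))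

theorem sq12_spec {L m : ℕ} {s : St} (h46 : s 46 = []) (h47 : s 47 = []) (h48 : s 48 = [])
    (h12 : s 12 = un m) (hL : m * m ≤ L) :
    sq12.eval s = update s 12 (un (m * m)) ∧ sq12.LB L s := by
  have hm : m ≤ L := (Nat.le_mul_self m).trans hL
  have e1 : (copy 12 46 47).eval s = update s 46 (un m) := by
    rw [eval_copy (by norm_num) (by norm_num) (by norm_num) h47, h46, h12, List.append_nil]
  obtain ⟨e2, l2⟩ := mulLen_spec (n := 46) (d := 12) (t1 := 47) (t2 := 48) (L := L) (m := m)
    (by norm_num) (by norm_num) (by norm_num) (by norm_num) (by norm_num) (by norm_num)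
    (s := update s 46 (un m)) (by simp [h47]) (by simp [h48]) (by simp [h12])
    (by simpa using hm) hm (by simpa using hL)
  have e3 : (clear 46).eval (update (update s 46 (un m)) 12 (un (m * m))) =
      update s 12 (un (m * m)) := by
    rw [eval_clear]
    funext x
    by_cases q1 : x = 46
    · subst q1; simp [h46]
    · by_cases q2 : x = 12
      · subst q2; simp
      · simp [q1, q2]
  have x46 : (update s 46 (un m) 46).length = m := by simp
  rw [x46] at e2
  constructor
  · rw [sq12, eval_seq, eval_seq, e1, e2, e3]
  · rw [sq12, LB_seq, LB_seq, e1, e2]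
    refine ⟨LB_copy (by norm_num) (by norm_num) (by norm_num) h47 (by simpa [h12] using hm),
      l2, LB_clear ?_⟩
    simpa using hm

theorem ok_sq12 : sq12.ok = true := by rfl

/-- compute `un (2 ^ 2 ^ bval y)` in register 12 from `y` in register 0 -/
def expand : Cmd :=
  seq (push 45 true) (seq (loop 0 (mulC 2 45 46) (seq (mulC 2 45 46) (push 45 true)))
    (seq (pushL 12 [true, true]) (loop 45 sq12 sq12)))

theorem expand_spec {s : St} (h45 : s 45 = []) (h46 : s 46 = []) (h47 : s 47 = [])
    (h48 : s 48 = []) (h12 : s 12 = []) :
    expand.eval s = update (update s 0 []) 12 (un (2 ^ 2 ^ bval (s 0))) ∧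
      expand.LB (2 ^ 2 ^ bval (s 0)) s := by
  set i := bval (s 0) with hi
  have hpos : ∀ m, m + 1 ≤ 2 ^ 2 ^ m := fun m =>
    (Nat.succ_le_of_lt (Nat.lt_pow_self (by norm_num))).trans
      (Nat.lt_pow_self (by norm_num)).le
  have hL1 : (s 0).length ≤ 2 ^ 2 ^ i := by
    have := bval_ge (s 0); have := hpos i; omega
  have hle : ∀ j ≤ (s 0).length, bval ((s 0).take j) ≤ i := by
    intro j _
    -- monotone under appending
    have mono : ∀ (l m : List Bool), bval l ≤ bval (l ++ m) := by
      intro l m
      induction m using List.reverseRecOn with
      | nil => simp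
      | append_singleton m b ih =>
        rw [← List.append_assoc, bval_append]; omega
    have := mono ((s 0).take j) ((s 0).drop j)
    rwa [List.take_append_drop] at this
  have k1 := loop_rule (L := 2 ^ 2 ^ i) (r := 0) (c0 := mulC 2 45 46)
    (c1 := seq (mulC 2 45 46) (push 45 true)) (s := update s 45 [true])
    (fun j => update (update s 0 ((s 0).drop j)) 45 (un (bval ((s 0).take j))))
    (by
      funext x
      by_cases q1 : x = 45
      · subst q1; simp [bval]
      · by_cases q2 : x = 0
        · subst q2; simp
        · simp [q1])
    (by
      intro j b hb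
      have hb0 : (s 0)[j]? = some b := by simpa using hb
      have hlt : j < (s 0).length := by
        rw [List.getElem?_eq_some_iff] at hb0; exact hb0.1
      have htk : (s 0).take (j + 1) = (s 0).take j ++ [b] := by
        rw [List.take_add_one, hb0]; rfl
      set y : St := update (update (update s 0 ((s 0).drop j)) 45 (un (bval ((s 0).take j)))) 0
        ((update s 45 [true] 0).drop (j + 1)) with hy
      have hm := mulC_spec (c := 2) (d := 45) (t := 46) (L := 2 ^ 2 ^ i)
        (m := bval ((s 0).take j)) (by norm_num) (s := y) (by simp [hy, h46]) (by simp [hy])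
        (by have := hle j hlt.le; have := hpos i; omega)
        (by
          have h1 := hle (j + 1) hlt
          rw [htk, bval_append] at h1
          have := hpos i; omega)
      have hbv : bval ((s 0).take (j + 1)) = 2 * bval ((s 0).take j) + b.toNat := by
        rw [htk, bval_append]
      constructor
      · cases b
        · simp only [Bool.false_eq_true, if_false, hm.1]
          funext x
          by_cases q1 : x = 45
          · subst q1; rw [update_self, update_self, hbv]; simp; ring
          · by_cases q2 : x = 0
            · subst q2; simp [hy]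
            · simp [hy, q1, q2]
        · simp only [if_true, eval_seq, hm.1, eval_push]
          funext x
          by_cases q1 : x = 45
          · subst q1; rw [update_self, update_self, update_self, hbv, ← un_succ]; simp; ring
          · by_cases q2 : x = 0
            · subst q2; simp [hy]
            · simp [hy, q1, q2]
      · cases b
        · exact hm.2
        · exact ⟨hm.2, trivial⟩)
    (by simpa using hL1)
  have e2 : update (update s 0 ((s 0).drop (update s 45 [true] 0).length)) 45
      (un (bval ((s 0).take (update s 45 [true] 0).length))) =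
      update (update s 0 []) 45 (un i) := by
    simp [hi]
  rw [e2] at k1
  have e3 : (pushL 12 [true, true]).eval (update (update s 0 []) 45 (un i)) =
      update (update (update s 0 []) 45 (un i)) 12 (un 2) := by
    rw [eval_pushL]
    simp [h12, un, List.replicate_succ]
  have k4 := loop_rule (L := 2 ^ 2 ^ i) (r := 45) (c0 := sq12) (c1 := sq12)
    (s := update (update (update s 0 []) 45 (un i)) 12 (un 2))
    (fun j => update (update (update s 0 []) 45 (un (i - j))) 12 (un (2 ^ 2 ^ j)))
    (by simp)
    (by
      intro j b hb
      have hlt : j < i := by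
        have h2 : (un i)[j]? = some b := by simpa using hb
        rw [List.getElem?_eq_some_iff] at h2
        simpa using h2.1
      have hl : (if b = true then sq12 else sq12) = sq12 := by
        cases b <;> rfl
      have hsq : 2 ^ 2 ^ j * 2 ^ 2 ^ j = 2 ^ 2 ^ (j + 1) := by
        rw [← pow_add]; congr 1; ring
      have hp2 : 2 ^ 2 ^ j * 2 ^ 2 ^ j ≤ 2 ^ 2 ^ i := by
        rw [hsq]
        exact Nat.pow_le_pow_right (by norm_num) (Nat.pow_le_pow_right (by norm_num) hlt)
      have hm := sq12_spec (L := 2 ^ 2 ^ i) (m := 2 ^ 2 ^ j)
        (s := update (update (update (update s 0 []) 45 (un (i - j))) 12 (un (2 ^ 2 ^ j))) 45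
          ((update (update (update s 0 []) 45 (un i)) 12 (un 2) 45).drop (j + 1)))
        (by simp [h46]) (by simp [h47]) (by simp [h48]) (by simp) hp2
      rw [hl, hm.1]
      refine ⟨?_, hm.2⟩
      funext x
      by_cases q1 : x = 12
      · subst q1; rw [update_self, update_self, hsq]
      · by_cases q2 : x = 45
        · subst q2
          simp
        · simp [q1, q2])
    (by
      have := hpos i
      simp
      omega)
  have e1 : (push 45 true).eval s = update s 45 [true] := by simp [h45]
  constructor
  · rw [expand, eval_seq, eval_seq, eval_seq, e1, k1.1, e3, k4.1]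
    funext x
    by_cases q1 : x = 12
    · subst q1; simp
    · by_cases q2 : x = 45
      · subst q2; simp [h45]
      · simp [q1, q2]
  · rw [expand, LB_seq, LB_seq, LB_seq, e1, k1.1, e3]
    exact ⟨trivial, k1.2, LB_pushL _ _ _ _, k4.2⟩

end Cmd

end Pool.Agent.Helper72
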