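import Pool.Agent.Helper72.ProgC

/-!
The two-sided search as a program.
-/

namespace Pool.Agent.Helper72

open Function Pool.Agent.Helper73.GenProg

/-! ### the search as an iteration -/

/-- search state: word, last accepted formula, result (flag and candidate) -/
abbrev SSt := List Bool × List Bool × Option (Bool × List Bool)

section

variable (χ : List Bool → Bool) (o Cn : ℕ) (ψ : BForm) (j : ℕ)

def sstep2 : SSt → SSt
  | (X, par, some r) => (X, par, some r)
  | (X, par, none) =>
    if χ (endO o Cn ψ X).code then (X, par, some (true, []))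
    else if χ (bitO o Cn ψ X true).code then (X ++ [true], (bitO o Cn ψ X true).code, none)
    else if χ (bitO o Cn ψ X false).code then (X ++ [false], (bitO o Cn ψ X false).code, none)
    else (X, par, some (false, cand4 o Cn ψ j X par))

def sout : SSt → Bool × List Bool × List Bool
  | (X, par, none) => (false, X, par)
  | (X, _, some (b, c)) => (b, X, c)

theorem sstep2_some (X par : List Bool) (r : Bool × List Bool) (n : ℕ) :
    (sstep2 χ o Cn ψ j)^[n] (X, par, some r) = (X, par, some r) := by
  induction n with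
  | zero => rfl
  | succ n ih => rw [iterate_succ_apply', ih]; rfl

theorem srch_eq (n : ℕ) (X par : List Bool) :
    srch χ o Cn ψ j n X par = sout ((sstep2 χ o Cn ψ j)^[n] (X, par, none)) := by
  induction n generalizing X par with
  | zero => rfl
  | succ n ih =>
    rw [iterate_succ_apply]
    by_cases h0 : χ (endO o Cn ψ X).code = true
    · simp only [srch, sstep2, h0, if_true]
      rw [sstep2_some]; rfl
    by_cases h1 : χ (bitO o Cn ψ X true).code = true
    · simp only [srch, sstep2, h0, h1, if_true, Bool.false_eq_true, if_false]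
      exact ih _ _
    by_cases h2 : χ (bitO o Cn ψ X false).code = true
    · simp only [srch, sstep2, h0, h1, h2, if_true, Bool.false_eq_true, if_false]
      exact ih _ _
    simp only [srch, sstep2, h0, h1, h2, Bool.false_eq_true, if_false]
    rw [sstep2_some]; rfl

end

/-- registers representing a search state -/
def Rg.q (g : Rg) (p : SSt) : Rg :=
  { g with
    a11 := p.1, a46 := p.2.1, a42 := (p.2.2.map fun r => [r.1]).getD [],
    a43 := (p.2.2.map fun r => r.2).getD [] }

namespace Cmd

/-- run the decider on the candidate written by `c` -/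
def tryG (c decS acc rej : Cmd) : Cmd :=
  seq c (seq (mm 9 100) (seq decS (ite 100 rej nop (seq (clear 100) acc))))

/-- record the accepted formula and append a bit to the word -/
def accB (c : Cmd) (b : Bool) : Cmd :=
  seq (clear 46) (seq c (seq (mm 9 46) (seq (mv 11 30) (seq (push 30 b) (mv 30 11)))))

def bodyS (cE cT cF cJ decS : Cmd) : Cmd :=
  tryG cE decS (push 42 true) (tryG cT decS (accB cT true) (tryG cF decS (accB cF false)
    (seq cJ (push 42 false))))

def stepS (cE cT cF cJ decS : Cmd) : Cmd := ite 42 (bodyS cE cT cF cJ decS) nop nop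

def srcS (cE cT cF cJ decS : Cmd) : Cmd :=
  seq (loop 44 nop (stepS cE cT cF cJ decS))
    (seq (ite 42 (seq (copy 46 43 30) (push 42 false)) nop nop) (clear 46))

end Cmd

section

variable {χ : List Bool → Bool} {decS : Cmd} {TS : ℕ → ℕ}

theorem run_decS (hS : DecSpec (fun x : List Bool => x) χ decS TS) {g : Rg} {m : ℕ}
    (h : g.a100.length ≤ m) :
    Run (TS m) decS g.st { g with a100 := flag (χ g.a100) }.st := by
  obtain ⟨h1, h2⟩ := hS.spec g.a100 g.st (fun r hr => by
    apply Rg.other
    simp only [List.mem_cons, List.not_mem_nil, or_false, not_or]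
    omega) rfl
  refine ⟨?_, h1.mono (hS.mono h)⟩
  rw [h2]; simp

theorem run_tryG {f : BForm → List Bool → BForm} {c acc rej : Cmd} {T : ℕ → ℕ}
    (hc : CandS f c T) (hS : DecSpec (fun x : List Bool => x) χ decS TS) {g : Rg} {ψ : BForm}
    {m L : ℕ} (h9 : g.a9 = []) (h13 : g.a13 = []) (h30 : g.a30 = []) (h100 : g.a100 = [])
    (h41 : g.a41 = ψ.code) (h11 : g.a11.length ≤ m) (hψ : ψ.code.length ≤ m)
    (hL : T m + TS (T m) + 1 ≤ L) {s' : St}
    (hacc : χ (f ψ g.a11).code = true → Run L acc g.st s')
    (hrej : χ (f ψ g.a11).code = false → Run L rej g.st s') :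
    Run L (Cmd.tryG c decS acc rej) g.st s' := by
  obtain ⟨r1, l1⟩ := hc.spec g ψ m h9 h13 h30 h41 h11 hψ
  set F := (f ψ g.a11).code with hF
  have hTS := hS.mono l1
  refine Run.seq (r1.mono (by omega)) (Run.seq (Run.congr (run_mm (by norm_num) (by norm_num)
    (by norm_num) h30 ?_) rfl (s' := _) (t' := { g with a100 := F }.st) ?_) (Run.seq
    ((run_decS hS (g := { g with a100 := F }) (m := F.length) le_rfl).mono ?_) ?_))
  · simp only [Rg.get9]; omega
  · simp [h100, h9]
  · have := hS.mono (le_refl F.length); omega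
  · cases hb : χ F
    · refine run_ite_nil (by simp [flag]) ?_
      have e : ({ g with a100 := [] } : Rg) = g := by rw [← h100]
      exact Run.congr (hrej hb) (congrArg Rg.st e.symm) rfl
    · refine run_ite_true (t := []) (by simp [flag]) (Run.seq (s' := g.st)
        (Run.congr (run_clear ?_) rfl ?_) (hacc hb))
      · simp [flag]; omega
      · simp only [Rg.upd100]
        rw [← h100]

theorem run_accB {f : BForm → List Bool → BForm} {c : Cmd} {T : ℕ → ℕ}
    (hc : CandS f c T) {g : Rg} {ψ : BForm} (b : Bool)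
    {m L : ℕ} (h9 : g.a9 = []) (h13 : g.a13 = []) (h30 : g.a30 = [])
    (h41 : g.a41 = ψ.code) (h11 : g.a11.length ≤ m) (hψ : ψ.code.length ≤ m)
    (hL : T m + g.a46.length + m + 1 ≤ L) :
    Run L (Cmd.accB c b) g.st
      { g with
        a46 := (f ψ g.a11).code, a11 := g.a11 ++ [b] }.st := by
  obtain ⟨r1, l1⟩ := hc.spec { g with a46 := [] } ψ m h9 h13 h30 h41 h11 hψ
  have l1' : (f ψ g.a11).code.length ≤ T m := l1
  refine Run.seq (Run.congr (run_clear (r := 46) ?_) rfl (Rg.upd46 g [])) (Run.seq
    (r1.mono (by omega)) (Run.seq (Run.congr (run_mm (by norm_num) (by norm_num)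
    (by norm_num) h30 ?_) rfl (t' := { g with a46 := (f ψ g.a11).code }.st) ?_) (Run.seq
    (Run.congr (run_mv (by norm_num) ?_) rfl (t' := { g with
      a46 := (f ψ g.a11).code, a11 := [], a30 := g.a11.reverse }.st) ?_) (Run.seq
    (Run.congr (run_push L 30 b _) rfl (t' := { g with
      a46 := (f ψ g.a11).code, a11 := [], a30 := b :: g.a11.reverse }.st) ?_)
    (Run.congr (run_mv (by norm_num) ?_) rfl ?_)))))
  · simp only [Rg.get46]; omega
  · simp only [Rg.get9]; omega
  · simp [h9]
  · simp only [Rg.get11]; omega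
  · simp [h30]
  · simp
  · simp; omega
  · simp [h30]

/-- the program `c` writes the candidate for a dead end to register 43 -/
structure CandJ (f : BForm → List Bool → List Bool → List Bool) (c : Cmd) (T : ℕ → ℕ) :
    Prop where
  pb : PB T
  mono : Monotone T
  ok : c.ok = true
  wr44 : c.wr 44 = false
  spec : ∀ (g : Rg) (ψ : BForm) (m : ℕ), g.a9 = [] → g.a13 = [] → g.a30 = [] → g.a43 = [] →
    g.a41 = ψ.code → g.a11.length ≤ m → ψ.code.length ≤ m →
    Run (T m + g.a46.length) c g.st { g with a43 := f ψ g.a11 g.a46 }.st ∧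
      (f ψ g.a11 g.a46).length ≤ T m + g.a46.length

theorem CandJ.of_candS {f : BForm → List Bool → BForm} {c : Cmd} {T : ℕ → ℕ}
    (hc : CandS f c T) : CandJ (fun ψ X _ => (f ψ X).code) (.seq c (.mm 9 43)) T := by
  refine ⟨hc.pb, hc.mono, ?_, ?_, ?_⟩
  · simp [Cmd.ok, hc.ok, ok_mm]
  · simp [Cmd.wr, hc.wr 44 (by omega), wr_mm]
  · intro g ψ m h9 h13 h30 h43 h41 h11 hψ
    obtain ⟨r1, l1⟩ := hc.spec g ψ m h9 h13 h30 h41 h11 hψ
    refine ⟨Run.seq (r1.mono (by omega)) (Run.congr (run_mm (by norm_num) (by norm_num)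
      (by norm_num) h30 ?_) rfl ?_), by omega⟩
    · simp only [Rg.get9]; omega
    · simp [h9, h43]

theorem exists_candJ (o Cn j : ℕ) : ∃ c T, CandJ (cand4 o Cn · j) c T := by
  by_cases h0 : j = 0
  · subst h0
    obtain ⟨c, T, h⟩ := exists_endS o Cn
    exact ⟨_, _, CandJ.of_candS h⟩
  by_cases h1 : j = 1
  · subst h1
    obtain ⟨c, T, h⟩ := exists_bitS o Cn true
    exact ⟨_, _, CandJ.of_candS h⟩
  by_cases h2 : j = 2
  · subst h2
    obtain ⟨c, T, h⟩ := exists_bitS o Cn false
    exact ⟨_, _, CandJ.of_candS h⟩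
  refine ⟨.copy 46 43 30, fun _ => 0, PB.const 0, fun _ _ _ => le_rfl, ?_, ?_, ?_⟩
  · simp [Cmd.ok_copy]
  · simp [Cmd.wr, Cmd.copy, Cmd.mv, Cmd.mv2]
  · intro g ψ m h9 h13 h30 h43 h41 h11 hψ
    have e : cand4 o Cn ψ j g.a11 g.a46 = g.a46 := by
      simp [cand4, h0, h1, h2]
    rw [e]
    refine ⟨Run.congr (run_copy (by norm_num) (by norm_num) (by norm_num) h30 ?_) rfl ?_, by
      omega⟩
    · simp only [Rg.get46]; omega
    · simp [h43]

theorem run_stepS {o Cn j : ℕ} {cE cT cF cJ : Cmd} {TE TT TF TJ : ℕ → ℕ}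
    (hE : CandS (endO o Cn) cE TE) (hT : CandS (fun ψ X => bitO o Cn ψ X true) cT TT)
    (hF : CandS (fun ψ X => bitO o Cn ψ X false) cF TF) (hJ : CandJ (cand4 o Cn · j) cJ TJ)
    (hS : DecSpec (fun x : List Bool => x) χ decS TS) {g : Rg} {ψ : BForm} {m L : ℕ}
    (h9 : g.a9 = []) (h13 : g.a13 = []) (h30 : g.a30 = []) (h100 : g.a100 = [])
    (h41 : g.a41 = ψ.code) (hψ : ψ.code.length ≤ m) (p : SSt) (hp : p.1.length ≤ m)
    (hL : TE m + TT m + TF m + TJ m + TS (TE m) + TS (TT m) + TS (TF m) + p.2.1.length + m + 2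
      ≤ L) :
    Run L (Cmd.stepS cE cT cF cJ decS) (g.q p).st (g.q (sstep2 χ o Cn ψ j p)).st := by
  obtain ⟨X, par, r⟩ := p
  rcases r with _ | r
  swap
  · rcases hr : r.1
    · refine run_ite_false (t := []) ?_ (Run.nop _ _)
      simp [Rg.q, hr]
    · refine run_ite_true (t := []) ?_ (Run.nop _ _)
      simp [Rg.q, hr]
  simp only at hp hL
  refine run_ite_nil (by simp [Rg.q]) ?_
  refine run_tryG (g := g.q (X, par, none)) (ψ := ψ) (m := m) hE hS h9 h13 h30 h100 h41 hp hψ (by omega) (fun c0 => ?_)
    (fun c0 => ?_)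
  · have c0' : χ (endO o Cn ψ X).code = true := c0
    simp only [sstep2, c0', if_true]
    exact Run.congr (run_push L 42 true _) rfl (by simp [Rg.q])
  have c0' : χ (endO o Cn ψ X).code = false := c0
  refine run_tryG (g := g.q (X, par, none)) (ψ := ψ) (m := m) hT hS h9 h13 h30 h100 h41 hp hψ (by omega) (fun c1 => ?_)
    (fun c1 => ?_)
  · have c1' : χ (bitO o Cn ψ X true).code = true := c1
    simp only [sstep2, c0', c1', if_true, Bool.false_eq_true, if_false]
    refine Run.congr (run_accB (ψ := ψ) (m := m) (L := L) hT (g := g.q (X, par, none)) true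
      h9 h13 h30 h41 hp hψ ?_) rfl ?_
    · simp only [Rg.q]; omega
    · simp [Rg.q]
  have c1' : χ (bitO o Cn ψ X true).code = false := c1
  refine run_tryG (g := g.q (X, par, none)) (ψ := ψ) (m := m) hF hS h9 h13 h30 h100 h41 hp hψ (by omega) (fun c2 => ?_)
    (fun c2 => ?_)
  · have c2' : χ (bitO o Cn ψ X false).code = true := c2
    simp only [sstep2, c0', c1', c2', if_true, Bool.false_eq_true, if_false]
    refine Run.congr (run_accB (ψ := ψ) (m := m) (L := L) hF (g := g.q (X, par, none)) false
      h9 h13 h30 h41 hp hψ ?_) rfl ?_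
    · simp only [Rg.q]; omega
    · simp [Rg.q]
  have c2' : χ (bitO o Cn ψ X false).code = false := c2
  simp only [sstep2, c0', c1', c2', Bool.false_eq_true, if_false]
  obtain ⟨r1, -⟩ := hJ.spec (g.q (X, par, none)) ψ m h9 h13 h30 rfl h41 hp hψ
  refine Run.seq (r1.mono ?_) (Run.congr (run_push L 42 false _) rfl ?_)
  · simp only [Rg.q]; omega
  · simp [Rg.q]

/-- specification of the search program -/
structure SrcS (χ : List Bool → Bool) (o Cn j : ℕ) (c : Cmd) (T : ℕ → ℕ) : Prop where
  pb : PB T
  mono : Monotone T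
  ok : c.ok = true
  spec : ∀ (g : Rg) (ψ : BForm) (m n : ℕ), g.a9 = [] → g.a13 = [] → g.a30 = [] →
    g.a100 = [] → g.a11 = [] → g.a42 = [] → g.a43 = [] → g.a41 = ψ.code → g.a44 = un n →
    n ≤ m → ψ.code.length ≤ m → g.a46.length ≤ m →
    Run (T m) c g.st
      { g with
        a11 := (srch χ o Cn ψ j n [] g.a46).2.1, a42 := [(srch χ o Cn ψ j n [] g.a46).1],
        a43 := (srch χ o Cn ψ j n [] g.a46).2.2, a44 := [], a46 := [] }.st ∧
      (srch χ o Cn ψ j n [] g.a46).2.1.length ≤ m ∧
      (srch χ o Cn ψ j n [] g.a46).2.2.length ≤ T m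

theorem exists_srcS (hS : DecSpec (fun x : List Bool => x) χ decS TS) (o Cn j : ℕ) :
    ∃ c T, SrcS χ o Cn j c T := by
  obtain ⟨cE, TE, hE⟩ := exists_endS o Cn
  obtain ⟨cT, TT, hT⟩ := exists_bitS o Cn true
  obtain ⟨cF, TF, hF⟩ := exists_bitS o Cn false
  obtain ⟨cJ, TJ, hJ⟩ := exists_candJ o Cn j
  refine ⟨Cmd.srcS cE cT cF cJ decS, fun m => TE m + TT m + TF m + TJ m + TS (TE m) +
    TS (TT m) + TS (TF m) + (m + TT m + TF m) + m + 2, ?_, ?_, ?_, ?_⟩
  · exact (((((((((hE.pb.add hT.pb).add hF.pb).add hJ.pb).add (hS.pb.comp hE.pb)).add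
      (hS.pb.comp hT.pb)).add (hS.pb.comp hF.pb)).add ((PB.id.add hT.pb).add hF.pb)).add
      PB.id).add (PB.const 2))
  · intro a b hab
    have := hE.mono hab; have := hT.mono hab; have := hF.mono hab; have := hJ.mono hab
    have := hS.mono (hE.mono hab); have := hS.mono (hT.mono hab); have := hS.mono (hF.mono hab)
    simp only
    omega
  · have d44 : decS.wr 44 = false := hS.wr 44 (by omega)
    simp [Cmd.srcS, Cmd.stepS, Cmd.bodyS, Cmd.tryG, Cmd.accB, Cmd.ok, Cmd.ok_copy, ok_mm,
      hE.ok, hT.ok, hF.ok, hJ.ok, hS.ok, Cmd.wr, hE.wr 44 (by omega), hT.wr 44 (by omega),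
      hF.wr 44 (by omega), hJ.wr44, d44, wr_mm, Cmd.mv, Cmd.clear]
  · intro g ψ m n h9 h13 h30 h100 h11 h42 h43 h41 h44 hn hψ h46
    set M := m + TT m + TF m with hM
    set L := TE m + TT m + TF m + TJ m + TS (TE m) + TS (TT m) + TS (TF m) + M + m + 2 with hL
    set it : ℕ → SSt := fun i => (sstep2 χ o Cn ψ j)^[i] ([], g.a46, none) with hit
    have hit0 : it 0 = ([], g.a46, none) := rfl
    have hits : ∀ i, it (i + 1) = sstep2 χ o Cn ψ j (it i) := fun i => iterate_succ_apply' _ _ _
    have inv : ∀ i ≤ n, (it i).1.length ≤ i ∧ (it i).2.1.length ≤ M ∧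
        ∀ r, (it i).2.2 = some r → r.2.length ≤ TJ m + M := by
      intro i
      induction i with
      | zero =>
        intro _
        rw [hit0]
        refine ⟨le_rfl, ?_, ?_⟩
        · show g.a46.length ≤ M; omega
        · intro r hr; simp at hr
      | succ i ih =>
        intro hi
        obtain ⟨i1, i2, i3⟩ := ih (by omega)
        rw [hits]
        rcases hp : it i with ⟨X, par, r⟩
        rw [hp] at i1 i2 i3
        simp only at i1 i2
        rcases r with _ | r
        · have bT := (hT.spec { g with a11 := X } ψ m h9 h13 h30 h41 (by show X.length ≤ m; omega)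
            hψ).2
          have bF := (hF.spec { g with a11 := X } ψ m h9 h13 h30 h41 (by show X.length ≤ m; omega)
            hψ).2
          have bJ := (hJ.spec { g with a11 := X, a46 := par } ψ m h9 h13 h30 h43 h41
            (by show X.length ≤ m; omega) hψ).2
          simp only at bT bF bJ
          simp only [sstep2]
          split_ifs
          · refine ⟨by simp only; omega, i2, ?_⟩
            intro r hr
            simp only [Option.some.injEq] at hr
            subst hr
            simp
          · refine ⟨by simp only [List.length_append, List.length_singleton]; omega, ?_, ?_⟩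
            · simp only; omega
            · intro r hr; simp at hr
          · refine ⟨by simp only [List.length_append, List.length_singleton]; omega, ?_, ?_⟩
            · simp only; omega
            · intro r hr; simp at hr
          · refine ⟨by simp only; omega, i2, ?_⟩
            intro r hr
            simp only [Option.some.injEq] at hr
            subst hr
            simp only
            omega
        · simp only [sstep2]
          exact ⟨by omega, i2, i3⟩
    -- the loop
    have key := run_loop_un (r := 44) (c := Cmd.stepS cE cT cF cJ decS) (L := L) (n := n)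
      (by omega) (fun i => (({ g with a44 := un (n - i) } : Rg).q (it i)).st) (by simp [Rg.q])
      (by
        intro i hi
        obtain ⟨i1, i2, -⟩ := inv i hi.le
        refine Run.congr (run_stepS hE hT hF hJ hS (g := { g with a44 := un (n - (i + 1)) })
          (m := m) (L := L) h9 h13 h30 h100 h41 hψ (it i) (by omega) (by omega)) ?_ ?_
        · rw [show n - (i + 1) = n - 1 - i by omega]
          simp [Rg.q]
        · show _ = (({ g with a44 := un (n - (i + 1)) } : Rg).q (it (i + 1))).st
          rw [hits])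
    have e0 : (({ g with a44 := un (n - 0) } : Rg).q (it 0)).st = g.st := by
      rw [hit0, Nat.sub_zero, ← h44]
      show ({ g with a11 := [], a42 := [], a43 := [] } : Rg).st = g.st
      rw [← h42]
      have : ({ g with a11 := [], a42 := [], a43 := [] } : Rg) = g := by
        cases g; simp_all
      rw [← h42] at this
      exact congrArg Rg.st this
    have en : (({ g with a44 := un (n - n) } : Rg).q (it n)).st =
        (({ g with a44 := [] } : Rg).q (it n)).st := by
      rw [Nat.sub_self]; rfl
    rw [e0, en] at key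
    obtain ⟨i1, i2, i3⟩ := inv n le_rfl
    rw [srch_eq]
    have hitn : (sstep2 χ o Cn ψ j)^[n] ([], g.a46, none) = it n := rfl
    rw [hitn]
    rcases hp : it n with ⟨X, par, r⟩
    rw [hp] at key i1 i2 i3
    simp only at i1 i2
    rcases r with _ | r
    · simp only [sout]
      refine ⟨Run.seq key (Run.seq (run_ite_nil (by simp [Rg.q]) (Run.seq (Run.congr (run_copy
        (by norm_num) (by norm_num) (by norm_num) ?_ ?_) rfl (t' := { g with
          a44 := [], a11 := X, a46 := par, a42 := [], a43 := par }.st) ?_)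
        (Run.congr (run_push L 42 false _) rfl (Rg.upd42 _ _))))
        (Run.congr (run_clear ?_) rfl (Rg.upd46 _ _))), by omega, by omega⟩
      · exact h30
      · simp [Rg.q]; omega
      · simp [Rg.q]
      · simp; omega
    · have hr := i3 r rfl
      simp only [sout]
      have post : Run L (.clear 46) (({ g with a44 := [] } : Rg).q (X, par, some r)).st
          { g with
            a11 := X, a42 := [r.1], a43 := r.2, a44 := [], a46 := [] }.st := by
        refine Run.congr (run_clear ?_) rfl ?_
        · simp [Rg.q]; omega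
        · simp [Rg.q]
      refine ⟨Run.seq key (Run.seq (s' := (({ g with a44 := [] } : Rg).q (X, par, some r)).st)
        ?_ post), by omega, by omega⟩
      rcases hb : r.1
      · exact run_ite_false (t := []) (by simp [Rg.q, hb]) (Run.nop _ _)
      · exact run_ite_true (t := []) (by simp [Rg.q, hb]) (Run.nop _ _)

end

end Pool.Agent.Helper72
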