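import Pool.Agent.Helper72.ProgR

/-!
The search step of the refuter as a program.
-/

namespace Pool.Agent.Helper72

open Function

namespace Cmd

def mkCand (gP gX : Cmd) : Cmd := seq (copy 41 9 30) (seq gP gX)

def toDec (decS : Cmd) : Cmd := seq (mv 9 30) (seq (mv 30 100) decS)

def tryF (gP decS gX acc rej : Cmd) : Cmd :=
  seq (mkCand gP gX) (seq (toDec decS) (ite 100 rej nop (seq (clear 100) acc)))

/-- bound for the length of a candidate code -/
def LC (Cn l n : ℕ) : ℕ := l + n * (24 + 3 * (n * Cn + 1)) + 2 * (24 + 3 * (n * Cn + 1))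

theorem mkCand_spec {Cn : ℕ} {gP gX : Cmd} {TP TX : ℕ → ℕ} {cl : ℕ → List ACls}
    (hP : PrefSpec Cn gP TP) (hX : AddSpec cl gX TX) {s : St} (hs : Scr s) (h9 : s 9 = []) :
    (mkCand gP gX).eval s = update s 9
      (addCode (cl ((s 11).length * Cn)) (addCode (prefC Cn 0 (s 11)) (s 41))) ∧
    (mkCand gP gX).LB ((s 41).length + TP (s 11).length + TX ((s 11).length * Cn)) s := by
  have h30 := hs 30 (by omega)
  have e1 : (copy 41 9 30).eval s = update s 9 (s 41) := by
    rw [eval_copy (by norm_num) (by norm_num) (by norm_num) h30, h9, List.append_nil]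
  obtain ⟨e2, l2⟩ := hP.spec (update s 9 (s 41)) (fun r h1 h2 => by
    rw [update_of_ne (by omega)]; exact hs r (by omega))
  have x11 : (update s 9 (s 41)) 11 = s 11 := by simp
  have x9 : (update s 9 (s 41)) 9 = s 41 := by simp
  rw [x11, x9, update_idem] at e2
  rw [x11] at l2
  set n := (s 11).length with hn
  obtain ⟨e3, l3⟩ := hX.spec (n * Cn) (update (update s 9 (addCode (prefC Cn 0 (s 11)) (s 41)))
    13 (un (n * Cn))) (by simp) (fun r h1 h2 => by
      rw [update_of_ne (by omega), update_of_ne (by omega)]; exact hs r (by omega))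
  constructor
  · rw [mkCand, eval_seq, eval_seq, e1, e2, e3]
    funext x
    by_cases q1 : x = 13
    · subst q1; simp [hs 13 (by omega)]
    · by_cases q2 : x = 9
      · subst q2; simp
      · simp [q1, q2]
  · rw [mkCand, LB_seq, LB_seq, e1, e2]
    refine ⟨LB_copy (by norm_num) (by norm_num) (by norm_num) h30 (by omega),
      l2.mono (by omega), l3.mono (by omega)⟩

theorem toDec_spec {decS : Cmd} {χ : List Bool → Bool} {TS : ℕ → ℕ}
    (hS : DecSpec (fun x : List Bool => x) χ decS TS) {s : St} (hs : Scr s) (F : List Bool)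
    (h9 : s 9 = []) :
    (toDec decS).eval (update s 9 F) = update s 100 (flag (χ F)) ∧
    (toDec decS).LB (F.length + TS F.length) (update s 9 F) := by
  have h30 := hs 30 (by omega)
  have h100 := hs 100 (by omega)
  have e4 : (mv 9 30).eval (update s 9 F) = update s 30 F.reverse := by
    rw [eval_mv (by norm_num)]
    funext x
    by_cases q1 : x = 30
    · subst q1; simp [h30]
    · by_cases q2 : x = 9
      · subst q2; simp [h9]
      · simp [q1, q2]
  have e5 : (mv 30 100).eval (update s 30 F.reverse) = update s 100 F := by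
    rw [eval_mv (by norm_num)]
    funext x
    by_cases q1 : x = 100
    · subst q1; simp [h100]
    · by_cases q2 : x = 30
      · subst q2; simp [h30]
      · simp [q1, q2]
  obtain ⟨l6, e6⟩ := hS.spec F (update s 100 F) (by
      intro r hr
      rw [update_of_ne (by omega)]
      exact hs r (by omega)) (by simp)
  rw [update_idem] at e6
  constructor
  · rw [toDec, eval_seq, eval_seq, e4, e5, e6]
  · rw [toDec, LB_seq, LB_seq, e4, e5]
    refine ⟨LB_mv (by norm_num) (by simp), LB_mv (by norm_num) (by simp),
      l6.mono (by omega)⟩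

theorem tryF_spec {Cn : ℕ} {gP gX decS acc rej : Cmd} {TP TX TS : ℕ → ℕ}
    {cl : ℕ → List ACls} {χ : List Bool → Bool}
    (hP : PrefSpec Cn gP TP) (hX : AddSpec cl gX TX)
    (hS : DecSpec (fun x : List Bool => x) χ decS TS) {s : St} (hs : Scr s) (h9 : s 9 = [])
    {F : List Bool}
    (hF : F = addCode (cl ((s 11).length * Cn)) (addCode (prefC Cn 0 (s 11)) (s 41)))
    {L : ℕ} (hL : (s 41).length + TP (s 11).length + TX ((s 11).length * Cn) +
      F.length + TS F.length + 1 ≤ L)
    (hacc : χ F = true → acc.LB L s) (hrej : χ F = false → rej.LB L s) :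
    (tryF gP decS gX acc rej).eval s = (if χ F then acc.eval s else rej.eval s) ∧
    (tryF gP decS gX acc rej).LB L s := by
  obtain ⟨e1, l1⟩ := mkCand_spec hP hX hs h9
  rw [← hF] at e1
  obtain ⟨e2, l2⟩ := toDec_spec hS hs F h9
  have h100 := hs 100 (by omega)
  cases hb : χ F
  · rw [hb] at e2
    have e2' : update s 100 (flag false) = s := by
      show update s 100 [] = s
      rw [← h100, update_eq_self]
    rw [e2'] at e2
    constructor
    · rw [tryF, eval_seq, eval_seq, e1, e2]
      simp only [eval, h100, Bool.false_eq_true, if_false]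
    · rw [tryF, LB_seq, LB_seq, e1, e2]
      refine ⟨l1.mono (by omega), l2.mono (by omega), ?_⟩
      simp only [LB, h100]
      exact hrej hb
  · rw [hb] at e2
    have x100 : (update s 100 (flag true)) 100 = [true] := by simp
    have e3 : (clear 100).eval (update s 100 (flag true)) = s := by
      rw [eval_clear, update_idem, ← h100, update_eq_self]
    constructor
    · rw [tryF, eval_seq, eval_seq, e1, e2]
      simp only [eval, x100, if_true]
      rw [e3]
    · rw [tryF, LB_seq, LB_seq, e1, e2]
      refine ⟨l1.mono (by omega), l2.mono (by omega), ?_⟩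
      simp only [LB, x100]
      refine ⟨LB_clear (by rw [x100]; simp only [List.length_singleton]; omega), ?_⟩
      rw [e3]
      exact hacc hb

/-- finish with the word in register 9 as the result -/
def finish : Cmd := seq (mv 9 30) (seq (mv 30 43) (push 42 true))

theorem finish_spec {s : St} (F : List Bool) (h9 : s 9 = []) (h30 : s 30 = [])
    (h42 : s 42 = []) (h43 : s 43 = []) :
    finish.eval (update s 9 F) = update (update s 43 F) 42 [true] ∧
    finish.LB F.length (update s 9 F) := by
  have e4 : (mv 9 30).eval (update s 9 F) = update s 30 F.reverse := by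
    rw [eval_mv (by norm_num)]
    funext x
    by_cases q1 : x = 30
    · subst q1; simp [h30]
    · by_cases q2 : x = 9
      · subst q2; simp [h9]
      · simp [q1, q2]
  have e5 : (mv 30 43).eval (update s 30 F.reverse) = update s 43 F := by
    rw [eval_mv (by norm_num)]
    funext x
    by_cases q1 : x = 43
    · subst q1; simp [h43]
    · by_cases q2 : x = 30
      · subst q2; simp [h30]
      · simp [q1, q2]
  constructor
  · rw [finish, eval_seq, eval_seq, e4, e5]
    simp [h42]
  · rw [finish, LB_seq, LB_seq, e4, e5]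
    exact ⟨LB_mv (by norm_num) (by simp), LB_mv (by norm_num) (by simp), trivial⟩

/-- append a bit at the end of register 11 -/
def appB (b : Bool) : Cmd := seq (mv 11 30) (seq (push 30 b) (mv 30 11))

theorem appB_spec {s : St} (b : Bool) (h30 : s 30 = []) :
    (appB b).eval s = update s 11 (s 11 ++ [b]) ∧
    (appB b).LB ((s 11).length + 1) s := by
  have e1 : (mv 11 30).eval s = update (update s 11 []) 30 (s 11).reverse := by
    rw [eval_mv (by norm_num), h30, List.append_nil]
  have e2 : (push 30 b).eval (update (update s 11 []) 30 (s 11).reverse) =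
      update (update s 11 []) 30 (b :: (s 11).reverse) := by
    simp
  constructor
  · rw [appB, eval_seq, eval_seq, e1, e2, eval_mv (by norm_num)]
    funext x
    by_cases q1 : x = 11
    · subst q1; simp
    · by_cases q2 : x = 30
      · subst q2; simp [h30]
      · simp [q1, q2]
  · rw [appB, LB_seq, LB_seq, e1, e2]
    exact ⟨LB_mv (by norm_num) (by omega), trivial, LB_mv (by norm_num) (by simp)⟩

/-- the body of the search step -/
def stepBody (gP gE gT gF decS fv gJ : Cmd) : Cmd :=
  tryF gP decS gE (seq fv finish)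
    (tryF gP decS gT (appB true)
      (tryF gP decS gF (appB false) (seq (mkCand gP gJ) finish)))

/-- registers representing a search state -/
def enc (s : St) (p : List Bool × Option (List Bool)) : St :=
  update (update (update s 11 p.1) 42 (flag p.2.isSome)) 43 (p.2.getD [])

/-- search step: nothing to do if a result has been found -/
def stepC (gP gE gT gF decS fv gJ : Cmd) : Cmd :=
  ite 42 (stepBody gP gE gT gF decS fv gJ) nop nop

/-- loop bound for the search step -/
def Tstep (TP TE TT TF TJ TS : ℕ → ℕ) (Lf : ℕ → ℕ) (Cn l n : ℕ) : ℕ :=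
  l + TP n + TE (n * Cn) + TT (n * Cn) + TF (n * Cn) + TJ (n * Cn) + LC Cn l n +
    TS (LC Cn l n) + Lf n + n + 1

theorem step_spec {Cn j : ℕ} {gP gE gT gF gJ decS fv : Cmd} {TP TE TT TF TJ TS : ℕ → ℕ}
    {χ : List Bool → Bool} {f : List Bool → List Bool} {Lf : ℕ → ℕ} {clJ : ℕ → List ACls}
    (hP : PrefSpec Cn gP TP) (hE : AddSpec endC gE TE) (hT : AddSpec (bitC true) gT TT)
    (hF : AddSpec (bitC false) gF TF) (hJ : AddSpec clJ gJ TJ)
    (hclJ : (j = 0 ∧ clJ = endC) ∨ (j = 1 ∧ clJ = bitC true) ∨ (j = 2 ∧ clJ = bitC false))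
    (hS : DecSpec (fun x : List Bool => x) χ decS TS)
    (hfv : ∀ s : St, Scr s → s 9 = [] → s 10 = [] → fv.eval s = update s 9 (f (s 11)) ∧
      fv.LB (Lf (s 11).length) s ∧ (f (s 11)).length ≤ Lf (s 11).length)
    {ψ : BForm} {s : St} (hs : Scr s) (h9 : s 9 = []) (h10 : s 10 = []) (h41 : s 41 = ψ.code)
    (p : List Bool × Option (List Bool)) {L : ℕ}
    (hL : Tstep TP TE TT TF TJ TS Lf Cn ψ.code.length p.1.length ≤ L) :
    (stepC gP gE gT gF decS fv gJ).eval (enc s p) = enc s (sstep χ f Cn ψ j p) ∧
    (stepC gP gE gT gF decS fv gJ).LB L (enc s p) := by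
  obtain ⟨X, r⟩ := p
  rcases r with _ | r
  swap
  · have x42 : (enc s (X, some r)) 42 = [true] := by simp [enc]
    simp only [stepC, eval, x42, sstep, LB, and_self]
  set t := enc s (X, none) with ht
  have x42 : t 42 = [] := by simp [ht, enc]
  have x43 : t 43 = [] := by simp [ht, enc]
  have x11 : t 11 = X := by simp [ht, enc]
  have x9 : t 9 = [] := by simp [ht, enc, h9]
  have x10 : t 10 = [] := by simp [ht, enc, h10]
  have x41 : t 41 = ψ.code := by simp [ht, enc, h41]
  have hst : Scr t := by
    intro r hr
    simp only [ht, enc]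
    rw [update_of_ne (by omega), update_of_ne (by omega), update_of_ne (by omega)]
    exact hs r hr
  have x30 := hst 30 (by omega)
  simp only [stepC, eval, x42, LB]
  set n := X.length with hn
  have hLC : ∀ {F : List Bool}, F.length ≤ LC Cn ψ.code.length n →
      TS F.length ≤ TS (LC Cn ψ.code.length n) := fun h => hS.mono h
  have lp := length_pref Cn X ψ.code
  rw [← hn] at lp
  -- the candidates
  have cE : (endF Cn ψ X).code =
      addCode (endC ((t 11).length * Cn)) (addCode (prefC Cn 0 (t 11)) (t 41)) := by
    rw [x11, x41, addCode_code, addCode_code]; rfl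
  have cT : (bitF Cn ψ X true).code =
      addCode (bitC true ((t 11).length * Cn)) (addCode (prefC Cn 0 (t 11)) (t 41)) := by
    rw [x11, x41, addCode_code, addCode_code]; rfl
  have cF : (bitF Cn ψ X false).code =
      addCode (bitC false ((t 11).length * Cn)) (addCode (prefC Cn 0 (t 11)) (t 41)) := by
    rw [x11, x41, addCode_code, addCode_code]; rfl
  have lE : (endF Cn ψ X).code.length ≤ LC Cn ψ.code.length n := by
    rw [cE, x11, x41]
    have := length_end (X.length * Cn) (addCode (prefC Cn 0 X) ψ.code)
    rw [← hn] at this ⊢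
    simp only [LC]; omega
  have lT : (bitF Cn ψ X true).code.length ≤ LC Cn ψ.code.length n := by
    rw [cT, x11, x41]
    have := length_bit (X.length * Cn) true (addCode (prefC Cn 0 X) ψ.code)
    rw [← hn] at this ⊢
    simp only [LC]; omega
  have lF : (bitF Cn ψ X false).code.length ≤ LC Cn ψ.code.length n := by
    rw [cF, x11, x41]
    have := length_bit (X.length * Cn) false (addCode (prefC Cn 0 X) ψ.code)
    rw [← hn] at this ⊢
    simp only [LC]; omega
  have sE := hLC lE
  have sT := hLC lT
  have sF := hLC lF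
  simp only [Tstep] at hL
  -- acceptance of the end candidate
  have aEnd : (seq fv finish).eval t = update (update t 43 (f X)) 42 [true] ∧
      (seq fv finish).LB L t := by
    obtain ⟨e1, l1, k1⟩ := hfv t hst x9 x10
    rw [x11, ← hn] at l1
    rw [x11] at e1
    rw [x11, ← hn] at k1
    obtain ⟨e2, l2⟩ := finish_spec (s := t) (f X) x9 x30 x42 x43
    rw [eval_seq, LB_seq, e1, e2]
    exact ⟨rfl, l1.mono (by omega), l2.mono (by omega)⟩
  have aT := appB_spec (s := t) true x30
  have aF := appB_spec (s := t) false x30
  rw [x11] at aT aF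
  -- dead end
  have dead : (seq (mkCand gP gJ) finish).eval t =
      update (update t 43 (cand Cn ψ j X)) 42 [true] ∧
      (seq (mkCand gP gJ) finish).LB L t := by
    obtain ⟨e1, l1⟩ := mkCand_spec hP hJ hst x9
    have hc : addCode (clJ ((t 11).length * Cn)) (addCode (prefC Cn 0 (t 11)) (t 41))
        = cand Cn ψ j X ∧ (cand Cn ψ j X).length ≤ LC Cn ψ.code.length n := by
      rcases hclJ with ⟨rfl, rfl⟩ | ⟨rfl, rfl⟩ | ⟨rfl, rfl⟩
      · rw [← cE]; exact ⟨rfl, lE⟩
      · rw [← cT]; exact ⟨rfl, lT⟩
      · rw [← cF]; exact ⟨rfl, lF⟩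
    rw [hc.1] at e1
    rw [x11, x41, ← hn] at l1
    obtain ⟨e2, l2⟩ := finish_spec (s := t) (cand Cn ψ j X) x9 x30 x42 x43
    rw [eval_seq, LB_seq, e1, e2]
    exact ⟨rfl, l1.mono (by omega), l2.mono (by have := hc.2; omega)⟩
  -- nested tests
  have t3 := tryF_spec (acc := appB false) (rej := seq (mkCand gP gJ) finish) (L := L)
    hP hF hS hst x9 cF (by rw [x41, x11, ← hn]; omega)
    (fun _ => aF.2.mono (by omega)) (fun _ => dead.2)
  have t2 := tryF_spec (acc := appB true) (rej := tryF gP decS gF (appB false)
    (seq (mkCand gP gJ) finish)) (L := L) hP hT hS hst x9 cT (by rw [x41, x11, ← hn]; omega)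
    (fun _ => aT.2.mono (by omega)) (fun _ => t3.2)
  have t1 := tryF_spec (acc := seq fv finish) (rej := tryF gP decS gT (appB true)
    (tryF gP decS gF (appB false) (seq (mkCand gP gJ) finish))) (L := L) hP hE hS hst x9 cE
    (by rw [x41, x11, ← hn]; omega) (fun _ => aEnd.2) (fun _ => t2.2)
  refine ⟨?_, t1.2⟩
  rw [stepBody, t1.1, t2.1, t3.1, aEnd.1, aT.1, aF.1, dead.1]
  simp only [sstep]
  by_cases c1 : χ (endF Cn ψ X).code = true
  · simp only [c1, if_true]
    funext x
    by_cases q1 : x = 43
    · subst q1; simp [enc]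
    · by_cases q2 : x = 42
      · subst q2; simp [enc]
      · simp [ht, enc, q1, q2]
  · simp only [c1, Bool.false_eq_true, if_false]
    by_cases c2 : χ (bitF Cn ψ X true).code = true
    · simp only [c2, if_true]
      funext x
      by_cases q1 : x = 43
      · subst q1; simp [ht, enc]
      · by_cases q2 : x = 42
        · subst q2; simp [ht, enc]
        · by_cases q3 : x = 11
          · subst q3; simp [enc]
          · simp [ht, enc, q1, q2, q3]
    · simp only [c2, Bool.false_eq_true, if_false]
      by_cases c3 : χ (bitF Cn ψ X false).code = true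
      · simp only [c3, if_true]
        funext x
        by_cases q1 : x = 43
        · subst q1; simp [ht, enc]
        · by_cases q2 : x = 42
          · subst q2; simp [ht, enc]
          · by_cases q3 : x = 11
            · subst q3; simp [enc]
            · simp [ht, enc, q1, q2, q3]
      · simp only [c3, Bool.false_eq_true, if_false]
        funext x
        by_cases q1 : x = 43
        · subst q1; simp [enc]
        · by_cases q2 : x = 42
          · subst q2; simp [enc]
          · simp [ht, enc, q1, q2]

theorem enc_update44 (s : St) (l : List Bool) (p : List Bool × Option (List Bool)) :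
    enc (update s 44 l) p = update (enc s p) 44 l := by
  funext x
  by_cases q : x = 44
  · subst q; simp [enc]
  · simp only [enc]
    by_cases q1 : x = 43
    · subst q1; simp
    · by_cases q2 : x = 42
      · subst q2; simp
      · by_cases q3 : x = 11
        · subst q3; simp
        · simp [q, q1, q2, q3]

theorem stepLoop_spec {Cn j : ℕ} {gP gE gT gF gJ decS fv : Cmd} {TP TE TT TF TJ TS : ℕ → ℕ}
    {χ : List Bool → Bool} {f : List Bool → List Bool} {Lf : ℕ → ℕ} {clJ : ℕ → List ACls}
    (hP : PrefSpec Cn gP TP) (hE : AddSpec endC gE TE) (hT : AddSpec (bitC true) gT TT)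
    (hF : AddSpec (bitC false) gF TF) (hJ : AddSpec clJ gJ TJ)
    (hclJ : (j = 0 ∧ clJ = endC) ∨ (j = 1 ∧ clJ = bitC true) ∨ (j = 2 ∧ clJ = bitC false))
    (hS : DecSpec (fun x : List Bool => x) χ decS TS)
    (hfv : ∀ s : St, Scr s → s 9 = [] → s 10 = [] → fv.eval s = update s 9 (f (s 11)) ∧
      fv.LB (Lf (s 11).length) s ∧ (f (s 11)).length ≤ Lf (s 11).length)
    {ψ : BForm} {s : St} (hs : Scr s) (h9 : s 9 = []) (h10 : s 10 = []) (h41 : s 41 = ψ.code)
    (r0 : Option (List Bool)) {L : ℕ} (hl : (s 44).length ≤ L)
    (hL : ∀ n ≤ (s 44).length, Tstep TP TE TT TF TJ TS Lf Cn ψ.code.length n ≤ L) :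
    (loop 44 (stepC gP gE gT gF decS fv gJ) (stepC gP gE gT gF decS fv gJ)).eval
      (enc s ([], r0)) =
      update (enc s ((sstep χ f Cn ψ j)^[(s 44).length] ([], r0))) 44 [] ∧
    (loop 44 (stepC gP gE gT gF decS fv gJ) (stepC gP gE gT gF decS fv gJ)).LB L
      (enc s ([], r0)) := by
  set step := stepC gP gE gT gF decS fv gJ with hstep
  have x44 : (enc s ([], r0)) 44 = s 44 := by simp [enc]
  have key := loop_rule (L := L) (r := 44) (c0 := step) (c1 := step) (s := enc s ([], r0))
    (fun i => update (enc s ((sstep χ f Cn ψ j)^[i] ([], r0))) 44 ((s 44).drop i))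
    (by
      simp only [iterate_zero, id_eq, List.drop_zero]
      rw [← x44, update_eq_self])
    (by
      intro i b hb
      rw [x44] at hb ⊢
      have hlt : i < (s 44).length := by
        rw [List.getElem?_eq_some_iff] at hb; exact hb.1
      have hst : (if b = true then step else step) = step := by cases b <;> rfl
      rw [hst, update_idem, ← enc_update44]
      have hlen : ((sstep χ f Cn ψ j)^[i] ([], r0)).1.length ≤ i := by
        simpa using sstep_iter_length χ f Cn ψ j i ([], r0)
      have sp := step_spec (s := update s 44 ((s 44).drop (i + 1))) hP hE hT hF hJ hclJ hS hfv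
        (ψ := ψ) (by
          intro r hr
          rw [update_of_ne (by omega)]
          exact hs r hr) (by simpa using h9) (by simpa using h10) (by simpa using h41)
        ((sstep χ f Cn ψ j)^[i] ([], r0)) (hL _ (by omega))
      refine ⟨?_, sp.2⟩
      rw [sp.1, enc_update44, ← iterate_succ_apply' (sstep χ f Cn ψ j)])
    (by rw [x44]; exact hl)
  rw [x44] at key
  refine ⟨?_, key.2⟩
  rw [key.1, List.drop_length]

end Cmd

end Pool.Agent.Helper72
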