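import Pool.Agent.Helper72.CodeLen

/-!
The program computing the tableau formula of a verifier on a given word, and the program
accepting the words `z` that are accepted by the verifier but whose formula is rejected by
the decision procedure for `S`.
-/

namespace Pool.Agent.Helper72

open Function

/-- the reduction: code of the tableau formula for the fixed word `X` -/
def fVal (P : List Instr) (k acc : ℕ) (BV : ℕ → ℕ) (X : List Bool) : List Bool :=
  (endF (nCh P k) (tabF P k acc (BV X.length)) X).code

namespace Cmd

def fVc (cB gT gP gE : Cmd) : Cmd := seq cB (seq gT (seq gP (seq gE (clear 10))))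

/-- loop bound for `fVc`; it also bounds the length of the result -/
def TfV (BV TB TG TP TE : ℕ → ℕ) (Cn n : ℕ) : ℕ :=
  TB n + TG (BV n) + TP n + TE (n * Cn) + BV n + n * (24 + 3 * (n * Cn + 1)) +
    2 * (24 + 3 * (n * Cn + 1))

theorem fV_spec {P : List Instr} {k acc : ℕ} {BV TB TG TP TE : ℕ → ℕ} {cB gT gP gE : Cmd}
    (hB : PolySpec BV 11 10 cB TB) (hG : GenSpec P k acc gT TG)
    (hP : PrefSpec (nCh P k) gP TP) (hE : AddSpec endC gE TE)
    {s : St} (hs : Scr s) (h9 : s 9 = []) (h10 : s 10 = []) :
    (fVc cB gT gP gE).eval s = update s 9 (fVal P k acc BV (s 11)) ∧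
    (fVc cB gT gP gE).LB (TfV BV TB TG TP TE (nCh P k) (s 11).length) s ∧
    (fVal P k acc BV (s 11)).length ≤ TfV BV TB TG TP TE (nCh P k) (s 11).length := by
  set n := (s 11).length with hn
  set Cn := nCh P k with hCn
  obtain ⟨e1, l1⟩ := hB.spec s (hs 35 (by omega)) (hs 36 (by omega)) (hs 37 (by omega))
  rw [h10, List.append_nil] at e1
  obtain ⟨e2, l2⟩ := hG.spec (BV n) (update s 10 (un (BV n))) (by simpa using h9) (by simp)
    (fun r h1 h2 => by rw [update_of_ne (by omega)]; exact hs r (by omega))
  obtain ⟨e3, l3⟩ := hP.spec (update (update s 10 (un (BV n))) 9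
    (tabF P k acc (BV n)).code)
    (fun r h1 h2 => by
      rw [update_of_ne (by omega), update_of_ne (by omega)]; exact hs r (by omega))
  have x11 : (update (update s 10 (un (BV n))) 9 (tabF P k acc (BV n)).code) 11 = s 11 := by
    simp
  have x9 : (update (update s 10 (un (BV n))) 9 (tabF P k acc (BV n)).code) 9 =
    (tabF P k acc (BV n)).code := by simp
  rw [x11, x9, update_idem] at e3
  rw [x11] at l3
  obtain ⟨e4, l4⟩ := hE.spec (n * Cn) (update (update (update s 10 (un (BV n))) 9
    (addCode (prefC Cn 0 (s 11)) (tabF P k acc (BV n)).code)) 13 (un (n * Cn)))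
    (by simp) (fun r h1 h2 => by
      rw [update_of_ne (by omega), update_of_ne (by omega), update_of_ne (by omega)]
      exact hs r (by omega))
  have hval : fVal P k acc BV (s 11) =
      addCode (endC (n * Cn)) (addCode (prefC Cn 0 (s 11)) (tabF P k acc (BV n)).code) := by
    rw [addCode_code, addCode_code]; rfl
  have hfin : (clear 10).eval (update (update (update (update (update s 10 (un (BV n))) 9
      (addCode (prefC Cn 0 (s 11)) (tabF P k acc (BV n)).code)) 13 (un (n * Cn))) 9
      (addCode (endC (n * Cn)) ((update (update (update s 10 (un (BV n))) 9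
      (addCode (prefC Cn 0 (s 11)) (tabF P k acc (BV n)).code)) 13 (un (n * Cn))) 9))) 13 [])
      = update s 9 (fVal P k acc BV (s 11)) := by
    rw [eval_clear, hval]
    funext x
    by_cases q1 : x = 10
    · subst q1; simp [h10]
    · by_cases q2 : x = 13
      · subst q2; simp [hs 13 (by omega)]
      · by_cases q3 : x = 9
        · subst q3; simp
        · simp [q1, q2, q3]
  refine ⟨?_, ?_, ?_⟩
  · rw [fVc, eval_seq, eval_seq, eval_seq, eval_seq, e1, e2, e3, e4, hfin]
  · rw [fVc, LB_seq, LB_seq, LB_seq, LB_seq, e1, e2, e3, e4]
    refine ⟨l1.mono ?_, l2.mono ?_, l3.mono ?_, l4.mono ?_, LB_clear ?_⟩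
    · simp only [TfV, ← hn]; omega
    · simp only [TfV]; omega
    · simp only [TfV, ← hn]; omega
    · simp only [TfV]; omega
    · rw [update_of_ne (by norm_num), update_of_ne (by norm_num), update_of_ne (by norm_num),
        update_of_ne (by norm_num), update_self]
      simp only [TfV, List.length_replicate]
      omega
  · rw [hval]
    have a1 := length_end (n * Cn) (addCode (prefC Cn 0 (s 11)) (tabF P k acc (BV n)).code)
    have a2 := length_pref Cn (s 11) (tabF P k acc (BV n)).code
    have a3 := hG.len (BV n)
    rw [← hn] at a2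
    simp only [TfV]
    omega

/-- `W`: run the verifier, compute the formula, run the decider, combine -/
def Wc (pv fv decS : Cmd) : Cmd :=
  seq pv (seq (copy 0 11 30) (seq fv (seq (mv 9 30) (seq (mv 30 100) (seq decS
    (seq (ite 100 nop nop (clear 2)) (seq (clear 100) (clear 11))))))))

theorem W_spec {pv fv decS : Cmd} {χ : List Bool → Bool} {TS : ℕ → ℕ}
    (hS : DecSpec (fun x : List Bool => x) χ decS TS) {f : List Bool → List Bool} {a : Bool}
    {L Lf : ℕ} {s : St} (hs : Scr s) (h9 : s 9 = []) (h10 : s 10 = []) (h11 : s 11 = [])
    (hpv : pv.eval s = update s 2 (flag a)) (lpv : pv.LB L s)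
    (hfv : ∀ s' : St, Scr s' → s' 9 = [] → s' 10 = [] → s' 11 = s 0 →
      fv.eval s' = update s' 9 (f (s' 11)) ∧ fv.LB Lf s' ∧ (f (s' 11)).length ≤ Lf) :
    (Wc pv fv decS).eval s = update s 2 (flag (a && !(χ (f (s 0))))) ∧
    (Wc pv fv decS).LB (L + (s 0).length + Lf + TS Lf + 1) s := by
  have h30 := hs 30 (by omega)
  have h100 := hs 100 (by omega)
  have hscr : Scr (update (update s 2 (flag a)) 11 (s 0)) := by
    intro r hr
    rw [update_of_ne (by omega), update_of_ne (by omega)]
    exact hs r hr
  -- copy
  have e2 : (copy 0 11 30).eval (update s 2 (flag a)) =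
      update (update s 2 (flag a)) 11 (s 0) := by
    rw [eval_copy (by norm_num) (by norm_num) (by norm_num) (by simpa using h30)]
    simp [h11]
  obtain ⟨e3, l3, len3⟩ := hfv _ hscr (by simpa using h9) (by simpa using h10) (by simp)
  have x11 : (update (update s 2 (flag a)) 11 (s 0)) 11 = s 0 := by simp
  rw [x11] at e3 len3
  set F := f (s 0) with hF
  have e4 : (mv 9 30).eval (update (update (update s 2 (flag a)) 11 (s 0)) 9 F) =
      update (update (update s 2 (flag a)) 11 (s 0)) 30 F.reverse := by
    rw [eval_mv (by norm_num)]
    funext x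
    by_cases q1 : x = 30
    · subst q1; simp [h30]
    · by_cases q2 : x = 9
      · subst q2; simp [h9]
      · simp [q1, q2]
  have e5 : (mv 30 100).eval (update (update (update s 2 (flag a)) 11 (s 0)) 30 F.reverse) =
      update (update (update s 2 (flag a)) 11 (s 0)) 100 F := by
    rw [eval_mv (by norm_num)]
    funext x
    by_cases q1 : x = 100
    · subst q1; simp [h100]
    · by_cases q2 : x = 30
      · subst q2; simp [h30]
      · simp [q1, q2]
  obtain ⟨l6, e6⟩ := hS.spec F (update (update (update s 2 (flag a)) 11 (s 0)) 100 F)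
    (by
      intro r hr
      rw [update_of_ne (by omega), update_of_ne (by omega), update_of_ne (by omega)]
      exact hs r (by omega)) (by simp)
  rw [update_idem] at e6
  set b := χ F with hb
  have e7 : (ite 100 nop nop (clear 2)).eval
      (update (update (update s 2 (flag a)) 11 (s 0)) 100 (flag b)) =
      update (update (update s 2 (flag (a && !b))) 11 (s 0)) 100 (flag b) := by
    cases hbc : b
    · have y : (update (update (update s 2 (flag a)) 11 (s 0)) 100 (flag false)) 100 = [] := by
        simp
      simp only [eval, y, Bool.not_false, Bool.and_true]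
    · have y : (update (update (update s 2 (flag a)) 11 (s 0)) 100 (flag true)) 100
          = [true] := by simp
      simp only [eval, y, Bool.not_true, Bool.and_false]
      rw [eval_clear]
      funext x
      by_cases q1 : x = 2
      · subst q1; simp
      · simp only [update_of_ne q1]
        by_cases q2 : x = 100
        · subst q2; simp
        · by_cases q3 : x = 11
          · subst q3; simp
          · simp [q1, q2, q3]
  have e9 : (clear 11).eval ((clear 100).eval
      (update (update (update s 2 (flag (a && !b))) 11 (s 0)) 100 (flag b))) =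
      update s 2 (flag (a && !b)) := by
    rw [eval_clear, eval_clear]
    funext x
    by_cases q1 : x = 11
    · subst q1; simp [h11]
    · by_cases q2 : x = 100
      · subst q2; simp [h100]
      · by_cases q3 : x = 2
        · subst q3; simp
        · simp [q1, q2, q3]
  constructor
  · rw [Wc, eval_seq, eval_seq, eval_seq, eval_seq, eval_seq, eval_seq, eval_seq, eval_seq,
      hpv, e2, e3, e4, e5, e6, e7, e9]
  · rw [Wc, LB_seq, LB_seq, LB_seq, LB_seq, LB_seq, LB_seq, LB_seq, LB_seq,
      hpv, e2, e3, e4, e5, e6, e7]
    have hTS : TS F.length ≤ TS Lf := hS.mono len3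
    refine ⟨lpv.mono (by omega), ?_, l3.mono (by omega), ?_, ?_, ?_, ?_, ?_, ?_⟩
    · apply LB_copy (by norm_num) (by norm_num) (by norm_num) (by simpa using h30)
      simp; omega
    · apply LB_mv (by norm_num)
      simp; omega
    · apply LB_mv (by norm_num)
      simp; omega
    · exact l6.mono (by omega)
    · simp only [LB]
      split <;> [trivial; trivial; skip]
      apply LB_clear
      have : (flag a).length ≤ 1 := by cases a <;> simp [flag]
      rw [update_of_ne (by norm_num), update_of_ne (by norm_num), update_self]
      omega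
    · apply LB_clear
      have : (flag b).length ≤ 1 := by cases b <;> simp [flag]
      simp only [update_self]
      omega
    · apply LB_clear
      rw [eval_clear]
      simp; omega

end Cmd

end Pool.Agent.Helper72
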