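import Pool.Agent.Helper72.Inst
import Pool.Agent.Helper73.GenProg.Run

/-!
Explicit register states with named fields, and runs of basic programs on them.
-/

namespace Pool.Agent.Helper72

open Function Pool.Agent.Helper73.GenProg

/-- contents of the registers in use; all other registers are empty -/
structure Rg where
  a0 : List Bool := []
  a1 : List Bool := []
  a2 : List Bool := []
  a9 : List Bool := []
  a10 : List Bool := []
  a11 : List Bool := []
  a12 : List Bool := []
  a13 : List Bool := []
  a30 : List Bool := []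
  a41 : List Bool := []
  a42 : List Bool := []
  a43 : List Bool := []
  a44 : List Bool := []
  a46 : List Bool := []
  a50 : List Bool := []
  a51 : List Bool := []
  a52 : List Bool := []
  a53 : List Bool := []
  a100 : List Bool := []

/-- the state described by the record -/
def Rg.st (g : Rg) : St := fun x =>
  if x = 0 then g.a0
  else if x = 1 then g.a1
  else if x = 2 then g.a2
  else if x = 9 then g.a9
  else if x = 10 then g.a10
  else if x = 11 then g.a11
  else if x = 12 then g.a12
  else if x = 13 then g.a13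
  else if x = 30 then g.a30
  else if x = 41 then g.a41
  else if x = 42 then g.a42
  else if x = 43 then g.a43
  else if x = 44 then g.a44
  else if x = 46 then g.a46
  else if x = 50 then g.a50
  else if x = 51 then g.a51
  else if x = 52 then g.a52
  else if x = 53 then g.a53
  else if x = 100 then g.a100
  else []

@[simp] theorem Rg.get0 (g : Rg) : g.st 0 = g.a0 := rfl
@[simp] theorem Rg.get1 (g : Rg) : g.st 1 = g.a1 := rfl
@[simp] theorem Rg.get2 (g : Rg) : g.st 2 = g.a2 := rfl
@[simp] theorem Rg.get9 (g : Rg) : g.st 9 = g.a9 := rfl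
@[simp] theorem Rg.get10 (g : Rg) : g.st 10 = g.a10 := rfl
@[simp] theorem Rg.get11 (g : Rg) : g.st 11 = g.a11 := rfl
@[simp] theorem Rg.get12 (g : Rg) : g.st 12 = g.a12 := rfl
@[simp] theorem Rg.get13 (g : Rg) : g.st 13 = g.a13 := rfl
@[simp] theorem Rg.get30 (g : Rg) : g.st 30 = g.a30 := rfl
@[simp] theorem Rg.get41 (g : Rg) : g.st 41 = g.a41 := rfl
@[simp] theorem Rg.get42 (g : Rg) : g.st 42 = g.a42 := rfl
@[simp] theorem Rg.get43 (g : Rg) : g.st 43 = g.a43 := rfl
@[simp] theorem Rg.get44 (g : Rg) : g.st 44 = g.a44 := rfl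
@[simp] theorem Rg.get46 (g : Rg) : g.st 46 = g.a46 := rfl
@[simp] theorem Rg.get50 (g : Rg) : g.st 50 = g.a50 := rfl
@[simp] theorem Rg.get51 (g : Rg) : g.st 51 = g.a51 := rfl
@[simp] theorem Rg.get52 (g : Rg) : g.st 52 = g.a52 := rfl
@[simp] theorem Rg.get53 (g : Rg) : g.st 53 = g.a53 := rfl
@[simp] theorem Rg.get100 (g : Rg) : g.st 100 = g.a100 := rfl

@[simp] theorem Rg.upd0 (g : Rg) (v : List Bool) :
    update g.st 0 v = { g with a0 := v }.st := by
  funext x
  by_cases h : x = 0
  · subst h; rw [update_self]; rfl
  · rw [update_of_ne h]; simp only [Rg.st, h, if_false]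

@[simp] theorem Rg.upd1 (g : Rg) (v : List Bool) :
    update g.st 1 v = { g with a1 := v }.st := by
  funext x
  by_cases h : x = 1
  · subst h; rw [update_self]; rfl
  · rw [update_of_ne h]; simp only [Rg.st, h, if_false]

@[simp] theorem Rg.upd2 (g : Rg) (v : List Bool) :
    update g.st 2 v = { g with a2 := v }.st := by
  funext x
  by_cases h : x = 2
  · subst h; rw [update_self]; rfl
  · rw [update_of_ne h]; simp only [Rg.st, h, if_false]

@[simp] theorem Rg.upd9 (g : Rg) (v : List Bool) :
    update g.st 9 v = { g with a9 := v }.st := by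
  funext x
  by_cases h : x = 9
  · subst h; rw [update_self]; rfl
  · rw [update_of_ne h]; simp only [Rg.st, h, if_false]

@[simp] theorem Rg.upd10 (g : Rg) (v : List Bool) :
    update g.st 10 v = { g with a10 := v }.st := by
  funext x
  by_cases h : x = 10
  · subst h; rw [update_self]; rfl
  · rw [update_of_ne h]; simp only [Rg.st, h, if_false]

@[simp] theorem Rg.upd11 (g : Rg) (v : List Bool) :
    update g.st 11 v = { g with a11 := v }.st := by
  funext x
  by_cases h : x = 11
  · subst h; rw [update_self]; rfl
  · rw [update_of_ne h]; simp only [Rg.st, h, if_false]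

@[simp] theorem Rg.upd12 (g : Rg) (v : List Bool) :
    update g.st 12 v = { g with a12 := v }.st := by
  funext x
  by_cases h : x = 12
  · subst h; rw [update_self]; rfl
  · rw [update_of_ne h]; simp only [Rg.st, h, if_false]

@[simp] theorem Rg.upd13 (g : Rg) (v : List Bool) :
    update g.st 13 v = { g with a13 := v }.st := by
  funext x
  by_cases h : x = 13
  · subst h; rw [update_self]; rfl
  · rw [update_of_ne h]; simp only [Rg.st, h, if_false]

@[simp] theorem Rg.upd30 (g : Rg) (v : List Bool) :
    update g.st 30 v = { g with a30 := v }.st := by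
  funext x
  by_cases h : x = 30
  · subst h; rw [update_self]; rfl
  · rw [update_of_ne h]; simp only [Rg.st, h, if_false]

@[simp] theorem Rg.upd41 (g : Rg) (v : List Bool) :
    update g.st 41 v = { g with a41 := v }.st := by
  funext x
  by_cases h : x = 41
  · subst h; rw [update_self]; rfl
  · rw [update_of_ne h]; simp only [Rg.st, h, if_false]

@[simp] theorem Rg.upd42 (g : Rg) (v : List Bool) :
    update g.st 42 v = { g with a42 := v }.st := by
  funext x
  by_cases h : x = 42
  · subst h; rw [update_self]; rfl
  · rw [update_of_ne h]; simp only [Rg.st, h, if_false]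

@[simp] theorem Rg.upd43 (g : Rg) (v : List Bool) :
    update g.st 43 v = { g with a43 := v }.st := by
  funext x
  by_cases h : x = 43
  · subst h; rw [update_self]; rfl
  · rw [update_of_ne h]; simp only [Rg.st, h, if_false]

@[simp] theorem Rg.upd44 (g : Rg) (v : List Bool) :
    update g.st 44 v = { g with a44 := v }.st := by
  funext x
  by_cases h : x = 44
  · subst h; rw [update_self]; rfl
  · rw [update_of_ne h]; simp only [Rg.st, h, if_false]

@[simp] theorem Rg.upd46 (g : Rg) (v : List Bool) :
    update g.st 46 v = { g with a46 := v }.st := by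
  funext x
  by_cases h : x = 46
  · subst h; rw [update_self]; rfl
  · rw [update_of_ne h]; simp only [Rg.st, h, if_false]

@[simp] theorem Rg.upd50 (g : Rg) (v : List Bool) :
    update g.st 50 v = { g with a50 := v }.st := by
  funext x
  by_cases h : x = 50
  · subst h; rw [update_self]; rfl
  · rw [update_of_ne h]; simp only [Rg.st, h, if_false]

@[simp] theorem Rg.upd51 (g : Rg) (v : List Bool) :
    update g.st 51 v = { g with a51 := v }.st := by
  funext x
  by_cases h : x = 51
  · subst h; rw [update_self]; rfl
  · rw [update_of_ne h]; simp only [Rg.st, h, if_false]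

@[simp] theorem Rg.upd52 (g : Rg) (v : List Bool) :
    update g.st 52 v = { g with a52 := v }.st := by
  funext x
  by_cases h : x = 52
  · subst h; rw [update_self]; rfl
  · rw [update_of_ne h]; simp only [Rg.st, h, if_false]

@[simp] theorem Rg.upd53 (g : Rg) (v : List Bool) :
    update g.st 53 v = { g with a53 := v }.st := by
  funext x
  by_cases h : x = 53
  · subst h; rw [update_self]; rfl
  · rw [update_of_ne h]; simp only [Rg.st, h, if_false]

@[simp] theorem Rg.upd100 (g : Rg) (v : List Bool) :
    update g.st 100 v = { g with a100 := v }.st := by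
  funext x
  by_cases h : x = 100
  · subst h; rw [update_self]; rfl
  · rw [update_of_ne h]; simp only [Rg.st, h, if_false]

theorem Rg.other (g : Rg) {x : ℕ} (h : x ∉ ([0, 1, 2, 9, 10, 11, 12, 13, 30, 41, 42, 43, 44, 46, 50, 51, 52, 53, 100] : List ℕ)) :
    g.st x = [] := by
  simp only [List.mem_cons, List.not_mem_nil, or_false, not_or] at h
  obtain ⟨h0, h1, h2, h9, h10, h11, h12, h13, h30, h41, h42, h43, h44, h46, h50, h51, h52, h53, h100⟩ := h
  simp only [Rg.st, h0, h1, h2, h9, h10, h11, h12, h13, h30, h41, h42, h43, h44, h46, h50, h51, h52, h53, h100, if_false]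

theorem Rg.scr {g : Rg} (h13 : g.a13 = []) (h30 : g.a30 = []) (h100 : g.a100 = []) :
    Scr g.st := by
  intro r hr
  by_cases q1 : r = 13
  · subst q1; exact h13
  by_cases q2 : r = 30
  · subst q2; exact h30
  by_cases q3 : r = 100
  · subst q3; exact h100
  apply Rg.other
  simp only [List.mem_cons, List.not_mem_nil, or_false, not_or]
  omega

/-! ### basic runs -/

/-- move the content of `a` to the top of `b` through register 30 -/
def Cmd.mm (a b : ℕ) : Cmd := .seq (.mv a 30) (.mv 30 b)

theorem run_mm {L a b : ℕ} (ha : a ≠ 30) (hb : b ≠ 30) (hab : a ≠ b) {s : St} (h30 : s 30 = [])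
    (h : (s a).length ≤ L) : Run L (Cmd.mm a b) s (update (update s a []) b (s a ++ s b)) := by
  refine Run.seq (run_mv ha h) ?_
  refine Run.congr (run_mv hb.symm ?_) rfl ?_
  · rw [update_self, h30, List.append_nil, List.length_reverse]; exact h
  · funext x
    by_cases q1 : x = b
    · subst q1
      rw [update_self, update_self, update_self, h30, List.append_nil, List.reverse_reverse,
        update_of_ne hb, update_of_ne hab.symm]
    · by_cases q2 : x = 30
      · subst q2
        rw [update_of_ne q1, update_self, update_of_ne q1, update_of_ne ha.symm, h30]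
      · rw [update_of_ne q1, update_of_ne q2, update_of_ne q2, update_of_ne q1]

theorem run_copy {L a b : ℕ} (ha : a ≠ 30) (hb : b ≠ 30) (hab : a ≠ b) {s : St}
    (h30 : s 30 = []) (h : (s a).length ≤ L) :
    Run L (Cmd.copy a b 30) s (update s b (s a ++ s b)) :=
  ⟨Cmd.eval_copy hab ha hb h30, Cmd.LB_copy hab ha hb h30 h⟩

theorem run_ite_nil {L r : ℕ} {c0 c1 c2 : Cmd} {s s' : St} (h : s r = [])
    (h' : Run L c0 s s') : Run L (.ite r c0 c1 c2) s s' := by
  refine ⟨?_, ?_⟩
  · simp only [Cmd.eval, h]; exact h'.1
  · simp only [Cmd.LB, h]; exact h'.2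

theorem run_ite_false {L r : ℕ} {c0 c1 c2 : Cmd} {s s' : St} {t : List Bool}
    (h : s r = false :: t) (h' : Run L c1 s s') : Run L (.ite r c0 c1 c2) s s' := by
  refine ⟨?_, ?_⟩
  · simp only [Cmd.eval, h]; exact h'.1
  · simp only [Cmd.LB, h]; exact h'.2

theorem run_ite_true {L r : ℕ} {c0 c1 c2 : Cmd} {s s' : St} {t : List Bool}
    (h : s r = true :: t) (h' : Run L c2 s s') : Run L (.ite r c0 c1 c2) s s' := by
  refine ⟨?_, ?_⟩
  · simp only [Cmd.eval, h]; exact h'.1
  · simp only [Cmd.LB, h]; exact h'.2

theorem ok_mm {a b : ℕ} (ha : a ≠ 30) (hb : b ≠ 30) : (Cmd.mm a b).ok = true := by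
  simp [Cmd.mm, Cmd.ok, Cmd.ok_mv, ha, hb.symm]

theorem wr_mm {a b x : ℕ} (ha : x ≠ a) (hb : x ≠ b) (h30 : x ≠ 30) :
    (Cmd.mm a b).wr x = false := by
  simp [Cmd.mm, Cmd.wr, Cmd.mv, ha, hb, h30]

end Pool.Agent.Helper72
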