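import Pool.Agent.Helper72.Gen

/-!
Completeness of the tableau, and the specification of the tableau formula.
-/

namespace Pool.Agent.Helper72

open Function

/-! ### completeness for the three-index table -/

/-- the canonical table of a run -/
def canV (k : ℕ) (run : ℕ → ℕ × St) (t h c : ℕ) : Bool :=
  if c < 2 * k then decide (((run t).2 (c / 2))[h]? = some (decide (c % 2 = 1)))
  else decide ((run t).1 = c - 2 * k)

theorem canV_cell {k : ℕ} (run : ℕ → ℕ × St) (t h : ℕ) {r : ℕ} (hr : r < k) (b : Bool) :
    canV k run t h (2 * r + b.toNat) = decide (((run t).2 r)[h]? = some b) := by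
  have h1 : 2 * r + b.toNat < 2 * k := by cases b <;> simp only [Bool.toNat_false, Bool.toNat_true] <;> omega
  have h2 : (2 * r + b.toNat) / 2 = r := by
    cases b
    · simp
    · simp; omega
  have h3 : decide ((2 * r + b.toNat) % 2 = 1) = b := by cases b <;> simp [Nat.add_mod]
  rw [canV, if_pos h1, h2, h3]

theorem canV_pc {k : ℕ} (run : ℕ → ℕ × St) (t h q : ℕ) :
    canV k run t h (2 * k + q) = decide ((run t).1 = q) := by
  rw [canV, if_neg (by omega)]
  congr 2
  omega

theorem tab_complete {P : List Instr} {k acc B : ℕ} (hreg : ∀ i ∈ P, i.reg < k)
    (hacc : acc < k) (z w : List Bool)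
    (hlen : ∀ t ≤ B, ∀ r, (((fstep P)^[t] (0, init2 z w)).2 r).length ≤ B)
    (hpc : ((fstep P)^[B] (0, init2 z w)).1 = P.length)
    (hac : (((fstep P)^[B] (0, init2 z w)).2 acc)[0]? = some true) :
    TabSat P k acc B (canV k (fun t => (fstep P)^[t] (0, init2 z w))) := by
  set run : ℕ → ℕ × St := fun t => (fstep P)^[t] (0, init2 z w) with hrun
  have hstep : ∀ t, run (t + 1) = fstep P (run t) := fun t => iterate_succ_apply' _ _ _
  have f0 : false.toNat = 0 := rfl
  have f1 : true.toNat = 1 := rfl
  refine ⟨?_, ?_, ?_, ?_, ?_, ?_⟩
  · -- edge
    intro t ht C hC
    simp only [edgeT, List.mem_flatMap, List.mem_range] at hC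
    obtain ⟨q, hq, hC⟩ := hC
    by_cases hpq : (run t).1 = q
    · have hst := hstep t
      rcases hins : P[q]? with _ | ins
      · simp only [edgeTq, hins, List.mem_cons, List.not_mem_nil, or_false] at hC
        subst hC
        refine ⟨⟨true, true, false, 2 * k + q⟩, by simp, ?_⟩
        rw [canV_pc]
        simp only [f1, hst, fstep, hpq, hins, decide_true]
      · have hmem := List.mem_of_getElem? hins
        have hrg := hreg _ hmem
        have hfs : fstep P (run t) = ins.exec (run t).2 := by
          simp only [fstep, hpq, hins]
        rw [hfs] at hst
        cases ins with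
        | push r b n =>
          simp only [Instr.reg] at hrg
          simp only [edgeTq, hins, List.mem_cons, List.not_mem_nil, or_false] at hC
          simp only [Instr.exec] at hst
          rcases hC with rfl | rfl | rfl
          · refine ⟨⟨true, true, false, 2 * r + b.toNat⟩, by simp, ?_⟩
            simp only [canV_cell _ _ _ hrg, f1, f0, add_zero, hst, update_self]
            simp
          · refine ⟨⟨false, true, false, 2 * r + (!b).toNat⟩, by simp, ?_⟩
            simp only [canV_cell _ _ _ hrg, f1, f0, add_zero, hst, update_self]
            simp
          · refine ⟨⟨true, true, false, 2 * k + n⟩, by simp, ?_⟩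
            simp only [canV_pc, f1, hst, decide_true]
        | pop r n =>
          simp only [edgeTq, hins, List.mem_cons, List.not_mem_nil, or_false] at hC
          simp only [Instr.exec] at hst
          subst hC
          refine ⟨⟨true, true, false, 2 * k + n⟩, by simp, ?_⟩
          simp only [canV_pc, f1, hst, decide_true]
        | test r n0 n1 n2 =>
          simp only [Instr.reg] at hrg
          simp only [edgeTq, hins, List.mem_cons, List.not_mem_nil, or_false] at hC
          simp only [Instr.exec] at hst
          rcases hl : (run t).2 r with _ | ⟨_ | _, l⟩ <;> simp only [hl] at hst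
          · rcases hC with rfl | rfl | rfl
            · refine ⟨⟨true, true, false, 2 * k + n0⟩, by simp, ?_⟩
              simp only [canV_pc, f1, hst, decide_true]
            · refine ⟨⟨false, false, false, 2 * r + false.toNat⟩, by simp, ?_⟩
              refine (canV_cell run _ _ hrg _).trans ?_
              simp [hl]
            · refine ⟨⟨false, false, false, 2 * r + true.toNat⟩, by simp, ?_⟩
              refine (canV_cell run _ _ hrg _).trans ?_
              simp [hl]
          · rcases hC with rfl | rfl | rfl
            · refine ⟨⟨true, false, false, 2 * r + false.toNat⟩, by simp, ?_⟩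
              refine (canV_cell run _ _ hrg _).trans ?_
              simp [hl]
            · refine ⟨⟨true, true, false, 2 * k + n1⟩, by simp, ?_⟩
              simp only [canV_pc, f1, hst, decide_true]
            · refine ⟨⟨false, false, false, 2 * r + true.toNat⟩, by simp, ?_⟩
              refine (canV_cell run _ _ hrg _).trans ?_
              simp [hl]
          · rcases hC with rfl | rfl | rfl
            · refine ⟨⟨true, false, false, 2 * r + true.toNat⟩, by simp, ?_⟩
              refine (canV_cell run _ _ hrg _).trans ?_
              simp [hl]
            · refine ⟨⟨false, false, false, 2 * r + false.toNat⟩, by simp, ?_⟩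
              refine (canV_cell run _ _ hrg _).trans ?_
              simp [hl]
            · refine ⟨⟨true, true, false, 2 * k + n2⟩, by simp, ?_⟩
              simp only [canV_pc, f1, hst, decide_true]
    · -- the state literal is false
      have hneg : canV k run (t + (false : Bool).toNat) (0 + (false : Bool).toNat) (2 * k + q)
          = false := by
        rw [canV_pc]; simpa using hpq
      rcases hins : P[q]? with _ | ins
      · simp only [edgeTq, hins, List.mem_cons, List.not_mem_nil, or_false] at hC
        subst hC
        exact ⟨_, List.mem_cons_self, hneg⟩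
      · cases ins with
        | push r b n =>
          simp only [edgeTq, hins, List.mem_cons, List.not_mem_nil, or_false] at hC
          rcases hC with rfl | rfl | rfl <;> exact ⟨_, List.mem_cons_self, hneg⟩
        | pop r n =>
          simp only [edgeTq, hins, List.mem_cons, List.not_mem_nil, or_false] at hC
          subst hC
          exact ⟨_, List.mem_cons_self, hneg⟩
        | test r n0 n1 n2 =>
          simp only [edgeTq, hins, List.mem_cons, List.not_mem_nil, or_false] at hC
          rcases hC with rfl | rfl | rfl <;> exact ⟨_, List.mem_cons_self, hneg⟩
  · -- body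
    intro t ht h hh C hC
    simp only [bodyT, List.mem_flatMap, List.mem_range, List.mem_cons] at hC
    obtain ⟨q, hq, hC⟩ := hC
    by_cases hpq : (run t).1 = q
    · rcases hC with rfl | ⟨r, hr, hC⟩
      · refine ⟨⟨true, false, true, 2 * k + q⟩, by simp, ?_⟩
        simp only [canV_pc, f0, add_zero, hpq, decide_true]
      · have hkeep : ∀ b : Bool, canV k run (t + 1) (h + (isPush P q r).toNat)
            (2 * r + b.toNat) = canV k run t (h + (isPop P q r).toNat) (2 * r + b.toNat) := by
          intro b
          rw [canV_cell _ _ _ hr, canV_cell _ _ _ hr, hstep t]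
          congr 2
          rcases hins : P[q]? with _ | ins
          · simp [isPush, isPop, hins, fstep, hpq]
          · have hfs : fstep P (run t) = ins.exec (run t).2 := by
              simp only [fstep, hpq, hins]
            rw [hfs]
            cases ins with
            | push r0 b0 n =>
              simp only [Instr.exec, isPush, isPop, hins, f0, add_zero]
              by_cases hrr : r = r0
              · subst hrr; simp
              · rw [update_of_ne hrr, beq_eq_false_iff_ne.2 hrr]; rfl
            | pop r0 n =>
              simp only [Instr.exec, isPush, isPop, hins, f0, add_zero]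
              by_cases hrr : r = r0
              · subst hrr; simp
              · rw [update_of_ne hrr, beq_eq_false_iff_ne.2 hrr]; rfl
            | test r0 n0 n1 n2 =>
              simp only [Instr.exec, isPush, isPop, hins, f0, add_zero]
        simp only [keepT, List.mem_flatMap, List.mem_cons, List.not_mem_nil, or_false] at hC
        obtain ⟨b, -, hC⟩ := hC
        have hb := hkeep b
        rcases hC with rfl | rfl
        · rcases hv : canV k run t (h + (isPop P q r).toNat) (2 * r + b.toNat) with _ | _
          · exact ⟨⟨false, false, isPop P q r, 2 * r + b.toNat⟩, by simp, hv⟩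
          · refine ⟨⟨true, true, isPush P q r, 2 * r + b.toNat⟩, by simp, ?_⟩
            rw [hv] at hb; exact hb
        · rcases hv : canV k run t (h + (isPop P q r).toNat) (2 * r + b.toNat) with _ | _
          · refine ⟨⟨false, true, isPush P q r, 2 * r + b.toNat⟩, by simp, ?_⟩
            rw [hv] at hb; exact hb
          · exact ⟨⟨true, false, isPop P q r, 2 * r + b.toNat⟩, by simp, hv⟩
    · have hneg : canV k run (t + (false : Bool).toNat) (h + (false : Bool).toNat) (2 * k + q)
          = false := by
        rw [canV_pc]; simpa using hpq
      rcases hC with rfl | ⟨r, hr, hC⟩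
      · exact ⟨_, List.mem_cons_self, hneg⟩
      · simp only [keepT, List.mem_flatMap, List.mem_cons, List.not_mem_nil, or_false] at hC
        obtain ⟨b, -, rfl | rfl⟩ := hC
        · exact ⟨_, List.mem_cons_self, hneg⟩
        · exact ⟨_, List.mem_cons_self, hneg⟩
  · -- last
    intro t ht C hC
    simp only [lastT, List.mem_flatMap, List.mem_range, List.mem_cons, List.not_mem_nil,
      or_false] at hC
    obtain ⟨r, hr, b, -, hC⟩ := hC
    rcases hC with rfl | rfl
    · refine ⟨_, List.mem_cons_self, ?_⟩
      simp only [canV_cell _ _ _ hr, f0, add_zero]
      rw [List.getElem?_eq_none (hlen t (by omega) r)]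
      simp
    · refine ⟨_, List.mem_cons_self, ?_⟩
      simp only [canV_cell _ _ _ hr, f0, f1, add_zero]
      rw [List.getElem?_eq_none (hlen (t + 1) (by omega) r)]
      simp
  · -- fin
    intro C hC
    simp only [finT, List.mem_cons, List.mem_map, List.mem_range] at hC
    rcases hC with rfl | ⟨q, hq, rfl⟩
    · refine ⟨_, List.mem_cons_self, ?_⟩
      have := canV_cell run B 0 hacc true
      simp only [f0, add_zero]
      rw [this]
      simpa using hac
    · refine ⟨_, List.mem_cons_self, ?_⟩
      simp only [canV_pc, f0, add_zero, decide_eq_false_iff_not]
      rw [hpc]; omega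
  · -- init0
    intro C hC
    simp only [init0T, List.mem_cons, List.not_mem_nil, or_false] at hC
    subst hC
    refine ⟨_, List.mem_cons_self, ?_⟩
    refine (canV_pc run _ _ _).trans ?_
    simp [hrun]
  · -- initB
    intro h hh C hC
    simp only [initBT, List.mem_flatMap, List.mem_range] at hC
    obtain ⟨r, hr, hC⟩ := hC
    have hcell : ∀ h (b : Bool), canV k run (0 + (false : Bool).toNat) h (2 * r + b.toNat)
        = decide ((init2 z w r)[h]? = some b) := by
      intro h b
      simp only [f0, add_zero]
      rw [canV_cell _ _ _ hr]
      simp [hrun]
    split_ifs at hC with h2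
    · simp only [List.mem_cons, List.not_mem_nil, or_false] at hC
      rcases hC with rfl | rfl | rfl
      · rcases hv : (init2 z w r)[h]? with _ | b
        · refine ⟨_, List.mem_cons_self, ?_⟩
          rw [hcell]; simp [hv]
        · cases b
          · refine ⟨_, List.mem_cons_of_mem _ List.mem_cons_self, ?_⟩
            rw [hcell]; simp [hv]
          · refine ⟨_, List.mem_cons_self, ?_⟩
            rw [hcell]; simp [hv]
      · rcases hv : (init2 z w r)[h]? with _ | b
        · refine ⟨_, List.mem_cons_of_mem _ (List.mem_cons_of_mem _ List.mem_cons_self), ?_⟩
          rw [hcell]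
          have : (init2 z w r)[h + 1]? = none := by
            rw [List.getElem?_eq_none_iff] at hv ⊢; omega
          simp [this]
        · cases b
          · refine ⟨_, List.mem_cons_self, ?_⟩
            rw [hcell]; simp [hv]
          · refine ⟨_, List.mem_cons_of_mem _ List.mem_cons_self, ?_⟩
            rw [hcell]; simp [hv]
      · rcases hv : (init2 z w r)[h]? with _ | b
        · refine ⟨_, List.mem_cons_of_mem _ (List.mem_cons_of_mem _ List.mem_cons_self), ?_⟩
          rw [hcell]
          have : (init2 z w r)[h + 1]? = none := by
            rw [List.getElem?_eq_none_iff] at hv ⊢; omega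
          simp [this]
        · cases b
          · refine ⟨_, List.mem_cons_self, ?_⟩
            rw [hcell]; simp [hv]
          · refine ⟨_, List.mem_cons_of_mem _ List.mem_cons_self, ?_⟩
            rw [hcell]; simp [hv]
    · have h0 : init2 z w r = [] := by
        simp only [init2]
        rw [if_neg (by omega), if_neg (by omega)]
      simp only [List.mem_cons, List.not_mem_nil, or_false] at hC
      rcases hC with rfl | rfl
      · refine ⟨_, List.mem_cons_self, ?_⟩
        rw [hcell, h0]; simp
      · refine ⟨_, List.mem_cons_self, ?_⟩
        rw [hcell, h0]; simp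

end Pool.Agent.Helper72
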